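import Mathlib

set_option autoImplicit false

namespace Pool.Agent.H470D4

open Finset

variable {Z : Type*} [Fintype Z] [DecidableEq Z]

/-- Average over the allowed values at time `j`. -/
noncomputable def E1 (Al : ℕ → (ℕ → Z) → Finset Z) (j : ℕ) (f : (ℕ → Z) → ℝ) (ω : ℕ → Z) : ℝ :=
  (∑ z ∈ Al j ω, f (Function.update ω j z)) / (Al j ω).card

/-- Average over the times `a, …, a+k-1` (given the past of `ω` before `a`). -/
noncomputable def EE (Al : ℕ → (ℕ → Z) → Finset Z) (a : ℕ) : ℕ → ((ℕ → Z) → ℝ) → (ℕ → Z) → ℝ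
  | 0, f => f
  | (k+1), f => EE Al a k (E1 Al (a+k) f)

/-- The two paths agree before time `a`. -/
def Agr (a : ℕ) (ω ω' : ℕ → Z) : Prop := ∀ i < a, ω i = ω' i

/-- `f` depends only on the times `< a`. -/
def DepLT {α : Type*} (a : ℕ) (f : (ℕ → Z) → α) : Prop := ∀ ω ω', Agr a ω ω' → f ω = f ω'

lemma EE_add (Al : ℕ → (ℕ → Z) → Finset Z) (a k l : ℕ) (f : (ℕ → Z) → ℝ) :
    EE Al a (k+l) f = EE Al a k (EE Al (a+k) l f) := by
  induction l generalizing f with
  | zero => rfl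
  | succ l ih =>
    show EE Al a (k+l) (E1 Al (a+(k+l)) f) = EE Al a k (EE Al (a+k) l (E1 Al (a+k+l) f))
    rw [ih, Nat.add_assoc]

lemma Agr.refl (a : ℕ) (ω : ℕ → Z) : Agr a ω ω := fun _ _ => rfl

lemma Agr.trans {a : ℕ} {ω ω' ω'' : ℕ → Z} (h : Agr a ω ω') (h' : Agr a ω' ω'') : Agr a ω ω'' :=
  fun i hi => (h i hi).trans (h' i hi)

lemma Agr.mono {a b : ℕ} {ω ω' : ℕ → Z} (h : Agr b ω ω') (hab : a ≤ b) : Agr a ω ω' :=
  fun i hi => h i (lt_of_lt_of_le hi hab)

lemma agr_update (j : ℕ) (ω : ℕ → Z) (z : Z) : Agr j ω (Function.update ω j z) :=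
  fun i hi => (Function.update_of_ne hi.ne z ω).symm

lemma E1_mono (Al : ℕ → (ℕ → Z) → Finset Z) (j : ℕ) {f g : (ℕ → Z) → ℝ} {ω : ℕ → Z}
    (h : ∀ ω', Agr j ω ω' → f ω' ≤ g ω') : E1 Al j f ω ≤ E1 Al j g ω := by
  unfold E1
  exact div_le_div_of_nonneg_right (sum_le_sum fun z _ => h _ (agr_update j ω z))
    (Nat.cast_nonneg _)

lemma EE_mono (Al : ℕ → (ℕ → Z) → Finset Z) (a k : ℕ) {f g : (ℕ → Z) → ℝ} {ω : ℕ → Z}
    (h : ∀ ω', Agr a ω ω' → f ω' ≤ g ω') : EE Al a k f ω ≤ EE Al a k g ω := by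
  induction k generalizing f g with
  | zero => exact h ω (Agr.refl a ω)
  | succ k ih =>
    refine ih fun ω' h' => E1_mono Al (a+k) fun ω'' h'' => h ω'' (h'.trans (h''.mono ?_))
    omega

lemma EE_nonneg (Al : ℕ → (ℕ → Z) → Finset Z) (a k : ℕ) {f : (ℕ → Z) → ℝ} {ω : ℕ → Z}
    (h : ∀ ω', Agr a ω ω' → 0 ≤ f ω') : 0 ≤ EE Al a k f ω := by
  induction k generalizing f with
  | zero => exact h ω (Agr.refl a ω)
  | succ k ih =>
    refine ih fun ω' h' => ?_
    unfold E1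
    refine div_nonneg (sum_nonneg fun z _ => h _ (h'.trans ((agr_update (a+k) ω' z).mono ?_)))
      (Nat.cast_nonneg _)
    omega

lemma EE_sum (Al : ℕ → (ℕ → Z) → Finset Z) (a k : ℕ) {S : Type*} (s : Finset S)
    (f : S → (ℕ → Z) → ℝ) (ω : ℕ → Z) :
    EE Al a k (fun ω' => ∑ i ∈ s, f i ω') ω = ∑ i ∈ s, EE Al a k (f i) ω := by
  induction k generalizing f with
  | zero => rfl
  | succ k ih =>
    have h1 : E1 Al (a+k) (fun ω' => ∑ i ∈ s, f i ω') =
        fun ω' => ∑ i ∈ s, E1 Al (a+k) (f i) ω' := by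
      funext ω'
      unfold E1
      rw [sum_comm, sum_div]
    show EE Al a k (E1 Al (a+k) (fun ω' => ∑ i ∈ s, f i ω')) ω = _
    rw [h1]
    exact ih _

lemma EE_add_fun (Al : ℕ → (ℕ → Z) → Finset Z) (a k : ℕ) (f g : (ℕ → Z) → ℝ) (ω : ℕ → Z) :
    EE Al a k (fun ω' => f ω' + g ω') ω = EE Al a k f ω + EE Al a k g ω := by
  induction k generalizing f g with
  | zero => rfl
  | succ k ih =>
    have h1 : E1 Al (a+k) (fun ω' => f ω' + g ω') =
        fun ω' => E1 Al (a+k) f ω' + E1 Al (a+k) g ω' := by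
      funext ω'
      unfold E1
      rw [sum_add_distrib, add_div]
    show EE Al a k (E1 Al (a+k) (fun ω' => f ω' + g ω')) ω = _
    rw [h1]
    exact ih _ _

/-- A factor depending only on the past comes out. -/
lemma EE_mul_dep (Al : ℕ → (ℕ → Z) → Finset Z) (a k : ℕ) {g : (ℕ → Z) → ℝ} (hg : DepLT a g)
    (f : (ℕ → Z) → ℝ) (ω : ℕ → Z) :
    EE Al a k (fun ω' => g ω' * f ω') ω = g ω * EE Al a k f ω := by
  induction k generalizing f with
  | zero => rfl
  | succ k ih =>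
    have h1 : E1 Al (a+k) (fun ω' => g ω' * f ω') = fun ω' => g ω' * E1 Al (a+k) f ω' := by
      funext ω'
      unfold E1
      have h2 : ∀ z, g (Function.update ω' (a+k) z) = g ω' := fun z =>
        (hg _ _ ((agr_update (a+k) ω' z).mono (by omega))).symm
      simp only [h2]
      rw [← mul_sum, mul_div_assoc]
    show EE Al a k (E1 Al (a+k) (fun ω' => g ω' * f ω')) ω = _
    rw [h1]
    exact ih _

lemma EE_const_mul (Al : ℕ → (ℕ → Z) → Finset Z) (a k : ℕ) (c : ℝ)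
    (f : (ℕ → Z) → ℝ) (ω : ℕ → Z) :
    EE Al a k (fun ω' => c * f ω') ω = c * EE Al a k f ω :=
  EE_mul_dep Al a k (g := fun _ => c) (fun _ _ _ => rfl) f ω

lemma EE_dep (Al : ℕ → (ℕ → Z) → Finset Z) (hne : ∀ j ω, (Al j ω).Nonempty) (a k : ℕ)
    {g : (ℕ → Z) → ℝ} (hg : DepLT a g) (ω : ℕ → Z) : EE Al a k g ω = g ω := by
  induction k with
  | zero => rfl
  | succ k ih =>
    have h1 : E1 Al (a+k) g = g := by
      funext ω'
      unfold E1
      have h2 : ∀ z, g (Function.update ω' (a+k) z) = g ω' := fun z =>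
        (hg _ _ ((agr_update (a+k) ω' z).mono (by omega))).symm
      simp only [h2, sum_const, nsmul_eq_mul]
      have h3 : ((Al (a+k) ω').card : ℝ) ≠ 0 := by
        exact_mod_cast (card_pos.mpr (hne (a+k) ω')).ne'
      field_simp
    show EE Al a k (E1 Al (a+k) g) ω = _
    rw [h1]
    exact ih

/-- If `Al` and `Al'` agree at the times `a, …, a+k-1` then so do the averages. -/
lemma EE_congr_Al {Al Al' : ℕ → (ℕ → Z) → Finset Z} (a k : ℕ)
    (h : ∀ j ω, a ≤ j → j < a + k → Al j ω = Al' j ω) (f : (ℕ → Z) → ℝ) (ω : ℕ → Z) :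
    EE Al a k f ω = EE Al' a k f ω := by
  induction k generalizing f with
  | zero => rfl
  | succ k ih =>
    have h1 : E1 Al (a+k) f = E1 Al' (a+k) f := by
      funext ω'
      unfold E1
      rw [h (a+k) ω' (by omega) (by omega)]
    show EE Al a k (E1 Al (a+k) f) ω = EE Al' a k (E1 Al' (a+k) f) ω
    rw [h1]
    exact ih (fun j ω hj hj' => h j ω hj (by omega)) _

/-- Derandomisation. -/
lemma exists_path (Al : ℕ → (ℕ → Z) → Finset Z) (hne : ∀ j ω, (Al j ω).Nonempty)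
    (hdep : ∀ j, DepLT j (Al j)) (a k : ℕ) (f : (ℕ → Z) → ℝ) (ω₀ : ℕ → Z) :
    ∃ ω, Agr a ω₀ ω ∧ (∀ j, a ≤ j → j < a + k → ω j ∈ Al j ω) ∧ f ω ≤ EE Al a k f ω₀ := by
  induction k generalizing f with
  | zero => exact ⟨ω₀, Agr.refl a ω₀, fun j h1 h2 => by omega, le_refl _⟩
  | succ k ih =>
    obtain ⟨ω, h1, h2, h3⟩ := ih (E1 Al (a+k) f)
    have hpos : (0:ℝ) < (Al (a+k) ω).card := by
      exact_mod_cast card_pos.mpr (hne (a+k) ω)
    have h4 : ∃ z ∈ Al (a+k) ω, f (Function.update ω (a+k) z) ≤ E1 Al (a+k) f ω := by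
      by_contra hcon
      push Not at hcon
      have h5 : ∑ z ∈ Al (a+k) ω, E1 Al (a+k) f ω <
          ∑ z ∈ Al (a+k) ω, f (Function.update ω (a+k) z) :=
        sum_lt_sum_of_nonempty (hne (a+k) ω) hcon
      rw [sum_const, nsmul_eq_mul] at h5
      have h6 : ((Al (a+k) ω).card : ℝ) * E1 Al (a+k) f ω =
          ∑ z ∈ Al (a+k) ω, f (Function.update ω (a+k) z) := by
        unfold E1
        field_simp
      linarith
    obtain ⟨z, hz, hz'⟩ := h4
    have hag : Agr (a+k) ω (Function.update ω (a+k) z) := agr_update (a+k) ω z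
    refine ⟨Function.update ω (a+k) z, h1.trans (hag.mono (by omega)), ?_, hz'.trans h3⟩
    intro j hj hj'
    rcases Nat.lt_or_ge j (a+k) with hlt | hge
    · rw [← hdep j _ _ (hag.mono hlt.le), ← hag j hlt]
      exact h2 j hj hlt
    · have hjk : j = a + k := by omega
      subst hjk
      rw [← hdep (a+k) _ _ hag, Function.update_self]
      exact hz

/-- Exponential supermartingale. -/
lemma EE_exp (Al : ℕ → (ℕ → Z) → Finset Z) (hne : ∀ j ω, (Al j ω).Nonempty) (T : ℕ) (θ : ℝ)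
    (Y κ : ℕ → (ℕ → Z) → ℝ) (hY : ∀ j, DepLT (j+1) (Y j)) (hκ : ∀ j, DepLT j (κ j))
    (h : ∀ j < T, ∀ ω, E1 Al j (fun ω' => Real.exp (θ * Y j ω')) ω ≤ Real.exp (θ * κ j ω))
    (ω₀ : ℕ → Z) :
    EE Al 0 T (fun ω' => Real.exp (θ * ∑ j ∈ range T, (Y j ω' - κ j ω'))) ω₀ ≤ 1 := by
  induction T with
  | zero => simp [EE]
  | succ T ih =>
    have ih' := ih (fun j hj ω => h j (by omega) ω)
    refine le_trans ?_ ih'
    show EE Al 0 T (E1 Al (0+T) (fun ω' => Real.exp (θ * ∑ j ∈ range (T+1), (Y j ω' - κ j ω')))) ω₀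
      ≤ _
    refine EE_mono Al 0 T fun ω _ => ?_
    rw [Nat.zero_add]
    have hdep : ∀ z, ∑ j ∈ range T, (Y j (Function.update ω T z) - κ j (Function.update ω T z)) =
        ∑ j ∈ range T, (Y j ω - κ j ω) := by
      intro z
      refine sum_congr rfl fun j hj => ?_
      have hj' := mem_range.mp hj
      rw [← hY j _ _ ((agr_update T ω z).mono (by omega)),
        ← hκ j _ _ ((agr_update T ω z).mono (by omega))]
    have hκT : ∀ z, κ T (Function.update ω T z) = κ T ω := fun z =>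
      (hκ T _ _ (agr_update T ω z)).symm
    have h1 := h T (by omega) ω
    have h2 : E1 Al T (fun ω' => Real.exp (θ * ∑ j ∈ range (T+1), (Y j ω' - κ j ω'))) ω =
        (Real.exp (θ * ∑ j ∈ range T, (Y j ω - κ j ω)) * Real.exp (-(θ * κ T ω))) *
          E1 Al T (fun ω' => Real.exp (θ * Y T ω')) ω := by
      unfold E1
      rw [← mul_div_assoc, mul_sum]
      congr 1
      refine sum_congr rfl fun z _ => ?_
      simp only [sum_range_succ, hdep, hκT]
      rw [← Real.exp_add, ← Real.exp_add]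
      congr 1
      ring
    rw [h2]
    calc (Real.exp (θ * ∑ j ∈ range T, (Y j ω - κ j ω)) * Real.exp (-(θ * κ T ω))) *
          E1 Al T (fun ω' => Real.exp (θ * Y T ω')) ω
        ≤ (Real.exp (θ * ∑ j ∈ range T, (Y j ω - κ j ω)) * Real.exp (-(θ * κ T ω))) *
          Real.exp (θ * κ T ω) := mul_le_mul_of_nonneg_left h1 (by positivity)
      _ = Real.exp (θ * ∑ j ∈ range T, (Y j ω - κ j ω)) := by
        rw [mul_assoc, ← Real.exp_add]
        simp

end Pool.Agent.H470D4
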