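import Pool.Agent.H470D4.Defs
import Pool.Agent.H470D4.Eng

set_option autoImplicit false

namespace Pool.Agent.H470D4

open Finset

section Row
variable {p M B : ℕ}

/-- The position `b * B + i`. -/
def pos {M B : ℕ} (b : Fin M) (i : Fin B) : Fin (M * B) := finProdFinEquiv (b, i)

lemma pos_val {M B : ℕ} (b : Fin M) (i : Fin B) : ((pos b i : Fin (M*B)) : ℕ) = i + B * b := by
  simp [pos, finProdFinEquiv]

lemma pos_div {M B : ℕ} (b : Fin M) (i : Fin B) : ((pos b i : Fin (M*B)) : ℕ) / B = b := by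
  have hB : 0 < B := lt_of_le_of_lt (Nat.zero_le _) i.2
  rw [pos_val, Nat.add_mul_div_left _ _ hB, Nat.div_eq_of_lt i.2, zero_add]

lemma pos_mod {M B : ℕ} (b : Fin M) (i : Fin B) : ((pos b i : Fin (M*B)) : ℕ) % B = i := by
  rw [pos_val, Nat.add_mul_mod_self_left, Nat.mod_eq_of_lt i.2]

lemma gam_pos (ω : Path p B) (r : ℕ) (b : Fin M) (i : Fin B) :
    gam M ω r (pos b i) = ω (r * M + (M - 1 - b)) i := by
  unfold gam
  congr 1
  · rw [pos_div]
  · ext
    exact pos_mod b i

lemma row_apply (ω : Path p B) (r : ℕ) (ν : Vec p M B) :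
    row M ω r ν = ∑ l, gam M ω r l * ν l := by
  unfold row
  simp [LinearMap.sum_apply]

lemma row_eq (ω : Path p B) (r : ℕ) (ν : Vec p M B) :
    row M ω r ν = ∑ b : Fin M, ∑ i : Fin B, ω (r * M + (M - 1 - b)) i * ν (pos b i) := by
  rw [row_apply, ← Equiv.sum_comp finProdFinEquiv, Fintype.sum_prod_type]
  refine Finset.sum_congr rfl fun b _ => Finset.sum_congr rfl fun i _ => ?_
  have := gam_pos ω r b i
  unfold pos at this
  rw [this]
  rfl

/-- The block `b` of a vector. -/
def Rb (p : ℕ) {M : ℕ} (B : ℕ) (b : Fin M) : Vec p M B →ₗ[ZMod p] Blk p B where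
  toFun := fun ν i => ν (pos b i)
  map_add' := fun _ _ => rfl
  map_smul' := fun _ _ => rfl

@[simp] lemma Rb_apply (b : Fin M) (ν : Vec p M B) (i : Fin B) : Rb p B b ν i = ν (pos b i) := rfl

lemma exists_pos (l : Fin (M*B)) : ∃ (b : Fin M) (i : Fin B), l = pos b i := by
  refine ⟨(finProdFinEquiv.symm l).1, (finProdFinEquiv.symm l).2, ?_⟩
  unfold pos
  rw [Prod.mk.eta, Equiv.apply_symm_apply]

lemma mem_Vb_iff_pos {β : ℕ} {ν : Vec p M B} :
    ν ∈ Vb p M B β ↔ ∀ (b : Fin M) (i : Fin B), (b : ℕ) < β → ν (pos b i) = 0 := by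
  rw [mem_Vb]
  constructor
  · intro h b i hb
    apply h
    rw [pos_val]
    have := i.2
    calc (i:ℕ) + B * b < B + B * b := by omega
      _ = (b+1) * B := by ring
      _ ≤ β * B := Nat.mul_le_mul_right _ hb
  · intro h l hl
    obtain ⟨b, i, rfl⟩ := exists_pos l
    apply h
    rw [pos_val] at hl
    by_contra hb
    push Not at hb
    have : β * B ≤ b * B := Nat.mul_le_mul_right _ hb
    rw [mul_comm B (b:ℕ)] at hl
    omega

lemma Vb_anti {β β' : ℕ} (h : β ≤ β') : Vb p M B β' ≤ Vb p M B β := by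
  intro ν hν
  rw [mem_Vb_iff_pos] at *
  exact fun b i hb => hν b i (lt_of_lt_of_le hb h)

lemma mem_Vb_succ {b : Fin M} {ν : Vec p M B} (h : ν ∈ Vb p M B b) :
    ν ∈ Vb p M B ((b:ℕ)+1) ↔ Rb p B b ν = 0 := by
  rw [mem_Vb_iff_pos] at *
  constructor
  · intro h1
    funext i
    exact h1 b i (Nat.lt_succ_self _)
  · intro h1 b' i hb'
    rcases Nat.lt_succ_iff_lt_or_eq.1 hb' with h2 | h2
    · exact h b' i h2
    · have : b' = b := Fin.ext h2
      rw [this]
      exact congrFun h1 i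

/-- The row when its block `b` is changed. -/
lemma row_update (ω : Path p B) (r : ℕ) (b : Fin M) (z : Blk p B) (ν : Vec p M B) :
    row M (Function.update ω (r * M + (M - 1 - b)) z) r ν =
      ∑ i, z i * ν (pos b i) + row M (Function.update ω (r * M + (M - 1 - b)) 0) r ν := by
  rw [row_eq, row_eq, ← Finset.add_sum_erase _ _ (Finset.mem_univ b),
    ← Finset.add_sum_erase _ (fun b' : Fin M => ∑ i : Fin B,
      Function.update ω (r * M + (M - 1 - b)) 0 (r * M + (M - 1 - b')) i * ν (pos b' i))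
      (Finset.mem_univ b)]
  have e1 : ∑ i : Fin B, Function.update ω (r * M + (M - 1 - b)) z (r * M + (M - 1 - b)) i
      * ν (pos b i) = ∑ i, z i * ν (pos b i) := by
    simp
  have e2 : ∑ i : Fin B, Function.update ω (r * M + (M - 1 - b)) 0 (r * M + (M - 1 - b)) i
      * ν (pos b i) = 0 := by
    simp
  rw [e1, e2, zero_add]
  congr 1
  apply Finset.sum_congr rfl
  intro b' hb'
  have hne : b' ≠ b := (Finset.mem_erase.1 hb').1
  apply Finset.sum_congr rfl
  intro i _
  have hM : (b:ℕ) < M := b.2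
  have hM' : (b':ℕ) < M := b'.2
  have hne' : (b':ℕ) ≠ b := fun h => hne (Fin.ext h)
  rw [Function.update_of_ne (by omega), Function.update_of_ne (by omega)]

/-- The row on `Vb β` depends only on the first `M - β` blocks of the row. -/
lemma row_congr {β : ℕ} {ω ω' : Path p B} {r : ℕ} (h : ∀ k < M - β, ω (r * M + k) = ω' (r * M + k))
    {ν : Vec p M B} (hν : ν ∈ Vb p M B β) : row M ω r ν = row M ω' r ν := by
  rw [row_eq, row_eq]
  apply Finset.sum_congr rfl
  intro b _
  apply Finset.sum_congr rfl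
  intro i _
  by_cases hb : (b:ℕ) < β
  · rw [mem_Vb_iff_pos.1 hν b i hb, mul_zero, mul_zero]
  · have := b.2
    rw [h _ (by omega)]

lemma Vb_zero : Vb p M B 0 = ⊤ := by
  rw [eq_top_iff]
  intro ν _
  rw [mem_Vb_iff_pos]
  intro b i hb
  exact absurd hb (Nat.not_lt_zero _)

lemma row_congr' {ω ω' : Path p B} {r : ℕ} (h : ∀ k < M, ω (r * M + k) = ω' (r * M + k)) :
    row M ω r = row M ω' r := by
  apply LinearMap.ext
  intro ν
  exact row_congr (β := 0) (by simpa using h) (by rw [Vb_zero]; trivial)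

lemma row_dep {r R : ℕ} (hr : r < R) {ω ω' : Path p B} (h : Agr (R * M) ω ω') :
    row M ω r = row M ω' r := by
  apply row_congr'
  intro k hk
  apply h
  calc r * M + k < r * M + M := by omega
    _ = (r+1) * M := by ring
    _ ≤ R * M := Nat.mul_le_mul_right _ hr

end Row

section AAl
variable {p M B n : ℕ}

lemma AA_dep (c : Flg p M B n) (W : Fin (n+2) → ℕ) (r : ℕ) :
    DepLT (r * M) (fun ω : Path p B => AA c ω W r) := by
  intro ω ω' h
  ext ν
  rw [mem_AA, mem_AA]
  constructor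
  · rintro ⟨h1, h2⟩
    exact ⟨h1, fun j hj => by rw [← row_dep hj h]; exact h2 j hj⟩
  · rintro ⟨h1, h2⟩
    exact ⟨h1, fun j hj => by rw [row_dep hj h]; exact h2 j hj⟩

lemma AA_mono (c : Flg p M B n) (ω : Path p B) {W W' : Fin (n+2) → ℕ} {r r' : ℕ}
    (hW : ∀ a, W a ≤ W' a) (hr : r ≤ r') : AA c ω W' r' ≤ AA c ω W r := by
  rintro ν ⟨h1, h2⟩
  exact ⟨fun a j hj => h1 a j (lt_of_lt_of_le hj (hW a)), fun j hj => h2 j (lt_of_lt_of_le hj hr)⟩

lemma AA_inf (c : Flg p M B n) (ω : Path p B) (W W' : Fin (n+2) → ℕ) (r : ℕ) :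
    AA c ω W r ⊓ AA c ω W' r = AA c ω (fun a => max (W a) (W' a)) r := by
  ext ν
  rw [Submodule.mem_inf, mem_AA, mem_AA, mem_AA]
  constructor
  · rintro ⟨⟨h1, h2⟩, h3, h4⟩
    refine ⟨fun a j hj => ?_, h2⟩
    rcases lt_max_iff.1 hj with h | h
    · exact h1 a j h
    · exact h3 a j h
  · rintro ⟨h1, h2⟩
    exact ⟨⟨fun a j hj => h1 a j (lt_max_of_lt_left hj), h2⟩,
      fun a j hj => h1 a j (lt_max_of_lt_right hj), h2⟩

lemma AA_succ (c : Flg p M B n) (ω : Path p B) (W : Fin (n+2) → ℕ) (r : ℕ) :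
    AA c ω W (r+1) = AA c ω W r ⊓ LinearMap.ker (row M ω r) := by
  ext ν
  rw [Submodule.mem_inf, mem_AA, mem_AA, LinearMap.mem_ker]
  constructor
  · rintro ⟨h1, h2⟩
    exact ⟨⟨h1, fun j hj => h2 j (by omega)⟩, h2 r (by omega)⟩
  · rintro ⟨⟨h1, h2⟩, h3⟩
    refine ⟨h1, fun j hj => ?_⟩
    rcases Nat.lt_succ_iff_lt_or_eq.1 hj with h | h
    · exact h2 j h
    · rw [h]; exact h3

variable [Fact p.Prime]

lemma finrank_inf_ker_ge (A : Submodule (ZMod p) (Vec p M B)) (f : Vec p M B →ₗ[ZMod p] ZMod p) :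
    Module.finrank (ZMod p) A ≤ Module.finrank (ZMod p) (A ⊓ LinearMap.ker f : Submodule _ _) + 1 := by
  have h1 := LinearMap.finrank_range_add_finrank_ker (f.domRestrict A)
  have h2 : Module.finrank (ZMod p) (LinearMap.range (f.domRestrict A)) ≤ 1 := by
    have := Submodule.finrank_le (LinearMap.range (f.domRestrict A))
    simpa using this
  have h3 : Module.finrank (ZMod p) (LinearMap.ker (f.domRestrict A)) =
      Module.finrank (ZMod p) (A ⊓ LinearMap.ker f : Submodule _ _) := by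
    have e : (LinearMap.ker (f.domRestrict A)) = Submodule.comap A.subtype (LinearMap.ker f) := by
      ext x; simp [LinearMap.domRestrict_apply]
    have e' : Submodule.comap A.subtype (A ⊓ LinearMap.ker f) =
        Submodule.comap A.subtype (LinearMap.ker f) := by
      ext x; simp
    rw [e, ← e']
    exact (Submodule.comapSubtypeEquivOfLe (p := A ⊓ LinearMap.ker f) (q := A) inf_le_left).finrank_eq
  omega

lemma finrank_AA_ge (c : Flg p M B n) (hc : IsFlags c) (ω : Path p B) (W : Fin (n+2) → ℕ) (r : ℕ) :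
    M * B ≤ Module.finrank (ZMod p) (AA c ω W r) + (∑ a, W a) + r := by
  induction r with
  | zero =>
    have := hc.mds ω W
    omega
  | succ r ih =>
    have := finrank_inf_ker_ge (AA c ω W r) (row M ω r)
    rw [← AA_succ] at this
    omega

end AAl

end Pool.Agent.H470D4

namespace Pool.Agent.H470D4

open Finset

section Lin2
variable {p M B n : ℕ} [Fact p.Prime]

lemma finrank_inf_kers {S : Type*} [DecidableEq S] (s : Finset S)
    (f : S → (Vec p M B →ₗ[ZMod p] ZMod p)) (A : Submodule (ZMod p) (Vec p M B)) :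
    Module.finrank (ZMod p) A ≤
      Module.finrank (ZMod p) (A ⊓ ⨅ i ∈ s, LinearMap.ker (f i) : Submodule _ _) + s.card := by
  induction s using Finset.induction_on with
  | empty =>
    have e : (A ⊓ ⨅ i ∈ (∅ : Finset S), LinearMap.ker (f i)) = A := by
      ext x; simp
    rw [e, Finset.card_empty, add_zero]
  | insert a s ha ih =>
    have h1 := finrank_inf_ker_ge (A ⊓ ⨅ i ∈ s, LinearMap.ker (f i)) (f a)
    have e : (A ⊓ ⨅ i ∈ s, LinearMap.ker (f i)) ⊓ LinearMap.ker (f a) =
        A ⊓ ⨅ i ∈ insert a s, LinearMap.ker (f i) := by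
      rw [Finset.iInf_insert, inf_assoc, inf_comm (LinearMap.ker (f a))]
    rw [e] at h1
    rw [Finset.card_insert_of_notMem ha]
    omega

/-- Removing constraints increases the dimension by at most their number. -/
lemma finrank_AA_le (c : Flg p M B n) (ω : Path p B) {W W' : Fin (n+2) → ℕ} (r : ℕ)
    (h : ∀ a, W' a ≤ W a) :
    Module.finrank (ZMod p) (AA c ω W' r) + ∑ a, W' a ≤
      Module.finrank (ZMod p) (AA c ω W r) + ∑ a, W a := by
  classical
  set s : Finset (Σ _ : Fin (n+2), ℕ) := (univ : Finset (Fin (n+2))).sigma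
    (fun a => (range (W a)) \ (range (W' a))) with hs
  have h1 := finrank_inf_kers s (fun i => c i.1 i.2) (AA c ω W' r)
  have e : (AA c ω W' r ⊓ ⨅ i ∈ s, LinearMap.ker (c i.1 i.2)) = AA c ω W r := by
    ext ν
    simp only [Submodule.mem_inf, Submodule.mem_iInf, LinearMap.mem_ker, mem_AA]
    constructor
    · rintro ⟨⟨h2, h3⟩, h4⟩
      refine ⟨fun a j hj => ?_, h3⟩
      by_cases hj' : j < W' a
      · exact h2 a j hj'
      · exact h4 ⟨a, j⟩ (by simp [hs]; omega)
    · rintro ⟨h2, h3⟩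
      refine ⟨⟨fun a j hj => h2 a j (lt_of_lt_of_le hj (h a)), h3⟩, fun i hi => ?_⟩
      apply h2
      simp [hs] at hi
      omega
  rw [e] at h1
  have h5 : s.card + ∑ a, W' a = ∑ a, W a := by
    rw [hs, Finset.card_sigma, ← Finset.sum_add_distrib]
    apply Finset.sum_congr rfl
    intro a _
    rw [Finset.card_sdiff_of_subset (Finset.range_subset_range.2 (h a)), Finset.card_range, Finset.card_range]
    have := h a
    omega
  omega

lemma card_sub (A : Submodule (ZMod p) (Vec p M B)) :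
    Nat.card A = p ^ Module.finrank (ZMod p) A := by
  rw [Module.natCard_eq_pow_finrank (K := ZMod p), Nat.card_eq_fintype_card, ZMod.card]

open Classical in
/-- A finite set all of whose differences lie in `A` has at most `|A|` elements. -/
lemma card_le_of_diff (A : Submodule (ZMod p) (Vec p M B)) (s : Finset (Vec p M B))
    (h : ∀ ν ∈ s, ∀ ν' ∈ s, ν' - ν ∈ A) : s.card ≤ p ^ Module.finrank (ZMod p) A := by
  rcases s.eq_empty_or_nonempty with rfl | ⟨ν₀, hν₀⟩
  · simp
  rw [← card_sub, Nat.card_eq_fintype_card, ← Finset.card_univ]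
  refine Finset.card_le_card_of_injOn
    (fun ν => if hν : ν - ν₀ ∈ A then (⟨ν - ν₀, hν⟩ : A) else 0) (fun _ _ => Finset.mem_univ _) ?_
  intro ν hν ν' hν' he
  have h1 := h ν₀ hν₀ ν hν
  have h2 := h ν₀ hν₀ ν' hν'
  simp only [h1, h2, dif_pos] at he
  have := congrArg Subtype.val he
  simpa using this

lemma finrank_sup (A A' : Submodule (ZMod p) (Vec p M B)) :
    Module.finrank (ZMod p) (A ⊔ A' : Submodule _ _) + Module.finrank (ZMod p) (A ⊓ A' : Submodule _ _)
      = Module.finrank (ZMod p) A + Module.finrank (ZMod p) A' :=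
  Submodule.finrank_sup_add_finrank_inf_eq A A'

end Lin2

end Pool.Agent.H470D4
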