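import Pool.Agent.H470D4.Defs
import Pool.Agent.H470D4.Eng
import Pool.Agent.H470D4.Lin

set_option autoImplicit false

namespace Pool.Agent.H470D4

open Finset

section LemP
variable {p M B : ℕ} [Fact p.Prime]

open Classical in
/-- Indicator that the row `r` vanishes on `A`. -/
noncomputable def kil (M : ℕ) (r : ℕ) (A : Submodule (ZMod p) (Vec p M B)) (ω : Path p B) : ℝ :=
  if A ≤ LinearMap.ker (row M ω r) then 1 else 0

/-- Probability (over a uniform block number `k` of the row `r`) that the row `r` vanishes on `A`. -/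
noncomputable def UP (M : ℕ) (r k : ℕ) (A : Submodule (ZMod p) (Vec p M B)) (ω : Path p B) : ℝ :=
  (∑ z : Blk p B, kil M r A (Function.update ω (r * M + k) z)) / (p : ℝ) ^ B

lemma kil_nonneg (M : ℕ) (r : ℕ) (A : Submodule (ZMod p) (Vec p M B)) (ω : Path p B) :
    0 ≤ kil M r A ω := by
  unfold kil; split_ifs <;> norm_num

lemma kil_le_one (M : ℕ) (r : ℕ) (A : Submodule (ZMod p) (Vec p M B)) (ω : Path p B) :
    kil M r A ω ≤ 1 := by
  unfold kil; split_ifs <;> norm_num

lemma Vb_top_eq_bot : Vb p M B M = ⊥ := by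
  rw [eq_bot_iff]
  intro ν hν
  rw [mem_Vb_iff_pos] at hν
  rw [Submodule.mem_bot]
  funext l
  obtain ⟨b, i, rfl⟩ := exists_pos l
  exact hν b i b.2

/-- The functional of a block. -/
noncomputable def dotF (z : Blk p B) : Blk p B →ₗ[ZMod p] ZMod p :=
  ∑ i, z i • LinearMap.proj i

lemma dotF_apply (z v : Blk p B) : dotF z v = ∑ i, z i * v i := by
  unfold dotF
  simp [LinearMap.sum_apply]

lemma dotF_injective : Function.Injective (dotF : Blk p B → _) := by
  intro z z' h
  funext i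
  have := congrArg (fun f => f (Pi.single i 1)) h
  simp only [dotF_apply] at this
  simpa [Pi.single_apply] using this

open Classical in
/-- The number of blocks killing a given subspace. -/
lemma card_kill_le (W : Submodule (ZMod p) (Blk p B)) (S : Finset (Blk p B))
    (h : ∀ z ∈ S, ∀ z' ∈ S, ∀ v ∈ W, ∑ i, z i * v i = ∑ i, z' i * v i) :
    S.card * p ^ (Module.finrank (ZMod p) W) ≤ p ^ B := by
  rcases S.eq_empty_or_nonempty with rfl | ⟨z₀, hz₀⟩
  · simp
  have h1 : S.card ≤ p ^ Module.finrank (ZMod p) W.dualAnnihilator := by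
    have hf0 : Finite (Module.Dual (ZMod p) (Blk p B)) := Module.finite_of_finite (ZMod p)
    have hf : Finite W.dualAnnihilator := inferInstance
    have : Fintype W.dualAnnihilator := Fintype.ofFinite _
    have h2 : Nat.card W.dualAnnihilator = p ^ Module.finrank (ZMod p) W.dualAnnihilator := by
      rw [Module.natCard_eq_pow_finrank (K := ZMod p), Nat.card_eq_fintype_card, ZMod.card]
    rw [← h2, Nat.card_eq_fintype_card, ← Finset.card_univ]
    have hmem : ∀ z ∈ S, dotF z - dotF z₀ ∈ W.dualAnnihilator := by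
      intro z hz
      rw [Submodule.mem_dualAnnihilator]
      intro v hv
      rw [LinearMap.sub_apply, dotF_apply, dotF_apply, h z hz z₀ hz₀ v hv, sub_self]
    refine Finset.card_le_card_of_injOn
      (fun z => if hz : dotF z - dotF z₀ ∈ W.dualAnnihilator then
        (⟨dotF z - dotF z₀, hz⟩ : W.dualAnnihilator) else 0) (fun _ _ => Finset.mem_univ _) ?_
    intro z hz z' hz' he
    have h3 := hmem z hz
    have h4 := hmem z' hz'
    simp only [h3, h4, dif_pos] at he
    have := congrArg Subtype.val he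
    exact dotF_injective (sub_left_injective this)
  have h2 := Subspace.finrank_add_finrank_dualAnnihilator_eq W
  rw [Module.finrank_fin_fun] at h2
  calc S.card * p ^ (Module.finrank (ZMod p) W) ≤
      p ^ Module.finrank (ZMod p) W.dualAnnihilator * p ^ (Module.finrank (ZMod p) W) :=
        Nat.mul_le_mul_right _ h1
    _ = p ^ B := by
        rw [← pow_add]
        congr 1
        omega

/-- The image of `A` in the block `b`. -/
lemma finrank_map_Rb (b : Fin M) (A : Submodule (ZMod p) (Vec p M B)) (hA : A ≤ Vb p M B b) :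
    Module.finrank (ZMod p) (A.map (Rb p B b)) +
      Module.finrank (ZMod p) (A ⊓ Vb p M B ((b:ℕ)+1) : Submodule _ _) =
        Module.finrank (ZMod p) A := by
  have h1 := LinearMap.finrank_range_add_finrank_ker ((Rb p B b).domRestrict A)
  have e1 : LinearMap.range ((Rb p B b).domRestrict A) = A.map (Rb p B b) := by
    ext v
    simp only [LinearMap.mem_range, Submodule.mem_map]
    constructor
    · rintro ⟨⟨x, hx⟩, rfl⟩
      exact ⟨x, hx, rfl⟩
    · rintro ⟨x, hx, rfl⟩
      exact ⟨⟨x, hx⟩, rfl⟩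
  have h3 : Module.finrank (ZMod p) (LinearMap.ker ((Rb p B b).domRestrict A)) =
      Module.finrank (ZMod p) (A ⊓ Vb p M B ((b:ℕ)+1) : Submodule _ _) := by
    have e' : Submodule.comap A.subtype (A ⊓ Vb p M B ((b:ℕ)+1)) =
        LinearMap.ker ((Rb p B b).domRestrict A) := by
      ext x
      rw [Submodule.mem_comap, Submodule.mem_inf, LinearMap.mem_ker]
      constructor
      · rintro ⟨h1, h2⟩
        exact (mem_Vb_succ (hA h1)).1 h2
      · intro h
        exact ⟨x.2, (mem_Vb_succ (hA x.2)).2 h⟩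
    rw [← e']
    exact (Submodule.comapSubtypeEquivOfLe (p := A ⊓ Vb p M B ((b:ℕ)+1)) (q := A)
      inf_le_left).finrank_eq
  rw [e1, h3] at h1
  exact h1

/-- the row at a vector of `Vb (b+1)` does not depend on the block `b` -/
lemma row_update_Vb (ω : Path p B) (r : ℕ) (b : Fin M) (z : Blk p B) (ν : Vec p M B)
    (hν : ν ∈ Vb p M B ((b:ℕ)+1)) :
    row M (Function.update ω (r * M + (M - 1 - b)) z) r ν = row M ω r ν := by
  refine row_congr (β := (b:ℕ)+1) ?_ hν
  intro k hk
  rw [Function.update_of_ne]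
  omega

open Classical in
lemma E1_kil (Al : ℕ → Path p B → Finset (Blk p B)) (hB : ∀ j ω, p ^ B ≤ 2 * (Al j ω).card)
    (h4 : 4 ≤ p) (r : ℕ) (b : Fin M) (A : Submodule (ZMod p) (Vec p M B))
    (hA : A ≤ Vb p M B b) (ω : Path p B) :
    E1 Al (r * M + (M - 1 - b)) (kil M r A) ω ≤
      (2 / (p : ℝ)) ^ (Module.finrank (ZMod p) (A.map (Rb p B b))) *
        kil M r (A ⊓ Vb p M B ((b:ℕ)+1)) ω := by
  set κ := Module.finrank (ZMod p) (A.map (Rb p B b)) with hκ
  set A' := A ⊓ Vb p M B ((b:ℕ)+1) with hA'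
  set j := r * M + (M - 1 - b) with hj
  have hp0 : (0:ℝ) < p := by exact_mod_cast (by omega : 0 < p)
  have hcardpos : 0 < (Al j ω).card := by
    have h1 := hB j ω
    have h2 : 0 < p ^ B := Nat.pow_pos (by omega)
    omega
  have hcard : (0:ℝ) < (Al j ω).card := by exact_mod_cast hcardpos
  have hfr := finrank_map_Rb b A hA
  by_cases h0 : kil M r A' ω = 0
  · -- nothing kills A
    have hz : ∀ z, kil M r A (Function.update ω j z) = 0 := by
      intro z
      unfold kil at h0 ⊢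
      rw [if_neg]
      intro hle
      rw [ite_eq_right_iff] at h0
      refine absurd (h0 ?_) one_ne_zero
      intro ν hν
      have h1 := hle hν.1
      rw [LinearMap.mem_ker] at h1 ⊢
      rw [← row_update_Vb ω r b z ν hν.2]
      exact h1
    unfold E1
    simp only [hz, sum_const_zero, zero_div, h0, mul_zero, le_refl]
  · have h1 : kil M r A' ω = 1 := by
      unfold kil at h0 ⊢
      split_ifs at h0 ⊢ with h
      · rfl
      · exact absurd rfl h0
    rw [h1, mul_one]
    rcases Nat.eq_zero_or_pos κ with hk0 | hk1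
    · rw [hk0, pow_zero]
      unfold E1
      rw [div_le_one hcard]
      calc ∑ z ∈ Al j ω, kil M r A (Function.update ω j z) ≤ ∑ z ∈ Al j ω, (1:ℝ) :=
            sum_le_sum fun z _ => kil_le_one _ _ _ _
        _ = (Al j ω).card := by simp
    · -- count
      set S := (Al j ω).filter (fun z => A ≤ LinearMap.ker (row M (Function.update ω j z) r))
        with hS
      have h2 : S.card * p ^ κ ≤ p ^ B := by
        refine card_kill_le (A.map (Rb p B b)) S ?_
        intro z hz z' hz' v hv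
        rw [Submodule.mem_map] at hv
        obtain ⟨ν, hν, rfl⟩ := hv
        have e1 := (mem_filter.1 hz).2 hν
        have e2 := (mem_filter.1 hz').2 hν
        rw [LinearMap.mem_ker, hj, row_update] at e1 e2
        simp only [Rb_apply]
        exact add_right_cancel (e1.trans e2.symm)
      have h3 : ∑ z ∈ Al j ω, kil M r A (Function.update ω j z) = S.card := by
        unfold kil
        rw [hS, card_filter]
        push_cast
        rfl
      unfold E1
      rw [h3, div_le_iff₀ hcard]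
      have h5 : ((S.card : ℝ)) * (p:ℝ) ^ κ ≤ (p:ℝ) ^ B := by exact_mod_cast h2
      have h6 : (p:ℝ) ^ B ≤ 2 * (Al j ω).card := by exact_mod_cast hB j ω
      have h7 : (2:ℝ) ≤ 2 ^ κ := by
        calc (2:ℝ) = 2 ^ 1 := by norm_num
          _ ≤ 2 ^ κ := pow_le_pow_right₀ (by norm_num) hk1
      rw [div_pow, div_mul_eq_mul_div, le_div_iff₀ (by positivity)]
      calc (S.card : ℝ) * (p:ℝ) ^ κ ≤ 2 * (Al j ω).card := h5.trans h6
        _ ≤ 2 ^ κ * (Al j ω).card := mul_le_mul_of_nonneg_right h7 hcard.le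

/-- Lemma P. `Al` = allowed sets of density at least one half. -/
theorem lemP (Al : ℕ → Path p B → Finset (Blk p B)) (hB : ∀ j ω, p ^ B ≤ 2 * (Al j ω).card)
    (h4 : 4 ≤ p) (r : ℕ) : ∀ k ≤ M, ∀ (ω₀ : Path p B) (A : Submodule (ZMod p) (Vec p M B)),
      A ≤ Vb p M B (M - k) →
      EE Al (r * M) k (kil M r A) ω₀ ≤ (2 / (p : ℝ)) ^ (Module.finrank (ZMod p) A) := by
  intro k
  induction k with
  | zero =>
    intro _ ω₀ A hA
    rw [Nat.sub_zero, Vb_top_eq_bot, le_bot_iff] at hA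
    subst hA
    rw [finrank_bot, pow_zero]
    exact kil_le_one _ _ _ _
  | succ k ih =>
    intro hk ω₀ A hA
    have hb : M - (k+1) < M := by omega
    set b : Fin M := ⟨M - (k+1), hb⟩ with hbd
    have hbv : (b:ℕ) = M - (k+1) := rfl
    have hbk : M - 1 - (b:ℕ) = k := by rw [hbv]; omega
    have hb1 : (b:ℕ) + 1 = M - k := by rw [hbv]; omega
    have hAb : A ≤ Vb p M B b := hA
    have hfr := finrank_map_Rb b A hAb
    have h1 : ∀ ω', Agr (r * M) ω₀ ω' → E1 Al (r * M + k) (kil M r A) ω' ≤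
        (2 / (p : ℝ)) ^ (Module.finrank (ZMod p) (A.map (Rb p B b))) *
        kil M r (A ⊓ Vb p M B ((b:ℕ)+1)) ω' := by
      intro ω' _
      have := E1_kil Al hB h4 r b A hAb ω'
      rw [hbk] at this
      exact this
    have h2 := EE_mono Al (r * M) k h1
    rw [EE_const_mul] at h2
    have h3 := ih (by omega) ω₀ (A ⊓ Vb p M B ((b:ℕ)+1)) (by rw [hb1]; exact inf_le_right)
    calc EE Al (r * M) (k+1) (kil M r A) ω₀
        = EE Al (r * M) k (E1 Al (r * M + k) (kil M r A)) ω₀ := rfl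
      _ ≤ _ := h2
      _ ≤ (2 / (p : ℝ)) ^ (Module.finrank (ZMod p) (A.map (Rb p B b))) *
          (2 / (p : ℝ)) ^ (Module.finrank (ZMod p) (A ⊓ Vb p M B ((b:ℕ)+1) : Submodule _ _)) :=
          mul_le_mul_of_nonneg_left h3 (by positivity)
      _ = (2 / (p : ℝ)) ^ (Module.finrank (ZMod p) A) := by
          rw [← pow_add, hfr]

theorem lemP_unif (Al : ℕ → Path p B → Finset (Blk p B)) (hB : ∀ j ω, p ^ B ≤ 2 * (Al j ω).card)
    (h4 : 4 ≤ p) (r : ℕ) (k : ℕ) (hk : k < M) (ω₀ : Path p B)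
    (A : Submodule (ZMod p) (Vec p M B)) (hA : A ≤ Vb p M B (M - 1 - k)) :
      EE Al (r * M) k (UP M r k A) ω₀ ≤ (2 / (p : ℝ)) ^ (Module.finrank (ZMod p) A) := by
  have hcu : (univ : Finset (Blk p B)).card = p ^ B := by
    rw [Finset.card_univ, Fintype.card_fun, ZMod.card, Fintype.card_fin]
  set Al' : ℕ → Path p B → Finset (Blk p B) := fun j ω => if j = r * M + k then univ else Al j ω
    with hAl'
  have hB' : ∀ j ω, p ^ B ≤ 2 * (Al' j ω).card := by
    intro j ω
    rw [hAl']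
    dsimp only
    split_ifs
    · rw [hcu]; omega
    · exact hB j ω
  have h1 : EE Al (r * M) k (UP M r k A) ω₀ = EE Al' (r * M) k (UP M r k A) ω₀ := by
    refine EE_congr_Al (r * M) k ?_ _ _
    intro j ω _ hj
    rw [hAl']
    dsimp only
    rw [if_neg (by omega)]
  have h2 : UP M r k A = E1 Al' (r * M + k) (kil M r A) := by
    funext ω
    unfold UP E1
    have h3 : Al' (r * M + k) ω = univ := by
      rw [hAl']
      dsimp only
      rw [if_pos rfl]
    rw [h3, hcu]
    push_cast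
    rfl
  rw [h1, h2]
  exact lemP Al' hB' h4 r (k+1) hk ω₀ A (by rw [show M - (k+1) = M - 1 - k by omega]; exact hA)

end LemP

section ExpA
variable {p M B n : ℕ} [Fact p.Prime]

/-- one row: the dimension drops by one unless the row kills the subspace -/
lemma finrank_succ_le (c : Flg p M B n) (ω : Path p B) (W : Fin (n+2) → ℕ) (r : ℕ) :
    (p:ℝ) ^ (Module.finrank (ZMod p) (AA c ω W (r+1))) ≤
      (p:ℝ) ^ (Module.finrank (ZMod p) (AA c ω W r) - 1) +
      ((p:ℝ) ^ (Module.finrank (ZMod p) (AA c ω W r)) -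
        (p:ℝ) ^ (Module.finrank (ZMod p) (AA c ω W r) - 1)) * kil M r (AA c ω W r) ω := by
  have hp1 : (1:ℝ) ≤ p := by
    exact_mod_cast (Fact.out : p.Prime).one_lt.le
  unfold kil
  by_cases h : AA c ω W r ≤ LinearMap.ker (row M ω r)
  · rw [if_pos h, AA_succ, inf_of_le_left h]
    linarith
  · rw [if_neg h, mul_zero, add_zero]
    refine pow_le_pow_right₀ hp1 ?_
    have h1 : AA c ω W (r+1) < AA c ω W r := by
      rw [AA_succ]
      exact lt_of_le_of_ne inf_le_left fun he => h (inf_eq_left.1 he)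
    have h2 := Submodule.finrank_lt_finrank_of_lt h1
    omega

/-- the same after averaging over the row `r` -/
lemma EE_succ_le (Al : ℕ → Path p B → Finset (Blk p B)) (hB : ∀ j ω, p ^ B ≤ 2 * (Al j ω).card)
    (h4 : 4 ≤ p) (c : Flg p M B n) (W : Fin (n+2) → ℕ) (r : ℕ) (ω : Path p B) :
    EE Al (r * M) M (fun ω => (p:ℝ) ^ (Module.finrank (ZMod p) (AA c ω W (r+1)))) ω ≤
      (p:ℝ) ^ (Module.finrank (ZMod p) (AA c ω W r) - 1) +
      ((p:ℝ) ^ (Module.finrank (ZMod p) (AA c ω W r)) -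
        (p:ℝ) ^ (Module.finrank (ZMod p) (AA c ω W r) - 1)) *
        (2 / (p:ℝ)) ^ (Module.finrank (ZMod p) (AA c ω W r)) := by
  have hp1 : (1:ℝ) ≤ p := by
    exact_mod_cast (Fact.out : p.Prime).one_lt.le
  have hne : ∀ j ω, (Al j ω).Nonempty := by
    intro j ω
    rw [← Finset.card_pos]
    have h1 := hB j ω
    have h2 : 0 < p ^ B := Nat.pow_pos (by omega)
    omega
  set A := AA c ω W r with hA
  set d := Module.finrank (ZMod p) A with hd
  have h1 : ∀ ω', Agr (r * M) ω ω' →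
      (p:ℝ) ^ (Module.finrank (ZMod p) (AA c ω' W (r+1))) ≤
      (p:ℝ) ^ (d - 1) + ((p:ℝ) ^ d - (p:ℝ) ^ (d - 1)) * kil M r A ω' := by
    intro ω' hω'
    have h2 := finrank_succ_le c ω' W r
    have h3 : AA c ω' W r = A := (AA_dep c W r ω ω' hω').symm
    rw [h3] at h2
    exact h2
  refine (EE_mono Al (r * M) M h1).trans ?_
  rw [EE_add_fun, EE_const_mul, EE_dep Al hne (r * M) M (fun _ _ _ => rfl)]
  have h2 := lemP Al hB h4 r M le_rfl ω A (by rw [Nat.sub_self, Vb_zero]; exact le_top)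
  have h3 : (0:ℝ) ≤ (p:ℝ) ^ d - (p:ℝ) ^ (d - 1) := by
    have : (p:ℝ) ^ (d-1) ≤ (p:ℝ) ^ d := pow_le_pow_right₀ hp1 (by omega)
    linarith
  have h4' := mul_le_mul_of_nonneg_left h2 h3
  linarith

lemma expA1_aux (Al : ℕ → Path p B → Finset (Blk p B)) (hB : ∀ j ω, p ^ B ≤ 2 * (Al j ω).card)
    (h8 : 8 ≤ p) (c : Flg p M B n) (hc : IsFlags c) (W : Fin (n+2) → ℕ)
    (r : ℕ) : ∀ (_ : ∑ a, W a + r + 1 ≤ M * B) (ω₀ : Path p B),
    EE Al 0 (r * M) (fun ω => (p:ℝ) ^ (Module.finrank (ZMod p) (AA c ω W r))) ω₀ ≤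
      (1 + 4 * (1/4:ℝ) ^ (M * B - (∑ a, W a + r))) * (p:ℝ) ^ (M * B - (∑ a, W a + r)) := by
  have hp8 : (8:ℝ) ≤ p := by exact_mod_cast h8
  have hp0 : (0:ℝ) < p := by linarith
  induction r with
  | zero =>
    intro _ ω₀
    rw [Nat.zero_mul]
    change (p:ℝ) ^ (Module.finrank (ZMod p) (AA c ω₀ W 0)) ≤ _
    rw [hc.mds, Nat.add_zero (∑ a, W a)]
    have h1 : (0:ℝ) < (p:ℝ) ^ (M * B - ∑ a, W a) := by positivity
    have h2 : (0:ℝ) < (1/4:ℝ) ^ (M * B - ∑ a, W a) := by positivity
    nlinarith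
  | succ r ih =>
    intro hr ω₀
    have ih' := ih (by omega) ω₀
    set N' := M * B - (∑ a, W a + (r+1)) with hN'
    have hN1 : 1 ≤ N' := by omega
    have hN2 : M * B - (∑ a, W a + r) = N' + 1 := by omega
    rw [hN2] at ih'
    have e1 : (r+1) * M = r * M + M := by ring
    rw [e1, EE_add, Nat.zero_add]
    -- one step
    have hstep : ∀ ω, Agr 0 ω₀ ω →
        EE Al (r * M) M (fun ω => (p:ℝ) ^ (Module.finrank (ZMod p) (AA c ω W (r+1)))) ω ≤
        ((1 + 8 * (1/4:ℝ)^(N'+1)) / p) * (p:ℝ) ^ (Module.finrank (ZMod p) (AA c ω W r)) := by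
      intro ω _
      refine (EE_succ_le Al hB (by omega) c W r ω).trans ?_
      have hge := finrank_AA_ge c hc ω W r
      set d := Module.finrank (ZMod p) (AA c ω W r) with hd
      have hdN : N' + 1 ≤ d := by omega
      obtain ⟨d', hd'⟩ : ∃ d', d = d' + 1 := ⟨d - 1, by omega⟩
      rw [hd', Nat.add_sub_cancel]
      have h1 : (2 / (p:ℝ)) ^ (d' + 1) = (2 / (p:ℝ)) ^ d' * (2 / p) := pow_succ _ _
      have h2 : (2 / (p:ℝ)) ^ d' ≤ (1/4:ℝ) ^ d' := by
        refine pow_le_pow_left₀ (by positivity) ?_ _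
        rw [div_le_div_iff₀ hp0 (by norm_num)]; linarith
      have h3 : (1/4:ℝ) ^ d' ≤ (1/4:ℝ) ^ N' :=
        pow_le_pow_of_le_one (by norm_num) (by norm_num) (by omega)
      have h4 : (0:ℝ) < (p:ℝ) ^ d' := by positivity
      have h5 : (0:ℝ) < (1/4:ℝ) ^ N' := by positivity
      have h6 : ((p:ℝ) ^ (d'+1) - (p:ℝ) ^ d') * (2 / (p:ℝ)) ^ (d' + 1) ≤
          (p:ℝ) ^ d' * (2 * (1/4:ℝ) ^ N') := by
        have h7 : ((p:ℝ) ^ (d'+1) - (p:ℝ) ^ d') * (2 / (p:ℝ)) ^ (d' + 1) ≤
            (p:ℝ) ^ (d'+1) * (2 / (p:ℝ)) ^ (d' + 1) :=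
          mul_le_mul_of_nonneg_right (by linarith) (by positivity)
        refine h7.trans ?_
        rw [h1, pow_succ]
        have h8 : (p:ℝ) ^ d' * p * ((2 / (p:ℝ)) ^ d' * (2 / p)) =
            (p:ℝ) ^ d' * (2 * (2 / (p:ℝ)) ^ d') := by field_simp
        rw [h8]
        exact mul_le_mul_of_nonneg_left (by linarith) h4.le
      have h9 : ((1 + 8 * (1/4:ℝ)^(N'+1)) / p) * (p:ℝ) ^ (d' + 1) =
          (p:ℝ) ^ d' * (1 + 2 * (1/4:ℝ) ^ N') := by
        rw [pow_succ (p:ℝ), pow_succ (1/4:ℝ)]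
        field_simp
        ring
      rw [h9]
      linarith
    refine (EE_mono Al 0 (r * M) hstep).trans ?_
    rw [EE_const_mul]
    refine (mul_le_mul_of_nonneg_left ih' (by positivity)).trans ?_
    have h1 : (0:ℝ) < (p:ℝ) ^ N' := by positivity
    set x := (1/4:ℝ) ^ (N' + 1) with hx
    have hx0 : 0 < x := by positivity
    have hx1 : x ≤ 1/16 := by
      calc x ≤ (1/4:ℝ) ^ 2 := pow_le_pow_of_le_one (by norm_num) (by norm_num) (by omega)
        _ = 1/16 := by norm_num
    have hx2 : (1/4:ℝ) ^ N' = 4 * x := by rw [hx, pow_succ]; ring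
    rw [hx2]
    have h2 : (1 + 8 * x) / p * ((1 + 4 * x) * (p:ℝ) ^ (N' + 1)) =
        ((1 + 8 * x) * (1 + 4 * x)) * (p:ℝ) ^ N' := by
      rw [pow_succ]
      field_simp
    rw [h2]
    refine mul_le_mul_of_nonneg_right ?_ h1.le
    nlinarith

/-- Expected size of the subspaces, below the critical weight. -/
theorem expA1 (Al : ℕ → Path p B → Finset (Blk p B)) (hB : ∀ j ω, p ^ B ≤ 2 * (Al j ω).card)
    (h8 : 8 ≤ p) (c : Flg p M B n) (hc : IsFlags c) (K : ℕ) (hK : 1 ≤ K) (W : Fin (n+2) → ℕ)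
    (r : ℕ) (hr : ∑ a, W a + r + K ≤ M * B) (ω₀ : Path p B) :
    EE Al 0 (r * M) (fun ω => (p:ℝ) ^ (Module.finrank (ZMod p) (AA c ω W r))) ω₀ ≤
      2 * (p:ℝ) ^ (M * B - (∑ a, W a + r)) := by
  refine (expA1_aux Al hB h8 c hc W r (by omega) ω₀).trans ?_
  refine mul_le_mul_of_nonneg_right ?_ (by positivity)
  have h1 : (1/4:ℝ) ^ (M * B - (∑ a, W a + r)) ≤ (1/4:ℝ) ^ 1 :=
    pow_le_pow_of_le_one (by norm_num) (by norm_num) (by omega)
  linarith

/-- Expected size of the subspaces, above the critical weight. -/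
theorem expA2 (Al : ℕ → Path p B → Finset (Blk p B)) (hB : ∀ j ω, p ^ B ≤ 2 * (Al j ω).card)
    (h8 : 8 ≤ p) (c : Flg p M B n) (hc : IsFlags c) (K : ℕ) (hK : 1 ≤ K) (hKm : K ≤ M * B)
    (W : Fin (n+2) → ℕ) (r : ℕ) (hr : M * B ≤ ∑ a, W a + r + K) (ω₀ : Path p B) :
    EE Al 0 (r * M) (fun ω => (p:ℝ) ^ (Module.finrank (ZMod p) (AA c ω W r)) - 1) ω₀ ≤
      2 * (p:ℝ) ^ K * (2 / (p:ℝ)) ^ (∑ a, W a + r + K - M * B) := by
  have hp8 : (8:ℝ) ≤ p := by exact_mod_cast h8
  have hp0 : (0:ℝ) < p := by linarith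
  have hne : ∀ j ω, (Al j ω).Nonempty := by
    intro j ω
    rw [← Finset.card_pos]
    have h1 := hB j ω
    have h2 : 0 < p ^ B := Nat.pow_pos (by omega)
    omega
  -- the critical weight
  have hcrit : ∀ r, ∑ a, W a + r + K = M * B →
      EE Al 0 (r * M) (fun ω => (p:ℝ) ^ (Module.finrank (ZMod p) (AA c ω W r)) - 1) ω₀ ≤
      2 * (p:ℝ) ^ K := by
    intro r hr
    have h1 := expA1 Al hB h8 c hc K hK W r (by omega) ω₀
    have h2 : M * B - (∑ a, W a + r) = K := by omega
    rw [h2] at h1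
    refine le_trans (EE_mono Al 0 (r * M) ?_) h1
    intro ω' _
    linarith
  induction r with
  | zero =>
    rcases Nat.lt_or_ge (M * B) (∑ a, W a + 0 + K) with h | h
    · rw [Nat.zero_mul]
      change (p:ℝ) ^ (Module.finrank (ZMod p) (AA c ω₀ W 0)) - 1 ≤ _
      rw [hc.mds, Nat.add_zero (∑ a, W a)]
      rcases Nat.lt_or_ge (∑ a, W a) (M * B) with h1 | h1
      · have h2 : K = (M * B - ∑ a, W a) + (∑ a, W a + K - M * B) := by omega
        set s := ∑ a, W a + K - M * B with hs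
        set t := M * B - ∑ a, W a with ht
        rw [h2, pow_add, div_pow]
        have h3 : (1:ℝ) ≤ 2 ^ s := one_le_pow₀ (by norm_num)
        have h4 : (0:ℝ) < (p:ℝ) ^ t := by positivity
        have h5 : 2 * ((p:ℝ) ^ t * (p:ℝ) ^ s) * (2 ^ s / (p:ℝ) ^ s) = 2 * (p:ℝ) ^ t * 2 ^ s := by
          field_simp
        rw [h5]
        nlinarith
      · have h2 : M * B - ∑ a, W a = 0 := by omega
        rw [h2, pow_zero, sub_self]
        positivity
    · have h1 : ∑ a, W a + 0 + K = M * B := by omega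
      have h2 := hcrit 0 h1
      rw [h1, Nat.sub_self, pow_zero, mul_one]
      exact h2
  | succ r ih =>
    rcases Nat.lt_or_ge (M * B) (∑ a, W a + (r+1) + K) with h | h
    · have ih' := ih (by omega)
      have e1 : (r+1) * M = r * M + M := by ring
      rw [e1, EE_add, Nat.zero_add]
      have e2 : ∑ a, W a + (r+1) + K - M * B = (∑ a, W a + r + K - M * B) + 1 := by omega
      rw [e2]
      have hstep : ∀ ω, Agr 0 ω₀ ω →
          EE Al (r * M) M (fun ω => (p:ℝ) ^ (Module.finrank (ZMod p) (AA c ω W (r+1))) - 1) ω ≤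
          (2 / (p:ℝ)) * ((p:ℝ) ^ (Module.finrank (ZMod p) (AA c ω W r)) - 1) := by
        intro ω _
        have h1 := EE_succ_le Al hB (by omega) c W r ω
        have h2 : EE Al (r * M) M (fun ω => (p:ℝ) ^ (Module.finrank (ZMod p) (AA c ω W (r+1))) - 1) ω
            = EE Al (r * M) M (fun ω => (p:ℝ) ^ (Module.finrank (ZMod p) (AA c ω W (r+1)))) ω - 1 := by
          have h3 := EE_add_fun Al (r * M) M
            (fun ω => (p:ℝ) ^ (Module.finrank (ZMod p) (AA c ω W (r+1)))) (fun _ => -1) ω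
          rw [EE_dep Al hne (r * M) M (g := fun _ => (-1:ℝ)) (fun _ _ _ => rfl)] at h3
          exact h3
        rw [h2]
        set d := Module.finrank (ZMod p) (AA c ω W r) with hd
        rcases Nat.eq_zero_or_pos d with h0 | hpos
        · rw [h0] at h1 ⊢
          simp at h1 ⊢
          linarith
        · obtain ⟨d', hd'⟩ : ∃ d', d = d' + 1 := ⟨d - 1, by omega⟩
          rw [hd', Nat.add_sub_cancel] at h1
          rw [hd']
          have h4 : (0:ℝ) < (p:ℝ) ^ d' := by positivity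
          have h5 : ((p:ℝ) ^ (d'+1) - (p:ℝ) ^ d') * (2 / (p:ℝ)) ^ (d' + 1) =
              (p:ℝ) ^ d' * ((p - 1) * (2 / p)) * (2 / (p:ℝ)) ^ d' := by
            rw [pow_succ, pow_succ]; ring
          have h6 : (2 / (p:ℝ)) * ((p:ℝ) ^ (d'+1) - 1) = 2 * (p:ℝ) ^ d' - 2 / p := by
            rw [pow_succ]; field_simp
          rw [h5] at h1
          rw [h6]
          have h7 : ((p:ℝ) - 1) * (2 / p) = 2 - 2 / p := by field_simp
          rw [h7] at h1
          have hu0 : 0 < 2 / (p:ℝ) := by positivity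
          have hu1 : 2 / (p:ℝ) ≤ 1 / 4 := by
            rw [div_le_div_iff₀ hp0 (by norm_num)]; linarith
          rcases Nat.eq_zero_or_pos d' with h8 | h8
          · rw [h8] at h1 ⊢
            simp only [pow_zero] at h1 ⊢
            linarith
          · have h9 : (2 / (p:ℝ)) ^ d' ≤ 1 / 4 := by
              calc (2 / (p:ℝ)) ^ d' ≤ (2 / (p:ℝ)) ^ 1 :=
                    pow_le_pow_of_le_one hu0.le (by linarith) h8
                _ ≤ 1/4 := by rw [pow_one]; exact hu1
            have h10 : (p:ℝ) ^ d' * (2 - 2 / p) * (2 / (p:ℝ)) ^ d' ≤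
                (p:ℝ) ^ d' * 2 * (1/4) := by
              refine mul_le_mul ?_ h9 (by positivity) (by positivity)
              exact mul_le_mul_of_nonneg_left (by linarith) h4.le
            nlinarith
      refine (EE_mono Al 0 (r * M) hstep).trans ?_
      rw [EE_const_mul]
      calc (2 / (p:ℝ)) * EE Al 0 (r * M)
            (fun ω => (p:ℝ) ^ (Module.finrank (ZMod p) (AA c ω W r)) - 1) ω₀
          ≤ (2 / (p:ℝ)) * (2 * (p:ℝ) ^ K * (2 / (p:ℝ)) ^ (∑ a, W a + r + K - M * B)) :=
            mul_le_mul_of_nonneg_left ih' (by positivity)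
        _ = _ := by rw [pow_succ]; ring
    · have h1 : ∑ a, W a + (r+1) + K = M * B := by omega
      have h2 := hcrit (r+1) h1
      rw [h1, Nat.sub_self, pow_zero, mul_one]
      exact h2

end ExpA

end Pool.Agent.H470D4
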