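import Pool.Agent.H470D4.Lin
import Pool.Agent.H470D4.ProbStub

set_option autoImplicit false

namespace Pool.Agent.H470D4

open Finset

section Defs2
variable {p M B n : ℕ}

/-- `l + 1`. -/
def L1 (l : Fin (n+2) → ℕ) : Fin (n+2) → ℕ := fun a => l a + 1

lemma sum_L1 (l : Fin (n+2) → ℕ) : ∑ a, L1 l a = ∑ a, l a + (n+2) := by
  unfold L1
  rw [Finset.sum_add_distrib]
  simp

/-- `ℓ¹` distance. -/
def l1d (W L : Fin (n+2) → ℕ) : ℕ := ∑ a, ((W a - L a) + (L a - W a))

/-- The vector with the digits of the corner in the coordinate `0`. -/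
def xv (M B : ℕ) [NeZero p] (d : Dat p n) : Vec p M B := fun l => d.x 0 l

variable [Fact p.Prime]

/-- The part of the row `r` of level `l`. -/
noncomputable def TT (c : Flg p M B n) (d : Dat p n) (t : ℕ → ZMod p) (ω : Path p B) (r : ℕ)
    (l : Fin (n+2) → ℕ) : ℝ :=
  ∑ ν ∈ cell c d ω r l, d.psi r (t r - row M ω r (xv M B d - ν))

open Classical in
/-- Threshold windows with last block `β`. -/
noncomputable def Iset (c : Flg p M B n) (K : ℕ) (ω : Path p B) (r β : ℕ) :
    Finset (Fin (n+2) → ℕ) :=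
  (Fintype.piFinset (fun _ => range (M*B+1))).filter (fun W =>
    ∑ a, W a + r + K + 1 = M*B ∧ β * B ≤ W 0 ∧ W 0 < (β+1) * B ∧ AA c ω W r ⊓ Vb p M B (β+1) = ⊥)

open Classical in
/-- Forbidden values at time `j`. -/
noncomputable def PhiF (c : Flg p M B n) (K : ℕ) (j : ℕ) (ω : Path p B) : Finset (Blk p B) :=
  univ.filter (fun z => ∃ W ∈ Iset c K ω (j / M) (M - 1 - j % M),
    AA c ω W (j / M) ≤ LinearMap.ker (row M (Function.update ω j z) (j / M)))

/-- Allowed values at time `j`. -/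
noncomputable def Al (c : Flg p M B n) (K : ℕ) (j : ℕ) (ω : Path p B) : Finset (Blk p B) :=
  (PhiF c K j ω)ᶜ

/-- Interior levels of the row `r` and the block `β`, in the critical range. -/
def Mint (M B n K K₇ r β : ℕ) : Finset (Fin (n+2) → ℕ) :=
  (Lbox M B n).filter (fun l => β * B ≤ l 0 ∧ l 0 + K₇ + 1 ≤ (β + 1) * B ∧
    M * B ≤ ∑ a, l a + (n + 2) + r + K ∧ ∑ a, l a + r ≤ M * B)

/-- The increment. -/
noncomputable def xi (c : Flg p M B n) (K K₇ : ℕ) (d : Dat p n) (t : ℕ → ZMod p) (ω : Path p B)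
    (r β : ℕ) : ℝ := ∑ l ∈ Mint M B n K K₇ r β, TT c d t ω r l

/-- Good past of the row `r`. -/
def good (c : Flg p M B n) (K K₆ K₂ : ℕ) (ω : Path p B) (r : ℕ) : Prop :=
  (∀ W : Fin (n+2) → ℕ, (∀ a, W a ≤ M * B) → M * B ≤ ∑ a, W a + r + K + 1 →
    Module.finrank (ZMod p) (AA c ω W r) ≤ K₆) ∧
  (∀ W : Fin (n+2) → ℕ, (∀ a, W a ≤ M * B) → M * B + K₂ ≤ ∑ a, W a + r → AA c ω W r = ⊥)

end Defs2

section Shift
variable {p M B n : ℕ} [Fact p.Prime]

lemma kil_l1 (r : ℕ) (A : Submodule (ZMod p) (Vec p M B)) (ω : Path p B) :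
    kil M r A ω ≤ 1 := by unfold kil; split_ifs <;> norm_num

lemma kil_nn (r : ℕ) (A : Submodule (ZMod p) (Vec p M B)) (ω : Path p B) :
    0 ≤ kil M r A ω := by unfold kil; split_ifs <;> norm_num

lemma kil_eq_one {r : ℕ} {A : Submodule (ZMod p) (Vec p M B)} {ω : Path p B}
    (h : ∀ α ∈ A, row M ω r α = 0) : kil M r A ω = 1 := by
  unfold kil; rw [if_pos]; exact fun α hα => h α hα

lemma kil_eq_zero {r : ℕ} {A : Submodule (ZMod p) (Vec p M B)} {ω : Path p B}
    (h : ∃ α ∈ A, row M ω r α ≠ 0) : kil M r A ω = 0 := by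
  unfold kil; rw [if_neg]
  intro h1
  obtain ⟨α, hα, h2⟩ := h
  exact h2 (h1 hα)

lemma kil_cases (r : ℕ) (A : Submodule (ZMod p) (Vec p M B)) (ω : Path p B) :
    (kil M r A ω = 1 ∧ ∀ α ∈ A, row M ω r α = 0) ∨
    (kil M r A ω = 0 ∧ ∃ α ∈ A, row M ω r α ≠ 0) := by
  by_cases h : ∀ α ∈ A, row M ω r α = 0
  · exact Or.inl ⟨kil_eq_one h, h⟩
  · push Not at h
    exact Or.inr ⟨kil_eq_zero h, h⟩

lemma kil_sup (r : ℕ) (A A' : Submodule (ZMod p) (Vec p M B)) (ω : Path p B) :
    kil M r (A ⊔ A') ω = kil M r A ω * kil M r A' ω := by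
  unfold kil
  by_cases h1 : A ≤ LinearMap.ker (row M ω r) <;> by_cases h2 : A' ≤ LinearMap.ker (row M ω r)
  · rw [if_pos h1, if_pos h2, if_pos (sup_le h1 h2)]; norm_num
  · rw [if_neg h2, if_neg (fun h => h2 (le_sup_right.trans h))]; norm_num
  · rw [if_neg h1, if_neg (fun h => h1 (le_sup_left.trans h))]; norm_num
  · rw [if_neg h1, if_neg (fun h => h1 (le_sup_left.trans h))]; norm_num

/-- Existence of the translation direction. -/
lemma exists_dir (b : Fin M) (A : Submodule (ZMod p) (Vec p M B)) (hA : A ≤ Vb p M B b)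
    (δ : Vec p M B) (hδ : δ ∈ Vb p M B b) (hex : ∀ α ∈ A, δ - α ∉ Vb p M B ((b:ℕ)+1)) :
    ∃ z₁ : Blk p B, (∀ α ∈ A, ∑ i, z₁ i * α (pos b i) = 0) ∧ ∑ i, z₁ i * δ (pos b i) = 1 := by
  have hu : Rb p B b δ ∉ A.map (Rb p B b) := by
    rintro ⟨α, hα, he⟩
    apply hex α hα
    rw [mem_Vb_succ (Submodule.sub_mem _ hδ (hA hα)), map_sub, he, sub_self]
  obtain ⟨f, hf, hf'⟩ := Submodule.exists_le_ker_of_notMem hu
  have hrep : ∀ v : Blk p B, f v = ∑ i, f (Pi.single i 1) * v i := by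
    intro v
    rw [LinearMap.pi_apply_eq_sum_univ f v]
    apply Finset.sum_congr rfl
    intro i _
    rw [smul_eq_mul, mul_comm]
    congr 2
    funext j
    rw [Pi.single_apply]
    simp only [eq_comm]
  refine ⟨fun i => (f (Rb p B b δ))⁻¹ * f (Pi.single i 1), ?_, ?_⟩
  · intro α hα
    have h1 : f (Rb p B b α) = 0 := hf' (Submodule.mem_map_of_mem hα)
    rw [hrep] at h1
    simp only [mul_assoc, ← Finset.mul_sum]
    have h2 : ∑ i, f (Pi.single i 1) * α (pos b i) = 0 := h1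
    rw [h2, mul_zero]
  · simp only [mul_assoc, ← Finset.mul_sum]
    have h2 : ∑ i, f (Pi.single i 1) * δ (pos b i) = f (Rb p B b δ) := (hrep _).symm
    rw [h2, inv_mul_cancel₀ hf]

/-- **Exact mean zero** over the block `b`, even when the row is conditioned to vanish on `A`. -/
lemma sum_shift_zero (ω : Path p B) (r : ℕ) (b : Fin M) (A : Submodule (ZMod p) (Vec p M B))
    (hA : A ≤ Vb p M B b) (δ : Vec p M B) (hδ : δ ∈ Vb p M B b)
    (hex : ∀ α ∈ A, δ - α ∉ Vb p M B ((b:ℕ)+1)) (ψ : ZMod p → ℝ) (hψ : ∑ v, ψ v = 0) (t : ZMod p) :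
    ∑ z : Blk p B, ψ (t - row M (Function.update ω (r * M + (M - 1 - b)) z) r δ) *
      kil M r A (Function.update ω (r * M + (M - 1 - b)) z) = 0 := by
  obtain ⟨z₁, h1, h2⟩ := exists_dir b A hA δ hδ hex
  set j := r * M + (M - 1 - (b:ℕ)) with hj
  have hshift : ∀ (s : ZMod p) (z : Blk p B) (ν : Vec p M B),
      row M (Function.update ω j (z + s • z₁)) r ν =
        row M (Function.update ω j z) r ν + s * ∑ i, z₁ i * ν (pos b i) := by
    intro s z ν
    rw [row_update, row_update ω r b z, Finset.mul_sum]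
    have : ∑ i, (z + s • z₁) i * ν (pos b i) = ∑ i, z i * ν (pos b i) +
        ∑ i, s * (z₁ i * ν (pos b i)) := by
      rw [← Finset.sum_add_distrib]
      apply Finset.sum_congr rfl
      intro i _
      simp only [Pi.add_apply, Pi.smul_apply, smul_eq_mul]
      ring
    rw [this]
    ring
  have hkil : ∀ (s : ZMod p) (z : Blk p B),
      kil M r A (Function.update ω j (z + s • z₁)) = kil M r A (Function.update ω j z) := by
    intro s z
    have e : ∀ α ∈ A, row M (Function.update ω j (z + s • z₁)) r α =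
        row M (Function.update ω j z) r α := by
      intro α hα
      rw [hshift, h1 α hα, mul_zero, add_zero]
    rcases kil_cases r A (Function.update ω j z) with ⟨h3, h4⟩ | ⟨h3, α, hα, h4⟩
    · rw [h3]
      exact kil_eq_one (fun α hα => by rw [e α hα, h4 α hα])
    · rw [h3]
      exact kil_eq_zero ⟨α, hα, by rwa [e α hα]⟩
  set S := ∑ z : Blk p B, ψ (t - row M (Function.update ω j z) r δ) *
      kil M r A (Function.update ω j z) with hS
  have h3 : ∀ s : ZMod p, S = ∑ z : Blk p B, ψ (t - row M (Function.update ω j z) r δ - s) *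
      kil M r A (Function.update ω j z) := by
    intro s
    rw [hS, ← Equiv.sum_comp (Equiv.addRight (s • z₁))]
    apply Finset.sum_congr rfl
    intro z _
    simp only [Equiv.coe_addRight]
    rw [hkil, hshift, h2, mul_one, sub_add_eq_sub_sub]
  have h4 : (p : ℝ) * S = 0 := by
    have : ∑ s : ZMod p, S = (p:ℝ) * S := by
      rw [Finset.sum_const, Finset.card_univ, ZMod.card, nsmul_eq_mul]
    rw [← this, Finset.sum_congr rfl (fun s _ => h3 s), Finset.sum_comm]
    apply Finset.sum_eq_zero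
    intro z _
    rw [← Finset.sum_mul]
    have : ∑ s : ZMod p, ψ (t - row M (Function.update ω j z) r δ - s) = 0 := by
      rw [← hψ]
      exact Equiv.sum_comp (Equiv.subLeft (t - row M (Function.update ω j z) r δ)) ψ
    rw [this, zero_mul]
  have hp : (p:ℝ) ≠ 0 := by
    exact_mod_cast (Fact.out : p.Prime).ne_zero
  exact (mul_eq_zero.1 h4).resolve_left hp

end Shift

section Cell
variable {p M B n : ℕ} [Fact p.Prime]

lemma mem_cell {c : Flg p M B n} {d : Dat p n} {ω : Path p B} {r : ℕ} {l : Fin (n+2) → ℕ}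
    {ν : Vec p M B} : ν ∈ cell c d ω r l ↔ Lev c d ν l ∧ ∀ j < r, row M ω j ν = d.y j := by
  classical
  simp [cell]

lemma cell_dep (c : Flg p M B n) (d : Dat p n) (r : ℕ) (l : Fin (n+2) → ℕ) :
    DepLT (r * M) (fun ω : Path p B => cell c d ω r l) := by
  intro ω ω' h
  ext ν
  rw [mem_cell, mem_cell]
  constructor
  · rintro ⟨h1, h2⟩
    exact ⟨h1, fun j hj => by rw [← row_dep hj h]; exact h2 j hj⟩
  · rintro ⟨h1, h2⟩
    exact ⟨h1, fun j hj => by rw [row_dep hj h]; exact h2 j hj⟩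

lemma cell_shift {c : Flg p M B n} {d : Dat p n} {ω : Path p B} {r : ℕ} {l : Fin (n+2) → ℕ}
    {ν α : Vec p M B} (hα : α ∈ AA c ω (L1 l) r) (hν : ν ∈ cell c d ω r l) :
    ν + α ∈ cell c d ω r l := by
  rw [mem_cell] at *
  obtain ⟨h1, h2⟩ := hν
  obtain ⟨h3, h4⟩ := hα
  refine ⟨fun a => ⟨fun j hj => ?_, ?_⟩, fun j hj => ?_⟩
  · rw [map_add, (h1 a).1 j hj, h3 a j (by unfold L1; omega), add_zero]
  · rw [map_add, h3 a (l a) (by unfold L1; omega), add_zero]
    exact (h1 a).2
  · rw [map_add, h2 j hj, h4 j hj, add_zero]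

/-- A point of the level `l` differs from the corner exactly from the position `l 0` on. -/
lemma sub_mem_Vb {c : Flg p M B n} (hc : IsFlags c) {d : Dat p n} {ν : Vec p M B}
    {l : Fin (n+2) → ℕ} (h : Lev c d ν l) {β : ℕ} (hβ : β * B ≤ l 0) :
    xv M B d - ν ∈ Vb p M B β := by
  intro i hi
  have h1 := (h 0).1 i (lt_of_lt_of_le hi hβ)
  rw [hc.zero] at h1
  simp [xv, h1]

lemma sub_not_mem_Vb {c : Flg p M B n} (hc : IsFlags c) {d : Dat p n} {ν : Vec p M B}
    {l : Fin (n+2) → ℕ} (h : Lev c d ν l) {β : ℕ} (hl : l 0 < M * B) (hβ : l 0 < β * B) :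
    xv M B d - ν ∉ Vb p M B β := by
  intro h1
  have h2 := h1 ⟨l 0, hl⟩ hβ
  have h3 := (h 0).2
  rw [show c 0 (l 0) ν = ν ⟨l 0, hl⟩ from hc.zero ⟨l 0, hl⟩ ν] at h3
  have h4 : ν ⟨l 0, hl⟩ = d.x 0 (l 0) := by
    have : d.x 0 (l 0) - ν ⟨l 0, hl⟩ = 0 := h2
    exact (sub_eq_zero.1 this).symm
  rw [h4] at h3
  exact d.nlow 0 (l 0) h3

lemma cell_card_le (c : Flg p M B n) (d : Dat p n) (ω : Path p B) (r : ℕ) (l : Fin (n+2) → ℕ) :
    (cell c d ω r l).card ≤ p ^ (n+2) * p ^ Module.finrank (ZMod p) (AA c ω (L1 l) r) := by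
  classical
  have h1 := Finset.card_le_mul_card_image_of_maps_to (s := cell c d ω r l)
    (t := (univ : Finset (Fin (n+2) → ZMod p))) (f := fun ν a => c a (l a) ν)
    (fun _ _ => Finset.mem_univ _) (p ^ Module.finrank (ZMod p) (AA c ω (L1 l) r)) (by
      intro u _
      apply card_le_of_diff
      intro ν hν ν' hν'
      rw [Finset.mem_filter, mem_cell] at hν hν'
      obtain ⟨⟨h1, h2⟩, h3⟩ := hν
      obtain ⟨⟨h1', h2'⟩, h3'⟩ := hν'
      refine ⟨fun a j hj => ?_, fun j hj => ?_⟩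
      · rw [map_sub]
        rcases Nat.lt_succ_iff_lt_or_eq.1 (show j < l a + 1 from hj) with h | h
        · rw [(h1' a).1 j h, (h1 a).1 j h, sub_self]
        · subst h
          have e1 := congrFun h3 a
          have e2 := congrFun h3' a
          rw [show c a (l a) ν' = u a from e2, show c a (l a) ν = u a from e1, sub_self]
      · rw [map_sub, h2' j hj, h2 j hj, sub_self])
  refine h1.trans (le_of_eq ?_)
  rw [Finset.card_univ, Fintype.card_fun, ZMod.card, Fintype.card_fin]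
  ring

/-- The level part vanishes unless the row vanishes on the direction of the cells. -/
lemma TT_bound (c : Flg p M B n) (d : Dat p n) (t : ℕ → ZMod p) (ω : Path p B) (r : ℕ)
    (l : Fin (n+2) → ℕ) :
    |TT c d t ω r l| ≤ (p:ℝ) ^ (n+2) * (p:ℝ) ^ Module.finrank (ZMod p) (AA c ω (L1 l) r) *
      kil M r (AA c ω (L1 l) r) ω := by
  rcases kil_cases r (AA c ω (L1 l) r) ω with ⟨h1, _⟩ | ⟨h1, α, hα, h2⟩
  · rw [h1, mul_one]
    unfold TT
    refine (Finset.abs_sum_le_sum_abs _ _).trans ?_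
    refine (Finset.sum_le_sum (fun ν _ => d.psi_le r _)).trans ?_
    rw [Finset.sum_const, nsmul_eq_mul, mul_one]
    exact_mod_cast cell_card_le c d ω r l
  · rw [h1, mul_zero]
    refine le_of_eq ?_
    rw [abs_eq_zero]
    set α' := (row M ω r α)⁻¹ • α with hα'
    have hα'm : α' ∈ AA c ω (L1 l) r := Submodule.smul_mem _ _ hα
    have hrow : row M ω r α' = 1 := by
      rw [hα', map_smul, smul_eq_mul, inv_mul_cancel₀ h2]
    have h3 : ∀ s : ZMod p, TT c d t ω r l =
        ∑ ν ∈ cell c d ω r l, d.psi r (t r - row M ω r (xv M B d - ν) + s) := by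
      intro s
      unfold TT
      refine Finset.sum_nbij' (fun ν => ν - s • α') (fun ν => ν + s • α') ?_ ?_ ?_ ?_ ?_
      · intro ν hν
        have := cell_shift (Submodule.smul_mem _ (-s) hα'm) hν
        rwa [neg_smul, ← sub_eq_add_neg] at this
      · intro ν hν
        exact cell_shift (Submodule.smul_mem _ s hα'm) hν
      · intro ν _; simp
      · intro ν _; simp
      · intro ν _
        congr 1
        have : row M ω r (xv M B d - (ν - s • α')) = row M ω r (xv M B d - ν) + s := by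
          rw [show xv M B d - (ν - s • α') = (xv M B d - ν) + s • α' by abel, map_add, map_smul,
            hrow, smul_eq_mul, mul_one]
        rw [this]
        ring
    have h4 : (p : ℝ) * TT c d t ω r l = 0 := by
      have : ∑ _s : ZMod p, TT c d t ω r l = (p:ℝ) * TT c d t ω r l := by
        rw [Finset.sum_const, Finset.card_univ, ZMod.card, nsmul_eq_mul]
      rw [← this, Finset.sum_congr rfl (fun s _ => h3 s), Finset.sum_comm]
      apply Finset.sum_eq_zero
      intro ν _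
      rw [← d.psi_sum r]
      exact Equiv.sum_comp (Equiv.addLeft (t r - row M ω r (xv M B d - ν))) (d.psi r)
    have hp : (p:ℝ) ≠ 0 := by exact_mod_cast (Fact.out : p.Prime).ne_zero
    exact (mul_eq_zero.1 h4).resolve_left hp

end Cell

end Pool.Agent.H470D4
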