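import Pool.Agent.H470D4.Bias0

set_option autoImplicit false

namespace Pool.Agent.H470D4

open Finset

set_option linter.unusedSectionVars false

section Exc
variable {p M B n : ℕ} [Fact p.Prime]

lemma agr_upd (ω : Path p B) {a j : ℕ} (h : a ≤ j) (z : Blk p B) :
    Agr a ω (Function.update ω j z) := by
  intro i hi
  rw [Function.update_of_ne (by omega)]

lemma AA_update (c : Flg p M B n) (ω : Path p B) (W : Fin (n+2) → ℕ) {r j : ℕ} (h : r * M ≤ j)
    (z : Blk p B) : AA c (Function.update ω j z) W r = AA c ω W r :=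
  (AA_dep c W r _ _ (agr_upd ω h z)).symm

lemma cell_update (c : Flg p M B n) (d : Dat p n) (ω : Path p B) (l : Fin (n+2) → ℕ) {r j : ℕ}
    (h : r * M ≤ j) (z : Blk p B) : cell c d (Function.update ω j z) r l = cell c d ω r l :=
  (cell_dep c d r l _ _ (agr_upd ω h z)).symm

lemma AA_le_Vb {c : Flg p M B n} (hc : IsFlags c) (ω : Path p B) {W : Fin (n+2) → ℕ} {r β : ℕ}
    (h : β * B ≤ W 0) : AA c ω W r ≤ Vb p M B β := by
  intro ν hν i hi
  have := hν.1 0 i (lt_of_lt_of_le hi h)
  rwa [hc.zero] at this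

/-- The window `Λ`. -/
def Lam (B s₅ : ℕ) (b : ℕ) (l : Fin (n+2) → ℕ) : Fin (n+2) → ℕ :=
  fun a => if a = 0 then (b+1) * B else l a + 1 - s₅

/-- The window `Λ'`. -/
def Lam' (s₅ : ℕ) (l : Fin (n+2) → ℕ) : Fin (n+2) → ℕ :=
  fun a => if a = 0 then 0 else l a + 1 - s₅

open Classical in
lemma exc_card {c : Flg p M B n} (hc : IsFlags c) (d : Dat p n) (ω : Path p B) (r : ℕ) (b : Fin M)
    (l : Fin (n+2) → ℕ) (s₅ : ℕ) (hs : 1 ≤ s₅) (A : Submodule (ZMod p) (Vec p M B))
    (hA : A ≤ AA c ω (Lam' s₅ l) r) (hΛ : AA c ω (Lam B s₅ b l) r = ⊥) :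
    ((cell c d ω r l).filter (fun ν => ∃ α ∈ A, xv M B d - ν - α ∈ Vb p M B ((b:ℕ)+1))).card ≤
      p ^ Module.finrank (ZMod p) A := by
  apply card_le_of_diff
  intro ν hν ν' hν'
  rw [Finset.mem_filter] at hν hν'
  obtain ⟨h1, α, hα, h2⟩ := hν
  obtain ⟨h1', α', hα', h2'⟩ := hν'
  rw [mem_cell] at h1 h1'
  obtain ⟨h3, h4⟩ := h1
  obtain ⟨h3', h4'⟩ := h1'
  have hw : (ν' + α') - (ν + α) ∈ AA c ω (Lam B s₅ b l) r := by
    refine ⟨fun a j hj => ?_, fun j hj => ?_⟩
    · by_cases ha : a = 0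
      · subst ha
        have hj' : j < ((b:ℕ)+1) * B := by simpa [Lam] using hj
        have hle : ((b:ℕ)+1) * B ≤ M * B := Nat.mul_le_mul_right _ b.2
        have hjm : j < M * B := lt_of_lt_of_le hj' hle
        have e1 := h2 ⟨j, hjm⟩ hj'
        have e2 := h2' ⟨j, hjm⟩ hj'
        rw [show c 0 j (ν' + α' - (ν + α)) = (ν' + α' - (ν + α)) ⟨j, hjm⟩ from
          hc.zero ⟨j, hjm⟩ _]
        simp only [Pi.sub_apply, Pi.add_apply] at *
        linear_combination e1 - e2
      · have hj' : j < l a + 1 - s₅ := by simpa [Lam, ha] using hj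
        have hjl : j < l a := by omega
        have e1 := (hA hα).1 a j (by simpa [Lam', ha] using hj')
        have e2 := (hA hα').1 a j (by simpa [Lam', ha] using hj')
        rw [map_sub, map_add, map_add, (h3 a).1 j hjl, (h3' a).1 j hjl, e1, e2]
        ring
    · have e1 := (hA hα).2 j hj
      have e2 := (hA hα').2 j hj
      rw [map_sub, map_add, map_add, h4 j hj, h4' j hj, e1, e2]
      ring
  rw [hΛ, Submodule.mem_bot] at hw
  have : ν' - ν = α - α' := by
    have h5 : ν' + α' = ν + α := sub_eq_zero.1 hw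
    rw [sub_eq_sub_iff_add_eq_add, h5, add_comm]
  rw [this]
  exact Submodule.sub_mem _ hα hα'

lemma near_sum {c : Flg p M B n} (hc : IsFlags c) (d : Dat p n) (t : ℕ → ZMod p) (ω : Path p B)
    (r : ℕ) (b : Fin M) (l : Fin (n+2) → ℕ) (s₅ : ℕ) (hs : 1 ≤ s₅)
    (A : Submodule (ZMod p) (Vec p M B)) (hAb : A ≤ Vb p M B b)
    (hA : A ≤ AA c ω (Lam' s₅ l) r) (hΛ : AA c ω (Lam B s₅ b l) r = ⊥) (hl : (b:ℕ) * B ≤ l 0) :
    |∑ z : Blk p B, TT c d t (Function.update ω (r * M + (M - 1 - b)) z) r l *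
      kil M r A (Function.update ω (r * M + (M - 1 - b)) z)| ≤
      (p:ℝ) ^ Module.finrank (ZMod p) A *
        ∑ z : Blk p B, kil M r A (Function.update ω (r * M + (M - 1 - b)) z) := by
  classical
  set j := r * M + (M - 1 - (b:ℕ)) with hj
  have e1 : ∑ z : Blk p B, TT c d t (Function.update ω j z) r l *
      kil M r A (Function.update ω j z) = ∑ ν ∈ cell c d ω r l, ∑ z : Blk p B,
        d.psi r (t r - row M (Function.update ω j z) r (xv M B d - ν)) *
          kil M r A (Function.update ω j z) := by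
    rw [Finset.sum_comm]
    apply Finset.sum_congr rfl
    intro z _
    unfold TT
    rw [cell_update c d ω l (by omega) z, Finset.sum_mul]
  rw [e1]
  set P : Vec p M B → Prop := fun ν => ∃ α ∈ A, xv M B d - ν - α ∈ Vb p M B ((b:ℕ)+1) with hP
  rw [← Finset.sum_filter_add_sum_filter_not (cell c d ω r l) P]
  have e2 : ∑ ν ∈ (cell c d ω r l).filter (fun ν => ¬ P ν), ∑ z : Blk p B,
        d.psi r (t r - row M (Function.update ω j z) r (xv M B d - ν)) *
          kil M r A (Function.update ω j z) = 0 := by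
    apply Finset.sum_eq_zero
    intro ν hν
    rw [Finset.mem_filter, mem_cell] at hν
    apply sum_shift_zero ω r b A hAb (xv M B d - ν) (sub_mem_Vb hc hν.1.1 hl)
    · intro α hα h
      exact hν.2 ⟨α, hα, h⟩
    · exact d.psi_sum r
  rw [e2, add_zero]
  refine (Finset.abs_sum_le_sum_abs _ _).trans ?_
  have e3 : ∀ ν ∈ (cell c d ω r l).filter P, |∑ z : Blk p B,
        d.psi r (t r - row M (Function.update ω j z) r (xv M B d - ν)) *
          kil M r A (Function.update ω j z)| ≤ ∑ z : Blk p B, kil M r A (Function.update ω j z) := by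
    intro ν _
    refine (Finset.abs_sum_le_sum_abs _ _).trans (Finset.sum_le_sum fun z _ => ?_)
    rw [abs_mul, abs_of_nonneg (kil_nn r A _)]
    calc _ ≤ 1 * kil M r A (Function.update ω j z) :=
          mul_le_mul_of_nonneg_right (d.psi_le r _) (kil_nn r A _)
      _ = _ := one_mul _
  refine (Finset.sum_le_sum e3).trans ?_
  rw [Finset.sum_const, nsmul_eq_mul]
  apply mul_le_mul_of_nonneg_right
  · exact_mod_cast exc_card hc d ω r b l s₅ hs A hA hΛ
  · exact Finset.sum_nonneg fun z _ => kil_nn r A _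

lemma far_sum (c : Flg p M B n) (d : Dat p n) (t : ℕ → ZMod p) (ω : Path p B)
    (r : ℕ) (b : Fin M) (l : Fin (n+2) → ℕ) (A : Submodule (ZMod p) (Vec p M B)) :
    ∑ z : Blk p B, |TT c d t (Function.update ω (r * M + (M - 1 - b)) z) r l| *
      kil M r A (Function.update ω (r * M + (M - 1 - b)) z) ≤
      (p:ℝ) ^ (n+2) * (p:ℝ) ^ Module.finrank (ZMod p) (AA c ω (L1 l) r) *
        ∑ z : Blk p B, kil M r (AA c ω (L1 l) r ⊔ A)
          (Function.update ω (r * M + (M - 1 - b)) z) := by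
  rw [Finset.mul_sum]
  apply Finset.sum_le_sum
  intro z _
  have h1 := TT_bound c d t (Function.update ω (r * M + (M - 1 - b)) z) r l
  rw [AA_update c ω (L1 l) (by omega) z] at h1
  rw [kil_sup, ← mul_assoc]
  exact mul_le_mul_of_nonneg_right h1 (kil_nn r A _)

end Exc

section Bias
variable {p M B n : ℕ} [Fact p.Prime]

/-- The sum of the windows of a family. -/
noncomputable def supA (c : Flg p M B n) (ω : Path p B) (r : ℕ) (S : Finset (Fin (n+2) → ℕ)) :
    Submodule (ZMod p) (Vec p M B) := S.sup (fun W => AA c ω W r)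

lemma kil_supA (c : Flg p M B n) (ω ω' : Path p B) (r : ℕ) (S : Finset (Fin (n+2) → ℕ)) :
    kil M r (supA c ω r S) ω' = ∏ W ∈ S, kil M r (AA c ω W r) ω' := by
  classical
  induction S using Finset.induction_on with
  | empty =>
    rw [Finset.prod_empty]
    apply kil_eq_one
    intro α hα
    have : α = 0 := by simpa [supA] using hα
    rw [this, map_zero]
  | insert a s ha ih =>
    rw [Finset.prod_insert ha, ← ih, ← kil_sup]
    congr 1
    unfold supA
    rw [Finset.sup_insert]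

lemma supA_le {c : Flg p M B n} {ω : Path p B} {r : ℕ} {S : Finset (Fin (n+2) → ℕ)}
    {A : Submodule (ZMod p) (Vec p M B)} (h : ∀ W ∈ S, AA c ω W r ≤ A) : supA c ω r S ≤ A :=
  Finset.sup_le h

/-- Indicator of the forbidden set. -/
lemma ind_Phi {c : Flg p M B n} {K r : ℕ} {b : Fin M} {ω : Path p B} (z : Blk p B)
    [Decidable (z ∈ PhiF c K (r * M + (M - 1 - b)) ω)] :
    (if z ∈ PhiF c K (r * M + (M - 1 - b)) ω then (1:ℝ) else 0) =
      1 - ∏ W ∈ Iset c K ω r b, (1 - kil M r (AA c ω W r)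
        (Function.update ω (r * M + (M - 1 - b)) z)) := by
  classical
  have hM : 0 < M := lt_of_le_of_lt (Nat.zero_le _) b.2
  have hb := b.2
  have h1 : (r * M + (M - 1 - (b:ℕ))) / M = r := by
    rw [mul_comm, Nat.mul_add_div hM, Nat.div_eq_of_lt (by omega), add_zero]
  have h2 : (r * M + (M - 1 - (b:ℕ))) % M = M - 1 - b := by
    rw [mul_comm, Nat.mul_add_mod, Nat.mod_eq_of_lt (by omega)]
  have h3 : M - 1 - (M - 1 - (b:ℕ)) = b := by omega
  have hmem : z ∈ PhiF c K (r * M + (M - 1 - b)) ω ↔ ∃ W ∈ Iset c K ω r b,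
      AA c ω W r ≤ LinearMap.ker (row M (Function.update ω (r * M + (M - 1 - b)) z) r) := by
    have h4 : ∀ j : ℕ, z ∈ PhiF c K j ω ↔ ∃ W ∈ Iset c K ω (j / M) (M - 1 - j % M),
        AA c ω W (j / M) ≤ LinearMap.ker (row M (Function.update ω j z) (j / M)) := by
      intro j
      simp only [PhiF, Finset.mem_filter, Finset.mem_univ, true_and]
    rw [h4, h1, h2, h3]
  by_cases h : ∃ W ∈ Iset c K ω r b,
      AA c ω W r ≤ LinearMap.ker (row M (Function.update ω (r * M + (M - 1 - b)) z) r)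
  · rw [if_pos (hmem.2 h)]
    obtain ⟨W, hW, hk⟩ := h
    rw [Finset.prod_eq_zero hW, sub_zero]
    rw [kil_eq_one (fun α hα => hk hα), sub_self]
  · rw [if_neg (fun h' => h (hmem.1 h'))]
    rw [Finset.prod_eq_one, sub_self]
    intro W hW
    have : kil M r (AA c ω W r) (Function.update ω (r * M + (M - 1 - b)) z) = 0 := by
      unfold kil
      rw [if_neg]
      exact fun hk => h ⟨W, hW, hk⟩
    rw [this, sub_zero]

/-- `1 - ∏ (1 - a_i) ≤ ∑ a_i` for `0 ≤ a_i ≤ 1`. -/
lemma one_sub_prod_le {S : Type*} (s : Finset S) (a : S → ℝ) (h0 : ∀ i ∈ s, 0 ≤ a i)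
    (h1 : ∀ i ∈ s, a i ≤ 1) :
    0 ≤ ∏ i ∈ s, (1 - a i) ∧ ∏ i ∈ s, (1 - a i) ≤ 1 ∧ 1 - ∏ i ∈ s, (1 - a i) ≤ ∑ i ∈ s, a i := by
  classical
  induction s using Finset.induction_on with
  | empty => simp
  | insert x s hx ih =>
    obtain ⟨h2, h3, h4⟩ := ih (fun i hi => h0 i (Finset.mem_insert_of_mem hi))
      (fun i hi => h1 i (Finset.mem_insert_of_mem hi))
    have h5 := h0 x (Finset.mem_insert_self _ _)
    have h6 := h1 x (Finset.mem_insert_self _ _)
    rw [Finset.prod_insert hx, Finset.sum_insert hx]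
    refine ⟨by nlinarith, by nlinarith, by nlinarith⟩

open Classical in
/-- The (predictable, corner independent) majorant of the bias. -/
noncomputable def Bmaj (c : Flg p M B n) (K K₇ s₅ : ℕ) (ω : Path p B) (r : ℕ) (β : ℕ) : ℝ :=
  ∑ l ∈ Mint M B n K K₇ r β,
    ((∑ W ∈ (Iset c K ω r β).filter (fun W => ¬ l1d W (L1 l) ≤ s₅),
        (p:ℝ) ^ (n+2) * (p:ℝ) ^ Module.finrank (ZMod p) (AA c ω (L1 l) r) *
          UP M r (M - 1 - β) (AA c ω (L1 l) r ⊔ AA c ω W r) ω) +
      ∑ S ∈ ((Iset c K ω r β).filter (fun W => l1d W (L1 l) ≤ s₅)).powerset.erase ∅,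
        (p:ℝ) ^ Module.finrank (ZMod p) (supA c ω r S) * UP M r (M - 1 - β) (supA c ω r S) ω)

lemma mem_Iset {c : Flg p M B n} {K : ℕ} {ω : Path p B} {r β : ℕ} {W : Fin (n+2) → ℕ} :
    W ∈ Iset c K ω r β ↔ (∀ a, W a ≤ M * B) ∧ ∑ a, W a + r + K + 1 = M*B ∧ β * B ≤ W 0 ∧
      W 0 < (β+1) * B ∧ AA c ω W r ⊓ Vb p M B (β+1) = ⊥ := by
  unfold Iset
  rw [Finset.mem_filter, Fintype.mem_piFinset]
  simp only [Finset.mem_range, Nat.lt_succ_iff]

lemma mem_Mint {K K₇ r β : ℕ} {l : Fin (n+2) → ℕ} :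
    l ∈ Mint M B n K K₇ r β ↔ (∀ a, l a < M * B) ∧ β * B ≤ l 0 ∧ l 0 + K₇ + 1 ≤ (β + 1) * B ∧
    M * B ≤ ∑ a, l a + (n + 2) + r + K ∧ ∑ a, l a + r ≤ M * B := by
  unfold Mint Lbox
  rw [Finset.mem_filter, Fintype.mem_piFinset]
  simp only [Finset.mem_range]

lemma near_le {W L : Fin (n+2) → ℕ} {s : ℕ} (h : l1d W L ≤ s) (a : Fin (n+2)) : L a - s ≤ W a := by
  have h1 : (W a - L a) + (L a - W a) ≤ l1d W L :=
    Finset.single_le_sum (f := fun a => (W a - L a) + (L a - W a)) (fun _ _ => Nat.zero_le _)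
      (Finset.mem_univ a)
  omega

lemma Lam_sum {K K₂ K₇ s₅ r : ℕ} {b : Fin M} {l : Fin (n+2) → ℕ}
    (hl : l ∈ Mint M B n K K₇ r b) (hK : K + K₂ + (n+1) * s₅ ≤ K₇) :
    (∀ a, Lam B s₅ (b:ℕ) l a ≤ M * B) ∧ M * B + K₂ ≤ ∑ a, Lam B s₅ (b:ℕ) l a + r := by
  rw [mem_Mint] at hl
  obtain ⟨h1, h2, h3, h4, h5⟩ := hl
  constructor
  · intro a
    unfold Lam
    split_ifs with ha
    · exact Nat.mul_le_mul_right _ b.2
    · have := h1 a
      omega
  · have e1 : ∑ a, Lam B s₅ (b:ℕ) l a = ((b:ℕ)+1) * B + ∑ a : Fin (n+1), (l a.succ + 1 - s₅) := by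
      rw [Fin.sum_univ_succ]
      rfl
    have e2 : ∑ a, l a = l 0 + ∑ a : Fin (n+1), l a.succ := by
      rw [Fin.sum_univ_succ]
    have e3 : ∑ a : Fin (n+1), (l a.succ + 1) ≤ ∑ a : Fin (n+1), (l a.succ + 1 - s₅) + (n+1) * s₅ := by
      have : ∑ a : Fin (n+1), (l a.succ + 1) ≤ ∑ a : Fin (n+1), ((l a.succ + 1 - s₅) + s₅) :=
        Finset.sum_le_sum fun a _ => by omega
      rw [Finset.sum_add_distrib (f := fun a : Fin (n+1) => l a.succ + 1 - s₅), Finset.sum_const,
        Finset.card_univ, Fintype.card_fin, smul_eq_mul] at this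
      exact this
    rw [Finset.sum_add_distrib, Finset.sum_const, Finset.card_univ, Fintype.card_fin,
      smul_eq_mul, mul_one] at e3
    omega

/-- **The bias lemma.** -/
theorem bias_main {c : Flg p M B n} (hc : IsFlags c) {K K₆ K₂ K₇ s₅ : ℕ} (hs : 1 ≤ s₅)
    (hK : K + K₂ + (n+1) * s₅ ≤ K₇) (d : Dat p n) (t : ℕ → ZMod p) (ω : Path p B) (r : ℕ)
    (b : Fin M) (hg : good c K K₆ K₂ ω r) :
    |∑ z ∈ PhiF c K (r * M + (M - 1 - b)) ω,
      xi c K K₇ d t (Function.update ω (r * M + (M - 1 - b)) z) r b| ≤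
      (p:ℝ) ^ B * Bmaj c K K₇ s₅ ω r b := by
  classical
  set j := r * M + (M - 1 - (b:ℕ)) with hj
  have hUP : ∀ A : Submodule (ZMod p) (Vec p M B),
      (p:ℝ) ^ B * UP M r (M - 1 - (b:ℕ)) A ω = ∑ z : Blk p B, kil M r A (Function.update ω j z) := by
    intro A
    unfold UP
    have : (p:ℝ) ^ B ≠ 0 := pow_ne_zero _ (by exact_mod_cast (Fact.out : p.Prime).ne_zero)
    rw [mul_div_cancel₀ _ this]
  have e1 : ∑ z ∈ PhiF c K j ω, xi c K K₇ d t (Function.update ω j z) r b =
      ∑ l ∈ Mint M B n K K₇ r b, ∑ z : Blk p B, TT c d t (Function.update ω j z) r l *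
        (1 - ∏ W ∈ Iset c K ω r b, (1 - kil M r (AA c ω W r) (Function.update ω j z))) := by
    rw [Finset.sum_comm]
    rw [← Finset.sum_filter_add_sum_filter_not univ (fun z => z ∈ PhiF c K j ω)
      (fun z => ∑ l ∈ Mint M B n K K₇ r b, TT c d t (Function.update ω j z) r l *
        (1 - ∏ W ∈ Iset c K ω r b, (1 - kil M r (AA c ω W r) (Function.update ω j z))))]
    have e2 : ∀ z ∈ univ.filter (fun z => ¬ z ∈ PhiF c K j ω),
        ∑ l ∈ Mint M B n K K₇ r b, TT c d t (Function.update ω j z) r l *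
        (1 - ∏ W ∈ Iset c K ω r b, (1 - kil M r (AA c ω W r) (Function.update ω j z))) = 0 := by
      intro z hz
      rw [Finset.mem_filter] at hz
      rw [← ind_Phi (K := K) z, if_neg hz.2]
      simp
    rw [Finset.sum_eq_zero e2, add_zero]
    have e3 : (univ.filter (fun z => z ∈ PhiF c K j ω)) = PhiF c K j ω := by ext z; simp
    rw [e3]
    apply Finset.sum_congr rfl
    intro z hz
    rw [← ind_Phi (K := K) z, if_pos hz]
    simp [xi]
  rw [e1]
  refine (Finset.abs_sum_le_sum_abs _ _).trans ?_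
  unfold Bmaj
  rw [Finset.mul_sum]
  apply Finset.sum_le_sum
  intro l hl
  have hl' := hl
  rw [mem_Mint] at hl'
  obtain ⟨hl1, hl2, hl3, hl4, hl5⟩ := hl'
  set I := Iset c K ω r b with hI
  set N := I.filter (fun W => l1d W (L1 l) ≤ s₅) with hN
  set Fr := I.filter (fun W => ¬ l1d W (L1 l) ≤ s₅) with hFr
  have hsplit : ∀ z : Blk p B, ∏ W ∈ I, (1 - kil M r (AA c ω W r) (Function.update ω j z)) =
      (∏ W ∈ N, (1 - kil M r (AA c ω W r) (Function.update ω j z))) *
      (∏ W ∈ Fr, (1 - kil M r (AA c ω W r) (Function.update ω j z))) := by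
    intro z
    rw [hN, hFr, Finset.prod_filter_mul_prod_filter_not]
  have e4 : ∑ z : Blk p B, TT c d t (Function.update ω j z) r l *
        (1 - ∏ W ∈ I, (1 - kil M r (AA c ω W r) (Function.update ω j z))) =
      ∑ z : Blk p B, TT c d t (Function.update ω j z) r l *
        (1 - ∏ W ∈ N, (1 - kil M r (AA c ω W r) (Function.update ω j z))) +
      ∑ z : Blk p B, TT c d t (Function.update ω j z) r l *
        ((∏ W ∈ N, (1 - kil M r (AA c ω W r) (Function.update ω j z))) *
        (1 - ∏ W ∈ Fr, (1 - kil M r (AA c ω W r) (Function.update ω j z)))) := by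
    rw [← Finset.sum_add_distrib]
    apply Finset.sum_congr rfl
    intro z _
    rw [hsplit]
    ring
  rw [e4]
  refine (abs_add_le _ _).trans ?_
  rw [mul_add, add_comm]
  apply add_le_add
  · -- far part
    refine (Finset.abs_sum_le_sum_abs _ _).trans ?_
    have e5 : ∀ z ∈ (univ : Finset (Blk p B)), |TT c d t (Function.update ω j z) r l *
        ((∏ W ∈ N, (1 - kil M r (AA c ω W r) (Function.update ω j z))) *
        (1 - ∏ W ∈ Fr, (1 - kil M r (AA c ω W r) (Function.update ω j z))))| ≤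
        ∑ W ∈ Fr, |TT c d t (Function.update ω j z) r l| *
          kil M r (AA c ω W r) (Function.update ω j z) := by
      intro z _
      obtain ⟨h1, h2, _⟩ := one_sub_prod_le N
        (fun W => kil M r (AA c ω W r) (Function.update ω j z))
        (fun W _ => kil_nn _ _ _) (fun W _ => kil_l1 _ _ _)
      obtain ⟨h3, h4, h5⟩ := one_sub_prod_le Fr
        (fun W => kil M r (AA c ω W r) (Function.update ω j z))
        (fun W _ => kil_nn _ _ _) (fun W _ => kil_l1 _ _ _)
      rw [← Finset.mul_sum, abs_mul]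
      apply mul_le_mul_of_nonneg_left _ (abs_nonneg _)
      rw [abs_mul, abs_of_nonneg h1, abs_of_nonneg (by linarith : (0:ℝ) ≤ 1 - _)]
      calc _ ≤ 1 * (1 - ∏ W ∈ Fr, (1 - kil M r (AA c ω W r) (Function.update ω j z))) :=
            mul_le_mul_of_nonneg_right h2 (by linarith)
        _ ≤ _ := by rw [one_mul]; exact h5
    refine (Finset.sum_le_sum e5).trans ?_
    rw [Finset.sum_comm, Finset.mul_sum]
    apply Finset.sum_le_sum
    intro W _
    refine (far_sum c d t ω r b l (AA c ω W r)).trans (le_of_eq ?_)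
    rw [← hUP]
    ring
  · -- near part
    have e6 : ∀ z : Blk p B, 1 - ∏ W ∈ N, (1 - kil M r (AA c ω W r) (Function.update ω j z)) =
        ∑ S ∈ N.powerset.erase ∅, (-1) ^ (S.card + 1) *
          kil M r (supA c ω r S) (Function.update ω j z) := by
      intro z
      have h1 : ∏ W ∈ N, (1 - kil M r (AA c ω W r) (Function.update ω j z)) =
          ∑ S ∈ N.powerset, (-1) ^ S.card * kil M r (supA c ω r S) (Function.update ω j z) := by
        have := Finset.prod_one_add (f := fun W => - kil M r (AA c ω W r) (Function.update ω j z)) N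
        simp only [← sub_eq_add_neg] at this
        rw [this]
        apply Finset.sum_congr rfl
        intro S _
        rw [Finset.prod_neg, kil_supA]
      rw [h1, ← Finset.add_sum_erase _ _ (Finset.empty_mem_powerset N)]
      have h2 : kil M r (supA c ω r ∅) (Function.update ω j z) = 1 := by
        rw [kil_supA]; simp
      rw [h2]
      simp only [Finset.card_empty, pow_zero, one_mul, sub_add_cancel_left]
      rw [← Finset.sum_neg_distrib]
      apply Finset.sum_congr rfl
      intro S _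
      ring
    have e7 : ∑ z : Blk p B, TT c d t (Function.update ω j z) r l *
        (1 - ∏ W ∈ N, (1 - kil M r (AA c ω W r) (Function.update ω j z))) =
        ∑ S ∈ N.powerset.erase ∅, (-1) ^ (S.card + 1) * ∑ z : Blk p B,
          TT c d t (Function.update ω j z) r l * kil M r (supA c ω r S) (Function.update ω j z) := by
      have : ∀ S ∈ N.powerset.erase ∅, (-1:ℝ) ^ (S.card + 1) * ∑ z : Blk p B,
          TT c d t (Function.update ω j z) r l * kil M r (supA c ω r S) (Function.update ω j z) =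
          ∑ z : Blk p B, TT c d t (Function.update ω j z) r l *
            ((-1) ^ (S.card + 1) * kil M r (supA c ω r S) (Function.update ω j z)) := by
        intro S _
        rw [Finset.mul_sum]
        apply Finset.sum_congr rfl
        intro z _
        ring
      rw [Finset.sum_congr rfl this, Finset.sum_comm]
      apply Finset.sum_congr rfl
      intro z _
      rw [e6, Finset.mul_sum]
    rw [e7]
    refine (Finset.abs_sum_le_sum_abs _ _).trans ?_
    rw [Finset.mul_sum]
    apply Finset.sum_le_sum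
    intro S hS
    rw [Finset.mem_erase, Finset.mem_powerset] at hS
    rw [abs_mul, abs_pow, abs_neg, abs_one, one_pow, one_mul]
    have hSI : ∀ W ∈ S, W ∈ I ∧ l1d W (L1 l) ≤ s₅ := by
      intro W hW
      have := hS.2 hW
      rw [hN, Finset.mem_filter] at this
      exact this
    have hAb : supA c ω r S ≤ Vb p M B b := by
      apply supA_le
      intro W hW
      have := (hSI W hW).1
      rw [hI, mem_Iset] at this
      exact AA_le_Vb hc ω this.2.2.1
    have hA' : supA c ω r S ≤ AA c ω (Lam' s₅ l) r := by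
      apply supA_le
      intro W hW
      apply AA_mono c ω _ le_rfl
      intro a
      unfold Lam'
      split_ifs with ha
      · exact Nat.zero_le _
      · have := near_le (hSI W hW).2 a
        unfold L1 at this
        exact this
    have hΛ : AA c ω (Lam B s₅ b l) r = ⊥ := by
      obtain ⟨h1, h2⟩ := Lam_sum hl hK
      exact hg.2 _ h1 h2
    refine (near_sum hc d t ω r b l s₅ hs _ hAb hA' hΛ hl2).trans (le_of_eq ?_)
    rw [← hUP]
    ring

end Bias

end Pool.Agent.H470D4
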