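import Mathlib

set_option autoImplicit false

/-! From open boxes to closed boxes (helper935). -/

namespace Pool.Agent.H470D4

open Finset Filter Topology

/-- A bound for the open boxes gives the same bound for the closed boxes. -/
theorem closed_of_open_all {N k : ℕ} {ξ : Fin N → Fin k → ℝ} (hξ : ∀ i j, ξ i j < 1) {E : ℝ}
    (h : ∀ x : Fin k → ℝ, (∀ j, 0 ≤ x j) → (∀ j, x j ≤ 1) → ∀ S : Finset (Fin N),
      (∀ i, i ∈ S ↔ ∀ j, ξ i j < x j) → |(S.card : ℝ) - N * ∏ j, x j| ≤ E)
    {x : Fin k → ℝ} (hx0 : ∀ j, 0 ≤ x j) (hx1 : ∀ j, x j ≤ 1) {S : Finset (Fin N)}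
    (hS : ∀ i, i ∈ S ↔ ∀ j, ξ i j ≤ x j) : |(S.card : ℝ) - N * ∏ j, x j| ≤ E := by
  set f : ℝ → ℝ := fun t => |(S.card : ℝ) - N * ∏ j, min 1 (x j + t)| with hf
  have hcont : Continuous f := by
    rw [hf]
    refine (continuous_const.sub (continuous_const.mul ?_)).abs
    exact continuous_finsetProd _ fun j _ => continuous_const.min (continuous_const.add continuous_id)
  have hf0 : f 0 = |(S.card : ℝ) - N * ∏ j, x j| := by
    simp only [hf, add_zero]
    congr 3
    exact Finset.prod_congr rfl fun j _ => min_eq_right (hx1 j)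
  rw [← hf0]
  have hlim : Tendsto f (𝓝[>] 0) (𝓝 (f 0)) := hcont.continuousWithinAt
  refine le_of_tendsto hlim ?_
  have hev : ∀ᶠ t in 𝓝[>] (0:ℝ), ∀ i j, (x j < ξ i j → t < ξ i j - x j) := by
    rw [eventually_all]
    intro i
    rw [eventually_all]
    intro j
    by_cases hij : x j < ξ i j
    · have : ∀ᶠ t in 𝓝[>] (0:ℝ), t < ξ i j - x j :=
        nhdsWithin_le_nhds (Iio_mem_nhds (by linarith))
      filter_upwards [this] with t ht _
      exact ht
    · exact Eventually.of_forall fun t h => absurd h hij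
  filter_upwards [hev, self_mem_nhdsWithin] with t ht htpos
  have htpos' : (0:ℝ) < t := htpos
  simp only [hf]
  refine h (fun j => min 1 (x j + t)) (fun j => le_min zero_le_one (by linarith [hx0 j]))
    (fun j => min_le_left _ _) S ?_
  intro i
  rw [hS i]
  refine forall_congr' fun j => ?_
  constructor
  · intro h1
    exact lt_min (hξ i j) (by linarith)
  · intro h1
    by_contra h2
    push Not at h2
    have h3 := ht i j h2
    have h4 := lt_of_lt_of_le h1 (min_le_right _ _)
    linarith

end Pool.Agent.H470D4
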