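import Pool.Agent.H470D4.CoreB

set_option autoImplicit false
set_option linter.unusedSectionVars false

namespace Pool.Agent.H470D4

open Finset

section Num

lemma two_pow_bound {P : ℝ} (hP : 1 ≤ P) (Q k : ℕ) : (P ^ Q + 1) ^ k ≤ 2 ^ k * P ^ (Q * k) := by
  have h1 : (1:ℝ) ≤ P ^ Q := one_le_pow₀ hP
  calc (P ^ Q + 1) ^ k ≤ (2 * P ^ Q) ^ k := by
        apply pow_le_pow_left₀ (by positivity)
        linarith
    _ = 2 ^ k * P ^ (Q * k) := by rw [mul_pow, ← pow_mul]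

lemma div_pow_le_one {P : ℝ} (hP : 1 ≤ P) {a b : ℕ} (h : a ≤ b) : P ^ a / P ^ b ≤ 1 := by
  rw [div_le_one (by positivity)]
  exact pow_le_pow_right₀ hP h

end Num

section CoreMain

/-- The core theorem, with `n + 4 ≤ Q`. -/
theorem core_mainQ (n : ℕ) : ∃ (Q b : ℕ) (C : ℝ) (p₀ : ℕ), 1 ≤ b ∧ b < Q ∧ n + 4 ≤ Q ∧ 0 < C ∧
    ∀ (p : ℕ) [Fact p.Prime], p₀ ≤ p → ∀ c : Flg p (p ^ (Q - b)) (p ^ b) n, IsFlags c →
    ∀ (X : Type) [Fintype X] (d : X → Dat p n),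
      (Fintype.card X : ℝ) ≤ Real.exp ((p:ℝ) * (p:ℝ) ^ Q) →
      ∃ ω : Path p (p ^ b), ∀ i : X,
        |∑ r ∈ range (p ^ Q), XX c (d i) ω r| ≤ C * ((p:ℝ) ^ Q) ^ (n + 2) := by
  obtain ⟨Q, hQ⟩ : ∃ Q, Q = 4 * n + 18 := ⟨_, rfl⟩
  obtain ⟨b, hb⟩ : ∃ b, b = n + 4 := ⟨_, rfl⟩
  obtain ⟨K, hK⟩ : ∃ K, K = Q * n + 2 * n + 11 := ⟨_, rfl⟩
  obtain ⟨K₆, hK₆⟩ : ∃ K₆, K₆ = K + Q * (n + 2) + 1 := ⟨_, rfl⟩
  obtain ⟨K₂, hK₂⟩ : ∃ K₂, K₂ = Q * (n + 2) + 1 := ⟨_, rfl⟩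
  obtain ⟨s₁, hs₁⟩ : ∃ s₁, s₁ = Q * (n + 2) := ⟨_, rfl⟩
  obtain ⟨K₇, hK₇⟩ : ∃ K₇, K₇ = K + K₂ + (n+1) * (4 * K) := ⟨_, rfl⟩
  obtain ⟨c1, hc1⟩ : ∃ c1 : ℝ, c1 = 2 ^ n * 4 ^ K₆ * 3 +
    2 ^ ((2 * (4 * K) + 1) ^ (n+2)) * 2 ^ (K₆ + (n+2) * (4 * K)) := ⟨_, rfl⟩
  obtain ⟨c2, hc2⟩ : ∃ c2 : ℝ, c2 = 4 ^ K₆ *
    (((2 * (4 * K) + 1) ^ (n+2) : ℕ) * 3 + ((n + K + 3 : ℕ) : ℝ) * 3) := ⟨_, rfl⟩
  have c10 : 0 < c1 := by rw [hc1]; positivity
  have c20 : 0 < c2 := by rw [hc2]; positivity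
  obtain ⟨C₁, hC₁⟩ : ∃ C₁ : ℝ, C₁ = ((n + K + 3 : ℕ) : ℝ) * (2 * c1 + 4 * c2) +
    (((n + K + 3 : ℕ) : ℝ) * c2 + (((n + K + 3 : ℕ) : ℝ) * (K₇ : ℝ) * 2 ^ K₆ +
    ((s₁ : ℝ) * (2 ^ (K₆ + s₁) * ((2 * (K + (n+2)) : ℕ) + 2)) +
    2 ^ (n+2) * (1 + 2 ^ (K+2))))) := ⟨_, rfl⟩
  have C₁0 : 0 < C₁ := by rw [hC₁]; positivity
  refine ⟨Q, b, 4 * C₁ + 3, 8 * 2 ^ (n + K + 3 + s₁ + K₂) + K + 1, by omega, by omega, by omega,
    by linarith, ?_⟩
  intro p _ hp₀ c hc X _ d hX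
  obtain ⟨P, hP⟩ : ∃ P : ℝ, P = (p:ℝ) := ⟨_, rfl⟩
  have hp8' : 8 ≤ p := by
    have : 0 < 2 ^ (n + K + 3 + s₁ + K₂) := by positivity
    omega
  have hP8 : (8:ℝ) ≤ P := by rw [hP]; exact_mod_cast hp8'
  have hP1 : (1:ℝ) ≤ P := by linarith
  have hP0 : (0:ℝ) < P := by linarith
  have hPbig : (8:ℝ) * 2 ^ (n + K + 3 + s₁ + K₂) ≤ P := by
    rw [hP]
    have : 8 * 2 ^ (n + K + 3 + s₁ + K₂) ≤ p := by omega
    exact_mod_cast this
  have hMB : p ^ (Q - b) * p ^ b = p ^ Q := by rw [← pow_add, Nat.sub_add_cancel (by omega)]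
  have hMBr : ((p ^ (Q - b) * p ^ b : ℕ) : ℝ) = P ^ Q := by rw [hMB, hP]; push_cast; rfl
  have hMBr1 : ((p ^ (Q - b) * p ^ b + 1 : ℕ) : ℝ) = P ^ Q + 1 := by rw [hMB, hP]; push_cast; rfl
  have hM0 : 0 < p ^ (Q - b) := by positivity
  have hpp : 0 < p := by omega
  obtain ⟨θ, hθ⟩ : ∃ θ : ℝ, θ = P / P ^ (Q * n + Q) := ⟨_, rfl⟩
  have hθ0 : 0 < θ := by rw [hθ]; positivity
  have hb1 : b1 p (p ^ (Q - b)) (p ^ b) n K K₆ ≤ c1 := by
    unfold b1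
    rw [hc1]
    apply add_le_add_left _ _ |>.trans (le_refl _) |> fun h => h
    have e1 : ((p ^ b * (p ^ (Q - b) * p ^ b + 1) ^ n : ℕ) : ℝ) = P ^ b * (P ^ Q + 1) ^ n := by
      rw [hMB, hP]; push_cast; rfl
    rw [e1, ← hP]
    calc P ^ b * (P ^ Q + 1) ^ n * (P ^ (n+2) * 4 ^ K₆ * 3 / P ^ (K+1))
        ≤ P ^ b * (2 ^ n * P ^ (Q * n)) * (P ^ (n+2) * 4 ^ K₆ * 3 / P ^ (K+1)) := by
          apply mul_le_mul_of_nonneg_right _ (by positivity)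
          exact mul_le_mul_of_nonneg_left (two_pow_bound hP1 Q n) (by positivity)
      _ = 2 ^ n * 4 ^ K₆ * 3 * (P ^ (b + Q * n + (n+2)) / P ^ (K+1)) := by
          rw [pow_add, pow_add]; ring
      _ ≤ 2 ^ n * 4 ^ K₆ * 3 * 1 := by
          apply mul_le_mul_of_nonneg_left _ (by positivity)
          exact div_pow_le_one hP1 (by omega)
      _ = _ := by ring
  have hb2 : θ * b2 p (p ^ (Q - b)) (p ^ b) n K K₆ ≤ c2 := by
    unfold b2
    rw [hc2]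
    have e1 : (((n + K + 3) * (p ^ b * (p ^ (Q - b) * p ^ b) ^ n) : ℕ) : ℝ) =
        ((n + K + 3 : ℕ) : ℝ) * (P ^ b * P ^ (Q * n)) := by
      rw [hMB, hP]; push_cast; rw [← pow_mul]
    rw [e1, ← hP, hθ]
    have h1 : P ^ (1 + (n+2) + (n+2) + K) / P ^ (Q * n + Q) ≤ 1 := div_pow_le_one hP1 (by omega)
    have h2 : P ^ (1 + (n+2) + (n+2) + b + Q * n) / P ^ (Q * n + Q) ≤ 1 :=
      div_pow_le_one hP1 (by omega)
    calc P / P ^ (Q * n + Q) * (P ^ (n+2) * P ^ (n+2) * 4 ^ K₆ *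
          (((2 * (4 * K) + 1) ^ (n+2) : ℕ) * (3 * P ^ K) +
            ((n + K + 3 : ℕ) : ℝ) * (P ^ b * P ^ (Q * n)) * 3))
        = 4 ^ K₆ * (((2 * (4 * K) + 1) ^ (n+2) : ℕ) * 3 *
            (P ^ (1 + (n+2) + (n+2) + K) / P ^ (Q * n + Q)) +
            ((n + K + 3 : ℕ) : ℝ) * 3 *
              (P ^ (1 + (n+2) + (n+2) + b + Q * n) / P ^ (Q * n + Q))) := by
          simp only [pow_add, pow_one]; ring
      _ ≤ 4 ^ K₆ * (((2 * (4 * K) + 1) ^ (n+2) : ℕ) * 3 * 1 + ((n + K + 3 : ℕ) : ℝ) * 3 * 1) := by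
          gcongr
      _ = _ := by ring
  have hb20 := b2_nonneg p (p ^ (Q - b)) (p ^ b) n K K₆
  have hb10 := b1_nonneg p (p ^ (Q - b)) (p ^ b) n K K₆
  have hPm : (1:ℝ) ≤ P ^ Q := one_le_pow₀ hP1
  have hMp : (p ^ (Q - b) : ℝ) * P ^ (n+2) ≤ P ^ Q := by
    rw [← hP, ← pow_add]
    exact pow_le_pow_right₀ hP1 (by omega)
  have hexpQ : P ^ (Q * (n+2)) = (P ^ Q) ^ (n+2) := by rw [pow_mul]
  -- apply the abstract theorem
  obtain ⟨ω, hω⟩ := core_abs (c := c) hc (K := K) (K₆ := K₆) (K₂ := K₂) (K₇ := K₇) (s₁ := s₁)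
    (b' := n + 2) hM0 hp8' (by omega)
    (by
      rw [hMB]
      calc K + 1 ≤ p := by
            have : 0 < 2 ^ (n + K + 3 + s₁ + K₂) := by positivity
            omega
        _ = p ^ 1 := (pow_one p).symm
        _ ≤ p ^ Q := Nat.pow_le_pow_right hpp (by omega))
    (by omega) (by rw [hK₇])
    (by
      rw [hMB]
      have h1 : ((2 * (p ^ b * (p ^ Q + 1) ^ n) : ℕ) : ℝ) ≤ ((p ^ (K+1) : ℕ) : ℝ) := by
        push_cast
        rw [← hP]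
        calc 2 * (P ^ b * (P ^ Q + 1) ^ n) ≤ 2 * (P ^ b * (2 ^ n * P ^ (Q * n))) := by
              gcongr
              exact two_pow_bound hP1 Q n
          _ = 2 ^ (n+1) * P ^ (b + Q * n) := by rw [pow_add, pow_succ]; ring
          _ ≤ P ^ (n+1) * P ^ (b + Q * n) := by
              gcongr
              linarith
          _ = P ^ (n + 1 + (b + Q * n)) := (pow_add _ _ _).symm
          _ ≤ P ^ (K+1) := pow_le_pow_right₀ hP1 (by omega)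
      exact_mod_cast h1)
    hθ0 (A := C₁ * (P ^ Q) ^ (n+2)) (by positivity)
    (by
      rw [hMBr, hMBr1]
      have t1 : ((n + K + 3 : ℕ) : ℝ) * (P ^ Q) ^ (n+2) *
        (2 * b1 p (p ^ (Q - b)) (p ^ b) n K K₆ + 4 * θ * b2 p (p ^ (Q - b)) (p ^ b) n K K₆) ≤
        (((n + K + 3 : ℕ) : ℝ) * (2 * c1 + 4 * c2)) * (P ^ Q) ^ (n+2) := by
        calc _ ≤ ((n + K + 3 : ℕ) : ℝ) * (P ^ Q) ^ (n+2) * (2 * c1 + 4 * c2) := by
              apply mul_le_mul_of_nonneg_left _ (by positivity)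
              linarith
          _ = _ := by ring
      have t2 : ((n + K + 3 : ℕ) : ℝ) * (P ^ Q) ^ (n+2) *
        (θ * b2 p (p ^ (Q - b)) (p ^ b) n K K₆) ≤ (((n + K + 3 : ℕ) : ℝ) * c2) * (P ^ Q) ^ (n+2) := by
        calc _ ≤ ((n + K + 3 : ℕ) : ℝ) * (P ^ Q) ^ (n+2) * c2 := by
              apply mul_le_mul_of_nonneg_left _ (by positivity)
              linarith
          _ = _ := by ring
      have t3 : ((n + K + 3 : ℕ) : ℝ) * (((p ^ (Q - b) * K₇ : ℕ) : ℝ) * (P ^ Q) ^ (n+1)) *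
        ((p:ℝ) ^ (n+2) * 2 ^ K₆) ≤ (((n + K + 3 : ℕ) : ℝ) * (K₇ : ℝ) * 2 ^ K₆) * (P ^ Q) ^ (n+2) := by
        calc _ = ((n + K + 3 : ℕ) : ℝ) * (K₇ : ℝ) * 2 ^ K₆ * (P ^ Q) ^ (n+1) *
              ((p ^ (Q - b) : ℝ) * P ^ (n+2)) := by
              rw [← hP]; push_cast; rw [← hP]; ring
          _ ≤ ((n + K + 3 : ℕ) : ℝ) * (K₇ : ℝ) * 2 ^ K₆ * (P ^ Q) ^ (n+1) * P ^ Q :=
              mul_le_mul_of_nonneg_left hMp (by positivity)
          _ = _ := by rw [pow_succ (P ^ Q) (n+1)]; ring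
      have t4 : ∑ s ∈ range s₁, (p:ℝ) ^ (n+2) * 2 ^ (K₆ + s) *
        (((p ^ (Q - b) * (2 * (K + (n + 2))) : ℕ) : ℝ) * (P ^ Q) ^ (n+1) +
          (P ^ Q) ^ (n+2) * (2 / (p:ℝ) ^ (n + 2))) ≤
          ((s₁ : ℝ) * (2 ^ (K₆ + s₁) * ((2 * (K + (n+2)) : ℕ) + 2))) * (P ^ Q) ^ (n+2) := by
        have h1 : ∀ s ∈ range s₁, (p:ℝ) ^ (n+2) * 2 ^ (K₆ + s) *
          (((p ^ (Q - b) * (2 * (K + (n + 2))) : ℕ) : ℝ) * (P ^ Q) ^ (n+1) +
          (P ^ Q) ^ (n+2) * (2 / (p:ℝ) ^ (n + 2))) ≤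
          (2 ^ (K₆ + s₁) * ((2 * (K + (n+2)) : ℕ) + 2)) * (P ^ Q) ^ (n+2) := by
          intro s hs
          have hs' := Finset.mem_range.1 hs
          have h2 : (2:ℝ) ^ (K₆ + s) ≤ 2 ^ (K₆ + s₁) := pow_le_pow_right₀ (by norm_num) (by omega)
          rw [← hP]
          have e2 : ((p ^ (Q - b) * (2 * (K + (n + 2))) : ℕ) : ℝ) =
              P ^ (Q - b) * ((2 * (K + (n+2)) : ℕ) : ℝ) := by rw [hP]; push_cast; rfl
          rw [e2]
          rw [← hP] at hMp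
          calc P ^ (n+2) * 2 ^ (K₆ + s) * (P ^ (Q - b) * ((2 * (K + (n+2)) : ℕ) : ℝ) *
                (P ^ Q) ^ (n+1) + (P ^ Q) ^ (n+2) * (2 / P ^ (n+2)))
              = 2 ^ (K₆ + s) * (((2 * (K + (n+2)) : ℕ) : ℝ) * (P ^ Q) ^ (n+1) *
                (P ^ (Q - b) * P ^ (n+2)) + (P ^ Q) ^ (n+2) * 2) := by
                field_simp
            _ ≤ 2 ^ (K₆ + s₁) * (((2 * (K + (n+2)) : ℕ) : ℝ) * (P ^ Q) ^ (n+1) *
                P ^ Q + (P ^ Q) ^ (n+2) * 2) := by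
                gcongr
            _ = _ := by rw [pow_succ (P ^ Q) (n+1)]; ring
        refine (Finset.sum_le_sum h1).trans (le_of_eq ?_)
        rw [Finset.sum_const, Finset.card_range, nsmul_eq_mul]
        ring
      have t5 : (P ^ Q + 1) ^ (n+2) * (1 + 2 ^ (K+2)) ≤
          (2 ^ (n+2) * (1 + 2 ^ (K+2))) * (P ^ Q) ^ (n+2) := by
        calc _ ≤ (2 ^ (n+2) * P ^ (Q * (n+2))) * (1 + 2 ^ (K+2)) :=
              mul_le_mul_of_nonneg_right (two_pow_bound hP1 Q (n+2)) (by positivity)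
          _ = _ := by rw [hexpQ]; ring
      rw [hC₁]
      refine le_trans (add_le_add t1 (add_le_add t2 (add_le_add t3 (add_le_add t4 t5))))
        (le_of_eq ?_)
      ring)
    (by
      rw [hMBr1, ← hP]
      calc (P ^ Q + 1) ^ (n+2) * (2 / P) ^ (K + 1 + s₁)
          ≤ 2 ^ (n+2) * P ^ (Q * (n+2)) * (2 / P) ^ (K + 1 + s₁) :=
            mul_le_mul_of_nonneg_right (two_pow_bound hP1 Q (n+2)) (by positivity)
        _ = 2 ^ (n + 2 + (K + 1 + s₁)) * (P ^ (Q * (n+2) + 1) / P ^ (K + 1 + s₁)) / P := by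
            rw [div_pow, pow_add (2:ℝ) (n+2), pow_succ P (Q * (n+2))]
            field_simp
        _ ≤ 2 ^ (n + 2 + (K + 1 + s₁)) * 1 / P := by
            apply div_le_div_of_nonneg_right _ hP0.le
            apply mul_le_mul_of_nonneg_left _ (by positivity)
            exact div_pow_le_one hP1 (by omega)
        _ ≤ 1 / 8 := by
            rw [mul_one, div_le_div_iff₀ hP0 (by norm_num), one_mul]
            calc (2:ℝ) ^ (n + 2 + (K + 1 + s₁)) * 8 ≤ 2 ^ (n + K + 3 + s₁ + K₂) * 8 := by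
                  apply mul_le_mul_of_nonneg_right _ (by norm_num)
                  exact pow_le_pow_right₀ (by norm_num) (by omega)
              _ ≤ P := by linarith)
    (by
      rw [hMBr1, ← hP]
      calc (P ^ Q + 1) ^ (n+2) * (2 * P ^ (K+1) / P ^ (K₆ + 1))
          ≤ 2 ^ (n+2) * P ^ (Q * (n+2)) * (2 * P ^ (K+1) / P ^ (K₆ + 1)) :=
            mul_le_mul_of_nonneg_right (two_pow_bound hP1 Q (n+2)) (by positivity)
        _ = 2 ^ (n + 3) * (P ^ (Q * (n+2) + (K+1) + 1) / P ^ (K₆ + 1)) / P := by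
            rw [pow_succ (2:ℝ) (n+2), pow_succ P (Q * (n+2) + (K+1)), pow_add P (Q * (n+2)) (K+1)]
            field_simp
        _ ≤ 2 ^ (n + 3) * 1 / P := by
            apply div_le_div_of_nonneg_right _ hP0.le
            apply mul_le_mul_of_nonneg_left _ (by positivity)
            exact div_pow_le_one hP1 (by omega)
        _ ≤ 1 / 8 := by
            rw [mul_one, div_le_div_iff₀ hP0 (by norm_num), one_mul]
            calc (2:ℝ) ^ (n + 3) * 8 ≤ 2 ^ (n + K + 3 + s₁ + K₂) * 8 := by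
                  apply mul_le_mul_of_nonneg_right _ (by norm_num)
                  exact pow_le_pow_right₀ (by norm_num) (by omega)
              _ ≤ P := by linarith)
    (by
      rw [hMBr1, ← hP]
      calc (P ^ Q + 1) ^ (n+2) * (2 * P ^ K * (2 / P) ^ (K₂ + K))
          ≤ 2 ^ (n+2) * P ^ (Q * (n+2)) * (2 * P ^ K * (2 / P) ^ (K₂ + K)) :=
            mul_le_mul_of_nonneg_right (two_pow_bound hP1 Q (n+2)) (by positivity)
        _ = 2 ^ (n + 3 + (K₂ + K)) * (P ^ (Q * (n+2) + K + 1) / P ^ (K₂ + K)) / P := by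
            rw [div_pow, pow_add (2:ℝ) (n+3), pow_succ (2:ℝ) (n+2), pow_succ P (Q * (n+2) + K),
              pow_add P (Q * (n+2)) K]
            field_simp
        _ ≤ 2 ^ (n + 3 + (K₂ + K)) * 1 / P := by
            apply div_le_div_of_nonneg_right _ hP0.le
            apply mul_le_mul_of_nonneg_left _ (by positivity)
            exact div_pow_le_one hP1 (by omega)
        _ ≤ 1 / 8 := by
            rw [mul_one, div_le_div_iff₀ hP0 (by norm_num), one_mul]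
            calc (2:ℝ) ^ (n + 3 + (K₂ + K)) * 8 ≤ 2 ^ (n + K + 3 + s₁ + K₂) * 8 := by
                  apply mul_le_mul_of_nonneg_right _ (by norm_num)
                  exact pow_le_pow_right₀ (by norm_num) (by omega)
              _ ≤ P := by linarith)
    X d
  refine ⟨ω, fun i => ?_⟩
  have h1 := hω i
  rw [hMB] at h1
  refine h1.trans ?_
  rw [← hP] at hX ⊢
  have hXlog : Real.log (16 * Fintype.card X * P ^ (p ^ Q) + 8) ≤ 3 * (P * P ^ Q) := by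
    have hPQ : (4:ℝ) ≤ P * P ^ Q := by nlinarith
    have h2 : P ^ (p ^ Q) ≤ Real.exp (P * P ^ Q) := by
      have h3 : P ≤ Real.exp P := by
        have := Real.add_one_le_exp P
        linarith
      calc P ^ (p ^ Q) ≤ (Real.exp P) ^ (p ^ Q) := pow_le_pow_left₀ hP0.le h3 _
        _ = Real.exp (P * P ^ Q) := by
            rw [← Real.exp_nat_mul, mul_comm]
            congr 2
            rw [hP]; push_cast; rfl
    have h24 : (24:ℝ) ≤ Real.exp (P * P ^ Q) := by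
      have h3 : Real.exp 4 ≤ Real.exp (P * P ^ Q) := Real.exp_le_exp.2 hPQ
      have h4 : (24:ℝ) ≤ Real.exp 4 := by
        have h5 : (2.7:ℝ) ≤ Real.exp 1 := by
          have := Real.exp_one_gt_d9
          linarith
        have h6 : Real.exp 4 = Real.exp 1 ^ 4 := by
          rw [← Real.exp_nat_mul]; norm_num
        rw [h6]
        calc (24:ℝ) ≤ 2.7 ^ 4 := by norm_num
          _ ≤ _ := pow_le_pow_left₀ (by norm_num) h5 4
      linarith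
    have hexp1 : 1 ≤ Real.exp (P * P ^ Q) := by linarith
    have h5 : 16 * Fintype.card X * P ^ (p ^ Q) + 8 ≤ Real.exp (3 * (P * P ^ Q)) := by
      have h6 : Real.exp (3 * (P * P ^ Q)) =
          Real.exp (P * P ^ Q) * (Real.exp (P * P ^ Q) * Real.exp (P * P ^ Q)) := by
        rw [← Real.exp_add, ← Real.exp_add]; congr 1; ring
      rw [h6]
      have h7 : (Fintype.card X : ℝ) * P ^ (p ^ Q) ≤
          Real.exp (P * P ^ Q) * Real.exp (P * P ^ Q) :=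
        mul_le_mul hX h2 (by positivity) (Real.exp_pos _).le
      have h8 : 1 ≤ Real.exp (P * P ^ Q) * Real.exp (P * P ^ Q) :=
        one_le_mul_of_one_le_of_one_le hexp1 hexp1
      have h9 : 24 * (Real.exp (P * P ^ Q) * Real.exp (P * P ^ Q)) ≤
          Real.exp (P * P ^ Q) * (Real.exp (P * P ^ Q) * Real.exp (P * P ^ Q)) :=
        mul_le_mul_of_nonneg_right h24 (by positivity)
      nlinarith
    calc Real.log (16 * Fintype.card X * P ^ (p ^ Q) + 8) ≤ Real.log (Real.exp (3 * (P * P ^ Q))) :=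
          Real.log_le_log (by positivity) h5
      _ = _ := Real.log_exp _
  have h2 : Real.log (16 * Fintype.card X * P ^ (p ^ Q) + 8) / θ ≤ 3 * (P ^ Q) ^ (n+2) := by
    rw [div_le_iff₀ hθ0, hθ]
    refine hXlog.trans (le_of_eq ?_)
    have e3 : P ^ (Q * n + Q) = (P ^ Q) ^ (n+1) := by rw [← pow_mul]; congr 1
    rw [e3, pow_succ (P ^ Q) (n+1)]
    field_simp
  linarith

/-- The core theorem. -/
theorem core_main (n : ℕ) : ∃ (Q b : ℕ) (C : ℝ) (p₀ : ℕ), 1 ≤ b ∧ b < Q ∧ 0 < C ∧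
    ∀ (p : ℕ) [Fact p.Prime], p₀ ≤ p → ∀ c : Flg p (p ^ (Q - b)) (p ^ b) n, IsFlags c →
    ∀ (X : Type) [Fintype X] (d : X → Dat p n),
      (Fintype.card X : ℝ) ≤ Real.exp ((p:ℝ) * (p:ℝ) ^ Q) →
      ∃ ω : Path p (p ^ b), ∀ i : X,
        |∑ r ∈ range (p ^ Q), XX c (d i) ω r| ≤ C * ((p:ℝ) ^ Q) ^ (n + 2) := by
  obtain ⟨Q, b, C, p₀, h1, h2, _, h3, h4⟩ := core_mainQ n
  exact ⟨Q, b, C, p₀, h1, h2, h3, h4⟩

end CoreMain

end Pool.Agent.H470D4
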