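import Pool.Agent.H470D4.Decomp

set_option autoImplicit false
set_option linter.unusedSectionVars false

namespace Pool.Agent.H470D4

open Finset

section Neg
variable {p M B n : ℕ} [Fact p.Prime]

/-- The test data with the opposite test functions. -/
def Dat.neg (d : Dat p n) : Dat p n where
  x := d.x
  low := d.low
  nlow := d.nlow
  y := d.y
  psi := fun r v => - d.psi r v
  psi_sum := by intro r; rw [Finset.sum_neg_distrib, d.psi_sum, neg_zero]
  psi_le := by intro r v; rw [abs_neg]; exact d.psi_le r v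

lemma cell_neg (c : Flg p M B n) (d : Dat p n) (ω : Path p B) (r : ℕ) (l : Fin (n+2) → ℕ) :
    cell c d.neg ω r l = cell c d ω r l := by
  ext ν
  rw [mem_cell, mem_cell]
  rfl

lemma TT_neg (c : Flg p M B n) (d : Dat p n) (t : ℕ → ZMod p) (ω : Path p B) (r : ℕ)
    (l : Fin (n+2) → ℕ) : TT c d.neg t ω r l = - TT c d t ω r l := by
  unfold TT
  rw [cell_neg, ← Finset.sum_neg_distrib]
  rfl

lemma xi_neg (c : Flg p M B n) (K K₇ : ℕ) (d : Dat p n) (t : ℕ → ZMod p) (ω : Path p B)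
    (r β : ℕ) : xi c K K₇ d.neg t ω r β = - xi c K K₇ d t ω r β := by
  unfold xi
  rw [← Finset.sum_neg_distrib]
  exact Finset.sum_congr rfl fun l _ => TT_neg c d t ω r l

lemma YY_neg (c : Flg p M B n) (K K₆ K₂ K₇ : ℕ) (θ : ℝ) (d : Dat p n) (t : ℕ → ZMod p)
    (ω : Path p B) (r β : ℕ) :
    YY c K K₆ K₂ K₇ θ d.neg t ω r β = - YY c K K₆ K₂ K₇ θ d t ω r β := by
  unfold YY
  split_ifs
  · exact xi_neg c K K₇ d t ω r β
  · rw [neg_zero]

end Neg

section Tot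
variable {Z : Type*} [Fintype Z] [DecidableEq Z]

lemma EE_total (Al : ℕ → (ℕ → Z) → Finset Z) (T : ℕ) (F0 CE CG1 CG2 CK CX CB CL CO : (ℕ → Z) → ℝ)
    (a : ℝ) (ω₀ : ℕ → Z) :
    EE Al 0 T (fun ω => F0 ω + (CE ω + (CG1 ω + (CG2 ω + a * (CK ω + (CX ω + (CB ω +
      (CL ω + CO ω)))))))) ω₀ =
    EE Al 0 T F0 ω₀ + (EE Al 0 T CE ω₀ + (EE Al 0 T CG1 ω₀ + (EE Al 0 T CG2 ω₀ + a *
      (EE Al 0 T CK ω₀ + (EE Al 0 T CX ω₀ + (EE Al 0 T CB ω₀ +
      (EE Al 0 T CL ω₀ + EE Al 0 T CO ω₀))))))) := by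
  rw [EE_add_fun, EE_add_fun, EE_add_fun, EE_add_fun, EE_const_mul, EE_add_fun, EE_add_fun,
    EE_add_fun, EE_add_fun]

lemma sum_time (G : ℕ → ℕ → ℝ) (R M : ℕ) :
    ∑ j ∈ range (R * M), G (j / M) (M - 1 - j % M) = ∑ r ∈ range R, ∑ b ∈ range M, G r b := by
  rw [sum_range_mul]
  apply Finset.sum_congr rfl
  intro r _
  rw [← Finset.sum_range_reflect (fun b => G r b) M]
  apply Finset.sum_congr rfl
  intro k hk
  rw [jdiv (Finset.mem_range.1 hk), jmod (Finset.mem_range.1 hk)]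

end Tot

section CoreA
variable {p M B n : ℕ} [Fact p.Prime]

lemma Bmaj_nonneg (c : Flg p M B n) (K K₇ s₅ : ℕ) (ω : Path p B) (r β : ℕ) :
    0 ≤ Bmaj c K K₇ s₅ ω r β := by
  have hUP : ∀ A : Submodule (ZMod p) (Vec p M B), 0 ≤ UP M r (M - 1 - β) A ω := by
    intro A
    unfold UP
    exact div_nonneg (Finset.sum_nonneg fun _ _ => kil_nn _ _ _) (by positivity)
  unfold Bmaj
  apply Finset.sum_nonneg
  intro l _
  apply add_nonneg
  · exact Finset.sum_nonneg fun W _ => mul_nonneg (by positivity) (hUP _)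
  · exact Finset.sum_nonneg fun S _ => mul_nonneg (by positivity) (hUP _)

lemma kap_nonneg (c : Flg p M B n) (K K₆ K₂ K₇ s₅ : ℕ) {θ : ℝ} (hθ : 0 < θ) (ω : Path p B)
    (r β : ℕ) : 0 ≤ kap c K K₆ K₂ K₇ s₅ θ ω r β := by
  unfold kap
  split_ifs
  · have h1 := Bmaj_nonneg c K K₇ s₅ ω r β
    have h2 := VV_nonneg c K K₇ ω r β
    positivity
  · exact le_rfl

lemma costX_nonneg (c : Flg p M B n) (K K₆ K₂ K₇ : ℕ) {θ : ℝ} (hθ : 0 < θ) (ω : Path p B)
    (r β : ℕ) : 0 ≤ costX c K K₆ K₂ K₇ θ ω r β := by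
  unfold costX
  split_ifs
  · positivity
  · exact le_rfl

lemma costB_nonneg (c : Flg p M B n) (K K₆ K₂ K₇ : ℕ) (ω : Path p B) (r : ℕ) :
    0 ≤ costB c K K₆ K₂ K₇ ω r := by
  unfold costB
  split_ifs
  · exact Finset.sum_nonneg fun l _ => mul_nonneg (by positivity) (kil_nn _ _ _)
  · exact le_rfl

lemma costE_nonneg (c : Flg p M B n) (K s₁ : ℕ) (ω : Path p B) (r : ℕ) :
    0 ≤ costE c K s₁ ω r := Finset.sum_nonneg fun _ _ => kil_nn _ _ _

lemma costO_nonneg (c : Flg p M B n) (ω : Path p B) (r : ℕ) :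
    0 ≤ costO c ω r := Finset.sum_nonneg fun _ _ => by positivity

lemma costG1_nonneg (c : Flg p M B n) (K K₆ : ℕ) (ω : Path p B) (r : ℕ) :
    0 ≤ costG1 c K K₆ ω r := Finset.sum_nonneg fun _ _ => by positivity

lemma costG2_nonneg (c : Flg p M B n) (K₂ : ℕ) (ω : Path p B) (r : ℕ) :
    0 ≤ costG2 c K₂ ω r := by
  have hp1 : (1:ℝ) < p := by exact_mod_cast (Fact.out : p.Prime).one_lt
  exact Finset.sum_nonneg fun W _ => by
    have := one_le_pow₀ hp1.le (n := Module.finrank (ZMod p) (AA c ω W r))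
    linarith

/-- The exponential part: with `X'` test data, the martingale part is controlled. -/
theorem exp_part {c : Flg p M B n} (hc : IsFlags c) {K K₆ K₂ K₇ s₅ : ℕ} (hM : 0 < M) (hs : 1 ≤ s₅)
    (hK : K + K₂ + (n+1) * s₅ ≤ K₇) {θ : ℝ} (hθ : 0 < θ)
    (hB : ∀ j (ω : Path p B), p ^ B ≤ 2 * (Al c K j ω).card)
    {X : Type} [Fintype X] (d : X → Dat p n) (t : X → ℕ → ZMod p) (ω₀ : Path p B) :
    EE (Al c K) 0 (M * B * M) (fun ω => ∑ i : X, Real.exp (θ *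
      (∑ r ∈ range (M * B), ∑ b ∈ range M, YY c K K₆ K₂ K₇ θ (d i) (t i) ω r b -
        ∑ r ∈ range (M * B), ∑ b ∈ range M, kap c K K₆ K₂ K₇ s₅ θ ω r b))) ω₀ ≤
      Fintype.card X := by
  classical
  rw [EE_sum]
  have hone : ∀ i ∈ (univ : Finset X), EE (Al c K) 0 (M * B * M) (fun ω => Real.exp (θ *
      (∑ r ∈ range (M * B), ∑ b ∈ range M, YY c K K₆ K₂ K₇ θ (d i) (t i) ω r b -
        ∑ r ∈ range (M * B), ∑ b ∈ range M, kap c K K₆ K₂ K₇ s₅ θ ω r b))) ω₀ ≤ 1 := by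
    intro i _
    have hb : ∀ j : ℕ, M - 1 - j % M < M := fun j => by omega
    have hj : ∀ j : ℕ, j / M * M + (M - 1 - (M - 1 - j % M)) = j := by
      intro j
      have h1 : j % M < M := Nat.mod_lt _ hM
      have h2 : j / M * M + j % M = j := by rw [mul_comm]; exact Nat.div_add_mod j M
      omega
    have h := EE_exp (Al c K) (Al_nonempty hB) (M * B * M) θ
      (fun j ω => YY c K K₆ K₂ K₇ θ (d i) (t i) ω (j / M) (M - 1 - j % M))
      (fun j ω => kap c K K₆ K₂ K₇ s₅ θ ω (j / M) (M - 1 - j % M))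
      (by
        intro j
        have h1 := YY_dep hc K K₆ K₂ K₇ θ (d i) (t i) (j / M) ⟨M - 1 - j % M, hb j⟩
        simp only [hj j] at h1
        exact h1)
      (by
        intro j
        have h1 := kap_dep hc K K₆ K₂ K₇ s₅ θ (j / M) ⟨M - 1 - j % M, hb j⟩
        simp only [hj j] at h1
        exact h1)
      (by
        intro j _ ω
        have h1 := step_exp (K₆ := K₆) hc hs hK hθ (d i) (t i) ω (j / M) ⟨M - 1 - j % M, hb j⟩ (hB _ ω)
        simp only [hj j] at h1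
        exact h1) ω₀
    have e : (fun ω : Path p B => Real.exp (θ *
      (∑ r ∈ range (M * B), ∑ b ∈ range M, YY c K K₆ K₂ K₇ θ (d i) (t i) ω r b -
        ∑ r ∈ range (M * B), ∑ b ∈ range M, kap c K K₆ K₂ K₇ s₅ θ ω r b))) =
      (fun ω => Real.exp (θ * ∑ j ∈ range (M * B * M),
        ((fun j ω => YY c K K₆ K₂ K₇ θ (d i) (t i) ω (j / M) (M - 1 - j % M)) j ω -
        (fun j ω => kap c K K₆ K₂ K₇ s₅ θ ω (j / M) (M - 1 - j % M)) j ω))) := by
      funext ω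
      congr 2
      rw [Finset.sum_sub_distrib]
      congr 1
      · exact (sum_time (fun r b => YY c K K₆ K₂ K₇ θ (d i) (t i) ω r b) _ _).symm
      · exact (sum_time (fun r b => kap c K K₆ K₂ K₇ s₅ θ ω r b) _ _).symm
    rw [e]
    exact h
  refine (Finset.sum_le_sum hone).trans (le_of_eq ?_)
  simp

end CoreA

end Pool.Agent.H470D4
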