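import Pool.Agent.H470D4.CoreA

set_option autoImplicit false
set_option linter.unusedSectionVars false

namespace Pool.Agent.H470D4

open Finset

section SumB
variable {p M B n : ℕ}

lemma sum_Mint_card (M B n K K₇ : ℕ) :
    ∑ r ∈ range (M * B), ∑ b : Fin M, ((Mint M B n K K₇ r b).card : ℝ) ≤
      ((n + K + 3 : ℕ) : ℝ) * ((M * B : ℕ) : ℝ) ^ (n+2) := by
  have h1 : ∀ r ∈ range (M * B), ∑ b : Fin M, ((Mint M B n K K₇ r b).card : ℝ) ≤
      ∑ l ∈ Mid M B n K r, (1:ℝ) := by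
    intro r _
    refine le_trans (le_of_eq ?_) (sum_block_Mint M B n K K₇ r (fun _ => (1:ℝ)) (fun _ => zero_le_one))
    apply Finset.sum_congr rfl
    intro b _
    simp
  refine (Finset.sum_le_sum h1).trans
    ((sum_Mid_le M B n K (M * B) (fun _ => (1:ℝ)) (fun _ => zero_le_one)).trans (le_of_eq ?_))
  rw [Finset.sum_const, card_Lbox, nsmul_eq_mul, mul_one]
  push_cast
  ring

lemma sum_Bd_card (M B n K K₇ : ℕ) :
    ∑ r ∈ range (M * B), ((Bd M B n K K₇ r).card : ℝ) ≤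
      ((n + K + 3 : ℕ) : ℝ) * (((M * K₇ : ℕ) : ℝ) * ((M * B : ℕ) : ℝ) ^ (n+1)) := by
  have h1 : ∀ r ∈ range (M * B), ((Bd M B n K K₇ r).card : ℝ) =
      ∑ l ∈ ((Lbox M B n).filter (fun l => l 0 + 0 < M * B ∧ ((l 0 + 0) / B + 1) * B <
        (l 0 + 0) + K₇ + 1)).filter
        (fun l => M * B ≤ ∑ a, l a + (n + 2) + r + K ∧ ∑ a, l a + r ≤ M * B), (1:ℝ) := by
    intro r _
    rw [Finset.sum_const, nsmul_eq_mul, mul_one]
    rfl
  rw [Finset.sum_congr rfl h1]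
  refine (sum_swap_le (M * B) (n + K + 3) _ _ (fun _ => (1:ℝ)) (fun _ _ => zero_le_one) ?_).trans ?_
  · intro l _
    exact ⟨M * B - (∑ a, l a + (n + 2) + K), fun r hr => by omega⟩
  · apply mul_le_mul_of_nonneg_left _ (Nat.cast_nonneg _)
    rw [Finset.sum_const, nsmul_eq_mul, mul_one]
    exact_mod_cast card_endL M B n K₇ 0

lemma sum_Lg_le (M B n K s : ℕ) (f : (Fin (n+2) → ℕ) → ℝ) (hf : ∀ l, 0 ≤ f l) :
    ∑ r ∈ range (M * B), ∑ l ∈ Lg M B n K s r, f l ≤ ∑ l ∈ Lbox M B n, f l := by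
  refine (sum_swap_le (M * B) 1 (Lbox M B n)
    (fun r l => ∑ a, l a + (n + 2) + r + K + 1 + s = M * B) f (fun l _ => hf l) ?_).trans ?_
  · intro l _
    exact ⟨M * B - (∑ a, l a + (n + 2) + K + 1 + s), fun r hr => by omega⟩
  · rw [Nat.cast_one, one_mul]

lemma sum_W_const (M B n : ℕ) (P : ℕ → (Fin (n+2) → ℕ) → Prop) [∀ r, DecidablePred (P r)]
    (hP : ∀ W r r', P r W → P r' W → r = r') {a : ℝ} (ha : 0 ≤ a) :
    ∑ r ∈ range (M * B), ∑ _W ∈ (Wbox M B n).filter (P r), a ≤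
      ((M * B + 1 : ℕ) : ℝ) ^ (n+2) * a := by
  refine (sum_swap_le (M * B) 1 (Wbox M B n) P (fun _ => a) (fun _ _ => ha) ?_).trans ?_
  · intro W _
    by_cases h : ∃ r, P r W
    · obtain ⟨r, hr⟩ := h
      refine ⟨r, fun r' hr' => ?_⟩
      have := hP W r r' hr hr'
      omega
    · exact ⟨0, fun r hr => absurd ⟨r, hr⟩ h⟩
  · rw [Nat.cast_one, one_mul, Finset.sum_const, card_Wbox, nsmul_eq_mul]
    push_cast
    exact le_rfl

lemma sum_endL_le (M B n k s : ℕ) {a : ℝ} (ha : 0 ≤ a) :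
    ∑ l ∈ Lbox M B n, ((if l 0 + s < M * B ∧ ((l 0 + s) / B + 1) * B <
          (l 0 + s) + k + 1 then (1:ℝ) else 0) + a) ≤
      ((M * k : ℕ) : ℝ) * ((M * B : ℕ) : ℝ) ^ (n+1) + ((M * B : ℕ) : ℝ) ^ (n+2) * a := by
  rw [Finset.sum_add_distrib]
  apply add_le_add
  · rw [← Finset.sum_filter, Finset.sum_const, nsmul_eq_mul, mul_one]
    exact_mod_cast card_endL M B n k s
  · rw [Finset.sum_const, card_Lbox, nsmul_eq_mul]
    push_cast
    exact le_rfl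

end SumB

section CoreB
variable {p M B n : ℕ} [Fact p.Prime]

/-- Abstract form of the core theorem. -/
theorem core_abs {c : Flg p M B n} (hc : IsFlags c) {K K₆ K₂ K₇ s₁ b' : ℕ} (hM : 0 < M)
    (h8 : 8 ≤ p) (hK : 1 ≤ K) (hKm : K + 1 ≤ M * B) (hK₂ : 0 < K₂)
    (hK₇ : K + K₂ + (n+1) * (4 * K) ≤ K₇) (hden : 2 * (B * (M * B + 1) ^ n) ≤ p ^ (K+1))
    {θ : ℝ} (hθ : 0 < θ) {A : ℝ} (hA : 0 < A)
    (hS : ((n + K + 3 : ℕ) : ℝ) * ((M * B : ℕ) : ℝ) ^ (n+2) *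
        (2 * b1 p M B n K K₆ + 4 * θ * b2 p M B n K K₆) +
      (((n + K + 3 : ℕ) : ℝ) * ((M * B : ℕ) : ℝ) ^ (n+2) * (θ * b2 p M B n K K₆) +
      (((n + K + 3 : ℕ) : ℝ) * (((M * K₇ : ℕ) : ℝ) * ((M * B : ℕ) : ℝ) ^ (n+1)) *
        ((p:ℝ) ^ (n+2) * 2 ^ K₆) +
      (∑ s ∈ range s₁, (p:ℝ) ^ (n+2) * 2 ^ (K₆ + s) *
        (((M * (2 * (K + b')) : ℕ) : ℝ) * ((M * B : ℕ) : ℝ) ^ (n+1) +
          ((M * B : ℕ) : ℝ) ^ (n+2) * (2 / (p:ℝ) ^ b')) +
      ((M * B + 1 : ℕ) : ℝ) ^ (n+2) * (1 + 2 ^ (K+2))))) ≤ A)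
    (hE : ((M * B + 1 : ℕ) : ℝ) ^ (n+2) * (2 / (p:ℝ)) ^ (K + 1 + s₁) ≤ 1 / 8)
    (hG1 : ((M * B + 1 : ℕ) : ℝ) ^ (n+2) * (2 * (p:ℝ) ^ (K+1) / (p:ℝ) ^ (K₆ + 1)) ≤ 1 / 8)
    (hG2 : ((M * B + 1 : ℕ) : ℝ) ^ (n+2) * (2 * (p:ℝ) ^ K * (2 / (p:ℝ)) ^ (K₂ + K)) ≤ 1 / 8)
    (X : Type) [Fintype X] (d : X → Dat p n) :
    ∃ ω : Path p B, ∀ i : X, |∑ r ∈ range (M * B), XX c (d i) ω r| ≤
      4 * A + Real.log (16 * Fintype.card X * (p:ℝ) ^ (M * B) + 8) / θ := by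
  classical
  have hp0 : (0:ℝ) < p := by exact_mod_cast (Fact.out : p.Prime).pos
  have hKm' : K ≤ M * B := by omega
  have hB : ∀ j (ω : Path p B), p ^ B ≤ 2 * (Al c K j ω).card := al_density hc hM hden
  have hne := Al_nonempty hB
  have hT : ∀ r ∈ range (M * B), (r + 1) * M ≤ M * B * M := by
    intro r hr
    exact Nat.mul_le_mul_right _ (Finset.mem_range.1 hr)
  -- the extended index set
  let X' := X × (Fin (M * B) → ZMod p) × Bool
  let d' : X' → Dat p n := fun i => if i.2.2 = true then d i.1 else (d i.1).neg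
  let t' : X' → ℕ → ZMod p := fun i r => if h : r < M * B then i.2.1 ⟨r, h⟩ else 0
  have hcard : (Fintype.card X' : ℝ) = 2 * (Fintype.card X * (p:ℝ) ^ (M * B)) := by
    have : Fintype.card X' = Fintype.card X * (p ^ (M * B) * 2) := by
      simp only [X', Fintype.card_prod, Fintype.card_fun, ZMod.card, Fintype.card_fin,
        Fintype.card_bool]
    rw [this]
    push_cast
    ring
  set Λ : ℝ := 16 * Fintype.card X * (p:ℝ) ^ (M * B) + 8 with hΛ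
  have hΛ8 : Λ = 8 * Fintype.card X' + 8 := by rw [hΛ, hcard]; ring
  have hΛ0 : 0 < Λ := by rw [hΛ]; positivity
  let ω₀ : Path p B := fun _ => 0
  obtain ⟨F0, hF0⟩ : ∃ F0 : Path p B → ℝ, F0 = fun ω => Λ⁻¹ * ∑ i : X', Real.exp (θ *
      (∑ r ∈ range (M * B), ∑ b ∈ range M, YY c K K₆ K₂ K₇ θ (d' i) (t' i) ω r b -
        ∑ r ∈ range (M * B), ∑ b ∈ range M, kap c K K₆ K₂ K₇ (4 * K) θ ω r b)) := ⟨_, rfl⟩
  obtain ⟨CE, hCE⟩ : ∃ F : Path p B → ℝ, F = fun ω => ∑ r ∈ range (M * B), costE c K s₁ ω r :=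
    ⟨_, rfl⟩
  obtain ⟨CG1, hCG1⟩ : ∃ F : Path p B → ℝ, F = fun ω => ∑ r ∈ range (M * B), costG1 c K K₆ ω r :=
    ⟨_, rfl⟩
  obtain ⟨CG2, hCG2⟩ : ∃ F : Path p B → ℝ, F = fun ω => ∑ r ∈ range (M * B), costG2 c K₂ ω r :=
    ⟨_, rfl⟩
  obtain ⟨CK, hCK⟩ : ∃ F : Path p B → ℝ, F = fun ω => ∑ r ∈ range (M * B), ∑ b ∈ range M,
    kap c K K₆ K₂ K₇ (4 * K) θ ω r b := ⟨_, rfl⟩
  obtain ⟨CX, hCX⟩ : ∃ F : Path p B → ℝ, F = fun ω => ∑ r ∈ range (M * B), ∑ b ∈ range M,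
    costX c K K₆ K₂ K₇ θ ω r b := ⟨_, rfl⟩
  obtain ⟨CB, hCB⟩ : ∃ F : Path p B → ℝ, F = fun ω => ∑ r ∈ range (M * B),
    costB c K K₆ K₂ K₇ ω r := ⟨_, rfl⟩
  obtain ⟨CL, hCL⟩ : ∃ F : Path p B → ℝ, F = fun ω => ∑ r ∈ range (M * B), ∑ s ∈ range s₁,
    costL c K K₆ K₂ ω s r := ⟨_, rfl⟩
  obtain ⟨CO, hCO⟩ : ∃ F : Path p B → ℝ, F = fun ω => ∑ r ∈ range (M * B),
    costO c ω r := ⟨_, rfl⟩
  -- expectations
  have eF0 : EE (Al c K) 0 (M * B * M) F0 ω₀ ≤ 1 / 8 := by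
    rw [hF0, EE_const_mul]
    have h1 := exp_part (K₆ := K₆) (K₂ := K₂) (K₇ := K₇) (s₅ := 4 * K) hc hM (by omega) hK₇ hθ hB
      d' t' ω₀
    refine (mul_le_mul_of_nonneg_left h1 (inv_nonneg.2 hΛ0.le)).trans ?_
    rw [inv_mul_le_iff₀ hΛ0, hΛ8]
    linarith
  have eCE : EE (Al c K) 0 (M * B * M) CE ω₀ ≤ 1 / 8 := by
    rw [hCE, EE_sum]
    refine (Finset.sum_le_sum fun r hr => E_costE hc (Al c K) hB h8 (hT r hr) ω₀).trans ?_
    refine (sum_W_const M B n (fun r W => ∑ a, W a + r + K + 1 + s₁ = M * B) ?_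
      (by positivity)).trans hE
    intro W r r' h h'
    omega
  have eCG1 : EE (Al c K) 0 (M * B * M) CG1 ω₀ ≤ 1 / 8 := by
    rw [hCG1, EE_sum]
    refine (Finset.sum_le_sum fun r hr => E_costG1 hc (Al c K) hB h8 K₆ (hT r hr) ω₀).trans ?_
    refine (sum_W_const M B n (fun r W => ∑ a, W a + r + K + 1 = M * B) ?_
      (by positivity)).trans hG1
    intro W r r' h h'
    omega
  have eCG2 : EE (Al c K) 0 (M * B * M) CG2 ω₀ ≤ 1 / 8 := by
    rw [hCG2, EE_sum]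
    refine (Finset.sum_le_sum fun r hr => E_costG2 hc hK hKm' (Al c K) hB h8 K₂ (hT r hr) ω₀).trans ?_
    refine (sum_W_const M B n (fun r W => ∑ a, W a + r = M * B + K₂) ?_
      (by positivity)).trans hG2
    intro W r r' h h'
    omega
  have eCK : EE (Al c K) 0 (M * B * M) CK ω₀ ≤ ((n + K + 3 : ℕ) : ℝ) * ((M * B : ℕ) : ℝ) ^ (n+2) *
        (2 * b1 p M B n K K₆ + 4 * θ * b2 p M B n K K₆) := by
    rw [hCK, EE_sum]
    have hb0 : 0 ≤ 2 * b1 p M B n K K₆ + 4 * θ * b2 p M B n K K₆ := by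
      have h1 := b1_nonneg p M B n K K₆
      have h2 := b2_nonneg p M B n K K₆
      positivity
    have h1 : ∀ r ∈ range (M * B), EE (Al c K) 0 (M * B * M)
        (fun ω => ∑ b ∈ range M, kap c K K₆ K₂ K₇ (4 * K) θ ω r b) ω₀ ≤
        ∑ b : Fin M, ((Mint M B n K K₇ r b).card : ℝ) *
          (2 * b1 p M B n K K₆ + 4 * θ * b2 p M B n K K₆) := by
      intro r hr
      rw [EE_sum, ← Fin.sum_univ_eq_sum_range (fun b => EE (Al c K) 0 (M * B * M)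
        (fun ω => kap c K K₆ K₂ K₇ (4 * K) θ ω r b) ω₀) M]
      exact Finset.sum_le_sum fun b _ => E_kap hc hK hKm' (Al c K) hB h8 K₆ K₂ K₇ hθ (hT r hr) b ω₀
    refine (Finset.sum_le_sum h1).trans ?_
    simp only [← Finset.sum_mul]
    exact mul_le_mul_of_nonneg_right (sum_Mint_card M B n K K₇) hb0
  have eCX : EE (Al c K) 0 (M * B * M) CX ω₀ ≤ ((n + K + 3 : ℕ) : ℝ) * ((M * B : ℕ) : ℝ) ^ (n+2) *
        (θ * b2 p M B n K K₆) := by
    rw [hCX, EE_sum]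
    have hb0 : 0 ≤ θ * b2 p M B n K K₆ := by
      have h2 := b2_nonneg p M B n K K₆
      positivity
    have h1 : ∀ r ∈ range (M * B), EE (Al c K) 0 (M * B * M)
        (fun ω => ∑ b ∈ range M, costX c K K₆ K₂ K₇ θ ω r b) ω₀ ≤
        ∑ b : Fin M, ((Mint M B n K K₇ r b).card : ℝ) * (θ * b2 p M B n K K₆) := by
      intro r hr
      rw [EE_sum, ← Fin.sum_univ_eq_sum_range (fun b => EE (Al c K) 0 (M * B * M)
        (fun ω => costX c K K₆ K₂ K₇ θ ω r b) ω₀) M]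
      exact Finset.sum_le_sum fun b _ =>
        E_costX hc hK hKm' (Al c K) hB h8 K₆ K₂ K₇ hθ (hT r hr) b ω₀
    refine (Finset.sum_le_sum h1).trans ?_
    simp only [← Finset.sum_mul]
    exact mul_le_mul_of_nonneg_right (sum_Mint_card M B n K K₇) hb0
  have eCB : EE (Al c K) 0 (M * B * M) CB ω₀ ≤
      ((n + K + 3 : ℕ) : ℝ) * (((M * K₇ : ℕ) : ℝ) * ((M * B : ℕ) : ℝ) ^ (n+1)) *
        ((p:ℝ) ^ (n+2) * 2 ^ K₆) := by
    rw [hCB, EE_sum]
    have h1 : ∀ r ∈ range (M * B), EE (Al c K) 0 (M * B * M)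
        (fun ω => costB c K K₆ K₂ K₇ ω r) ω₀ ≤
        ((Bd M B n K K₇ r).card : ℝ) * ((p:ℝ) ^ (n+2) * 2 ^ K₆) := by
      intro r hr
      refine (E_costB (Al c K) hB h8 K₆ K₂ K₇ (hT r hr) ω₀).trans (le_of_eq ?_)
      rw [Finset.sum_const, nsmul_eq_mul]
    refine (Finset.sum_le_sum h1).trans ?_
    rw [← Finset.sum_mul]
    exact mul_le_mul_of_nonneg_right (sum_Bd_card M B n K K₇) (by positivity)
  have eCL : EE (Al c K) 0 (M * B * M) CL ω₀ ≤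
      ∑ s ∈ range s₁, (p:ℝ) ^ (n+2) * 2 ^ (K₆ + s) *
        (((M * (2 * (K + b')) : ℕ) : ℝ) * ((M * B : ℕ) : ℝ) ^ (n+1) +
          ((M * B : ℕ) : ℝ) ^ (n+2) * (2 / (p:ℝ) ^ b')) := by
    rw [hCL, EE_sum]
    have h1 : ∀ r ∈ range (M * B), EE (Al c K) 0 (M * B * M)
        (fun ω => ∑ s ∈ range s₁, costL c K K₆ K₂ ω s r) ω₀ ≤
        ∑ s ∈ range s₁, ∑ l ∈ Lg M B n K s r, (p:ℝ) ^ (n+2) * 2 ^ (K₆ + s) *
        ((if l 0 + (s+1) < M * B ∧ ((l 0 + (s+1)) / B + 1) * B <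
          (l 0 + (s+1)) + 2 * (K + b') + 1 then 1 else 0) + 2 / (p:ℝ) ^ b') := by
      intro r hr
      rw [EE_sum]
      exact Finset.sum_le_sum fun s _ => E_costL hc hK hKm' (Al c K) hB h8 K₆ K₂ b' s (hT r hr) ω₀
    refine (Finset.sum_le_sum h1).trans ?_
    rw [Finset.sum_comm]
    apply Finset.sum_le_sum
    intro s _
    refine (sum_Lg_le M B n K s (fun l => (p:ℝ) ^ (n+2) * 2 ^ (K₆ + s) *
        ((if l 0 + (s+1) < M * B ∧ ((l 0 + (s+1)) / B + 1) * B <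
          (l 0 + (s+1)) + 2 * (K + b') + 1 then 1 else 0) + 2 / (p:ℝ) ^ b'))
        (fun l => mul_nonneg (by positivity)
          (add_nonneg (by split_ifs <;> norm_num) (by positivity)))).trans ?_
    rw [← Finset.mul_sum]
    exact mul_le_mul_of_nonneg_left (sum_endL_le M B n (2 * (K + b')) (s+1) (by positivity))
      (by positivity)
  have eCO : EE (Al c K) 0 (M * B * M) CO ω₀ ≤
      ((M * B + 1 : ℕ) : ℝ) ^ (n+2) * (1 + 2 ^ (K+2)) := by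
    rw [hCO, EE_sum]
    refine (Finset.sum_le_sum fun r hr => E_costO hc hK hKm' (Al c K) hB h8 (hT r hr) ω₀).trans ?_
    refine sum_W_const M B n (fun r W => ∑ a, W a + r = M * B + 1) ?_ (by positivity)
    intro W r r' h h'
    omega
  -- the path
  obtain ⟨ω, _, hω, hF⟩ := exists_path (Al c K) hne (fun j => Al_dep hc K hM j) 0 (M * B * M)
    (fun ω => F0 ω + (CE ω + (CG1 ω + (CG2 ω + (4 * A)⁻¹ * (CK ω + (CX ω + (CB ω +
      (CL ω + CO ω)))))))) ω₀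
  rw [EE_total] at hF
  have hsum : (4 * A)⁻¹ * (EE (Al c K) 0 (M * B * M) CK ω₀ + (EE (Al c K) 0 (M * B * M) CX ω₀ +
      (EE (Al c K) 0 (M * B * M) CB ω₀ +
      (EE (Al c K) 0 (M * B * M) CL ω₀ + EE (Al c K) 0 (M * B * M) CO ω₀)))) ≤ 1 / 4 := by
    rw [inv_mul_le_iff₀ (by linarith)]
    linarith
  have hF' : F0 ω + (CE ω + (CG1 ω + (CG2 ω + (4 * A)⁻¹ * (CK ω + (CX ω + (CB ω +
      (CL ω + CO ω))))))) < 1 := by
    refine lt_of_le_of_lt hF ?_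
    linarith
  -- nonnegativity
  have n0 : 0 ≤ F0 ω := by
    rw [hF0]
    exact mul_nonneg (inv_nonneg.2 hΛ0.le) (Finset.sum_nonneg fun _ _ => (Real.exp_pos _).le)
  have nE : 0 ≤ CE ω := by rw [hCE]; exact Finset.sum_nonneg fun r _ => costE_nonneg c K s₁ ω r
  have nG1 : 0 ≤ CG1 ω := by rw [hCG1]; exact Finset.sum_nonneg fun r _ => costG1_nonneg c K K₆ ω r
  have nG2 : 0 ≤ CG2 ω := by rw [hCG2]; exact Finset.sum_nonneg fun r _ => costG2_nonneg c K₂ ω r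
  have nK : 0 ≤ CK ω := by
    rw [hCK]
    exact Finset.sum_nonneg fun r _ => Finset.sum_nonneg fun b _ => kap_nonneg c _ _ _ _ _ hθ ω r b
  have nX : 0 ≤ CX ω := by
    rw [hCX]
    exact Finset.sum_nonneg fun r _ => Finset.sum_nonneg fun b _ => costX_nonneg c _ _ _ _ hθ ω r b
  have nB : 0 ≤ CB ω := by
    rw [hCB]; exact Finset.sum_nonneg fun r _ => costB_nonneg c K K₆ K₂ K₇ ω r
  have nL : 0 ≤ CL ω := by
    rw [hCL]
    exact Finset.sum_nonneg fun r _ => Finset.sum_nonneg fun s _ => costL_nonneg c K K₆ K₂ ω s r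
  have nO : 0 ≤ CO ω := by rw [hCO]; exact Finset.sum_nonneg fun r _ => costO_nonneg c ω r
  have hinv : 0 < (4 * A)⁻¹ := inv_pos.2 (by linarith)
  have nT : 0 ≤ (4 * A)⁻¹ * (CK ω + (CX ω + (CB ω + (CL ω + CO ω)))) := by positivity
  have hE1 : ∀ r < M * B, costE c K s₁ ω r < 1 := by
    intro r hr
    have h1 : costE c K s₁ ω r ≤ CE ω := by
      rw [hCE]
      exact Finset.single_le_sum (f := fun r => costE c K s₁ ω r)
        (fun r _ => costE_nonneg c K s₁ ω r) (Finset.mem_range.2 hr)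
    linarith
  have hG11 : ∀ r < M * B, costG1 c K K₆ ω r < 1 := by
    intro r hr
    have h1 : costG1 c K K₆ ω r ≤ CG1 ω := by
      rw [hCG1]
      exact Finset.single_le_sum (f := fun r => costG1 c K K₆ ω r)
        (fun r _ => costG1_nonneg c K K₆ ω r) (Finset.mem_range.2 hr)
    linarith
  have hG21 : ∀ r < M * B, costG2 c K₂ ω r < 1 := by
    intro r hr
    have h1 : costG2 c K₂ ω r ≤ CG2 ω := by
      rw [hCG2]
      exact Finset.single_le_sum (f := fun r => costG2 c K₂ ω r)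
        (fun r _ => costG2_nonneg c K₂ ω r) (Finset.mem_range.2 hr)
    linarith
  have hgood := good_of_cost hKm hK₂ hG11 hG21
  have hcost : CK ω + (CX ω + (CB ω + (CL ω + CO ω))) ≤ 4 * A := by
    have h1 : (4 * A)⁻¹ * (CK ω + (CX ω + (CB ω + (CL ω + CO ω)))) < 1 := by linarith
    rw [inv_mul_lt_iff₀ (by linarith)] at h1
    linarith
  have hAlω : ∀ j < M * B * M, ω j ∈ Al c K j ω := fun j hj => hω j (Nat.zero_le _) (by omega)
  have hexp : ∀ i : X', ∑ r ∈ range (M * B), ∑ b ∈ range M, YY c K K₆ K₂ K₇ θ (d' i) (t' i) ω r b ≤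
      CK ω + Real.log Λ / θ := by
    intro i
    have h1 : F0 ω < 1 := by linarith
    rw [hF0, inv_mul_lt_iff₀ hΛ0, mul_one] at h1
    have h2 := Finset.single_le_sum (f := fun i : X' => Real.exp (θ *
      (∑ r ∈ range (M * B), ∑ b ∈ range M, YY c K K₆ K₂ K₇ θ (d' i) (t' i) ω r b -
        ∑ r ∈ range (M * B), ∑ b ∈ range M, kap c K K₆ K₂ K₇ (4 * K) θ ω r b)))
      (fun _ _ => (Real.exp_pos _).le) (Finset.mem_univ i)
    have h3 := lt_of_le_of_lt h2 h1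
    rw [← Real.lt_log_iff_exp_lt hΛ0] at h3
    have h4 : ∑ r ∈ range (M * B), ∑ b ∈ range M, YY c K K₆ K₂ K₇ θ (d' i) (t' i) ω r b -
        ∑ r ∈ range (M * B), ∑ b ∈ range M, kap c K K₆ K₂ K₇ (4 * K) θ ω r b ≤ Real.log Λ / θ := by
      rw [le_div_iff₀ hθ, mul_comm]
      exact h3.le
    rw [hCK]
    linarith
  refine ⟨ω, fun i => ?_⟩
  have ht : ∀ r < M * B, ∀ s : Bool, t' (i, (fun r' : Fin (M * B) => row M ω r' (xv M B (d i))), s) r
      = row M ω r (xv M B (d i)) := by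
    intro r hr s
    simp only [t']
    rw [dif_pos hr]
  have hdec : |∑ r ∈ range (M * B), XX c (d i) ω r -
      ∑ r ∈ range (M * B), ∑ b ∈ range M, YY c K K₆ K₂ K₇ θ (d i)
        (t' (i, (fun r' : Fin (M * B) => row M ω r' (xv M B (d i))), true)) ω r b| ≤
      CX ω + CB ω + CL ω + CO ω := by
    rw [← Finset.sum_sub_distrib]
    refine (Finset.abs_sum_le_sum_abs _ _).trans ?_
    rw [hCX, hCB, hCL, hCO, ← Finset.sum_add_distrib, ← Finset.sum_add_distrib,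
      ← Finset.sum_add_distrib]
    apply Finset.sum_le_sum
    intro r hr
    rw [Finset.mem_range] at hr
    exact decomp hθ hr hAlω (hE1 r hr) (hgood r hr) (d i) _ (ht r hr true)
  have hp1 := hexp (i, (fun r' : Fin (M * B) => row M ω r' (xv M B (d i))), true)
  have hp2 := hexp (i, (fun r' : Fin (M * B) => row M ω r' (xv M B (d i))), false)
  have e1 : d' (i, (fun r' : Fin (M * B) => row M ω r' (xv M B (d i))), true) = d i := by
    simp [d']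
  have e2 : d' (i, (fun r' : Fin (M * B) => row M ω r' (xv M B (d i))), false) = (d i).neg := by
    simp [d']
  have e3 : t' (i, (fun r' : Fin (M * B) => row M ω r' (xv M B (d i))), false) =
      t' (i, (fun r' : Fin (M * B) => row M ω r' (xv M B (d i))), true) := rfl
  rw [e1] at hp1
  rw [e2, e3] at hp2
  simp only [YY_neg, Finset.sum_neg_distrib] at hp2
  rw [abs_le] at hdec ⊢
  constructor <;> linarith [hdec.1, hdec.2]

end CoreB

end Pool.Agent.H470D4
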