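import Pool.Agent.H470D4.Step

set_option autoImplicit false
set_option linter.unusedSectionVars false

namespace Pool.Agent.H470D4

open Finset

section Cnt
variable {n : ℕ}

/-- Level vectors with given sum and given block: the last entry is determined. -/
lemma card_fix (m B b s : ℕ) :
    ((Fintype.piFinset (fun _ : Fin (n+2) => range m)).filter
      (fun l => ∑ a, l a = s ∧ b * B ≤ l 0 ∧ l 0 < (b+1) * B)).card ≤ B * m ^ n := by
  classical
  have hcard : (range B ×ˢ (Fintype.piFinset (fun _ : Fin n => range m))).card = B * m ^ n := by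
    simp
  rw [← hcard]
  apply Finset.card_le_card_of_injOn (fun l => (l 0 - b * B, fun i : Fin n => l i.succ.castSucc))
  · intro l hl
    simp only [Finset.coe_filter, Set.mem_setOf_eq, Fintype.mem_piFinset, Finset.mem_range] at hl
    simp only [Finset.coe_product, Set.mem_prod, Finset.mem_coe, Finset.mem_range,
      Fintype.mem_piFinset]
    obtain ⟨h1, _, h3, h4⟩ := hl
    refine ⟨?_, fun i => h1 _⟩
    rw [Nat.add_mul, one_mul] at h4
    omega
  · intro l hl l' hl' he
    simp only [Finset.coe_filter, Set.mem_setOf_eq] at hl hl'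
    obtain ⟨_, h2, h3, _⟩ := hl
    obtain ⟨_, h2', h3', _⟩ := hl'
    simp only [Prod.mk.injEq] at he
    obtain ⟨e1, e2⟩ := he
    have e0 : l 0 = l' 0 := by omega
    have emid : ∀ i : Fin (n+1), l i.castSucc = l' i.castSucc := by
      intro i
      refine Fin.cases ?_ (fun j => ?_) i
      · exact e0
      · exact congrFun e2 j
    have elast : l (Fin.last (n+1)) = l' (Fin.last (n+1)) := by
      rw [Fin.sum_univ_castSucc] at h2 h2'
      have : ∑ i : Fin (n+1), l i.castSucc = ∑ i : Fin (n+1), l' i.castSucc :=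
        Finset.sum_congr rfl fun i _ => emid i
      omega
    funext a
    refine Fin.lastCases ?_ (fun i => ?_) a
    · exact elast
    · exact emid i

/-- Level vectors close to a given one. -/
lemma card_near (m s : ℕ) (L : Fin (n+2) → ℕ) :
    ((Fintype.piFinset (fun _ : Fin (n+2) => range m)).filter
      (fun W => l1d W L ≤ s)).card ≤ (2 * s + 1) ^ (n+2) := by
  classical
  have h1 : ((Fintype.piFinset (fun _ : Fin (n+2) => range m)).filter
      (fun W => l1d W L ≤ s)) ⊆ Fintype.piFinset (fun a => Icc (L a - s) (L a + s)) := by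
    intro W hW
    rw [Finset.mem_filter] at hW
    rw [Fintype.mem_piFinset]
    intro a
    rw [Finset.mem_Icc]
    have h1 : (W a - L a) + (L a - W a) ≤ l1d W L :=
      Finset.single_le_sum (f := fun a => (W a - L a) + (L a - W a)) (fun _ _ => Nat.zero_le _)
        (Finset.mem_univ a)
    have := hW.2
    omega
  refine (Finset.card_le_card h1).trans ?_
  rw [Fintype.card_piFinset]
  calc ∏ a : Fin (n+2), (Icc (L a - s) (L a + s)).card ≤ ∏ _a : Fin (n+2), (2 * s + 1) := by
        apply Finset.prod_le_prod' 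
        intro a _
        rw [Nat.card_Icc]
        omega
    _ = _ := by simp

lemma sum_max (W L : Fin (n+2) → ℕ) :
    2 * ∑ a, max (L a) (W a) = ∑ a, L a + ∑ a, W a + l1d W L := by
  unfold l1d
  rw [Finset.mul_sum, ← Finset.sum_add_distrib, ← Finset.sum_add_distrib]
  apply Finset.sum_congr rfl
  intro a _
  rcases le_total (L a) (W a) with h | h
  · rw [max_eq_right h]; omega
  · rw [max_eq_left h]; omega

end Cnt

section CL
variable {p M B : ℕ} [Fact p.Prime]

open Classical in
lemma card_le_of_diff' {k : ℕ} (A : Submodule (ZMod p) (Fin k → ZMod p))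
    (s : Finset (Fin k → ZMod p)) (h : ∀ ν ∈ s, ∀ ν' ∈ s, ν' - ν ∈ A) :
    s.card ≤ p ^ Module.finrank (ZMod p) A := by
  rcases s.eq_empty_or_nonempty with rfl | ⟨ν₀, hν₀⟩
  · simp
  have hcA : Nat.card A = p ^ Module.finrank (ZMod p) A := by
    rw [Module.natCard_eq_pow_finrank (K := ZMod p), Nat.card_eq_fintype_card, ZMod.card]
  rw [← hcA, Nat.card_eq_fintype_card, ← Finset.card_univ]
  refine Finset.card_le_card_of_injOn
    (fun ν => if hν : ν - ν₀ ∈ A then (⟨ν - ν₀, hν⟩ : A) else 0) (fun _ _ => Finset.mem_univ _) ?_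
  intro ν hν ν' hν' he
  have h1 := h ν₀ hν₀ ν hν
  have h2 := h ν₀ hν₀ ν' hν'
  simp only [h1, h2, dif_pos] at he
  have := congrArg Subtype.val he
  simpa using this

/-- Orthogonal complement. -/
def orth {k : ℕ} (U : Submodule (ZMod p) (Fin k → ZMod p)) :
    (Fin k → ZMod p) →ₗ[ZMod p] Module.Dual (ZMod p) U where
  toFun := fun z => (∑ i, z i • LinearMap.proj i : (Fin k → ZMod p) →ₗ[ZMod p] ZMod p).domRestrict U
  map_add' := by
    intro z z'
    ext u
    simp [LinearMap.sum_apply, add_mul, Finset.sum_add_distrib]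
  map_smul' := by
    intro s z
    ext u
    simp [LinearMap.sum_apply, Finset.mul_sum, mul_assoc]

lemma orth_apply {k : ℕ} (U : Submodule (ZMod p) (Fin k → ZMod p)) (z : Fin k → ZMod p) (u : U) :
    orth U z u = ∑ i, z i * (u : Fin k → ZMod p) i := by
  simp [orth, LinearMap.sum_apply]

lemma orth_surj {k : ℕ} (U : Submodule (ZMod p) (Fin k → ZMod p)) :
    Function.Surjective (orth U) := by
  intro φ
  obtain ⟨ψ, hψ⟩ := LinearMap.exists_extend φ
  refine ⟨fun i => ψ (Pi.single i 1), ?_⟩
  ext u
  rw [orth_apply]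
  have h1 : φ u = ψ u := by rw [← hψ]; rfl
  rw [h1, LinearMap.pi_apply_eq_sum_univ ψ]
  apply Finset.sum_congr rfl
  intro i _
  rw [smul_eq_mul, mul_comm]
  congr 2
  funext j
  rw [Pi.single_apply]
  simp only [eq_comm]

lemma finrank_orth {k : ℕ} (U : Submodule (ZMod p) (Fin k → ZMod p)) :
    Module.finrank (ZMod p) (LinearMap.ker (orth U)) + Module.finrank (ZMod p) U = k := by
  have h1 := LinearMap.finrank_range_add_finrank_ker (orth U)
  have h2 : Module.finrank (ZMod p) (LinearMap.range (orth U)) = Module.finrank (ZMod p) U := by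
    rw [LinearMap.range_eq_top.2 (orth_surj U), finrank_top, Subspace.dual_finrank_eq]
  rw [h2, Module.finrank_fin_fun] at h1
  omega

/-- The number of values of the block `b` for which the row vanishes on `A`. -/
lemma count_kil (ω : Path p B) (r : ℕ) (b : Fin M) (A : Submodule (ZMod p) (Vec p M B))
    (hA : A ≤ Vb p M B b) (hA' : A ⊓ Vb p M B ((b:ℕ)+1) = ⊥) :
    (∑ z : Blk p B, kil M r A (Function.update ω (r * M + (M - 1 - b)) z)) *
      (p:ℝ) ^ Module.finrank (ZMod p) A ≤ (p:ℝ) ^ B := by
  classical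
  set j := r * M + (M - 1 - (b:ℕ)) with hj
  set S : Finset (Blk p B) := univ.filter (fun z => A ≤ LinearMap.ker (row M (Function.update ω j z) r))
    with hS
  have h1 : ∑ z : Blk p B, kil M r A (Function.update ω j z) = S.card := by
    unfold kil
    rw [Finset.sum_boole]
  have hinj : Function.Injective ((Rb p B b).domRestrict A) := by
    rw [← LinearMap.ker_eq_bot]
    rw [Submodule.eq_bot_iff]
    intro x hx
    rw [LinearMap.mem_ker, LinearMap.domRestrict_apply] at hx
    have h3 : (x : Vec p M B) ∈ A ⊓ Vb p M B ((b:ℕ)+1) :=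
      ⟨x.2, (mem_Vb_succ (hA x.2)).2 hx⟩
    rw [hA', Submodule.mem_bot] at h3
    exact Subtype.ext h3
  have hfr : Module.finrank (ZMod p) (A.map (Rb p B b)) = Module.finrank (ZMod p) A := by
    rw [← LinearMap.range_domRestrict]
    exact LinearMap.finrank_range_of_inj hinj
  have h2 : S.card ≤ p ^ Module.finrank (ZMod p) (LinearMap.ker (orth (A.map (Rb p B b)))) := by
    apply card_le_of_diff'
    intro z hz z' hz'
    rw [hS, Finset.mem_filter] at hz hz'
    rw [LinearMap.mem_ker]
    ext u
    obtain ⟨u, α, hα, rfl⟩ := u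
    rw [orth_apply]
    have e1 : row M (Function.update ω j z) r α = 0 := hz.2 hα
    have e2 : row M (Function.update ω j z') r α = 0 := hz'.2 hα
    rw [row_update] at e1 e2
    simp only [Pi.sub_apply, sub_mul, Finset.sum_sub_distrib, Rb_apply, LinearMap.zero_apply]
    linear_combination e2 - e1
  have h3 := finrank_orth (A.map (Rb p B b))
  rw [hfr] at h3
  rw [h1]
  have h4 : S.card * p ^ Module.finrank (ZMod p) A ≤ p ^ B := by
    calc S.card * p ^ Module.finrank (ZMod p) A ≤
        p ^ Module.finrank (ZMod p) (LinearMap.ker (orth (A.map (Rb p B b)))) *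
          p ^ Module.finrank (ZMod p) A := Nat.mul_le_mul_right _ h2
      _ = p ^ B := by rw [← pow_add, h3]
  exact_mod_cast h4

end CL

section Dens
variable {p M B n : ℕ} [Fact p.Prime]

/-- Density of the allowed sets. -/
theorem al_density {c : Flg p M B n} (hc : IsFlags c) {K : ℕ} (hM : 0 < M)
    (hK : 2 * (B * (M * B + 1) ^ n) ≤ p ^ (K+1)) (j : ℕ) (ω : Path p B) :
    p ^ B ≤ 2 * (Al c K j ω).card := by
  classical
  set r := j / M with hr
  set k := j % M with hk
  have hkM : k < M := Nat.mod_lt _ hM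
  set b : Fin M := ⟨M - 1 - k, by omega⟩ with hb
  have hbv : (b : ℕ) = M - 1 - k := rfl
  have hj : j = r * M + (M - 1 - (b:ℕ)) := by
    rw [hbv, show M - 1 - (M - 1 - k) = k by omega, hr, hk, mul_comm]
    exact (Nat.div_add_mod j M).symm
  have hp : 0 < p := (Fact.out : p.Prime).pos
  -- count the forbidden values
  have h1 : ((PhiF c K j ω).card : ℝ) ≤ ∑ W ∈ Iset c K ω r b,
      ∑ z : Blk p B, kil M r (AA c ω W r) (Function.update ω j z) := by
    have h2 : ((PhiF c K j ω).card : ℝ) = ∑ z : Blk p B, (if z ∈ PhiF c K j ω then (1:ℝ) else 0) := by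
      rw [Finset.sum_boole]
      congr 2
      ext z; simp
    rw [h2, Finset.sum_comm]
    apply Finset.sum_le_sum
    intro z _
    rw [hj]
    rw [ind_Phi]
    obtain ⟨_, _, h5⟩ := one_sub_prod_le (Iset c K ω r b)
        (fun W => kil M r (AA c ω W r) (Function.update ω (r * M + (M - 1 - (b:ℕ))) z))
        (fun W _ => kil_nn _ _ _) (fun W _ => kil_l1 _ _ _)
    exact h5
  have h2 : ∀ W ∈ Iset c K ω r b,
      (∑ z : Blk p B, kil M r (AA c ω W r) (Function.update ω j z)) * (p:ℝ) ^ (K+1) ≤
        (p:ℝ) ^ B := by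
    intro W hW
    rw [mem_Iset] at hW
    have h3 := count_kil ω r b (AA c ω W r) (AA_le_Vb hc ω hW.2.2.1) hW.2.2.2.2
    rw [← hj] at h3
    refine le_trans ?_ h3
    apply mul_le_mul_of_nonneg_left _ (Finset.sum_nonneg fun z _ => kil_nn _ _ _)
    apply pow_le_pow_right₀ (by exact_mod_cast hp)
    have := finrank_AA_ge c hc ω W r
    omega
  have h3 : ((PhiF c K j ω).card : ℝ) * (p:ℝ) ^ (K+1) ≤ (B * (M * B + 1) ^ n : ℕ) * (p:ℝ) ^ B := by
    calc ((PhiF c K j ω).card : ℝ) * (p:ℝ) ^ (K+1) ≤ (∑ W ∈ Iset c K ω r b,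
          ∑ z : Blk p B, kil M r (AA c ω W r) (Function.update ω j z)) * (p:ℝ) ^ (K+1) := by
          gcongr
      _ = ∑ W ∈ Iset c K ω r b, (∑ z : Blk p B, kil M r (AA c ω W r) (Function.update ω j z)) *
            (p:ℝ) ^ (K+1) := Finset.sum_mul _ _ _
      _ ≤ ∑ W ∈ Iset c K ω r b, (p:ℝ) ^ B := Finset.sum_le_sum h2
      _ = (Iset c K ω r b).card * (p:ℝ) ^ B := by rw [Finset.sum_const, nsmul_eq_mul]
      _ ≤ _ := by
        apply mul_le_mul_of_nonneg_right _ (by positivity)
        have h4 : (Iset c K ω r b).card ≤ B * (M * B + 1) ^ n := by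
          rcases Nat.lt_or_ge (M * B) (r + K + 1) with h | h
          · have : Iset c K ω r b = ∅ := by
              rw [Finset.eq_empty_iff_forall_notMem]
              intro W hW
              rw [mem_Iset] at hW
              omega
            rw [this]; simp
          · refine le_trans (Finset.card_le_card ?_)
              (card_fix (n := n) (M * B + 1) B b (M * B - (r + K + 1)))
            intro W hW
            rw [mem_Iset] at hW
            rw [Finset.mem_filter, Fintype.mem_piFinset]
            refine ⟨fun a => by rw [Finset.mem_range]; have := hW.1 a; omega, by omega, hW.2.2.1,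
              hW.2.2.2.1⟩
        exact_mod_cast h4
  have h4 : (PhiF c K j ω).card * p ^ (K+1) ≤ (B * (M * B + 1) ^ n) * p ^ B := by exact_mod_cast h3
  have h5 : 2 * (PhiF c K j ω).card ≤ p ^ B := by
    have h6 : (2 * (PhiF c K j ω).card) * p ^ (K+1) ≤ p ^ B * p ^ (K+1) := by
      calc (2 * (PhiF c K j ω).card) * p ^ (K+1) = 2 * ((PhiF c K j ω).card * p ^ (K+1)) := by ring
        _ ≤ 2 * ((B * (M * B + 1) ^ n) * p ^ B) := Nat.mul_le_mul_left _ h4
        _ = (2 * (B * (M * B + 1) ^ n)) * p ^ B := by ring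
        _ ≤ p ^ (K+1) * p ^ B := Nat.mul_le_mul_right _ hK
        _ = _ := by ring
    exact Nat.le_of_mul_le_mul_right h6 (pow_pos hp _)
  have h6 : (Al c K j ω).card = p ^ B - (PhiF c K j ω).card := by
    unfold Al
    rw [Finset.card_compl, Fintype.card_fun, ZMod.card, Fintype.card_fin]
  have h7 : (PhiF c K j ω).card ≤ p ^ B := by omega
  omega

end Dens

end Pool.Agent.H470D4
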