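import Pool.Agent.H470D4.Sums4

set_option autoImplicit false
set_option linter.unusedSectionVars false

namespace Pool.Agent.H470D4

open Finset

section Dec
variable {p M B n : ℕ} [Fact p.Prime]

lemma exists_le_sumW {k : ℕ} (l : Fin k → ℕ) {N : ℕ} (h : N ≤ ∑ a, l a) :
    ∃ W : Fin k → ℕ, (∀ a, W a ≤ l a) ∧ ∑ a, W a = N := by
  obtain ⟨D, hD⟩ := Nat.exists_eq_add_of_le h
  induction D generalizing l with
  | zero => exact ⟨l, fun _ => le_rfl, by omega⟩
  | succ D ih =>
    have : ∃ a, 0 < l a := by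
      by_contra hcon
      push Not at hcon
      have : ∑ a, l a = 0 := Finset.sum_eq_zero fun a _ => by have := hcon a; omega
      omega
    obtain ⟨a, ha⟩ := this
    have h1 : ∑ i, Function.update l a (l a - 1) i + 1 = ∑ i, l i := by
      rw [Finset.sum_update_of_mem (Finset.mem_univ a),
        ← Finset.add_sum_erase univ l (Finset.mem_univ a), Finset.sdiff_singleton_eq_erase]
      omega
    obtain ⟨W, hW, hs⟩ := ih (Function.update l a (l a - 1)) (by omega) (by omega)
    refine ⟨W, fun i => (hW i).trans ?_, hs⟩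
    by_cases e : i = a
    · subst e; simp
    · rw [Function.update_of_ne e]

lemma XX_eq_TT (c : Flg p M B n) (d : Dat p n) (ω : Path p B) (r : ℕ) (t : ℕ → ZMod p)
    (ht : t r = row M ω r (xv M B d)) : XX c d ω r = ∑ l ∈ Lbox M B n, TT c d t ω r l := by
  unfold XX TT
  apply Finset.sum_congr rfl
  intro l _
  apply Finset.sum_congr rfl
  intro ν _
  rw [ht, map_sub, sub_sub_cancel]

lemma kil_anti (r : ℕ) {A A' : Submodule (ZMod p) (Vec p M B)} (h : A ≤ A') (ω : Path p B) :
    kil M r A' ω ≤ kil M r A ω := by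
  rcases kil_cases r A' ω with ⟨h1, h2⟩ | ⟨h1, _⟩
  · rw [h1, kil_eq_one (fun α hα => h2 α (h hα))]
  · rw [h1]; exact kil_nn _ _ _

lemma single_le_total (l : Fin (n+2) → ℕ) (a : Fin (n+2)) : l a ≤ ∑ a, l a :=
  Finset.single_le_sum (fun _ _ => Nat.zero_le _) (Finset.mem_univ a)

lemma kil_far {c : Flg p M B n} {K s₁ r s : ℕ} {ω : Path p B} (hE : costE c K s₁ ω r < 1)
    {l : Fin (n+2) → ℕ} (hl : l ∈ Lg M B n K s r) (hs : s₁ ≤ s) :
    kil M r (AA c ω (L1 l) r) ω = 0 := by
  classical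
  unfold Lg at hl
  rw [Finset.mem_filter] at hl
  have hW := sum_Wof l (s - s₁)
  have hmem : Wof l (s - s₁) ∈ (Wbox M B n).filter (fun W => ∑ a, W a + r + K + 1 + s₁ = M * B) := by
    rw [Finset.mem_filter, mem_Wbox]
    refine ⟨fun a => ?_, by omega⟩
    have := single_le_total (Wof l (s - s₁)) a
    omega
  have h1 : kil M r (AA c ω (Wof l (s - s₁)) r) ω ≤ costE c K s₁ ω r := by
    unfold costE
    exact Finset.single_le_sum (f := fun W => kil M r (AA c ω W r) ω)
      (fun _ _ => kil_nn _ _ _) hmem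
  have h2 : kil M r (AA c ω (Wof l (s - s₁)) r) ω = 0 := by
    rcases kil_cases r (AA c ω (Wof l (s - s₁)) r) ω with ⟨h3, _⟩ | ⟨h3, _⟩
    · rw [h3] at h1; linarith
    · exact h3
  have h3 := kil_anti r (AA_mono c ω (L1_le_Wof l (s - s₁)) (le_refl r)) ω
  have h4 := kil_nn r (AA c ω (L1 l) r) ω
  linarith

lemma jdiv {r k : ℕ} (hk : k < M) : (r * M + k) / M = r := by
  rw [mul_comm, Nat.mul_add_div (by omega), Nat.div_eq_of_lt hk, add_zero]

lemma jmod {r k : ℕ} (hk : k < M) : (r * M + k) % M = k := by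
  rw [mul_comm, Nat.mul_add_mod, Nat.mod_eq_of_lt hk]

lemma kil_near {c : Flg p M B n} {K r s : ℕ} {ω : Path p B} (hr : r < M * B)
    (hAl : ∀ j < M * B * M, ω j ∈ Al c K j ω)
    {l : Fin (n+2) → ℕ} (hl : l ∈ Lg M B n K s r) :
    kil M r (AA c ω (L1 l) r) ω ≤ strad c ω (Wof l s) r * kil M r (AA c ω (L1 l) r) ω := by
  classical
  unfold strad
  split_ifs with h
  · unfold Lg at hl
    rw [Finset.mem_filter] at hl
    have hW := sum_Wof l s
    set W := Wof l s with hWd
    have hW0 := single_le_total W 0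
    have hlt : W 0 < M * B := by omega
    have hdiv : W 0 / B < M := Nat.div_lt_of_lt_mul (by rwa [mul_comm] at hlt)
    set β := W 0 / B with hβ
    have hBpos : 0 < B := by
      rcases Nat.eq_zero_or_pos B with h | h
      · rw [h] at hlt; omega
      · exact h
    have hβM : β < M := hdiv
    have hβ1 : β * B ≤ W 0 := Nat.div_mul_le_self _ _
    have hβ2 : W 0 < (β + 1) * B := Nat.lt_mul_of_div_lt (Nat.lt_succ_self _) hBpos
    clear_value β
    have hj : r * M + (M - 1 - β) < M * B * M := by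
      have : (r + 1) * M ≤ M * B * M := Nat.mul_le_mul_right _ hr
      have e : (r + 1) * M = r * M + M := by ring
      omega
    have h1 := hAl _ hj
    have hmem : ∀ (j : ℕ) (z : Blk p B), z ∈ Al c K j ω ↔ ¬ ∃ W ∈ Iset c K ω (j / M) (M - 1 - j % M),
        AA c ω W (j / M) ≤ LinearMap.ker (row M (Function.update ω j z) (j / M)) := by
      intro j z
      simp only [Al, PhiF, Finset.mem_compl, Finset.mem_filter, Finset.mem_univ, true_and]
    rw [hmem, jdiv (by omega), jmod (by omega), Function.update_eq_self] at h1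
    have h2 : kil M r (AA c ω W r) ω = 0 := by
      unfold kil
      rw [if_neg]
      intro h3
      apply h1
      refine ⟨W, ?_, h3⟩
      rw [show M - 1 - (M - 1 - β) = β by omega]
      unfold Iset
      rw [Finset.mem_filter, Fintype.mem_piFinset]
      refine ⟨fun a => ?_, by omega, hβ1, hβ2, h⟩
      have := single_le_total W a
      rw [Finset.mem_range]
      omega
    have h3 := kil_anti r (AA_mono c ω (L1_le_Wof l s) (le_refl r)) ω
    rw [← hWd, h2] at h3
    rw [zero_mul]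
    exact h3
  · rw [one_mul]

lemma sum_cases {g g' : ℕ → ℝ} {R s₁ : ℕ} (h0 : ∀ s, 0 ≤ g' s) (h1 : ∀ s < s₁, g s ≤ g' s)
    (h2 : ∀ s, s₁ ≤ s → g s = 0) : ∑ s ∈ range R, g s ≤ ∑ s ∈ range s₁, g' s := by
  calc ∑ s ∈ range R, g s ≤ ∑ s ∈ range R, (if s < s₁ then g' s else 0) := by
        apply Finset.sum_le_sum
        intro s _
        split_ifs with h
        · exact h1 s h
        · rw [h2 s (by omega)]
    _ = ∑ s ∈ (range R).filter (· < s₁), g' s := by rw [Finset.sum_filter]
    _ ≤ ∑ s ∈ range s₁, g' s := by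
        apply Finset.sum_le_sum_of_subset_of_nonneg
        · intro s hs
          rw [Finset.mem_filter] at hs
          exact Finset.mem_range.2 hs.2
        · intro s _ _
          exact h0 s

lemma costL_nonneg (c : Flg p M B n) (K K₆ K₂ : ℕ) (ω : Path p B) (s r : ℕ) :
    0 ≤ costL c K K₆ K₂ ω s r := by
  unfold costL
  split_ifs
  · exact Finset.sum_nonneg fun l _ => mul_nonneg (mul_nonneg (by positivity)
      (strad_nonneg _ _ _ _)) (kil_nn _ _ _)
  · exact le_rfl

/-- The large levels. -/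
lemma large_sum {c : Flg p M B n} {K K₆ K₂ s₁ r : ℕ} {ω : Path p B} (hr : r < M * B)
    (hAl : ∀ j < M * B * M, ω j ∈ Al c K j ω) (hE : costE c K s₁ ω r < 1)
    (hg : good c K K₆ K₂ ω r) (d : Dat p n) (t : ℕ → ZMod p) :
    ∑ l ∈ (Lbox M B n).filter (fun l => ∑ a, l a + (n + 2) + r + K < M * B), |TT c d t ω r l| ≤
      ∑ s ∈ range s₁, costL c K K₆ K₂ ω s r := by
  classical
  have h1 : ∑ s ∈ range (M * B), ∑ l ∈ Lg M B n K s r, |TT c d t ω r l| =
      ∑ l ∈ (Lbox M B n).filter (fun l => ∑ a, l a + (n + 2) + r + K < M * B), |TT c d t ω r l| := by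
    rw [← Finset.sum_fiberwise_of_maps_to (g := fun l : Fin (n+2) → ℕ =>
      M * B - (∑ a, l a + (n + 2) + r + K + 1)) (t := range (M * B))]
    · apply Finset.sum_congr rfl
      intro s _
      apply Finset.sum_congr _ (fun _ _ => rfl)
      ext l
      unfold Lg
      rw [Finset.mem_filter, Finset.mem_filter, Finset.mem_filter]
      constructor
      · rintro ⟨h1, h2⟩
        exact ⟨⟨h1, by omega⟩, by omega⟩
      · rintro ⟨⟨h1, h2⟩, h3⟩
        exact ⟨h1, by omega⟩
    · intro l hl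
      rw [Finset.mem_filter] at hl
      rw [Finset.mem_range]
      omega
  rw [← h1]
  apply sum_cases (fun s => costL_nonneg c K K₆ K₂ ω s r)
  · intro s _
    unfold costL
    rw [if_pos hg]
    apply Finset.sum_le_sum
    intro l hl
    refine (TT_bound c d t ω r l).trans ?_
    rw [mul_assoc _ (strad c ω (Wof l s) r)]
    exact mul_le_mul_of_nonneg_left (kil_near hr hAl hl) (by positivity)
  · intro s hs
    apply Finset.sum_eq_zero
    intro l hl
    have h2 := TT_bound c d t ω r l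
    rw [kil_far hE hl hs, mul_zero] at h2
    exact le_antisymm h2 (abs_nonneg _)

lemma bd_sum {c : Flg p M B n} {K K₆ K₂ K₇ r : ℕ} {ω : Path p B}
    (hg : good c K K₆ K₂ ω r) (d : Dat p n) (t : ℕ → ZMod p) :
    ∑ l ∈ Bd M B n K K₇ r, |TT c d t ω r l| ≤ costB c K K₆ K₂ K₇ ω r := by
  unfold costB
  rw [if_pos hg]
  exact Finset.sum_le_sum fun l _ => TT_bound c d t ω r l

lemma lev_unique {c : Flg p M B n} {d : Dat p n} {ν : Vec p M B} {l l' : Fin (n+2) → ℕ}
    (h : Lev c d ν l) (h' : Lev c d ν l') : l = l' := by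
  funext a
  rcases Nat.lt_trichotomy (l a) (l' a) with h1 | h1 | h1
  · have h2 := (h' a).1 (l a) h1
    have h3 := (h a).2
    rw [h2] at h3
    exact absurd h3 (d.nlow a _)
  · exact h1
  · have h2 := (h a).1 (l' a) h1
    have h3 := (h' a).2
    rw [h2] at h3
    exact absurd h3 (d.nlow a _)

lemma TT_card (c : Flg p M B n) (d : Dat p n) (t : ℕ → ZMod p) (ω : Path p B) (r : ℕ)
    (l : Fin (n+2) → ℕ) : |TT c d t ω r l| ≤ ((cell c d ω r l).card : ℝ) := by
  unfold TT
  refine (Finset.abs_sum_le_sum_abs _ _).trans ?_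
  refine (Finset.sum_le_sum (fun ν _ => d.psi_le r _)).trans ?_
  rw [Finset.sum_const, nsmul_eq_mul, mul_one]

lemma over_sum (c : Flg p M B n) (d : Dat p n) (t : ℕ → ZMod p) (ω : Path p B) (r : ℕ)
    (hr : r ≤ M * B) :
    ∑ l ∈ (Lbox M B n).filter (fun l => M * B < ∑ a, l a + r), |TT c d t ω r l| ≤
      costO c ω r := by
  classical
  have hch : ∀ l : Fin (n+2) → ℕ, ∃ W : Fin (n+2) → ℕ, M * B < ∑ a, l a + r →
      (∀ a, W a ≤ l a) ∧ ∑ a, W a + r = M * B + 1 := by
    intro l
    by_cases h : M * B < ∑ a, l a + r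
    · obtain ⟨W, h1, h2⟩ := exists_le_sumW l (N := M * B + 1 - r) (by omega)
      exact ⟨W, fun _ => ⟨h1, by omega⟩⟩
    · exact ⟨l, fun h' => absurd h' h⟩
  choose g hg using hch
  rw [← Finset.sum_fiberwise_of_maps_to (g := g)
    (t := (Wbox M B n).filter (fun W => ∑ a, W a + r = M * B + 1))]
  · unfold costO
    apply Finset.sum_le_sum
    intro W _
    refine (Finset.sum_le_sum (fun l _ => TT_card c d t ω r l)).trans ?_
    have h1 : ∑ l ∈ ((Lbox M B n).filter (fun l => M * B < ∑ a, l a + r)).filter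
        (fun l => g l = W), (cell c d ω r l).card ≤ p ^ Module.finrank (ZMod p) (AA c ω W r) := by
      rw [← Finset.card_biUnion]
      · apply card_le_of_diff
        intro ν hν ν' hν'
        rw [Finset.mem_biUnion] at hν hν'
        obtain ⟨l, hl, h2⟩ := hν
        obtain ⟨l', hl', h2'⟩ := hν'
        rw [Finset.mem_filter, Finset.mem_filter] at hl hl'
        rw [mem_cell] at h2 h2'
        have h3 := hg l hl.1.2
        have h3' := hg l' hl'.1.2
        rw [hl.2] at h3
        rw [hl'.2] at h3'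
        refine ⟨fun a j hj => ?_, fun j hj => ?_⟩
        · rw [map_sub, (h2'.1 a).1 j (by have := h3'.1 a; omega),
            (h2.1 a).1 j (by have := h3.1 a; omega), sub_self]
        · rw [map_sub, h2'.2 j hj, h2.2 j hj, sub_self]
      · intro l _ l' _ hne
        rw [Function.onFun, Finset.disjoint_left]
        intro ν hν hν'
        rw [mem_cell] at hν hν'
        exact hne (lev_unique hν.1 hν'.1)
    calc ∑ l ∈ ((Lbox M B n).filter (fun l => M * B < ∑ a, l a + r)).filter
          (fun l => g l = W), ((cell c d ω r l).card : ℝ)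
        = ((∑ l ∈ ((Lbox M B n).filter (fun l => M * B < ∑ a, l a + r)).filter
          (fun l => g l = W), (cell c d ω r l).card : ℕ) : ℝ) := by push_cast; rfl
      _ ≤ ((p ^ Module.finrank (ZMod p) (AA c ω W r) : ℕ) : ℝ) := by exact_mod_cast h1
      _ = _ := by push_cast; rfl
  · intro l hl
    rw [Finset.mem_filter] at hl
    have h1 := hg l hl.2
    rw [Finset.mem_filter, mem_Wbox]
    refine ⟨fun a => (h1.1 a).trans ?_, h1.2⟩
    unfold Lbox at hl
    rw [Fintype.mem_piFinset] at hl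
    exact (Finset.mem_range.1 (hl.1 a)).le

lemma crit_sum (c : Flg p M B n) (K K₇ : ℕ) (d : Dat p n) (t : ℕ → ZMod p) (ω : Path p B) (r : ℕ) :
    ∑ l ∈ (Lbox M B n).filter (fun l => M * B ≤ ∑ a, l a + (n + 2) + r + K ∧ ∑ a, l a + r ≤ M * B),
      TT c d t ω r l = ∑ l ∈ Bd M B n K K₇ r, TT c d t ω r l +
        ∑ b ∈ range M, xi c K K₇ d t ω r b := by
  classical
  rw [← Finset.sum_filter_add_sum_filter_not _
    (fun l : Fin (n+2) → ℕ => l 0 + 0 < M * B ∧ ((l 0 + 0) / B + 1) * B < (l 0 + 0) + K₇ + 1)]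
  congr 1
  · apply Finset.sum_congr _ (fun _ _ => rfl)
    ext l
    unfold Bd
    simp only [Finset.mem_filter]
    tauto
  · rw [← Finset.sum_fiberwise_of_maps_to (g := fun l : Fin (n+2) → ℕ => l 0 / B) (t := range M)]
    · apply Finset.sum_congr rfl
      intro b hb
      unfold xi
      apply Finset.sum_congr _ (fun _ _ => rfl)
      ext l
      rw [Finset.mem_filter, Finset.mem_filter, Finset.mem_filter]
      unfold Mint
      rw [Finset.mem_filter]
      have hL : l ∈ Lbox M B n → l 0 < M * B := by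
        intro h
        unfold Lbox at h
        rw [Fintype.mem_piFinset] at h
        exact Finset.mem_range.1 (h 0)
      constructor
      · rintro ⟨⟨⟨h1, h2⟩, h3⟩, h4⟩
        have h5 := hL h1
        rw [not_and, not_lt] at h3
        have h6 := h3 (by omega)
        rw [add_zero, h4] at h6
        have h7 := Nat.div_mul_le_self (l 0) B
        rw [h4] at h7
        exact ⟨h1, h7, h6, h2⟩
      · rintro ⟨h1, h2, h3, h4⟩
        have h6 : l 0 / B = b := by
          apply Nat.div_eq_of_lt_le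
          · exact h2
          · omega
        refine ⟨⟨⟨h1, h4⟩, ?_⟩, h6⟩
        rw [add_zero, h6]
        omega
    · intro l hl
      rw [Finset.mem_filter, Finset.mem_filter] at hl
      unfold Lbox at hl
      rw [Fintype.mem_piFinset] at hl
      have h5 := Finset.mem_range.1 (hl.1.1 0)
      rw [Finset.mem_range]
      exact Nat.div_lt_of_lt_mul (by rwa [mul_comm] at h5)

lemma YY_close {c : Flg p M B n} {K K₆ K₂ K₇ : ℕ} {θ : ℝ} (d : Dat p n)
    (t : ℕ → ZMod p) {ω : Path p B} {r : ℕ} (β : ℕ) (hg : good c K K₆ K₂ ω r) (hθ : 0 < θ) :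
    |xi c K K₇ d t ω r β - YY c K K₆ K₂ K₇ θ d t ω r β| ≤ costX c K K₆ K₂ K₇ θ ω r β := by
  classical
  have h1 := xi_le c K K₇ d t ω r β
  have h0 := Xi_nonneg c K K₇ ω r β
  unfold YY costX
  rw [if_pos hg]
  split_ifs with h
  · rw [sub_self, abs_zero]
    positivity
  · have h2 : 1 < θ * Xi c K K₇ ω r β := by
      by_contra h3
      push Not at h3
      exact h ⟨hg, h3⟩
    rw [sub_zero]
    calc |xi c K K₇ d t ω r β| ≤ Xi c K K₇ ω r β := h1
      _ = Xi c K K₇ ω r β * 1 := (mul_one _).symm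
      _ ≤ Xi c K K₇ ω r β * (θ * Xi c K K₇ ω r β) := mul_le_mul_of_nonneg_left h2.le h0
      _ = _ := by ring

/-- Decomposition of a row. -/
theorem decomp {c : Flg p M B n} {K K₆ K₂ K₇ s₁ r : ℕ} {ω : Path p B} {θ : ℝ} (hθ : 0 < θ)
    (hr : r < M * B)
    (hAl : ∀ j < M * B * M, ω j ∈ Al c K j ω) (hE : costE c K s₁ ω r < 1)
    (hg : good c K K₆ K₂ ω r) (d : Dat p n) (t : ℕ → ZMod p)
    (ht : t r = row M ω r (xv M B d)) :
    |XX c d ω r - ∑ b ∈ range M, YY c K K₆ K₂ K₇ θ d t ω r b| ≤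
      ∑ b ∈ range M, costX c K K₆ K₂ K₇ θ ω r b + costB c K K₆ K₂ K₇ ω r +
      ∑ s ∈ range s₁, costL c K K₆ K₂ ω s r + costO c ω r := by
  classical
  rw [XX_eq_TT c d ω r t ht]
  have h1 : ∑ l ∈ Lbox M B n, TT c d t ω r l =
      ∑ l ∈ (Lbox M B n).filter (fun l => ∑ a, l a + (n + 2) + r + K < M * B), TT c d t ω r l +
      (∑ l ∈ (Lbox M B n).filter
        (fun l => M * B ≤ ∑ a, l a + (n + 2) + r + K ∧ ∑ a, l a + r ≤ M * B), TT c d t ω r l +
       ∑ l ∈ (Lbox M B n).filter (fun l => M * B < ∑ a, l a + r), TT c d t ω r l) := by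
    rw [← Finset.sum_filter_add_sum_filter_not (Lbox M B n)
      (fun l => ∑ a, l a + (n + 2) + r + K < M * B)]
    congr 1
    rw [← Finset.sum_filter_add_sum_filter_not
      ((Lbox M B n).filter (fun l => ¬ (∑ a, l a + (n + 2) + r + K < M * B)))
      (fun l => ∑ a, l a + r ≤ M * B), Finset.filter_filter, Finset.filter_filter]
    congr 1
    · apply Finset.sum_congr _ (fun _ _ => rfl)
      apply Finset.filter_congr
      intro l _
      omega
    · apply Finset.sum_congr _ (fun _ _ => rfl)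
      apply Finset.filter_congr
      intro l _
      omega
  rw [h1, crit_sum c K K₇ d t ω r]
  have hL := (Finset.abs_sum_le_sum_abs (fun l => TT c d t ω r l) ((Lbox M B n).filter
    (fun l => ∑ a, l a + (n + 2) + r + K < M * B))).trans (large_sum hr hAl hE hg d t)
  have hO := (Finset.abs_sum_le_sum_abs (fun l => TT c d t ω r l) ((Lbox M B n).filter
    (fun l => M * B < ∑ a, l a + r))).trans (over_sum c d t ω r hr.le)
  have hBd := (Finset.abs_sum_le_sum_abs (fun l => TT c d t ω r l) (Bd M B n K K₇ r)).trans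
    (bd_sum hg d t)
  have hX : |∑ b ∈ range M, xi c K K₇ d t ω r b - ∑ b ∈ range M, YY c K K₆ K₂ K₇ θ d t ω r b| ≤
      ∑ b ∈ range M, costX c K K₆ K₂ K₇ θ ω r b := by
    rw [← Finset.sum_sub_distrib]
    exact (Finset.abs_sum_le_sum_abs _ _).trans
      (Finset.sum_le_sum fun b _ => YY_close d t b hg hθ)
  rw [abs_le] at hL hO hBd hX ⊢
  constructor <;> linarith [hL.1, hL.2, hO.1, hO.2, hBd.1, hBd.2, hX.1, hX.2]

lemma bot_of_pow {A : Submodule (ZMod p) (Vec p M B)}
    (h : (p:ℝ) ^ Module.finrank (ZMod p) A - 1 < 1) : A = ⊥ := by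
  by_contra h1
  have h2 : 1 ≤ Module.finrank (ZMod p) A := by
    by_contra h3
    push Not at h3
    apply h1
    rw [← Submodule.finrank_eq_zero (R := ZMod p)]
    omega
  have hp2 : (2:ℝ) ≤ p := by exact_mod_cast (Fact.out : p.Prime).two_le
  have h3 : (2:ℝ) ≤ (p:ℝ) ^ (Module.finrank (ZMod p) A) := by
    calc (2:ℝ) ≤ p := hp2
      _ = (p:ℝ) ^ 1 := (pow_one _).symm
      _ ≤ _ := pow_le_pow_right₀ (by linarith) h2
  linarith

theorem good_of_cost {c : Flg p M B n} {K K₆ K₂ : ℕ} {ω : Path p B} (hKm : K + 1 ≤ M * B)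
    (hK₂ : 0 < K₂)
    (h1 : ∀ r < M * B, costG1 c K K₆ ω r < 1) (h2 : ∀ r < M * B, costG2 c K₂ ω r < 1) :
    ∀ r < M * B, good c K K₆ K₂ ω r := by
  classical
  have hp1 : (1:ℝ) < p := by exact_mod_cast (Fact.out : p.Prime).one_lt
  have hp0 : (0:ℝ) < p := by linarith
  intro r hr
  constructor
  · intro W _ hW
    -- reduce to the threshold
    have hred : ∃ (W' : Fin (n+2) → ℕ) (r' : ℕ), (∀ a, W' a ≤ W a) ∧ r' ≤ r ∧
        ∑ a, W' a + r' + K + 1 = M * B := by
      rcases Nat.lt_or_ge (M * B - (K + 1)) r with h | h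
      · exact ⟨fun _ => 0, M * B - (K + 1), fun _ => Nat.zero_le _, h.le, by simp; omega⟩
      · obtain ⟨W', h3, h4⟩ := exists_le_sumW W (N := M * B - (K + 1) - r) (by omega)
        exact ⟨W', r, h3, le_rfl, by omega⟩
    obtain ⟨W', r', h3, h4, h5⟩ := hred
    refine (Submodule.finrank_mono (AA_mono c ω h3 h4)).trans ?_
    by_contra h6
    push Not at h6
    have h7 := h1 r' (by omega)
    have hmem : W' ∈ (Wbox M B n).filter (fun W => ∑ a, W a + r' + K + 1 = M * B) := by
      rw [Finset.mem_filter, mem_Wbox]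
      refine ⟨fun a => ?_, h5⟩
      have := single_le_total W' a
      omega
    have h8 : (p:ℝ) ^ Module.finrank (ZMod p) (AA c ω W' r') / (p:ℝ) ^ (K₆+1) ≤
        costG1 c K K₆ ω r' := by
      unfold costG1
      exact Finset.single_le_sum
        (f := fun W => (p:ℝ) ^ Module.finrank (ZMod p) (AA c ω W r') / (p:ℝ) ^ (K₆+1))
        (fun _ _ => by positivity) hmem
    have h9 : 1 ≤ (p:ℝ) ^ Module.finrank (ZMod p) (AA c ω W' r') / (p:ℝ) ^ (K₆+1) := by
      rw [le_div_iff₀ (by positivity), one_mul]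
      exact pow_le_pow_right₀ hp1.le h6
    linarith
  · intro W hWm hW
    obtain ⟨W', h3, h4⟩ := exists_le_sumW W (N := M * B + K₂ - r) (by omega)
    rw [eq_bot_iff]
    refine (AA_mono c ω h3 (le_refl r)).trans (le_of_eq ?_)
    apply bot_of_pow
    have hmem : W' ∈ (Wbox M B n).filter (fun W => ∑ a, W a + r = M * B + K₂) := by
      rw [Finset.mem_filter, mem_Wbox]
      exact ⟨fun a => (h3 a).trans (hWm a), by omega⟩
    have h8 : (p:ℝ) ^ Module.finrank (ZMod p) (AA c ω W' r) - 1 ≤ costG2 c K₂ ω r := by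
      unfold costG2
      exact Finset.single_le_sum
        (f := fun W => (p:ℝ) ^ Module.finrank (ZMod p) (AA c ω W r) - 1)
        (fun _ _ => by
          have := one_le_pow₀ hp1.le (n := Module.finrank (ZMod p) (AA c ω ‹_› r))
          linarith) hmem
    exact lt_of_le_of_lt h8 (h2 r hr)

end Dec

end Pool.Agent.H470D4
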