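import Mathlib

set_option autoImplicit false

/-!
# Definitions for the random digital net in dimension `n + 3`

* points: `Vec p M B = Fin (M*B) → ZMod p` (`m = M*B` digits);
* `c a j` (`a : Fin (n+2)`, `j < m`): the `j`-th digit of the `a`-th coordinate (a linear functional);
* the last coordinate has digits `row M ω r` (`r < m`), `ω` a path of random blocks.
-/

namespace Pool.Agent.H470D4

open Finset

/-- Points. -/
abbrev Vec (p M B : ℕ) := Fin (M * B) → ZMod p

/-- One random block. -/
abbrev Blk (p B : ℕ) := Fin B → ZMod p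

/-- The path: block number `r*M + k` is the block `M-1-k` of row `r`. -/
abbrev Path (p B : ℕ) := ℕ → Blk p B

/-- Coefficient of the row `r` at the position `l`. -/
def gam {p B : ℕ} (M : ℕ) (ω : Path p B) (r : ℕ) (l : Fin (M * B)) : ZMod p :=
  ω (r * M + (M - 1 - (l : ℕ) / B))
    ⟨(l : ℕ) % B, Nat.mod_lt _ (Nat.pos_of_ne_zero (by rintro rfl; exact absurd l.2 (by simp)))⟩

/-- The row `r` as a linear functional. -/
def row {p B : ℕ} (M : ℕ) (ω : Path p B) (r : ℕ) : Vec p M B →ₗ[ZMod p] ZMod p :=
  ∑ l : Fin (M * B), gam M ω r l • LinearMap.proj l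

/-- Vectors supported on the blocks `≥ β`. -/
def Vb (p M B β : ℕ) : Submodule (ZMod p) (Vec p M B) where
  carrier := {ν | ∀ l : Fin (M * B), (l : ℕ) < β * B → ν l = 0}
  add_mem' := by
    intro a b ha hb l hl
    simp only [Pi.add_apply, ha l hl, hb l hl, add_zero]
  zero_mem' := by intro l _; rfl
  smul_mem' := by
    intro s a ha l hl
    simp only [Pi.smul_apply, ha l hl, smul_zero]

lemma mem_Vb {p M B β : ℕ} {ν : Vec p M B} :
    ν ∈ Vb p M B β ↔ ∀ l : Fin (M * B), (l : ℕ) < β * B → ν l = 0 := Iff.rfl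

/-- The digit functionals of the first `n+2` coordinates. -/
abbrev Flg (p M B n : ℕ) := Fin (n + 2) → ℕ → (Vec p M B →ₗ[ZMod p] ZMod p)

/-- The points of level `W` (first `W a` digits of the coordinate `a` vanish) on which the first `r`
rows vanish. -/
def AA {p M B n : ℕ} (c : Flg p M B n) (ω : Path p B) (W : Fin (n + 2) → ℕ) (r : ℕ) :
    Submodule (ZMod p) (Vec p M B) where
  carrier := {ν | (∀ a, ∀ j < W a, c a j ν = 0) ∧ ∀ j < r, row M ω j ν = 0}
  add_mem' := by
    intro a b ha hb
    refine ⟨fun i j hj => ?_, fun j hj => ?_⟩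
    · rw [map_add, ha.1 i j hj, hb.1 i j hj, add_zero]
    · rw [map_add, ha.2 j hj, hb.2 j hj, add_zero]
  zero_mem' := by
    refine ⟨fun i j hj => ?_, fun j hj => ?_⟩ <;> rw [map_zero]
  smul_mem' := by
    intro s a ha
    refine ⟨fun i j hj => ?_, fun j hj => ?_⟩
    · rw [map_smul, ha.1 i j hj, smul_zero]
    · rw [map_smul, ha.2 j hj, smul_zero]

lemma mem_AA {p M B n : ℕ} {c : Flg p M B n} {ω : Path p B} {W : Fin (n + 2) → ℕ} {r : ℕ}
    {ν : Vec p M B} :
    ν ∈ AA c ω W r ↔ (∀ a, ∀ j < W a, c a j ν = 0) ∧ ∀ j < r, row M ω j ν = 0 := Iff.rfl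

/-- The coordinates `0, …, n+1` form an exact `(0, m, n+2)`-net, and the digits of the coordinate `0`
are the entries of the vector. -/
structure IsFlags {p M B n : ℕ} (c : Flg p M B n) : Prop where
  zero : ∀ (l : Fin (M * B)) (ν : Vec p M B), c 0 l ν = ν l
  mds : ∀ (ω : Path p B) (W : Fin (n + 2) → ℕ),
    Module.finrank (ZMod p) (AA c ω W 0) = M * B - ∑ a, W a

/-- The data of a test box: digits `x` of the corner, the sets `low a j` of the smaller digits (any
sets not containing `x a j`; this also covers digital shifts), the digits `y` of the corner in the last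
coordinate, and mean zero test functions `psi r`. -/
structure Dat (p n : ℕ) [NeZero p] where
  x : Fin (n + 2) → ℕ → ZMod p
  low : Fin (n + 2) → ℕ → Finset (ZMod p)
  nlow : ∀ a j, x a j ∉ low a j
  y : ℕ → ZMod p
  psi : ℕ → ZMod p → ℝ
  psi_sum : ∀ r, ∑ v : ZMod p, psi r v = 0
  psi_le : ∀ r v, |psi r v| ≤ 1

section
variable {p M B n : ℕ} [NeZero p]

/-- `ν` has level `l` with respect to the corner: in the coordinate `a`, the first `l a` digits agree
with the corner, and the next one is smaller. -/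
def Lev (c : Flg p M B n) (d : Dat p n) (ν : Vec p M B) (l : Fin (n + 2) → ℕ) : Prop :=
  ∀ a, (∀ j < l a, c a j ν = d.x a j) ∧ c a (l a) ν ∈ d.low a (l a)

open Classical in
/-- The points of level `l` whose first `r` digits in the last coordinate agree with the corner. -/
noncomputable def cell (c : Flg p M B n) (d : Dat p n) (ω : Path p B) (r : ℕ)
    (l : Fin (n + 2) → ℕ) : Finset (Vec p M B) :=
  univ.filter (fun ν => Lev c d ν l ∧ ∀ j < r, row M ω j ν = d.y j)

/-- All level vectors. -/
def Lbox (M B n : ℕ) : Finset (Fin (n + 2) → ℕ) := Fintype.piFinset (fun _ => range (M * B))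

/-- The contribution of the row `r`. -/
noncomputable def XX (c : Flg p M B n) (d : Dat p n) (ω : Path p B) (r : ℕ) : ℝ :=
  ∑ l ∈ Lbox M B n, ∑ ν ∈ cell c d ω r l, d.psi r (row M ω r ν)

end

end Pool.Agent.H470D4
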