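import Pool.Agent.H470D4.Closed

set_option autoImplicit false

/-! The closed-box version of the star discrepancy bound in all dimensions (helper935). -/

namespace Pool.Agent.H470D4

open Finset

/-- Closed boxes from the statement of `star_all` (open boxes). -/
theorem closed_all_of (n : ℕ) (hstar : ∃ C : ℝ, 0 < C ∧ ∀ N : ℕ, 3 ≤ N →
    ∃ ξ : Fin N → Fin (n + 3) → ℝ, (∀ i j, 0 ≤ ξ i j ∧ ξ i j < 1) ∧
      ∀ x : Fin (n + 3) → ℝ, (∀ j, 0 ≤ x j) → (∀ j, x j ≤ 1) →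
      |(((univ : Finset (Fin N)).filter (fun i => ∀ j, ξ i j < x j)).card : ℝ)
        - N * ∏ j, x j| ≤ C * (Real.log N / Real.log (Real.log N)) ^ (n + 2)) : ∃ C : ℝ, 0 < C ∧ ∀ N : ℕ, 3 ≤ N →
    ∃ ξ : Fin N → Fin (n + 3) → ℝ, (∀ i j, 0 ≤ ξ i j ∧ ξ i j < 1) ∧
      ∀ x : Fin (n + 3) → ℝ, (∀ j, 0 ≤ x j) → (∀ j, x j ≤ 1) → ∀ S : Finset (Fin N),
      (∀ i, i ∈ S ↔ ∀ j, ξ i j ≤ x j) →
      |(S.card : ℝ) - N * ∏ j, x j| ≤ C * (Real.log N / Real.log (Real.log N)) ^ (n + 2) := by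
  obtain ⟨C, hC, h⟩ := hstar
  refine ⟨C, hC, fun N hN => ?_⟩
  obtain ⟨ξ, hξ, h1⟩ := h N hN
  refine ⟨ξ, hξ, fun x hx0 hx1 S hS => ?_⟩
  refine closed_of_open_all (fun i j => (hξ i j).2) ?_ hx0 hx1 hS
  intro y hy0 hy1 S' hS'
  have h2 : S' = (univ : Finset (Fin N)).filter (fun i => ∀ j, ξ i j < y j) := by
    ext i
    rw [mem_filter, hS' i]
    simp only [mem_univ, true_and]
  rw [h2]
  exact h1 y hy0 hy1

end Pool.Agent.H470D4
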