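import Pool.Agent.H470D4.Defs

set_option autoImplicit false

namespace Pool.Agent.H470D4

open Finset Polynomial

namespace Flags

variable {p : ℕ} [Fact p.Prime]

/-- The polynomial with the coefficients `ν`. -/
noncomputable def P (m : ℕ) : (Fin m → ZMod p) →ₗ[ZMod p] (ZMod p)[X] :=
  ∑ l : Fin m, (monomial (l : ℕ)) ∘ₗ (LinearMap.proj l : (Fin m → ZMod p) →ₗ[ZMod p] ZMod p)

lemma P_apply {m : ℕ} (ν : Fin m → ZMod p) : P m ν = ∑ l : Fin m, monomial (l : ℕ) (ν l) := by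
  simp [P]

lemma coeff_P {m : ℕ} (ν : Fin m → ZMod p) (l : Fin m) : (P m ν).coeff l = ν l := by
  rw [P_apply, finsetSum_coeff]
  rw [Finset.sum_eq_single l]
  · simp
  · intro b _ hb
    rw [coeff_monomial, if_neg]
    exact fun h => hb (Fin.ext h)
  · intro h; exact absurd (mem_univ l) h

lemma coeff_P_ge {m : ℕ} (ν : Fin m → ZMod p) (j : ℕ) (hj : m ≤ j) : (P m ν).coeff j = 0 := by
  rw [P_apply, finsetSum_coeff]
  refine Finset.sum_eq_zero fun b _ => ?_
  rw [coeff_monomial, if_neg]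
  have := b.2
  omega

lemma natDegree_P {m : ℕ} (ν : Fin m → ZMod p) (h : P m ν ≠ 0) : (P m ν).natDegree < m := by
  by_contra hcon
  push Not at hcon
  exact h (leadingCoeff_eq_zero.mp (coeff_P_ge ν _ hcon))

/-- The flags. -/
noncomputable def cc (p : ℕ) [Fact p.Prime] (M B n : ℕ) : Flg p M B n := fun a j =>
  (lcoeff (ZMod p) j) ∘ₗ (taylor (((a : ℕ) : ZMod p))) ∘ₗ P (M * B)

lemma cc_apply {M B n : ℕ} (a : Fin (n+2)) (j : ℕ) (ν : Vec p M B) :
    cc p M B n a j ν = (taylor (((a : ℕ) : ZMod p)) (P (M * B) ν)).coeff j := rfl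

lemma cc_vanish {M B n : ℕ} (a : Fin (n+2)) (w : ℕ) (ν : Vec p M B) :
    (∀ j < w, cc p M B n a j ν = 0) ↔ (X - C (((a : ℕ) : ZMod p)))^w ∣ P (M * B) ν := by
  rw [X_sub_C_pow_dvd_iff, X_pow_dvd_iff]
  rfl

/-- The product of the powers. -/
noncomputable def G (p : ℕ) [Fact p.Prime] {n : ℕ} (W : Fin (n + 2) → ℕ) : (ZMod p)[X] :=
  ∏ a : Fin (n+2), (X - C (((a : ℕ) : ZMod p)))^(W a)

lemma G_monic {n : ℕ} (W : Fin (n + 2) → ℕ) : (G p W).Monic :=
  monic_prod_of_monic _ _ fun _ _ => (monic_X_sub_C _).pow _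

lemma G_natDegree {n : ℕ} (W : Fin (n + 2) → ℕ) : (G p W).natDegree = ∑ a, W a := by
  unfold G
  rw [natDegree_prod_of_monic _ _ fun _ _ => (monic_X_sub_C _).pow _]
  refine Finset.sum_congr rfl fun a _ => ?_
  rw [(monic_X_sub_C _).natDegree_pow, natDegree_X_sub_C, mul_one]

lemma all_vanish {M B n : ℕ} (h : n + 2 ≤ p) (W : Fin (n + 2) → ℕ) (ν : Vec p M B) :
    (∀ a, ∀ j < W a, cc p M B n a j ν = 0) ↔ G p W ∣ P (M * B) ν := by
  have hinj : Function.Injective (fun a : Fin (n+2) => ((a : ℕ) : ZMod p)) := by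
    intro a b hab
    have ha : (a : ℕ) < p := lt_of_lt_of_le a.2 h
    have hb : (b : ℕ) < p := lt_of_lt_of_le b.2 h
    exact Fin.ext (CharP.natCast_injOn_Iio (ZMod p) p ha hb hab)
  have hco := pairwise_coprime_X_sub_C hinj
  constructor
  · intro hv
    refine Finset.prod_dvd_of_coprime ?_ fun a _ => (cc_vanish a (W a) ν).mp (hv a)
    intro a _ b _ hab
    exact (hco hab).pow
  · intro hd a
    refine (cc_vanish a (W a) ν).mpr (dvd_trans ?_ hd)
    unfold G
    exact Finset.dvd_prod_of_mem (fun a : Fin (n+2) => (X - C (((a : ℕ) : ZMod p)))^(W a))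
      (mem_univ a)

/-- Multiples of `G`. -/
noncomputable def mulG (p M B : ℕ) [Fact p.Prime] {n : ℕ} (W : Fin (n + 2) → ℕ) :
    (Fin (M * B - ∑ a, W a) → ZMod p) →ₗ[ZMod p] Vec p M B :=
  LinearMap.pi fun l => (lcoeff (ZMod p) (l : ℕ)) ∘ₗ (LinearMap.mulLeft (ZMod p) (G p W)) ∘ₗ
    P (M * B - ∑ a, W a)

lemma mulG_apply {M B n : ℕ} (W : Fin (n + 2) → ℕ) (q : Fin (M * B - ∑ a, W a) → ZMod p)
    (l : Fin (M * B)) : mulG p M B W q l = (G p W * P _ q).coeff l := rfl

lemma P_mulG {M B n : ℕ} (W : Fin (n + 2) → ℕ) (q : Fin (M * B - ∑ a, W a) → ZMod p) :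
    P (M * B) (mulG p M B W q) = G p W * P _ q := by
  ext j
  rcases Nat.lt_or_ge j (M * B) with hj | hj
  · exact coeff_P (mulG p M B W q) ⟨j, hj⟩
  · rw [coeff_P_ge _ _ hj]
    symm
    by_cases h0 : P _ q = 0
    · rw [h0, mul_zero, coeff_zero]
    · refine coeff_eq_zero_of_natDegree_lt ?_
      have h1 := natDegree_P q h0
      rw [(G_monic W).natDegree_mul' h0, G_natDegree]
      omega

lemma P_injective (m : ℕ) : Function.Injective (P (p := p) m) := by
  intro a b hab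
  funext l
  rw [← coeff_P a l, ← coeff_P b l, hab]

lemma mulG_injective {M B n : ℕ} (W : Fin (n + 2) → ℕ) :
    Function.Injective (mulG p M B W) := by
  intro a b hab
  have h1 : G p W * P _ a = G p W * P _ b := by rw [← P_mulG, ← P_mulG, hab]
  exact P_injective _ (mul_left_cancel₀ (G_monic W).ne_zero h1)

lemma range_mulG {M B n : ℕ} (h : n + 2 ≤ p) (W : Fin (n + 2) → ℕ) (ω : Path p B) :
    LinearMap.range (mulG p M B W) = AA (cc p M B n) ω W 0 := by
  ext ν
  rw [LinearMap.mem_range, mem_AA]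
  constructor
  · rintro ⟨q, rfl⟩
    refine ⟨(all_vanish h W _).mpr ?_, fun j hj => absurd hj (Nat.not_lt_zero j)⟩
    rw [P_mulG]
    exact dvd_mul_right _ _
  · rintro ⟨hv, -⟩
    obtain ⟨Q, hQ⟩ := (all_vanish h W ν).mp hv
    have hQdeg : ∀ j, M * B - ∑ a, W a ≤ j → Q.coeff j = 0 := by
      intro j hj
      by_cases h0 : Q = 0
      · rw [h0, coeff_zero]
      · refine coeff_eq_zero_of_natDegree_lt ?_
        have hP0 : P (M * B) ν ≠ 0 := by
          rw [hQ]; exact mul_ne_zero (G_monic W).ne_zero h0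
        have h1 := natDegree_P ν hP0
        rw [hQ, (G_monic W).natDegree_mul' h0, G_natDegree] at h1
        omega
    refine ⟨fun l => Q.coeff l, ?_⟩
    have hPQ : P (M * B - ∑ a, W a) (fun l => Q.coeff l) = Q := by
      ext j
      rcases Nat.lt_or_ge j (M * B - ∑ a, W a) with hj | hj
      · exact coeff_P (fun l : Fin (M * B - ∑ a, W a) => Q.coeff l) ⟨j, hj⟩
      · rw [coeff_P_ge _ _ hj, hQdeg _ hj]
    refine P_injective _ ?_
    rw [P_mulG, hPQ, hQ]

end Flags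

/-- Task N1 (Reed-Solomon flags). -/
theorem exists_flags (p M B n : ℕ) [Fact p.Prime] (h : n + 2 ≤ p) :
    ∃ c : Flg p M B n, IsFlags c := by
  refine ⟨Flags.cc p M B n, ?_, ?_⟩
  · intro l ν
    rw [Flags.cc_apply]
    simp only [Fin.val_zero, Nat.cast_zero, taylor_zero]
    exact Flags.coeff_P ν l
  · intro ω W
    rw [← Flags.range_mulG h W ω, LinearMap.finrank_range_of_inj (Flags.mulG_injective W),
      Module.finrank_fin_fun]

end Pool.Agent.H470D4
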