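import Pool.Agent.H470D4.NetE

set_option autoImplicit false

/-! From the core theorem to the digital net with all its digital shifts. -/

namespace Pool.Agent.H470D4

open Finset

/-- extension of a digit string by zero -/
def ex {p m : ℕ} (f : Fin m → ZMod p) (j : ℕ) : ZMod p := if h : j < m then f ⟨j, h⟩ else 0

theorem ex_lt {p m : ℕ} (f : Fin m → ZMod p) (j : Fin m) : ex f j = f j := by
  unfold ex; rw [dif_pos j.2]

theorem ex_eq {p : ℕ} (m : ℕ) (X : ℕ → ZMod p) (h : ∀ j, m ≤ j → X j = 0) :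
    ex (fun j : Fin m => X j) = X := by
  funext j
  unfold ex
  by_cases hj : j < m
  · rw [dif_pos hj]
  · rw [dif_neg hj, h j (by omega)]

/-- The statement of the core theorem. -/
def CoreStmt (n : ℕ) : Prop := ∃ (Q b : ℕ) (C : ℝ) (p₀ : ℕ), 1 ≤ b ∧ b < Q ∧ n + 4 ≤ Q ∧ 0 < C ∧
    ∀ (p : ℕ) [Fact p.Prime], p₀ ≤ p → ∀ c : Flg p (p ^ (Q - b)) (p ^ b) n, IsFlags c →
    ∀ (X : Type) [Fintype X] (d : X → Dat p n),
      (Fintype.card X : ℝ) ≤ Real.exp ((p:ℝ) * (p:ℝ) ^ Q) →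
      ∃ ω : Path p (p ^ b), ∀ i : X,
        |∑ r ∈ range (p ^ Q), XX c (d i) ω r| ≤ C * ((p:ℝ) ^ Q) ^ (n + 2)

/-- the digits of the points of the net -/
noncomputable def Dg {p M B n m : ℕ} (c : Flg p M B n) (ω : Path p B) :
    Vec p M B →+ (Fin (n + 3) → Fin m → ZMod p) where
  toFun ν i j := Fin.lastCases (motive := fun _ => ZMod p) (row M ω j ν) (fun a => c a j ν) i
  map_zero' := by
    funext i j
    refine Fin.lastCases ?_ (fun a => ?_) i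
    · simp
    · simp
  map_add' := by
    intro ν ν'
    funext i j
    refine Fin.lastCases ?_ (fun a => ?_) i
    · simp
    · simp

theorem Dg_last {p M B n m : ℕ} (c : Flg p M B n) (ω : Path p B) (ν : Vec p M B) (j : Fin m) :
    Dg c ω ν (Fin.last (n + 2)) j = row M ω j ν := by
  show Fin.lastCases (motive := fun _ => ZMod p) (row M ω j ν) (fun a => c a j ν)
    (Fin.last (n + 2)) = _
  rw [Fin.lastCases_last]

theorem Dg_castSucc {p M B n m : ℕ} (c : Flg p M B n) (ω : Path p B) (ν : Vec p M B)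
    (a : Fin (n + 2)) (j : Fin m) :
    Dg c ω ν (Fin.castSucc a) j = c a j ν := by
  show Fin.lastCases (motive := fun _ => ZMod p) (row M ω j ν) (fun a => c a j ν)
    (Fin.castSucc a) = _
  rw [Fin.lastCases_castSucc]

theorem two_log_le (n p : ℕ) (hp : 16 * (n + 3) ^ 2 ≤ p) :
    2 * ((n:ℝ) + 3) * Real.log p ≤ p := by
  have hp' : (16:ℝ) * ((n:ℝ) + 3) ^ 2 ≤ p := by exact_mod_cast hp
  have hpp : (0:ℝ) < p := lt_of_lt_of_le (by positivity) hp'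
  set s : ℝ := Real.sqrt p with hs
  have hs2 : s * s = p := Real.mul_self_sqrt hpp.le
  have hs0 : 0 < s := Real.sqrt_pos.2 hpp
  have hs4 : 4 * ((n:ℝ) + 3) ≤ s := by
    rw [hs]
    apply Real.le_sqrt_of_sq_le
    nlinarith
  have hlog : Real.log p ≤ 2 * s := by
    rw [← hs2, Real.log_mul hs0.ne' hs0.ne']
    have := Real.log_le_sub_one_of_pos hs0
    linarith
  have hn : (0:ℝ) ≤ 2 * ((n:ℝ) + 3) := by positivity
  calc 2 * ((n:ℝ) + 3) * Real.log p ≤ 2 * ((n:ℝ) + 3) * (2 * s) :=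
        mul_le_mul_of_nonneg_left hlog hn
    _ = (4 * ((n:ℝ) + 3)) * s := by ring
    _ ≤ s * s := mul_le_mul_of_nonneg_right hs4 hs0.le
    _ = p := hs2

theorem net_struct (n : ℕ) (hcore : CoreStmt n)
    (hflags : ∀ (p M B n : ℕ) [Fact p.Prime], n + 2 ≤ p → ∃ c : Flg p M B n, IsFlags c) :
    ∃ (Q : ℕ) (C : ℝ) (p₀ : ℕ), n + 4 ≤ Q ∧ 0 < C ∧
    ∀ (p : ℕ) [Fact p.Prime], p₀ ≤ p → ∃ (V : Type) (_ : AddCommGroup V) (_ : Fintype V),
      Fintype.card V = p ^ (p ^ Q) ∧ ∃ D : V →+ (Fin (n + 3) → Fin (p ^ Q) → ZMod p),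
      ∀ (σ : Fin (n + 3) → Fin (p ^ Q) → ZMod p) (x : Fin (n + 3) → ℝ),
        (∀ j, 0 ≤ x j) → (∀ j, x j ≤ 1) →
        |∑ ν : V, ii (∀ i, ∑ j : Fin (p ^ Q), (((D ν i j + σ i j).val : ℕ) : ℝ) /
          (p:ℝ) ^ ((j:ℕ) + 1) < x i) - (p:ℝ) ^ (p ^ Q) * ∏ i, x i| ≤
          C * ((p:ℝ) ^ Q) ^ (n + 2) := by
  obtain ⟨Q, b, C, p₀, hb, hbQ, hnQ, hC, hmain⟩ := hcore
  refine ⟨Q, C + (2 ^ (n + 1) + (2 * n + 5)), max p₀ (max (16 * (n + 3) ^ 2) (n + 2)), hnQ,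
    by positivity, ?_⟩
  intro p hpr hp
  have hp1 : p₀ ≤ p := (le_max_left _ _).trans hp
  have hp2 : 16 * (n + 3) ^ 2 ≤ p := ((le_max_left _ _).trans (le_max_right _ _)).trans hp
  have hp3 : n + 2 ≤ p := ((le_max_right _ _).trans (le_max_right _ _)).trans hp
  have hp0 : 0 < p := hpr.out.pos
  set M := p ^ (Q - b) with hM
  set B := p ^ b with hB
  have hMB : M * B = p ^ Q := by rw [hM, hB, ← pow_add]; congr 1; omega
  obtain ⟨c, hc⟩ := hflags p M B n hp3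
  -- the index set of all corners and shifts
  let I : Type := (Fin (n + 2) → Fin (p ^ Q) → ZMod p) × (Fin (p ^ Q) → ZMod p) ×
    (Fin (n + 2) → Fin (p ^ Q) → ZMod p) × (Fin (p ^ Q) → ZMod p)
  have hcard : (Fintype.card I : ℝ) = (p:ℝ) ^ (2 * (n + 3) * p ^ Q) := by
    have : Fintype.card I = p ^ (2 * (n + 3) * p ^ Q) := by
      show Fintype.card ((Fin (n + 2) → Fin (p ^ Q) → ZMod p) × (Fin (p ^ Q) → ZMod p) ×
        (Fin (n + 2) → Fin (p ^ Q) → ZMod p) × (Fin (p ^ Q) → ZMod p)) = _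
      simp only [Fintype.card_prod, Fintype.card_fun, Fintype.card_fin, ZMod.card]
      rw [← pow_mul, ← pow_add, ← pow_add, ← pow_add]
      congr 1
      ring
    rw [this]; push_cast; ring
  have hexp : (Fintype.card I : ℝ) ≤ Real.exp ((p:ℝ) * (p:ℝ) ^ Q) := by
    rw [hcard]
    have hpp : (0:ℝ) < p := by exact_mod_cast hp0
    rw [← Real.exp_log (pow_pos hpp (2 * (n + 3) * p ^ Q)), Real.exp_le_exp, Real.log_pow]
    have h1 := two_log_le n p hp2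
    push_cast
    calc 2 * ((n:ℝ) + 3) * (p:ℝ) ^ Q * Real.log p =
        (2 * ((n:ℝ) + 3) * Real.log p) * (p:ℝ) ^ Q := by ring
      _ ≤ (p:ℝ) * (p:ℝ) ^ Q := mul_le_mul_of_nonneg_right h1 (by positivity)
  obtain ⟨ω, hω⟩ := hmain p hp1 c hc I (fun i => mkDat (p ^ Q) (fun a => ex (i.1 a)) (ex i.2.1)
    (fun a => ex (i.2.2.1 a)) (ex i.2.2.2)) hexp
  refine ⟨Vec p M B, inferInstance, inferInstance, ?_, Dg c ω, ?_⟩
  · rw [Fintype.card_fun, ZMod.card, Fintype.card_fin, hMB]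
  intro σ x hx0 hx1
  have hmpos : p ^ (n + 1) ≤ p ^ Q := Nat.pow_le_pow_right hp0 (by omega)
  have hm : n + 1 ≤ p ^ Q := by
    exact le_trans (by omega) (le_trans (Nat.le_self_pow (n := Q) (by omega) p) le_rfl)
  have hest := real_est' (p ^ Q) hMB.symm c hc ω (fun a => ex (σ (Fin.castSucc a))) (ex (σ (Fin.last (n + 2)))) hm
    (C * ((p:ℝ) ^ Q) ^ (n + 2)) (by positivity) (by
      intro X Y hX hY
      have h1 := hω (fun a j => X a j, fun j => Y j, fun a j => σ (Fin.castSucc a) j,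
        σ (Fin.last (n + 2)))
      have h2 : (fun a => ex (fun j : Fin (p ^ Q) => X a j)) = X := by
        funext a; exact ex_eq _ _ (hX a)
      have h3 : ex (fun j : Fin (p ^ Q) => Y j) = Y := ex_eq _ _ hY
      simp only [h2, h3] at h1
      exact h1)
    (fun a => x (Fin.castSucc a)) (fun a => hx0 _) (fun a => hx1 _) (x (Fin.last (n + 2)))
    (hx0 _) (hx1 _)
  have hprod : (∏ a : Fin (n + 2), x (Fin.castSucc a)) * x (Fin.last (n + 2)) = ∏ i, x i :=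
    (Fin.prod_univ_castSucc x).symm
  rw [hprod] at hest
  have htv : ∀ (e : ℕ → ZMod p) (s : Fin (p ^ Q) → ZMod p),
      tv (fun j => e j + ex s j) (p ^ Q) =
      ∑ j : Fin (p ^ Q), (((e j + s j).val : ℕ) : ℝ) / (p:ℝ) ^ ((j:ℕ) + 1) := by
    intro e s
    rw [tv_eq_sum, Finset.sum_range]
    refine sum_congr rfl fun j _ => ?_
    rw [ex_lt]
  have hsum : ∀ ν : Vec p M B,
      ii ((∀ a, tv (fun j => c a j ν + ex (σ (Fin.castSucc a)) j) (p ^ Q) <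
        x (Fin.castSucc a)) ∧
        tv (fun r => row M ω r ν + ex (σ (Fin.last (n + 2))) r) (p ^ Q) < x (Fin.last (n + 2))) =
      ii (∀ i, ∑ j : Fin (p ^ Q), (((Dg c ω ν i j + σ i j).val : ℕ) : ℝ) /
          (p:ℝ) ^ ((j:ℕ) + 1) < x i) := by
    intro ν
    apply ii_congr
    constructor
    · rintro ⟨h1, h2⟩ i
      refine Fin.lastCases ?_ (fun a => ?_) i
      · rw [htv (fun r => row M ω r ν)] at h2
        simp only [Dg_last]
        exact h2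
      · have h3 := h1 a
        rw [htv (fun j => c a j ν)] at h3
        simp only [Dg_castSucc]
        exact h3
    · intro h
      refine ⟨fun a => ?_, ?_⟩
      · rw [htv (fun j => c a j ν)]
        have h3 := h (Fin.castSucc a)
        simp only [Dg_castSucc] at h3
        exact h3
      · rw [htv (fun r => row M ω r ν)]
        have h3 := h (Fin.last (n + 2))
        simp only [Dg_last] at h3
        exact h3
  rw [sum_congr rfl (fun ν _ => hsum ν)] at hest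
  refine hest.trans ?_
  -- the constants
  have hm1 : (1:ℝ) ≤ (p:ℝ) ^ Q := by
    apply one_le_pow₀
    exact_mod_cast hp0
  have hmp : (p:ℝ) ^ (n + 1) ≤ (p:ℝ) ^ Q := by exact_mod_cast hmpos
  have hc1 : (((p ^ Q : ℕ) : ℝ) + 1) ^ (n + 1) * (p:ℝ) ^ (n + 1) ≤
      2 ^ (n + 1) * ((p:ℝ) ^ Q) ^ (n + 2) := by
    push_cast
    calc ((p:ℝ) ^ Q + 1) ^ (n + 1) * (p:ℝ) ^ (n + 1)
        ≤ (2 * (p:ℝ) ^ Q) ^ (n + 1) * (p:ℝ) ^ Q := by
          apply mul_le_mul _ hmp (by positivity) (by positivity)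
          apply pow_le_pow_left₀ (by positivity)
          linarith
      _ = 2 ^ (n + 1) * ((p:ℝ) ^ Q) ^ (n + 2) := by rw [mul_pow]; ring
  have hc2 : (2 * (n:ℝ) + 5) ≤ (2 * n + 5) * ((p:ℝ) ^ Q) ^ (n + 2) := by
    have h1 : (1:ℝ) ≤ ((p:ℝ) ^ Q) ^ (n + 2) := one_le_pow₀ hm1
    have h2 : (0:ℝ) ≤ 2 * n + 5 := by positivity
    nlinarith
  calc C * ((p:ℝ) ^ Q) ^ (n + 2) + (((p ^ Q : ℕ) : ℝ) + 1) ^ (n + 1) * (p:ℝ) ^ (n + 1) +
        (2 * n + 5)
      ≤ C * ((p:ℝ) ^ Q) ^ (n + 2) + 2 ^ (n + 1) * ((p:ℝ) ^ Q) ^ (n + 2) +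
        (2 * n + 5) * ((p:ℝ) ^ Q) ^ (n + 2) := by linarith
    _ = _ := by ring

/-- `net_main` from the core theorem and the flags. -/
theorem net_main_of (n : ℕ) (hcore : CoreStmt n)
    (hflags : ∀ (p M B n : ℕ) [Fact p.Prime], n + 2 ≤ p → ∃ c : Flg p M B n, IsFlags c) :
    ∃ (Q : ℕ) (C : ℝ) (p₀ : ℕ), 1 ≤ Q ∧ 0 < C ∧
    ∀ p : ℕ, p.Prime → p₀ ≤ p →
    ∃ ξ : Fin (p ^ (p ^ Q)) → Fin (n + 3) → ℝ, (∀ i j, 0 ≤ ξ i j ∧ ξ i j < 1) ∧
      ∀ x : Fin (n + 3) → ℝ, (∀ j, 0 ≤ x j) → (∀ j, x j ≤ 1) →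
      |(((univ : Finset (Fin (p ^ (p ^ Q)))).filter (fun i => ∀ j, ξ i j < x j)).card : ℝ)
        - (p:ℝ) ^ (p ^ Q) * ∏ j, x j| ≤ C * ((p:ℝ) ^ Q) ^ (n + 2) := by
  obtain ⟨Q, C, p₀, hQ, hC, hmain⟩ := net_struct n hcore hflags
  refine ⟨Q, C, p₀, by omega, hC, ?_⟩
  intro p hp hpp
  have : Fact p.Prime := ⟨hp⟩
  obtain ⟨V, iV, fV, hV, D, hD⟩ := hmain p hpp
  let e : V ≃ Fin (p ^ (p ^ Q)) := Fintype.equivFinOfCardEq hV
  refine ⟨fun i k => ∑ j : Fin (p ^ Q), (((D (e.symm i) k j + 0).val : ℕ) : ℝ) /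
          (p:ℝ) ^ ((j:ℕ) + 1), ?_, ?_⟩
  · intro i k
    have h := tv_bounds (ex (fun j : Fin (p ^ Q) => D (e.symm i) k j + 0)) (p ^ Q)
    rw [tv_eq_sum, Finset.sum_range] at h
    simp only [ex_lt] at h
    exact h
  · intro x hx0 hx1
    have h := hD 0 x hx0 hx1
    rw [card_eq_sum_ii]
    have h2 : ∑ i : Fin (p ^ (p ^ Q)), ii (∀ k, ∑ j : Fin (p ^ Q),
        (((D (e.symm i) k j + 0).val : ℕ) : ℝ) / (p:ℝ) ^ ((j:ℕ) + 1) < x k) =
        ∑ ν : V, ii (∀ i, ∑ j : Fin (p ^ Q), (((D ν i j + (0 : Fin (n + 3) → Fin (p ^ Q) →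
          ZMod p) i j).val : ℕ) : ℝ) / (p:ℝ) ^ ((j:ℕ) + 1) < x i) := by
      rw [← Equiv.sum_comp e]
      refine sum_congr rfl fun ν _ => ?_
      rw [Equiv.symm_apply_apply]
      rfl
    rw [h2]
    exact h

end Pool.Agent.H470D4
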