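import Pool.Agent.H470D4.Defs

set_option autoImplicit false

/-! Digit expansions, and comparison of digit expansions. -/

namespace Pool.Agent.H470D4

open Finset

open Classical in
/-- indicator -/
noncomputable def ii (P : Prop) : ℝ := if P then 1 else 0

theorem ii_true {P : Prop} (h : P) : ii P = 1 := by simp [ii, h]
theorem ii_false {P : Prop} (h : ¬ P) : ii P = 0 := by simp [ii, h]
theorem ii_nonneg (P : Prop) : 0 ≤ ii P := by unfold ii; split_ifs <;> norm_num
theorem ii_le_one (P : Prop) : ii P ≤ 1 := by unfold ii; split_ifs <;> norm_num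
theorem ii_congr {P Q : Prop} (h : P ↔ Q) : ii P = ii Q := by rw [propext h]
theorem ii_mono {P Q : Prop} (h : P → Q) : ii P ≤ ii Q := by
  by_cases hP : P
  · rw [ii_true hP, ii_true (h hP)]
  · rw [ii_false hP]; exact ii_nonneg Q
theorem ii_and (P Q : Prop) : ii (P ∧ Q) = ii P * ii Q := by
  by_cases hP : P <;> by_cases hQ : Q <;> simp [ii, hP, hQ]
theorem ii_forall {ι : Type} [Fintype ι] (P : ι → Prop) :
    ii (∀ i, P i) = ∏ i, ii (P i) := by
  by_cases h : ∀ i, P i
  · rw [ii_true h]; simp [ii, h]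
  · rw [ii_false h]
    obtain ⟨i, hi⟩ := not_forall.mp h
    exact (Finset.prod_eq_zero (Finset.mem_univ i) (ii_false hi)).symm
theorem card_eq_sum_ii {ι : Type} (s : Finset ι) (P : ι → Prop) [DecidablePred P] :
    ((s.filter P).card : ℝ) = ∑ i ∈ s, ii (P i) := by
  rw [card_filter]
  push_cast
  refine sum_congr rfl fun i _ => ?_
  by_cases h : P i
  · rw [if_pos h, ii_true h]
  · rw [if_neg h, ii_false h]

section Digits
variable {p : ℕ}

/-- The number `Σ_{j<k} (d j).val p^{-j-1}`. -/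
noncomputable def tv : (ℕ → ZMod p) → ℕ → ℝ
  | _, 0 => 0
  | d, (k+1) => (((d 0).val : ℝ) + tv (fun j => d (j+1)) k) / p

theorem tv_zero (d : ℕ → ZMod p) : tv d 0 = 0 := rfl

theorem tv_succ (d : ℕ → ZMod p) (k : ℕ) :
    tv d (k+1) = (((d 0).val : ℝ) + tv (fun j => d (j+1)) k) / p := rfl

theorem tv_eq_sum (d : ℕ → ZMod p) (k : ℕ) :
    tv d k = ∑ j ∈ range k, ((d j).val : ℝ) / (p:ℝ) ^ (j+1) := by
  induction k generalizing d with
  | zero => simp [tv_zero]
  | succ k ih =>
    rw [tv_succ, sum_range_succ', ih, add_div, add_comm, sum_div]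
    congr 1
    · refine sum_congr rfl fun j _ => ?_
      rw [div_div]
      congr 1
    · simp

variable [NeZero p]

theorem p_pos' : (0:ℝ) < p := by
  exact_mod_cast Nat.pos_of_ne_zero (NeZero.ne p)

theorem tv_bounds (d : ℕ → ZMod p) (k : ℕ) : 0 ≤ tv d k ∧ tv d k < 1 := by
  induction k generalizing d with
  | zero => simp [tv_zero]
  | succ k ih =>
    have hp : (0:ℝ) < p := p_pos'
    obtain ⟨h1, h2⟩ := ih (fun j => d (j+1))
    rw [tv_succ]
    refine ⟨by positivity, ?_⟩
    rw [div_lt_one hp]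
    have h3 : (d 0).val + 1 ≤ p := ZMod.val_lt (d 0)
    have h4 : ((d 0).val : ℝ) + 1 ≤ p := by exact_mod_cast h3
    linarith

theorem tv_lt_iff (d x : ℕ → ZMod p) (k : ℕ) :
    tv d (k+1) < tv x (k+1) ↔ (d 0).val < (x 0).val ∨
      (d 0 = x 0 ∧ tv (fun j => d (j+1)) k < tv (fun j => x (j+1)) k) := by
  have hp : (0:ℝ) < p := p_pos'
  rw [tv_succ, tv_succ, div_lt_div_iff_of_pos_right hp]
  obtain ⟨h1, h2⟩ := tv_bounds (fun j => d (j+1)) k
  obtain ⟨h3, h4⟩ := tv_bounds (fun j => x (j+1)) k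
  rcases lt_trichotomy (d 0).val (x 0).val with h | h | h
  · have h5 : ((d 0).val : ℝ) + 1 ≤ (x 0).val := by exact_mod_cast h
    constructor
    · intro _; exact Or.inl h
    · intro _; linarith
  · have h6 : d 0 = x 0 := ZMod.val_injective p h
    have h5 : ((d 0).val : ℝ) = (x 0).val := by exact_mod_cast h
    constructor
    · intro h7; exact Or.inr ⟨h6, by linarith⟩
    · rintro (h7 | ⟨_, h7⟩)
      · omega
      · linarith
  · have h5 : ((x 0).val : ℝ) + 1 ≤ (d 0).val := by exact_mod_cast h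
    constructor
    · intro h7; linarith
    · rintro (h7 | ⟨h7, _⟩)
      · omega
      · rw [h7] at h; omega

theorem tv_inj (d x : ℕ → ZMod p) (k : ℕ) (h : tv d k = tv x k) : ∀ j < k, d j = x j := by
  induction k generalizing d x with
  | zero => intro j hj; omega
  | succ k ih =>
    have hp : (0:ℝ) < p := p_pos'
    obtain ⟨h1, h2⟩ := tv_bounds (fun j => d (j+1)) k
    obtain ⟨h3, h4⟩ := tv_bounds (fun j => x (j+1)) k
    rw [tv_succ, tv_succ, div_left_inj' hp.ne'] at h
    have h0 : (d 0).val = (x 0).val := by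
      rcases lt_trichotomy (d 0).val (x 0).val with h' | h' | h'
      · have h5 : ((d 0).val : ℝ) + 1 ≤ (x 0).val := by exact_mod_cast h'
        linarith
      · exact h'
      · have h5 : ((x 0).val : ℝ) + 1 ≤ (d 0).val := by exact_mod_cast h'
        linarith
    have h6 : ((d 0).val : ℝ) = (x 0).val := by exact_mod_cast h0
    have h7 := ih (fun j => d (j+1)) (fun j => x (j+1)) (by linarith)
    intro j hj
    rcases j with _ | j
    · exact ZMod.val_injective p h0
    · exact h7 j (by omega)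

omit [NeZero p] in
theorem tv_congr (d x : ℕ → ZMod p) (k : ℕ) (h : ∀ j < k, d j = x j) : tv d k = tv x k := by
  rw [tv_eq_sum, tv_eq_sum]
  refine sum_congr rfl fun j hj => ?_
  rw [h j (mem_range.1 hj)]

/-- Comparison of two digit expansions. -/
theorem ind_lt (d x : ℕ → ZMod p) (k : ℕ) :
    ii (tv d k < tv x k) =
      ∑ l ∈ range k, ii ((∀ j < l, d j = x j) ∧ (d l).val < (x l).val) := by
  induction k generalizing d x with
  | zero => simp [tv_zero, ii]
  | succ k ih =>
    rw [sum_range_succ']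
    by_cases h0 : d 0 = x 0
    · have h1 : (tv d (k+1) < tv x (k+1)) ↔
          tv (fun j => d (j+1)) k < tv (fun j => x (j+1)) k := by
        rw [tv_lt_iff]
        constructor
        · rintro (h | ⟨_, h⟩)
          · rw [h0] at h; exact absurd h (lt_irrefl _)
          · exact h
        · intro h; exact Or.inr ⟨h0, h⟩
      have h2 : ii ((∀ j < 0, d j = x j) ∧ (d 0).val < (x 0).val) = 0 := by
        apply ii_false; rintro ⟨_, h⟩; rw [h0] at h; exact absurd h (lt_irrefl _)
      rw [h2, add_zero, ii_congr h1, ih]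
      refine sum_congr rfl fun l _ => ii_congr ?_
      constructor
      · rintro ⟨h5, h6⟩
        refine ⟨fun j hj => ?_, h6⟩
        rcases j with _ | j
        · exact h0
        · exact h5 j (by omega)
      · rintro ⟨h5, h6⟩
        exact ⟨fun j hj => h5 (j+1) (by omega), h6⟩
    · have h2 : ∀ l ∈ range k, ii ((∀ j < l + 1, d j = x j) ∧
          (d (l+1)).val < (x (l+1)).val) = 0 := by
        intro l _
        apply ii_false
        rintro ⟨h, _⟩
        exact h0 (h 0 (by omega))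
      rw [sum_eq_zero h2, zero_add]
      apply ii_congr
      rw [tv_lt_iff]
      constructor
      · rintro (h | ⟨h, _⟩)
        · exact ⟨fun j hj => by omega, h⟩
        · exact absurd h h0
      · rintro ⟨_, h⟩; exact Or.inl h

theorem exists_digits (k : ℕ) : ∀ N : ℕ, N < p ^ k → ∃ d : ℕ → ZMod p,
    tv d k = (N:ℝ) / (p:ℝ) ^ k ∧ ∀ j, k ≤ j → d j = 0 := by
  have hp0 : 0 < p := Nat.pos_of_ne_zero (NeZero.ne p)
  have hp : (0:ℝ) < p := p_pos'
  induction k with
  | zero =>
    intro N hN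
    refine ⟨0, ?_, fun j _ => rfl⟩
    have : N = 0 := by simpa using hN
    simp [tv_zero, this]
  | succ k ih =>
    intro N hN
    have hpk : 0 < p ^ k := pow_pos hp0 k
    obtain ⟨d', hd', hz'⟩ := ih (N % p ^ k) (Nat.mod_lt _ hpk)
    have ha : N / p ^ k < p := by
      rw [Nat.div_lt_iff_lt_mul hpk]
      rw [pow_succ'] at hN
      exact hN
    refine ⟨fun j => Nat.casesOn j ((N / p ^ k : ℕ) : ZMod p) d', ?_, ?_⟩
    swap
    · intro j hj
      rcases j with _ | j
      · omega
      · exact hz' j (by omega)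
    rw [tv_succ]
    have h1 : ((((N / p ^ k : ℕ) : ZMod p)).val : ℝ) = ((N / p ^ k : ℕ) : ℝ) := by
      rw [ZMod.val_natCast_of_lt ha]
    have h2 : tv (fun j => (Nat.casesOn (j+1) ((N / p ^ k : ℕ) : ZMod p) d' : ZMod p)) k
        = ((N % p ^ k : ℕ) : ℝ) / (p:ℝ) ^ k := hd'
    have h3 : ((((fun j => Nat.casesOn j ((N / p ^ k : ℕ) : ZMod p) d' : ℕ → ZMod p) 0)).val : ℝ)
        = ((N / p ^ k : ℕ) : ℝ) := h1
    rw [h3, h2]
    have h4 : (N:ℝ) = (p:ℝ) ^ k * ((N / p ^ k : ℕ) : ℝ) + ((N % p ^ k : ℕ) : ℝ) := by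
      have := Nat.div_add_mod N (p ^ k)
      exact_mod_cast this.symm
    rw [h4, pow_succ]
    field_simp

theorem tv_int (d : ℕ → ZMod p) (k : ℕ) : ∃ N : ℕ, N < p ^ k ∧ tv d k = (N:ℝ) / (p:ℝ) ^ k := by
  have hp0 : 0 < p := Nat.pos_of_ne_zero (NeZero.ne p)
  have hp : (0:ℝ) < p := p_pos'
  induction k generalizing d with
  | zero => exact ⟨0, by simp, by simp [tv_zero]⟩
  | succ k ih =>
    obtain ⟨N, hN, h⟩ := ih (fun j => d (j+1))
    refine ⟨(d 0).val * p ^ k + N, ?_, ?_⟩
    · have h1 : (d 0).val + 1 ≤ p := ZMod.val_lt (d 0)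
      calc (d 0).val * p ^ k + N < (d 0).val * p ^ k + p ^ k := by omega
        _ = ((d 0).val + 1) * p ^ k := by ring
        _ ≤ p * p ^ k := Nat.mul_le_mul_right _ h1
        _ = p ^ (k+1) := by ring
    · rw [tv_succ, h]
      push_cast
      rw [pow_succ]
      field_simp

end Digits

end Pool.Agent.H470D4
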