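import Pool.Agent.H470D4.NetA

set_option autoImplicit false

/-! Windows and cells: exact counts, and the estimate of `Z_0`. -/

namespace Pool.Agent.H470D4

open Finset

section
variable {p M B n : ℕ} [Fact p.Prime]

instance : Fintype (Vec p M B) := inferInstance

/-- the digits indexed by the window, as a linear map -/
def PhiN (c : Flg p M B n) (W : Fin (n + 2) → ℕ) :
    Vec p M B →ₗ[ZMod p] ((Σ a : Fin (n + 2), Fin (W a)) → ZMod p) :=
  LinearMap.pi (fun i => c i.1 i.2)

theorem Phi_apply (c : Flg p M B n) (W : Fin (n + 2) → ℕ) (ν : Vec p M B)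
    (i : Σ a : Fin (n + 2), Fin (W a)) : PhiN c W ν i = c i.1 i.2 ν := rfl

theorem ker_Phi (c : Flg p M B n) (W : Fin (n + 2) → ℕ) (ω : Path p B) :
    LinearMap.ker (PhiN c W) = AA c ω W 0 := by
  ext ν
  rw [LinearMap.mem_ker, mem_AA]
  constructor
  · intro h
    refine ⟨fun a j hj => ?_, fun j hj => by omega⟩
    have := congrFun h ⟨a, ⟨j, hj⟩⟩
    exact this
  · rintro ⟨h, _⟩
    funext i
    exact h i.1 i.2 i.2.2

open Classical in
/-- Number of points in a window. -/
theorem card_window (c : Flg p M B n) (hc : IsFlags c) (W : Fin (n + 2) → ℕ)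
    (hW : ∑ a, W a ≤ M * B) (t : Fin (n + 2) → ℕ → ZMod p) :
    (univ.filter (fun ν : Vec p M B => ∀ a, ∀ j < W a, c a j ν = t a j)).card =
      p ^ (M * B - ∑ a, W a) := by
  have ω : Path p B := fun _ _ => 0
  have hker : Module.finrank (ZMod p) (LinearMap.ker (PhiN c W)) = M * B - ∑ a, W a := by
    rw [ker_Phi c W ω]; exact hc.mds ω W
  have hdom : Module.finrank (ZMod p) (Vec p M B) = M * B := by simp
  have hcod : Module.finrank (ZMod p) ((Σ a : Fin (n + 2), Fin (W a)) → ZMod p) = ∑ a, W a := by
    simp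
  have hrk := LinearMap.finrank_range_add_finrank_ker (PhiN c W)
  have hrange : LinearMap.range (PhiN c W) = ⊤ := by
    apply Submodule.eq_top_of_finrank_eq
    rw [hcod]; omega
  have hsurj : Function.Surjective (PhiN c W) := LinearMap.range_eq_top.1 hrange
  obtain ⟨ν0, hν0⟩ := hsurj (fun i => t i.1 i.2)
  have hcard : Fintype.card (LinearMap.ker (PhiN c W)) = p ^ (M * B - ∑ a, W a) := by
    rw [Module.card_eq_pow_finrank (K := ZMod p), hker, ZMod.card]
  rw [← hcard, ← Fintype.card_coe]
  refine Fintype.card_congr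
    { toFun := fun x => ⟨x.1 - ν0, ?_⟩
      invFun := fun x => ⟨x.1 + ν0, ?_⟩
      left_inv := ?_
      right_inv := ?_ }
  · rw [LinearMap.mem_ker, map_sub, hν0, sub_eq_zero]
    have hx := (mem_filter.1 x.2).2
    funext i
    exact hx i.1 i.2 i.2.2
  · rw [mem_filter]
    refine ⟨mem_univ _, fun a j hj => ?_⟩
    have hx : PhiN c W x.1 = 0 := x.2
    have h1 := congrFun hx ⟨a, ⟨j, hj⟩⟩
    have h2 := congrFun hν0 ⟨a, ⟨j, hj⟩⟩
    rw [Phi_apply] at h1 h2
    rw [map_add]
    show c a j x.1 + c a j ν0 = t a j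
    rw [show c a j x.1 = 0 from h1, show c a j ν0 = t a j from h2, zero_add]
  · intro x; ext1; simp
  · intro x; ext1; simp

open Classical in
/-- Number of points in a cell of small level. -/
theorem card_cell (c : Flg p M B n) (hc : IsFlags c) (d : Dat p n) (ω : Path p B)
    (l : Fin (n + 2) → ℕ) (hl : ∑ a, (l a + 1) ≤ M * B) :
    (cell c d ω 0 l).card = (∏ a, (d.low a (l a)).card) * p ^ (M * B - ∑ a, (l a + 1)) := by
  set f : Vec p M B → (Fin (n + 2) → ZMod p) := fun ν a => c a (l a) ν with hf
  have hmaps : ∀ ν ∈ cell c d ω 0 l, f ν ∈ Fintype.piFinset (fun a => d.low a (l a)) := by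
    intro ν hν
    rw [cell, mem_filter] at hν
    rw [Fintype.mem_piFinset]
    intro a
    exact (hν.2.1 a).2
  rw [card_eq_sum_card_fiberwise hmaps]
  have hfib : ∀ v ∈ Fintype.piFinset (fun a => d.low a (l a)),
      ((cell c d ω 0 l).filter (fun ν => f ν = v)).card = p ^ (M * B - ∑ a, (l a + 1)) := by
    intro v hv
    rw [Fintype.mem_piFinset] at hv
    rw [← card_window c hc (fun a => l a + 1) hl
      (fun a j => if j < l a then d.x a j else v a)]
    congr 1
    ext ν
    rw [mem_filter, cell, mem_filter, mem_filter]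
    constructor
    · rintro ⟨⟨_, h1, _⟩, h2⟩
      refine ⟨mem_univ _, fun a j hj => ?_⟩
      rcases Nat.lt_or_ge j (l a) with h | h
      · rw [if_pos h]; exact (h1 a).1 j h
      · have : j = l a := by omega
        rw [if_neg (by omega), this]
        exact congrFun h2 a
    · rintro ⟨_, h1⟩
      have h3 : ∀ a, c a (l a) ν = v a := by
        intro a
        have := h1 a (l a) (by omega)
        rw [if_neg (by omega)] at this
        exact this
      refine ⟨⟨mem_univ _, fun a => ⟨fun j hj => ?_, ?_⟩, fun j hj => by omega⟩, ?_⟩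
      · have := h1 a j (by omega)
        rw [if_pos hj] at this
        exact this
      · rw [h3 a]; exact hv a
      · funext a; exact h3 a
  rw [sum_congr rfl hfib, sum_const, Fintype.card_piFinset, smul_eq_mul]

end

/-- Below any vector of large sum there is a vector of prescribed sum. -/
theorem exists_le_sumN {k : ℕ} (t : ℕ) : ∀ (e : ℕ) (l : Fin k → ℕ), ∑ a, l a = t + e →
    ∃ W : Fin k → ℕ, (∀ a, W a ≤ l a) ∧ ∑ a, W a = t := by
  intro e
  induction e with
  | zero => intro l hl; exact ⟨l, fun a => le_rfl, by simpa using hl⟩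
  | succ e ih =>
    intro l hl
    have h1 : ∃ a, 0 < l a := by
      by_contra hcon
      push Not at hcon
      have : ∑ a, l a = 0 := sum_eq_zero fun a _ => Nat.le_zero.1 (hcon a)
      omega
    obtain ⟨a0, ha0⟩ := h1
    have h2 : ∑ a, Function.update l a0 (l a0 - 1) a = t + e := by
      rw [sum_update_of_mem (mem_univ a0)]
      have h3 := Finset.add_sum_erase univ l (mem_univ a0)
      rw [Finset.sdiff_singleton_eq_erase]
      omega
    obtain ⟨W, hW1, hW2⟩ := ih _ h2
    refine ⟨W, fun a => ?_, hW2⟩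
    have := hW1 a
    by_cases ha : a = a0
    · subst ha
      rw [Function.update_self] at this
      omega
    · rwa [Function.update_of_ne ha] at this

open Classical in
/-- the windows of sum `t` -/
noncomputable def WW (n m t : ℕ) : Finset (Fin (n + 2) → ℕ) :=
  (Fintype.piFinset (fun _ : Fin (n + 2) => range (m + 1))).filter (fun W => ∑ a, W a = t)

theorem card_WW (n m t : ℕ) : (WW n m t).card ≤ (m + 1) ^ (n + 1) := by
  classical
  have h : ((Fintype.piFinset (fun _ : Fin (n + 1) => range (m + 1)))).card = (m + 1) ^ (n + 1) := by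
    rw [Fintype.card_piFinset]; simp
  rw [← h]
  apply card_le_card_of_injOn (fun W a => W (Fin.castSucc a))
  · intro W hW
    rw [WW, mem_coe, mem_filter, Fintype.mem_piFinset] at hW
    rw [mem_coe, Fintype.mem_piFinset]
    intro a
    exact hW.1 _
  · intro W hW W' hW' hWW
    rw [WW, mem_coe, mem_filter] at hW hW'
    have h1 : ∀ a : Fin (n + 1), W (Fin.castSucc a) = W' (Fin.castSucc a) := fun a => congrFun hWW a
    have h2 := hW.2
    have h3 := hW'.2
    rw [Fin.sum_univ_castSucc] at h2 h3
    rw [sum_congr rfl (fun a _ => h1 a)] at h2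
    funext a
    refine Fin.lastCases ?_ (fun a => ?_) a
    · omega
    · exact h1 a

end Pool.Agent.H470D4
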