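import Pool.Agent.H470D4.NetB

set_option autoImplicit false

/-! The estimate of `Z_0`. -/

namespace Pool.Agent.H470D4

open Finset

theorem sum_ii_le_one {ι : Type} (s : Finset ι) (P : ι → Prop)
    (h : ∀ i j, P i → P j → i = j) : ∑ i ∈ s, ii (P i) ≤ 1 := by
  classical
  by_cases hex : ∃ i ∈ s, P i
  · obtain ⟨i, hi, hPi⟩ := hex
    rw [sum_eq_single i]
    · exact ii_le_one _
    · intro j _ hji
      exact ii_false (fun hj => hji (h j i hj hPi))
    · intro hni; exact absurd hi hni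
  · push Not at hex
    rw [sum_eq_zero (fun i hi => ii_false (hex i hi))]
    exact zero_le_one

theorem tele (g : ℕ → ℝ) (W : ℕ) (m : ℕ) :
    ∑ l ∈ (range m).filter (fun l => W ≤ l), (g l - g (l+1)) + g (max W m) = g W := by
  induction m with
  | zero => simp
  | succ m ih =>
    rw [range_add_one, filter_insert]
    by_cases h : W ≤ m
    · rw [if_pos h, sum_insert (by simp)]
      rw [max_eq_right (by omega : W ≤ m + 1)]
      rw [max_eq_right h] at ih
      linarith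
    · rw [if_neg h]
      rw [max_eq_left (by omega : m + 1 ≤ W)]
      rw [max_eq_left (by omega : m ≤ W)] at ih
      exact ih

section
variable {p M B n : ℕ} [Fact p.Prime]

/-- the volume of the level `l` in the coordinate `a` -/
noncomputable def vol (d : Dat p n) (a : Fin (n + 2)) (l : ℕ) : ℝ :=
  ((d.low a l).card : ℝ) / (p:ℝ) ^ (l + 1)

theorem p_pos'' : (0:ℝ) < p := by
  exact_mod_cast (Fact.out : p.Prime).pos

theorem vol_nonneg (d : Dat p n) (a : Fin (n + 2)) (l : ℕ) : 0 ≤ vol d a l := by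
  unfold vol; positivity

theorem low_card_lt (d : Dat p n) (a : Fin (n + 2)) (l : ℕ) : (d.low a l).card + 1 ≤ p := by
  have h := Finset.card_lt_univ_of_notMem (d.nlow a l)
  rw [ZMod.card] at h
  exact h

theorem vol_le (d : Dat p n) (a : Fin (n + 2)) (l : ℕ) :
    vol d a l ≤ 1 / (p:ℝ) ^ l - 1 / (p:ℝ) ^ (l + 1) := by
  have hp : (0:ℝ) < p := p_pos''
  have h : ((d.low a l).card : ℝ) + 1 ≤ p := by exact_mod_cast low_card_lt d a l
  have h2 : 1 / (p:ℝ) ^ l - 1 / (p:ℝ) ^ (l + 1) = ((p:ℝ) - 1) / (p:ℝ) ^ (l+1) := by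
    rw [pow_succ]; field_simp
  rw [h2, vol]
  exact div_le_div_of_nonneg_right (by linarith) (by positivity)

theorem vol_tail (d : Dat p n) (a : Fin (n + 2)) (W m : ℕ) :
    ∑ l ∈ (range m).filter (fun l => W ≤ l), vol d a l ≤ 1 / (p:ℝ) ^ W := by
  have hp : (0:ℝ) < p := p_pos''
  have h := tele (fun l => 1 / (p:ℝ) ^ l) W m
  have h1 : ∑ l ∈ (range m).filter (fun l => W ≤ l), vol d a l ≤
      ∑ l ∈ (range m).filter (fun l => W ≤ l), (1 / (p:ℝ) ^ l - 1 / (p:ℝ) ^ (l + 1)) :=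
    sum_le_sum fun l _ => vol_le d a l
  have h2 : (0:ℝ) ≤ 1 / (p:ℝ) ^ (max W m) := by positivity
  beta_reduce at h
  linarith

theorem Lev_unique (c : Flg p M B n) (d : Dat p n) (ν : Vec p M B) (l l' : Fin (n + 2) → ℕ)
    (h : Lev c d ν l) (h' : Lev c d ν l') : l = l' := by
  funext a
  rcases lt_trichotomy (l a) (l' a) with h1 | h1 | h1
  · exfalso
    have h2 := (h' a).1 (l a) h1
    have h3 := (h a).2
    rw [h2] at h3
    exact d.nlow _ _ h3
  · exact h1
  · exfalso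
    have h2 := (h a).1 (l' a) h1
    have h3 := (h' a).2
    rw [h2] at h3
    exact d.nlow _ _ h3

theorem Lbox_split (d : Dat p n) :
    ∏ a, ∑ l ∈ range (M * B), vol d a l = ∑ l ∈ Lbox M B n, ∏ a, vol d a (l a) := by
  rw [Finset.prod_univ_sum]
  rfl

theorem card_cell_sum (c : Flg p M B n) (d : Dat p n) (ω : Path p B) (l : Fin (n + 2) → ℕ) :
    ((cell c d ω 0 l).card : ℝ) = ∑ ν : Vec p M B, ii (Lev c d ν l) := by
  classical
  rw [cell, card_eq_sum_ii]
  refine sum_congr rfl fun ν _ => ii_congr ?_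
  constructor
  · rintro ⟨h, _⟩; exact h
  · intro h; exact ⟨h, fun j hj => by omega⟩

theorem bad_window (l : Fin (n + 2) → ℕ)
    (hl : l ∈ Lbox M B n) (hbad : ¬ ∑ a, (l a + 1) ≤ M * B) :
    ∃ W ∈ WW n (M * B) (M * B - (n + 1)), ∀ a, W a ≤ l a := by
  classical
  have h1 : ∑ a, (l a + 1) = ∑ a, l a + (n + 2) := by
    rw [sum_add_distrib]; simp
  have h2 : M * B - (n + 1) ≤ ∑ a, l a := by omega
  obtain ⟨e, he⟩ := Nat.exists_eq_add_of_le h2
  obtain ⟨W, hW1, hW2⟩ := exists_le_sumN _ e l he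
  refine ⟨W, ?_, hW1⟩
  rw [WW, mem_filter, Fintype.mem_piFinset]
  refine ⟨fun a => ?_, hW2⟩
  rw [Lbox, Fintype.mem_piFinset] at hl
  have := mem_range.1 (hl a)
  rw [mem_range]
  have := hW1 a
  omega

open Classical in
theorem bad_points (c : Flg p M B n) (hc : IsFlags c) (d : Dat p n) (ω : Path p B)
    (hm : n + 1 ≤ M * B) :
    ∑ l ∈ (Lbox M B n).filter (fun l => ¬ ∑ a, (l a + 1) ≤ M * B), ((cell c d ω 0 l).card : ℝ) ≤
      ((M * B : ℕ) + 1 : ℝ) ^ (n + 1) * (p:ℝ) ^ (n + 1) := by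
  have h1 : ∀ ν : Vec p M B,
      ∑ l ∈ (Lbox M B n).filter (fun l => ¬ ∑ a, (l a + 1) ≤ M * B), ii (Lev c d ν l) ≤
      ∑ W ∈ WW n (M * B) (M * B - (n + 1)), ii (∀ a, ∀ j < W a, c a j ν = d.x a j) := by
    intro ν
    by_cases hex : ∃ l ∈ (Lbox M B n).filter (fun l => ¬ ∑ a, (l a + 1) ≤ M * B), Lev c d ν l
    · obtain ⟨l, hl, hL⟩ := hex
      rw [mem_filter] at hl
      obtain ⟨W, hW, hWl⟩ := bad_window l hl.1 hl.2
      refine le_trans (sum_ii_le_one _ _ (fun l l' => Lev_unique c d ν l l')) ?_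
      have h2 : ii (∀ a, ∀ j < W a, c a j ν = d.x a j) = 1 :=
        ii_true (fun a j hj => (hL a).1 j (lt_of_lt_of_le hj (hWl a)))
      rw [← h2]
      exact single_le_sum (f := fun W : Fin (n + 2) → ℕ => ii (∀ a, ∀ j < W a, c a j ν = d.x a j))
        (fun W _ => ii_nonneg _) hW
    · rw [sum_eq_zero (fun l hl => ii_false (fun hL => hex ⟨l, hl, hL⟩))]
      exact sum_nonneg fun W _ => ii_nonneg _
  calc ∑ l ∈ (Lbox M B n).filter (fun l => ¬ ∑ a, (l a + 1) ≤ M * B), ((cell c d ω 0 l).card : ℝ)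
      = ∑ ν : Vec p M B,
        ∑ l ∈ (Lbox M B n).filter (fun l => ¬ ∑ a, (l a + 1) ≤ M * B), ii (Lev c d ν l) := by
        rw [sum_comm]
        exact sum_congr rfl fun l _ => card_cell_sum c d ω l
    _ ≤ ∑ ν : Vec p M B,
        ∑ W ∈ WW n (M * B) (M * B - (n + 1)), ii (∀ a, ∀ j < W a, c a j ν = d.x a j) :=
        sum_le_sum fun ν _ => h1 ν
    _ = ∑ W ∈ WW n (M * B) (M * B - (n + 1)), ((p:ℝ) ^ (n + 1)) := by
        rw [sum_comm]
        refine sum_congr rfl fun W hW => ?_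
        rw [WW, mem_filter] at hW
        have h3 := card_window c hc W (by rw [hW.2]; omega) d.x
        rw [← card_eq_sum_ii, h3, hW.2]
        have h4 : M * B - (M * B - (n + 1)) = n + 1 := by omega
        rw [h4]
        push_cast
        rfl
    _ = ((WW n (M * B) (M * B - (n + 1))).card : ℝ) * (p:ℝ) ^ (n + 1) := by
        rw [sum_const, nsmul_eq_mul]
    _ ≤ _ := by
        have h5 : ((WW n (M * B) (M * B - (n + 1))).card : ℝ) ≤ ((M * B : ℕ) + 1 : ℝ) ^ (n + 1) := by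
          exact_mod_cast card_WW n (M * B) (M * B - (n + 1))
        exact mul_le_mul_of_nonneg_right h5 (by positivity)

open Classical in
theorem bad_volume (d : Dat p n) (hm : n + 1 ≤ M * B) :
    (p:ℝ) ^ (M * B) *
    ∑ l ∈ (Lbox M B n).filter (fun l => ¬ ∑ a, (l a + 1) ≤ M * B), ∏ a, vol d a (l a) ≤
      ((M * B : ℕ) + 1 : ℝ) ^ (n + 1) * (p:ℝ) ^ (n + 1) := by
  have hp : (0:ℝ) < p := p_pos''
  have h1 : ∑ l ∈ (Lbox M B n).filter (fun l => ¬ ∑ a, (l a + 1) ≤ M * B), ∏ a, vol d a (l a) ≤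
      ∑ W ∈ WW n (M * B) (M * B - (n + 1)),
        ∑ l ∈ (Lbox M B n).filter (fun l => ∀ a, W a ≤ l a), ∏ a, vol d a (l a) := by
    have h2 : ∀ l ∈ (Lbox M B n).filter (fun l => ¬ ∑ a, (l a + 1) ≤ M * B),
        ∏ a, vol d a (l a) ≤ ∑ W ∈ WW n (M * B) (M * B - (n + 1)),
          ii (∀ a, W a ≤ l a) * ∏ a, vol d a (l a) := by
      intro l hl
      rw [mem_filter] at hl
      obtain ⟨W, hW, hWl⟩ := bad_window l hl.1 hl.2
      have h0 : 0 ≤ ∏ a, vol d a (l a) := prod_nonneg fun a _ => vol_nonneg d a _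
      have h3 := single_le_sum (f := fun W : Fin (n + 2) → ℕ =>
        ii (∀ a, W a ≤ l a) * ∏ a, vol d a (l a))
        (fun W _ => mul_nonneg (ii_nonneg _) h0) hW
      beta_reduce at h3
      rw [ii_true hWl, one_mul] at h3
      exact h3
    refine le_trans (sum_le_sum h2) ?_
    rw [sum_comm]
    refine sum_le_sum fun W _ => ?_
    refine le_trans (sum_le_sum_of_subset_of_nonneg (filter_subset _ (Lbox M B n))
      (fun l _ _ => mul_nonneg (ii_nonneg _) (prod_nonneg fun a _ => vol_nonneg d a _))) ?_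
    rw [sum_filter]
    refine le_of_eq (sum_congr rfl fun l _ => ?_)
    by_cases h : ∀ a, W a ≤ l a
    · rw [ii_true h, if_pos h, one_mul]
    · rw [ii_false h, if_neg h, zero_mul]
  have h4 : ∀ W ∈ WW n (M * B) (M * B - (n + 1)),
      ∑ l ∈ (Lbox M B n).filter (fun l => ∀ a, W a ≤ l a), ∏ a, vol d a (l a) ≤
        1 / (p:ℝ) ^ (M * B - (n + 1)) := by
    intro W hW
    rw [WW, mem_filter] at hW
    have h5 : (Lbox M B n).filter (fun l => ∀ a, W a ≤ l a) =
        Fintype.piFinset (fun a => (range (M * B)).filter (fun l => W a ≤ l)) := by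
      ext l
      rw [mem_filter, Lbox, Fintype.mem_piFinset, Fintype.mem_piFinset]
      constructor
      · rintro ⟨h6, h7⟩ a; exact mem_filter.2 ⟨h6 a, h7 a⟩
      · intro h6; exact ⟨fun a => (mem_filter.1 (h6 a)).1, fun a => (mem_filter.1 (h6 a)).2⟩
    rw [h5, ← Finset.prod_univ_sum]
    calc ∏ a, ∑ l ∈ (range (M * B)).filter (fun l => W a ≤ l), vol d a l
        ≤ ∏ a, (1 / (p:ℝ) ^ (W a)) :=
          prod_le_prod (fun a _ => sum_nonneg fun l _ => vol_nonneg d a l)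
            (fun a _ => vol_tail d a (W a) (M * B))
      _ = 1 / (p:ℝ) ^ (M * B - (n + 1)) := by
          rw [prod_div_distrib, prod_const_one, prod_pow_eq_pow_sum, hW.2]
  calc (p:ℝ) ^ (M * B) *
      ∑ l ∈ (Lbox M B n).filter (fun l => ¬ ∑ a, (l a + 1) ≤ M * B), ∏ a, vol d a (l a)
      ≤ (p:ℝ) ^ (M * B) * ∑ W ∈ WW n (M * B) (M * B - (n + 1)), 1 / (p:ℝ) ^ (M * B - (n + 1)) :=
        mul_le_mul_of_nonneg_left (h1.trans (sum_le_sum h4)) (by positivity)
    _ = ((WW n (M * B) (M * B - (n + 1))).card : ℝ) * (p:ℝ) ^ (n + 1) := by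
        rw [sum_const, nsmul_eq_mul]
        have h6 : (p:ℝ) ^ (M * B) = (p:ℝ) ^ (M * B - (n + 1)) * (p:ℝ) ^ (n + 1) := by
          rw [← pow_add]; congr 1; omega
        rw [h6]
        field_simp
    _ ≤ _ := by
        have h5 : ((WW n (M * B) (M * B - (n + 1))).card : ℝ) ≤ ((M * B : ℕ) + 1 : ℝ) ^ (n + 1) := by
          exact_mod_cast card_WW n (M * B) (M * B - (n + 1))
        exact mul_le_mul_of_nonneg_right h5 (by positivity)

/-- The first `n+2` coordinates form a net. -/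
theorem Z0_est (c : Flg p M B n) (hc : IsFlags c) (d : Dat p n) (ω : Path p B)
    (hm : n + 1 ≤ M * B) :
    |∑ l ∈ Lbox M B n, ((cell c d ω 0 l).card : ℝ) -
      (p:ℝ) ^ (M * B) * ∏ a, ∑ l ∈ range (M * B), vol d a l| ≤
      ((M * B : ℕ) + 1 : ℝ) ^ (n + 1) * (p:ℝ) ^ (n + 1) := by
  classical
  have hp : (0:ℝ) < p := p_pos''
  rw [Lbox_split]
  have h1 := bad_points c hc d ω hm
  have h2 := bad_volume d hm
  rw [← sum_filter_add_sum_filter_not (Lbox M B n) (fun l => ∑ a, (l a + 1) ≤ M * B)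
    (fun l => ((cell c d ω 0 l).card : ℝ))]
  rw [← sum_filter_add_sum_filter_not (Lbox M B n) (fun l => ∑ a, (l a + 1) ≤ M * B)
    (fun l => ∏ a, vol d a (l a))]
  have h3 : ∑ l ∈ (Lbox M B n).filter (fun l => ∑ a, (l a + 1) ≤ M * B),
      ((cell c d ω 0 l).card : ℝ) = (p:ℝ) ^ (M * B) *
      ∑ l ∈ (Lbox M B n).filter (fun l => ∑ a, (l a + 1) ≤ M * B), ∏ a, vol d a (l a) := by
    rw [mul_sum]
    refine sum_congr rfl fun l hl => ?_
    rw [mem_filter] at hl
    rw [card_cell c hc d ω l hl.2]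
    push_cast
    have h4 : ∏ a, vol d a (l a) = (∏ a, ((d.low a (l a)).card : ℝ)) / (p:ℝ) ^ (∑ a, (l a + 1)) := by
      unfold vol
      rw [prod_div_distrib, prod_pow_eq_pow_sum]
    rw [h4]
    have h5 : (p:ℝ) ^ (M * B) = (p:ℝ) ^ (M * B - ∑ a, (l a + 1)) * (p:ℝ) ^ (∑ a, (l a + 1)) := by
      rw [← pow_add]; congr 1; omega
    rw [h5]
    have h8 : ∀ A x y : ℝ, y ≠ 0 → A * x = (x * y) * (A / y) := by
      intro A x y hy; field_simp
    exact h8 _ _ _ (by positivity)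
  rw [h3]
  have h6 : 0 ≤ ∑ l ∈ (Lbox M B n).filter (fun l => ¬ ∑ a, (l a + 1) ≤ M * B),
      ((cell c d ω 0 l).card : ℝ) := sum_nonneg fun _ _ => Nat.cast_nonneg _
  have h7 : 0 ≤ (p:ℝ) ^ (M * B) *
      ∑ l ∈ (Lbox M B n).filter (fun l => ¬ ∑ a, (l a + 1) ≤ M * B), ∏ a, vol d a (l a) :=
    mul_nonneg (by positivity) (sum_nonneg fun l _ => prod_nonneg fun a _ => vol_nonneg d a _)
  rw [mul_add, add_sub_add_left_eq_sub, abs_le]
  constructor <;> linarith

end

end Pool.Agent.H470D4
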