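import Pool.Agent.H470D4.NetC

set_option autoImplicit false

/-! The data of a shifted corner, and the estimate for grid corners. -/

namespace Pool.Agent.H470D4

open Finset

section
variable {p : ℕ} [NeZero p]

/-- the mean zero test functions of the last coordinate -/
noncomputable def psiF (m : ℕ) (Y T : ℕ → ZMod p) (r : ℕ) (v : ZMod p) : ℝ :=
  if r < m then
    ii ((v + T r).val < (Y r).val) + ii (v + T r = Y r) * tv (fun j => Y (j + (r + 1))) (m - (r + 1))
      - tv (fun j => Y (j + r)) (m - r)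
  else 0

theorem card_val_lt (k : ℕ) (hk : k ≤ p) :
    (univ.filter (fun w : ZMod p => w.val < k)).card = k := by
  classical
  have h : (univ.filter (fun w : ZMod p => w.val < k)).image ZMod.val = range k := by
    ext x
    rw [mem_image, mem_range]
    constructor
    · rintro ⟨w, hw, rfl⟩
      exact (mem_filter.1 hw).2
    · intro hx
      refine ⟨(x : ZMod p), mem_filter.2 ⟨mem_univ _, ?_⟩, ?_⟩
      · rw [ZMod.val_natCast_of_lt (lt_of_lt_of_le hx hk)]; exact hx
      · exact ZMod.val_natCast_of_lt (lt_of_lt_of_le hx hk)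
  have h2 := card_image_of_injOn (f := ZMod.val) (s := univ.filter (fun w : ZMod p => w.val < k))
    (fun a _ b _ hab => ZMod.val_injective p hab)
  rw [h, card_range] at h2
  exact h2.symm

theorem card_shift_lt (s x : ZMod p) :
    (univ.filter (fun v : ZMod p => (v + s).val < x.val)).card = x.val := by
  classical
  refine Eq.trans ?_ (card_val_lt (p := p) x.val (ZMod.val_lt x).le)
  apply card_bij (fun v _ => v + s)
  · intro v hv
    rw [mem_filter] at hv ⊢
    exact ⟨mem_univ _, hv.2⟩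
  · intro a _ b _ hab
    exact add_right_cancel hab
  · intro w hw
    rw [mem_filter] at hw
    exact ⟨w - s, mem_filter.2 ⟨mem_univ _, by rw [sub_add_cancel]; exact hw.2⟩, by simp⟩

theorem psiF_sum (m : ℕ) (Y T : ℕ → ZMod p) (r : ℕ) : ∑ v : ZMod p, psiF m Y T r v = 0 := by
  classical
  unfold psiF
  by_cases hr : r < m
  · simp only [if_pos hr]
    rw [sum_sub_distrib, sum_add_distrib, ← card_eq_sum_ii, card_shift_lt, ← sum_mul,
      ← card_eq_sum_ii]
    have h1 : (univ.filter (fun v : ZMod p => v + T r = Y r)).card = 1 := by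
      rw [card_eq_one]
      refine ⟨Y r - T r, ?_⟩
      ext v
      rw [mem_filter, mem_singleton, eq_sub_iff_add_eq]
      simp
    rw [h1]
    have hp : (0:ℝ) < p := p_pos'
    obtain ⟨k, hk⟩ : ∃ k, m - r = k + 1 := ⟨m - r - 1, by omega⟩
    have hk' : m - (r + 1) = k := by omega
    rw [hk, hk', tv_succ, sum_const, card_univ, ZMod.card, nsmul_eq_mul]
    have h2 : (fun j => Y (j + 1 + r)) = fun j => Y (j + (r + 1)) := by
      funext j; congr 1; omega
    rw [h2, zero_add]
    field_simp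
    push_cast
    ring
  · simp [hr]

theorem psiF_le (m : ℕ) (Y T : ℕ → ZMod p) (r : ℕ) (v : ZMod p) : |psiF m Y T r v| ≤ 1 := by
  unfold psiF
  by_cases hr : r < m
  · rw [if_pos hr]
    obtain ⟨h1, h2⟩ := tv_bounds (fun j => Y (j + (r + 1))) (m - (r + 1))
    obtain ⟨h3, h4⟩ := tv_bounds (fun j => Y (j + r)) (m - r)
    by_cases ha : v + T r = Y r
    · rw [ii_true ha, ii_false (by rw [ha]; exact lt_irrefl _), abs_le]
      constructor <;> linarith
    · rw [ii_false ha, abs_le]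
      have h5 := ii_nonneg ((v + T r).val < (Y r).val)
      have h6 := ii_le_one ((v + T r).val < (Y r).val)
      constructor <;> linarith
  · rw [if_neg hr]; simp

/-- the data of a corner `X, Y` for the net with the digital shift `S, T` -/
noncomputable def mkDat {n : ℕ} (m : ℕ) (X : Fin (n + 2) → ℕ → ZMod p) (Y : ℕ → ZMod p)
    (S : Fin (n + 2) → ℕ → ZMod p) (T : ℕ → ZMod p) : Dat p n where
  x a j := X a j - S a j
  low a j := univ.filter (fun v : ZMod p => (v + S a j).val < (X a j).val)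
  nlow a j := by
    rw [mem_filter, sub_add_cancel]
    rintro ⟨_, h⟩
    exact lt_irrefl _ h
  y j := Y j - T j
  psi := psiF m Y T
  psi_sum := psiF_sum m Y T
  psi_le := psiF_le m Y T

/-- The last coordinate. -/
theorem last_ind (m : ℕ) (e Y T : ℕ → ZMod p) :
    ii (tv (fun r => e r + T r) m < tv Y m) = tv Y m +
      ∑ r ∈ range m, ii (∀ j < r, e j = Y j - T j) * psiF m Y T r (e r) := by
  rw [ind_lt]
  have h1 : ∀ r, (∀ j < r, e j = Y j - T j) ↔ (∀ j < r, e j + T j = Y j) := by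
    intro r
    constructor
    · intro h j hj; rw [h j hj, sub_add_cancel]
    · intro h j hj; rw [← h j hj, add_sub_cancel_right]
  set A : ℕ → ℝ := fun r => ii (∀ j < r, e j + T j = Y j) with hA
  set τ : ℕ → ℝ := fun r => tv (fun j => Y (j + r)) (m - r) with hτ
  have hA1 : ∀ r, A (r + 1) = A r * ii (e r + T r = Y r) := by
    intro r
    rw [hA]
    simp only
    rw [← ii_and]
    apply ii_congr
    constructor
    · intro h; exact ⟨fun j hj => h j (by omega), h r (by omega)⟩
    · rintro ⟨h, h'⟩ j hj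
      rcases Nat.lt_or_ge j r with h2 | h2
      · exact h j h2
      · have : j = r := by omega
        rw [this]; exact h'
  have h2 : ∑ r ∈ range m, (A (r + 1) * τ (r + 1) - A r * τ r) = - tv Y m := by
    rw [sum_range_sub (fun r => A r * τ r)]
    have h3 : τ m = 0 := by rw [hτ]; simp [tv_zero]
    have h4 : A 0 = 1 := ii_true (fun j hj => by omega)
    have h5 : τ 0 = tv Y m := by rw [hτ]; simp
    rw [h3, h4, h5]; ring
  have h3 : ∀ r ∈ range m, ii (∀ j < r, e j = Y j - T j) * psiF m Y T r (e r) =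
      ii ((∀ j < r, e j + T j = Y j) ∧ (e r + T r).val < (Y r).val) +
        (A (r + 1) * τ (r + 1) - A r * τ r) := by
    intro r hr
    have hr' := mem_range.1 hr
    rw [ii_congr (h1 r), hA1, ii_and, psiF, if_pos hr']
    show A r * (ii ((e r + T r).val < (Y r).val) + ii (e r + T r = Y r) * τ (r + 1) - τ r) = 
      A r * ii ((e r + T r).val < (Y r).val) + (A r * ii (e r + T r = Y r) * τ (r + 1) - A r * τ r)
    ring
  rw [sum_congr rfl h3, sum_add_distrib, h2]
  ring

end

section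
variable {p M B n : ℕ} [Fact p.Prime]

theorem vol_mkDat (X : Fin (n + 2) → ℕ → ZMod p) (Y : ℕ → ZMod p)
    (S : Fin (n + 2) → ℕ → ZMod p) (T : ℕ → ZMod p) (m k : ℕ) (a : Fin (n + 2)) :
    ∑ l ∈ range k, vol (mkDat m X Y S T) a l = tv (X a) k := by
  rw [tv_eq_sum]
  refine sum_congr rfl fun l _ => ?_
  unfold vol
  congr 2
  exact card_shift_lt (S a l) (X a l)

theorem lev_ind (c : Flg p M B n) (m : ℕ) (X : Fin (n + 2) → ℕ → ZMod p) (Y : ℕ → ZMod p)
    (S : Fin (n + 2) → ℕ → ZMod p) (T : ℕ → ZMod p) (ν : Vec p M B) :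
    ii (∀ a, tv (fun j => c a j ν + S a j) (M * B) < tv (X a) (M * B)) =
      ∑ l ∈ Lbox M B n, ii (Lev c (mkDat m X Y S T) ν l) := by
  rw [ii_forall]
  have h1 : ∀ a, ii (tv (fun j => c a j ν + S a j) (M * B) < tv (X a) (M * B)) =
      ∑ l ∈ range (M * B), ii ((∀ j < l, c a j ν = (mkDat m X Y S T).x a j) ∧
        c a l ν ∈ (mkDat m X Y S T).low a l) := by
    intro a
    rw [ind_lt]
    refine sum_congr rfl fun l _ => ii_congr ?_
    have h2 : c a l ν ∈ (mkDat m X Y S T).low a l ↔ (c a l ν + S a l).val < (X a l).val := by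
      show c a l ν ∈ univ.filter (fun v : ZMod p => (v + S a l).val < (X a l).val) ↔ _
      rw [mem_filter]; simp
    rw [h2]
    refine and_congr_left fun _ => ?_
    constructor
    · intro h j hj
      show c a j ν = X a j - S a j
      rw [← h j hj, add_sub_cancel_right]
    · intro h j hj
      have h3 : c a j ν = X a j - S a j := h j hj
      show c a j ν + S a j = X a j
      rw [h3, sub_add_cancel]
  rw [prod_congr rfl (fun a _ => h1 a), Finset.prod_univ_sum]
  refine sum_congr rfl fun l _ => ?_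
  rw [← ii_forall]
  rfl

theorem XX_eqN (c : Flg p M B n) (d : Dat p n) (ω : Path p B) (r : ℕ) :
    XX c d ω r = ∑ ν : Vec p M B, (∑ l ∈ Lbox M B n, ii (Lev c d ν l)) *
      (ii (∀ j < r, row M ω j ν = d.y j) * d.psi r (row M ω r ν)) := by
  classical
  unfold XX
  have h1 : ∀ l ∈ Lbox M B n, ∑ ν ∈ cell c d ω r l, d.psi r (row M ω r ν) =
      ∑ ν : Vec p M B, ii (Lev c d ν l) *
        (ii (∀ j < r, row M ω j ν = d.y j) * d.psi r (row M ω r ν)) := by
    intro l _
    rw [cell, sum_filter]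
    refine sum_congr rfl fun ν _ => ?_
    rw [← mul_assoc, ← ii_and]
    by_cases h : Lev c d ν l ∧ ∀ j < r, row M ω j ν = d.y j
    · rw [if_pos h, ii_true h, one_mul]
    · rw [if_neg h, ii_false h, zero_mul]
  rw [sum_congr rfl h1, sum_comm]
  refine sum_congr rfl fun ν _ => ?_
  rw [sum_mul]

/-- `Z_0`, in terms of the shifted points. -/
theorem grid_est0 (c : Flg p M B n) (hc : IsFlags c) (X : Fin (n + 2) → ℕ → ZMod p)
    (S : Fin (n + 2) → ℕ → ZMod p) (hm : n + 1 ≤ M * B) :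
    |∑ ν : Vec p M B, ii (∀ a, tv (fun j => c a j ν + S a j) (M * B) < tv (X a) (M * B)) -
      (p:ℝ) ^ (M * B) * ∏ a, tv (X a) (M * B)| ≤
      ((M * B : ℕ) + 1 : ℝ) ^ (n + 1) * (p:ℝ) ^ (n + 1) := by
  have ω : Path p B := fun _ _ => 0
  have h := Z0_est c hc (mkDat (M * B) X 0 S 0) ω hm
  have h1 : ∑ l ∈ Lbox M B n, ((cell c (mkDat (M * B) X 0 S 0) ω 0 l).card : ℝ) =
      ∑ ν : Vec p M B, ii (∀ a, tv (fun j => c a j ν + S a j) (M * B) < tv (X a) (M * B)) := by
    rw [sum_congr rfl (fun l _ => card_cell_sum c (mkDat (M * B) X 0 S 0) ω l), sum_comm]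
    exact sum_congr rfl fun ν _ => (lev_ind c (M * B) X 0 S 0 ν).symm
  rw [h1] at h
  rw [prod_congr rfl (fun a _ => vol_mkDat X 0 S 0 (M * B) (M * B) a)] at h
  exact h

/-- Grid corners. -/
theorem grid_est (c : Flg p M B n) (hc : IsFlags c) (ω : Path p B)
    (X : Fin (n + 2) → ℕ → ZMod p) (Y : ℕ → ZMod p)
    (S : Fin (n + 2) → ℕ → ZMod p) (T : ℕ → ZMod p) (hm : n + 1 ≤ M * B) (E1 : ℝ)
    (hE : |∑ r ∈ range (M * B), XX c (mkDat (M * B) X Y S T) ω r| ≤ E1) :
    |∑ ν : Vec p M B, ii ((∀ a, tv (fun j => c a j ν + S a j) (M * B) < tv (X a) (M * B)) ∧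
        tv (fun r => row M ω r ν + T r) (M * B) < tv Y (M * B)) -
      (p:ℝ) ^ (M * B) * ((∏ a, tv (X a) (M * B)) * tv Y (M * B))| ≤
      E1 + ((M * B : ℕ) + 1 : ℝ) ^ (n + 1) * (p:ℝ) ^ (n + 1) := by
  have h0 := grid_est0 c hc X S hm
  obtain ⟨hy1, hy2⟩ := tv_bounds Y (M * B)
  set Z : ℝ := ∑ ν : Vec p M B,
    ii (∀ a, tv (fun j => c a j ν + S a j) (M * B) < tv (X a) (M * B)) with hZ
  have h1 : ∑ ν : Vec p M B, ii ((∀ a, tv (fun j => c a j ν + S a j) (M * B) <
        tv (X a) (M * B)) ∧ tv (fun r => row M ω r ν + T r) (M * B) < tv Y (M * B)) =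
      tv Y (M * B) * Z + ∑ r ∈ range (M * B), XX c (mkDat (M * B) X Y S T) ω r := by
    have h2 : ∀ ν : Vec p M B, ii ((∀ a, tv (fun j => c a j ν + S a j) (M * B) <
        tv (X a) (M * B)) ∧ tv (fun r => row M ω r ν + T r) (M * B) < tv Y (M * B)) =
        tv Y (M * B) * ii (∀ a, tv (fun j => c a j ν + S a j) (M * B) < tv (X a) (M * B)) +
        ∑ r ∈ range (M * B), (∑ l ∈ Lbox M B n, ii (Lev c (mkDat (M * B) X Y S T) ν l)) *
          (ii (∀ j < r, row M ω j ν = (mkDat (M * B) X Y S T).y j) *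
            (mkDat (M * B) X Y S T).psi r (row M ω r ν)) := by
      intro ν
      rw [ii_and, last_ind (M * B) (fun r => row M ω r ν) Y T, mul_add, ← mul_sum,
        ← lev_ind c (M * B) X Y S T ν, mul_comm (ii _) (tv Y (M * B))]
      rfl
    rw [sum_congr rfl (fun ν _ => h2 ν), sum_add_distrib, ← mul_sum, sum_comm]
    congr 1
    refine sum_congr rfl fun r _ => ?_
    rw [XX_eqN]
  rw [h1]
  have h3 : tv Y (M * B) * Z + ∑ r ∈ range (M * B), XX c (mkDat (M * B) X Y S T) ω r -
      (p:ℝ) ^ (M * B) * ((∏ a, tv (X a) (M * B)) * tv Y (M * B)) =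
      tv Y (M * B) * (Z - (p:ℝ) ^ (M * B) * ∏ a, tv (X a) (M * B)) +
        ∑ r ∈ range (M * B), XX c (mkDat (M * B) X Y S T) ω r := by ring
  rw [h3]
  refine le_trans (abs_add_le _ _) ?_
  rw [abs_mul, abs_of_nonneg hy1]
  have h4 : tv Y (M * B) * |Z - (p:ℝ) ^ (M * B) * ∏ a, tv (X a) (M * B)| ≤
      1 * (((M * B : ℕ) + 1 : ℝ) ^ (n + 1) * (p:ℝ) ^ (n + 1)) :=
    mul_le_mul hy2.le h0 (abs_nonneg _) zero_le_one
  linarith

end

end Pool.Agent.H470D4
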