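import Pool.Agent.H470D4.NetD

set_option autoImplicit false

/-! Real corners. -/

namespace Pool.Agent.H470D4

open Finset

theorem prod_diff {ι : Type} (s : Finset ι) (u v : ι → ℝ) (ε : ℝ)
    (hu0 : ∀ i, 0 ≤ u i) (hu1 : ∀ i, u i ≤ 1) (hv0 : ∀ i, 0 ≤ v i) (hv1 : ∀ i, v i ≤ 1)
    (h : ∀ i, |u i - v i| ≤ ε) : |∏ i ∈ s, u i - ∏ i ∈ s, v i| ≤ s.card * ε := by
  classical
  induction s using Finset.induction_on with
  | empty => simp
  | insert a s ha ih =>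
    rw [prod_insert ha, prod_insert ha, card_insert_of_notMem ha]
    have h1 : u a * ∏ i ∈ s, u i - v a * ∏ i ∈ s, v i =
        u a * (∏ i ∈ s, u i - ∏ i ∈ s, v i) + (u a - v a) * ∏ i ∈ s, v i := by ring
    rw [h1]
    refine le_trans (abs_add_le _ _) ?_
    rw [abs_mul, abs_mul, abs_of_nonneg (hu0 a),
      abs_of_nonneg (prod_nonneg fun i _ => hv0 i : 0 ≤ ∏ i ∈ s, v i)]
    have h2 : ∏ i ∈ s, v i ≤ 1 := prod_le_one (fun i _ => hv0 i) (fun i _ => hv1 i)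
    have h3 : u a * |∏ i ∈ s, u i - ∏ i ∈ s, v i| ≤ 1 * (s.card * ε) :=
      mul_le_mul (hu1 a) ih (abs_nonneg _) zero_le_one
    have h4 : |u a - v a| * ∏ i ∈ s, v i ≤ ε * 1 :=
      mul_le_mul (h a) h2 (prod_nonneg fun i _ => hv0 i) ((abs_nonneg _).trans (h a))
    push_cast
    linarith

section
variable {p : ℕ} [NeZero p]

theorem tv_lt_real (d : ℕ → ZMod p) (m : ℕ) (x : ℝ) : ∃ D : ℕ, D < p ^ m ∧
    tv d m = (D:ℝ) / (p:ℝ) ^ m ∧ (tv d m < x ↔ D < ⌈x * (p:ℝ) ^ m⌉₊) := by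
  have hp : (0:ℝ) < (p:ℝ) ^ m := pow_pos p_pos' m
  obtain ⟨D, hD, h⟩ := tv_int d m
  refine ⟨D, hD, h, ?_⟩
  rw [h, Nat.lt_ceil, div_lt_iff₀ hp]

theorem round_in (m : ℕ) (x : ℝ) (hx0 : 0 ≤ x) (hx1 : x ≤ 1) : ∃ X : ℕ → ZMod p,
    |tv X m - x| ≤ 1 / (p:ℝ) ^ m ∧ (∀ d : ℕ → ZMod p, tv d m < tv X m → tv d m < x) ∧
      (∀ d : ℕ → ZMod p, tv d m < x → tv d m < tv X m ∨
        tv d m = ((p ^ m - 1 : ℕ) : ℝ) / (p:ℝ) ^ m) ∧ ∀ j, m ≤ j → X j = 0 := by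
  have hp : (0:ℝ) < (p:ℝ) ^ m := pow_pos p_pos' m
  have hpm : 0 < p ^ m := pow_pos (Nat.pos_of_ne_zero (NeZero.ne p)) m
  set N : ℕ := ⌈x * (p:ℝ) ^ m⌉₊ with hN
  have hNle : N ≤ p ^ m := by
    rw [hN, Nat.ceil_le]
    push_cast
    nlinarith
  have hN1 : x * (p:ℝ) ^ m ≤ N := Nat.le_ceil _
  have hN2 : (N:ℝ) < x * (p:ℝ) ^ m + 1 := Nat.ceil_lt_add_one (by positivity)
  rcases Nat.lt_or_ge N (p ^ m) with h | h
  · obtain ⟨X, hX, hXz⟩ := exists_digits (p := p) m N h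
    refine ⟨X, ?_, ?_, ?_, hXz⟩
    · rw [hX, abs_le]
      constructor
      · have : x ≤ (N:ℝ) / (p:ℝ) ^ m := by rw [le_div_iff₀ hp]; exact hN1
        have h3 : 0 < 1 / (p:ℝ) ^ m := by positivity
        linarith
      · have h4 : (N:ℝ) / (p:ℝ) ^ m < x + 1 / (p:ℝ) ^ m := by
          rw [div_lt_iff₀ hp, add_mul, one_div, inv_mul_cancel₀ hp.ne']
          exact hN2
        linarith
    · intro d hd
      obtain ⟨D, hD, hD1, hD2⟩ := tv_lt_real d m x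
      rw [hD2]
      rw [hD1, hX, div_lt_div_iff_of_pos_right hp] at hd
      exact Nat.cast_lt.1 hd
    · intro d hd
      obtain ⟨D, hD, hD1, hD2⟩ := tv_lt_real d m x
      left
      rw [hD1, hX, div_lt_div_iff_of_pos_right hp]
      exact Nat.cast_lt.2 (hD2.1 hd)
  · have hNeq : N = p ^ m := le_antisymm hNle h
    obtain ⟨X, hX, hXz⟩ := exists_digits (p := p) m (p ^ m - 1) (by omega)
    have hcast : ((p ^ m - 1 : ℕ) : ℝ) = (p:ℝ) ^ m - 1 := by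
      rw [Nat.cast_sub hpm]; push_cast; ring
    have hNr : (N:ℝ) = (p:ℝ) ^ m := by rw [hNeq]; push_cast; ring
    refine ⟨X, ?_, ?_, ?_, hXz⟩
    · rw [hX, hcast, abs_le]
      have h3 : ((p:ℝ) ^ m - 1) / (p:ℝ) ^ m = 1 - 1 / (p:ℝ) ^ m := by field_simp
      rw [h3]
      have h4 : 1 - 1 / (p:ℝ) ^ m ≤ x := by
        rw [← h3, div_le_iff₀ hp]; linarith
      have h5 : 0 < 1 / (p:ℝ) ^ m := by positivity
      constructor <;> linarith
    · intro d hd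
      obtain ⟨D, hD, hD1, hD2⟩ := tv_lt_real d m x
      rw [hD2]
      show D < N
      omega
    · intro d hd
      obtain ⟨D, hD, hD1, hD2⟩ := tv_lt_real d m x
      rcases Nat.lt_or_ge D (p ^ m - 1) with h6 | h6
      · left
        rw [hD1, hX, div_lt_div_iff_of_pos_right hp]
        exact_mod_cast h6
      · right
        have : D = p ^ m - 1 := by omega
        rw [hD1, this]

theorem round_last (m : ℕ) (x : ℝ) (hx0 : 0 ≤ x) (hx1 : x ≤ 1) :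
    (∃ X : ℕ → ZMod p, |tv X m - x| ≤ 1 / (p:ℝ) ^ m ∧
      (∀ d : ℕ → ZMod p, tv d m < x ↔ tv d m < tv X m) ∧ ∀ j, m ≤ j → X j = 0) ∨
    (|1 - x| ≤ 1 / (p:ℝ) ^ m ∧ ∀ d : ℕ → ZMod p, tv d m < x) := by
  have hp : (0:ℝ) < (p:ℝ) ^ m := pow_pos p_pos' m
  have hpm : 0 < p ^ m := pow_pos (Nat.pos_of_ne_zero (NeZero.ne p)) m
  set N : ℕ := ⌈x * (p:ℝ) ^ m⌉₊ with hN
  have hNle : N ≤ p ^ m := by
    rw [hN, Nat.ceil_le]
    push_cast
    nlinarith
  have hN1 : x * (p:ℝ) ^ m ≤ N := Nat.le_ceil _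
  have hN2 : (N:ℝ) < x * (p:ℝ) ^ m + 1 := Nat.ceil_lt_add_one (by positivity)
  rcases Nat.lt_or_ge N (p ^ m) with h | h
  · left
    obtain ⟨X, hX, hXz⟩ := exists_digits (p := p) m N h
    refine ⟨X, ?_, ?_, hXz⟩
    · rw [hX, abs_le]
      constructor
      · have : x ≤ (N:ℝ) / (p:ℝ) ^ m := by rw [le_div_iff₀ hp]; exact hN1
        have h3 : 0 < 1 / (p:ℝ) ^ m := by positivity
        linarith
      · have h4 : (N:ℝ) / (p:ℝ) ^ m < x + 1 / (p:ℝ) ^ m := by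
          rw [div_lt_iff₀ hp, add_mul, one_div, inv_mul_cancel₀ hp.ne']
          exact hN2
        linarith
    · intro d
      obtain ⟨D, hD, hD1, hD2⟩ := tv_lt_real d m x
      rw [hD2, hD1, hX, div_lt_div_iff_of_pos_right hp, Nat.cast_lt]
  · right
    have hNeq : N = p ^ m := le_antisymm hNle h
    have hNr : (N:ℝ) = (p:ℝ) ^ m := by rw [hNeq]; push_cast; ring
    refine ⟨?_, ?_⟩
    · rw [abs_of_nonneg (by linarith), le_div_iff₀ hp]
      linarith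
    · intro d
      obtain ⟨D, hD, hD1, hD2⟩ := tv_lt_real d m x
      rw [hD2]
      show D < N
      omega

end

section
variable {p M B n : ℕ} [Fact p.Prime]

theorem last_digit_unique (c : Flg p M B n) (hc : IsFlags c) (S : Fin (n + 2) → ℕ → ZMod p)
    (a : Fin (n + 2)) (v : ℝ) :
    ∑ ν : Vec p M B, ii (tv (fun j => c a j ν + S a j) (M * B) = v) ≤ 1 := by
  refine sum_ii_le_one _ _ ?_
  intro ν ν' h h'
  have h1 := tv_inj _ _ (M * B) (h.trans h'.symm)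
  have ω : Path p B := fun _ _ => 0
  have h2 := hc.mds ω (fun a' => if a' = a then M * B else 0)
  rw [Finset.sum_ite_eq' univ a (fun _ => M * B), if_pos (mem_univ a), Nat.sub_self] at h2
  have h3 : AA c ω (fun a' => if a' = a then M * B else 0) 0 = ⊥ := by
    rw [← Submodule.finrank_eq_zero (R := ZMod p)]; exact h2
  have h4 : ν - ν' ∈ AA c ω (fun a' => if a' = a then M * B else 0) 0 := by
    rw [mem_AA]
    refine ⟨fun a' j hj => ?_, fun j hj => by omega⟩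
    by_cases ha : a' = a
    · subst ha
      rw [if_pos rfl] at hj
      rw [map_sub, sub_eq_zero]
      exact add_right_cancel (h1 j hj)
    · rw [if_neg ha] at hj; omega
  rw [h3, Submodule.mem_bot, sub_eq_zero] at h4
  exact h4

/-- The general estimate. -/
theorem real_est (c : Flg p M B n) (hc : IsFlags c) (ω : Path p B)
    (S : Fin (n + 2) → ℕ → ZMod p) (T : ℕ → ZMod p) (hm : n + 1 ≤ M * B) (E1 : ℝ) (hE0 : 0 ≤ E1)
    (hE : ∀ (X : Fin (n + 2) → ℕ → ZMod p) (Y : ℕ → ZMod p),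
      (∀ a j, M * B ≤ j → X a j = 0) → (∀ j, M * B ≤ j → Y j = 0) →
      |∑ r ∈ range (M * B), XX c (mkDat (M * B) X Y S T) ω r| ≤ E1)
    (x : Fin (n + 2) → ℝ) (hx0 : ∀ a, 0 ≤ x a) (hx1 : ∀ a, x a ≤ 1)
    (y : ℝ) (hy0 : 0 ≤ y) (hy1 : y ≤ 1) :
    |∑ ν : Vec p M B, ii ((∀ a, tv (fun j => c a j ν + S a j) (M * B) < x a) ∧
        tv (fun r => row M ω r ν + T r) (M * B) < y) -
      (p:ℝ) ^ (M * B) * ((∏ a, x a) * y)| ≤
      E1 + ((M * B : ℕ) + 1 : ℝ) ^ (n + 1) * (p:ℝ) ^ (n + 1) + (2 * n + 5) := by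
  have hp : (0:ℝ) < (p:ℝ) ^ (M * B) := pow_pos p_pos'' _
  choose X hX1 hX2 hX3 hXz using fun a => round_in (p := p) (M * B) (x a) (hx0 a) (hx1 a)
  -- replacing the corner in the first coordinates
  have key : ∀ L : Vec p M B → Prop,
      |∑ ν : Vec p M B, ii ((∀ a, tv (fun j => c a j ν + S a j) (M * B) < x a) ∧ L ν) -
       ∑ ν : Vec p M B, ii ((∀ a, tv (fun j => c a j ν + S a j) (M * B) < tv (X a) (M * B)) ∧
        L ν)| ≤ n + 2 := by
    intro L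
    rw [← sum_sub_distrib]
    have h1 : ∀ ν : Vec p M B,
        |ii ((∀ a, tv (fun j => c a j ν + S a j) (M * B) < x a) ∧ L ν) -
          ii ((∀ a, tv (fun j => c a j ν + S a j) (M * B) < tv (X a) (M * B)) ∧ L ν)| ≤
        ∑ a, ii (tv (fun j => c a j ν + S a j) (M * B) =
          ((p ^ (M * B) - 1 : ℕ) : ℝ) / (p:ℝ) ^ (M * B)) := by
      intro ν
      have hle : ii ((∀ a, tv (fun j => c a j ν + S a j) (M * B) < tv (X a) (M * B)) ∧ L ν) ≤
          ii ((∀ a, tv (fun j => c a j ν + S a j) (M * B) < x a) ∧ L ν) :=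
        ii_mono (fun h => ⟨fun a => hX2 a _ (h.1 a), h.2⟩)
      rw [abs_of_nonneg (by linarith)]
      by_cases hex : ∃ a, tv (fun j => c a j ν + S a j) (M * B) =
          ((p ^ (M * B) - 1 : ℕ) : ℝ) / (p:ℝ) ^ (M * B)
      · obtain ⟨a, ha⟩ := hex
        have h2 := single_le_sum (f := fun a => ii (tv (fun j => c a j ν + S a j) (M * B) =
          ((p ^ (M * B) - 1 : ℕ) : ℝ) / (p:ℝ) ^ (M * B))) (fun a _ => ii_nonneg _) (mem_univ a)
        beta_reduce at h2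
        rw [ii_true ha] at h2
        have h3 := ii_le_one ((∀ a, tv (fun j => c a j ν + S a j) (M * B) < x a) ∧ L ν)
        have h4 := ii_nonneg ((∀ a, tv (fun j => c a j ν + S a j) (M * B) < tv (X a) (M * B)) ∧
          L ν)
        linarith
      · push Not at hex
        have h5 : ii ((∀ a, tv (fun j => c a j ν + S a j) (M * B) < x a) ∧ L ν) ≤
            ii ((∀ a, tv (fun j => c a j ν + S a j) (M * B) < tv (X a) (M * B)) ∧ L ν) :=
          ii_mono (fun h => ⟨fun a => (hX3 a _ (h.1 a)).resolve_right (hex a), h.2⟩)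
        have h6 : 0 ≤ ∑ a, ii (tv (fun j => c a j ν + S a j) (M * B) =
          ((p ^ (M * B) - 1 : ℕ) : ℝ) / (p:ℝ) ^ (M * B)) := sum_nonneg fun a _ => ii_nonneg _
        linarith
    refine le_trans (abs_sum_le_sum_abs _ _) (le_trans (sum_le_sum fun ν _ => h1 ν) ?_)
    rw [sum_comm]
    refine le_trans (sum_le_sum fun a _ => last_digit_unique c hc S a _) ?_
    simp
  have hX0 : ∀ a, 0 ≤ tv (X a) (M * B) := fun a => (tv_bounds (X a) (M * B)).1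
  have hX01 : ∀ a, tv (X a) (M * B) ≤ 1 := fun a => (tv_bounds (X a) (M * B)).2.le
  have hpr := prod_diff univ (fun a => tv (X a) (M * B)) x (1 / (p:ℝ) ^ (M * B)) hX0 hX01 hx0 hx1 hX1
  have hcard : ((univ : Finset (Fin (n + 2))).card : ℝ) = n + 2 := by simp
  rw [hcard] at hpr
  have hP0 : 0 ≤ ∏ a, tv (X a) (M * B) := prod_nonneg fun a _ => hX0 a
  have hP1 : ∏ a, tv (X a) (M * B) ≤ 1 := prod_le_one (fun a _ => hX0 a) (fun a _ => hX01 a)
  have hQ0 : 0 ≤ ∏ a, x a := prod_nonneg fun a _ => hx0 a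
  have hQ1 : ∏ a, x a ≤ 1 := prod_le_one (fun a _ => hx0 a) (fun a _ => hx1 a)
  -- the volume
  have hvol : ∀ z : ℝ, 0 ≤ z → z ≤ 1 → |z - y| ≤ 1 / (p:ℝ) ^ (M * B) →
      |(p:ℝ) ^ (M * B) * ((∏ a, tv (X a) (M * B)) * z) -
        (p:ℝ) ^ (M * B) * ((∏ a, x a) * y)| ≤ n + 3 := by
    intro z hz0 hz1 hz
    have e1 : (p:ℝ) ^ (M * B) * ((∏ a, tv (X a) (M * B)) * z) -
        (p:ℝ) ^ (M * B) * ((∏ a, x a) * y) =
        (p:ℝ) ^ (M * B) * ((∏ a, tv (X a) (M * B) - ∏ a, x a) * z + (∏ a, x a) * (z - y)) := by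
      ring
    rw [e1, abs_mul, abs_of_pos hp]
    have e2 : |(∏ a, tv (X a) (M * B) - ∏ a, x a) * z + (∏ a, x a) * (z - y)| ≤
        (n + 3) * (1 / (p:ℝ) ^ (M * B)) := by
      refine le_trans (abs_add_le _ _) ?_
      rw [abs_mul, abs_mul, abs_of_nonneg hz0, abs_of_nonneg hQ0]
      have e3 : |∏ a, tv (X a) (M * B) - ∏ a, x a| * z ≤ ((n + 2) * (1 / (p:ℝ) ^ (M * B))) * 1 :=
        mul_le_mul hpr hz1 hz0 ((abs_nonneg _).trans hpr)
      have e4 : (∏ a, x a) * |z - y| ≤ 1 * (1 / (p:ℝ) ^ (M * B)) :=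
        mul_le_mul hQ1 hz (abs_nonneg _) zero_le_one
      linarith
    calc (p:ℝ) ^ (M * B) * |(∏ a, tv (X a) (M * B) - ∏ a, x a) * z + (∏ a, x a) * (z - y)|
        ≤ (p:ℝ) ^ (M * B) * ((n + 3) * (1 / (p:ℝ) ^ (M * B))) :=
          mul_le_mul_of_nonneg_left e2 hp.le
      _ = n + 3 := by field_simp
  set E0 : ℝ := ((M * B : ℕ) + 1 : ℝ) ^ (n + 1) * (p:ℝ) ^ (n + 1) with hE0def
  rcases round_last (p := p) (M * B) y hy0 hy1 with ⟨Y, hY1, hY2, hYz⟩ | ⟨hY1, hY2⟩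
  · have h1 := grid_est c hc ω X Y S T hm E1 (hE X Y hXz hYz)
    have h2 := key (fun ν => tv (fun r => row M ω r ν + T r) (M * B) < y)
    have h3 : ∑ ν : Vec p M B, ii ((∀ a, tv (fun j => c a j ν + S a j) (M * B) <
        tv (X a) (M * B)) ∧ tv (fun r => row M ω r ν + T r) (M * B) < y) =
        ∑ ν : Vec p M B, ii ((∀ a, tv (fun j => c a j ν + S a j) (M * B) <
        tv (X a) (M * B)) ∧ tv (fun r => row M ω r ν + T r) (M * B) < tv Y (M * B)) :=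
      sum_congr rfl fun ν _ => ii_congr (and_congr_right fun _ => hY2 _)
    beta_reduce at h2
    rw [h3] at h2
    have h4 := hvol (tv Y (M * B)) (tv_bounds Y (M * B)).1 (tv_bounds Y (M * B)).2.le hY1
    rw [abs_le] at h1 h2 h4 ⊢
    constructor <;> linarith [h1.1, h1.2, h2.1, h2.2, h4.1, h4.2]
  · have h1 := grid_est0 c hc X S hm
    have h2 := key (fun ν => tv (fun r => row M ω r ν + T r) (M * B) < y)
    have h3 : ∑ ν : Vec p M B, ii ((∀ a, tv (fun j => c a j ν + S a j) (M * B) <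
        tv (X a) (M * B)) ∧ tv (fun r => row M ω r ν + T r) (M * B) < y) =
        ∑ ν : Vec p M B, ii (∀ a, tv (fun j => c a j ν + S a j) (M * B) <
        tv (X a) (M * B)) :=
      sum_congr rfl fun ν _ => ii_congr ⟨fun h => h.1, fun h => ⟨h, hY2 _⟩⟩
    beta_reduce at h2
    rw [h3] at h2
    have h4 := hvol 1 zero_le_one le_rfl hY1
    rw [mul_one] at h4
    rw [abs_le] at h1 h2 h4 ⊢
    constructor <;> linarith [h1.1, h1.2, h2.1, h2.2, h4.1, h4.2]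

theorem real_est' (m : ℕ) (hmm : m = M * B) (c : Flg p M B n) (hc : IsFlags c) (ω : Path p B)
    (S : Fin (n + 2) → ℕ → ZMod p) (T : ℕ → ZMod p) (hm : n + 1 ≤ m) (E1 : ℝ) (hE0 : 0 ≤ E1)
    (hE : ∀ (X : Fin (n + 2) → ℕ → ZMod p) (Y : ℕ → ZMod p),
      (∀ a j, m ≤ j → X a j = 0) → (∀ j, m ≤ j → Y j = 0) →
      |∑ r ∈ range m, XX c (mkDat m X Y S T) ω r| ≤ E1)
    (x : Fin (n + 2) → ℝ) (hx0 : ∀ a, 0 ≤ x a) (hx1 : ∀ a, x a ≤ 1)
    (y : ℝ) (hy0 : 0 ≤ y) (hy1 : y ≤ 1) :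
    |∑ ν : Vec p M B, ii ((∀ a, tv (fun j => c a j ν + S a j) m < x a) ∧
        tv (fun r => row M ω r ν + T r) m < y) -
      (p:ℝ) ^ m * ((∏ a, x a) * y)| ≤
      E1 + ((m : ℝ) + 1 : ℝ) ^ (n + 1) * (p:ℝ) ^ (n + 1) + (2 * n + 5) := by
  subst hmm
  exact real_est c hc ω S T hm E1 hE0 hE x hx0 hx1 y hy0 hy1

end

end Pool.Agent.H470D4
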