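import Pool.Agent.H470D4.Core
import Pool.Agent.H470D4.Flags
import Pool.Agent.H470D4.Net

set_option autoImplicit false

namespace Pool.Agent.H470D4

open Finset

theorem coreStmt (n : ℕ) : CoreStmt n := core_mainQ n

/-- Task N2. -/
theorem net_main (n : ℕ) : ∃ (Q : ℕ) (C : ℝ) (p₀ : ℕ), 1 ≤ Q ∧ 0 < C ∧
    ∀ p : ℕ, p.Prime → p₀ ≤ p →
    ∃ ξ : Fin (p ^ (p ^ Q)) → Fin (n + 3) → ℝ, (∀ i j, 0 ≤ ξ i j ∧ ξ i j < 1) ∧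
      ∀ x : Fin (n + 3) → ℝ, (∀ j, 0 ≤ x j) → (∀ j, x j ≤ 1) →
      |(((univ : Finset (Fin (p ^ (p ^ Q)))).filter (fun i => ∀ j, ξ i j < x j)).card : ℝ)
        - (p:ℝ) ^ (p ^ Q) * ∏ j, x j| ≤ C * ((p:ℝ) ^ Q) ^ (n + 2) :=
  net_main_of n (coreStmt n) (fun p M B n _ h => exists_flags p M B n h)

end Pool.Agent.H470D4
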