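import Pool.Agent.H470D4.Net

set_option autoImplicit false

/-! All digital shifts of the digital net have small star discrepancy (closed boxes). -/

namespace Pool.Agent.H470D4

open Finset MeasureTheory

/-- the standard bijection from the digits to the numbers `0, …, p-1` -/
def stdPsi (p : ℕ) [NeZero p] : ZMod p ≃ Fin p where
  toFun x := ⟨x.val, ZMod.val_lt x⟩
  invFun k := ((k : ℕ) : ZMod p)
  left_inv x := by simp
  right_inv k := by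
    ext
    exact ZMod.val_natCast_of_lt k.2

section
variable {p : ℕ} [NeZero p]

theorem closed_round (m : ℕ) (x : ℝ) (hx0 : 0 ≤ x) (hx1 : x ≤ 1) : ∃ x' : ℝ, 0 ≤ x' ∧ x' ≤ 1 ∧
    |x' - x| ≤ 1 / (p:ℝ) ^ m ∧ ∀ d : ℕ → ZMod p, tv d m ≤ x ↔ tv d m < x' := by
  have hp : (0:ℝ) < (p:ℝ) ^ m := pow_pos p_pos' m
  set F : ℕ := ⌊x * (p:ℝ) ^ m⌋₊ with hF
  have h1 : (F:ℝ) ≤ x * (p:ℝ) ^ m := Nat.floor_le (by positivity)
  have h2 : x * (p:ℝ) ^ m < F + 1 := Nat.lt_floor_add_one _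
  have h3 : x < ((F:ℝ) + 1) / (p:ℝ) ^ m := by rw [lt_div_iff₀ hp]; exact h2
  have h4 : ((F:ℝ) + 1) / (p:ℝ) ^ m ≤ x + 1 / (p:ℝ) ^ m := by
    rw [div_le_iff₀ hp, add_mul, one_div, inv_mul_cancel₀ hp.ne']
    linarith
  have h5 : 0 < 1 / (p:ℝ) ^ m := by positivity
  refine ⟨min (((F:ℝ) + 1) / (p:ℝ) ^ m) 1, le_min (by positivity) zero_le_one, min_le_right _ _,
    ?_, ?_⟩
  · rw [abs_le]
    constructor
    · have : x ≤ min (((F:ℝ) + 1) / (p:ℝ) ^ m) 1 := le_min h3.le hx1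
      linarith
    · have := min_le_left (((F:ℝ) + 1) / (p:ℝ) ^ m) 1
      linarith
  · intro d
    obtain ⟨D, hD, hd⟩ := tv_int d m
    have hlt := (tv_bounds d m).2
    rw [lt_min_iff]
    constructor
    · intro h
      refine ⟨?_, hlt⟩
      rw [hd, div_lt_div_iff_of_pos_right hp]
      rw [hd, div_le_iff₀ hp] at h
      have h6 : D ≤ F := Nat.le_floor h
      have h7 : (D:ℝ) ≤ F := by exact_mod_cast h6
      linarith
    · rintro ⟨h, _⟩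
      rw [hd, div_lt_div_iff_of_pos_right hp] at h
      have h6 : D < F + 1 := by exact_mod_cast h
      have h7 : (D:ℝ) ≤ F := by exact_mod_cast Nat.lt_succ_iff.1 h6
      rw [hd, div_le_iff₀ hp]
      linarith

end

theorem log_ratio (p Q : ℕ) (hp : 3 ≤ p) (hQ : 1 ≤ Q) :
    (p:ℝ) ^ Q ≤ ((Q:ℝ) + 1) * (Real.log ((p:ℝ) ^ (p ^ Q)) /
      Real.log (Real.log ((p:ℝ) ^ (p ^ Q)))) := by
  have hp3 : (3:ℝ) ≤ p := by exact_mod_cast hp
  have hL1 : 1 < Real.log p := by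
    rw [Real.lt_log_iff_exp_lt (by linarith)]
    have := Real.exp_one_lt_d9
    linarith
  have hpQ : (1:ℝ) ≤ (p:ℝ) ^ Q := one_le_pow₀ (by linarith)
  have h1 : Real.log ((p:ℝ) ^ (p ^ Q)) = (p:ℝ) ^ Q * Real.log p := by
    rw [Real.log_pow]; push_cast; ring
  rw [h1, Real.log_mul (by positivity) (by positivity), Real.log_pow]
  have h2 : 0 < Real.log (Real.log p) := Real.log_pos hL1
  have h3 : Real.log (Real.log p) ≤ Real.log p := by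
    have := Real.log_le_sub_one_of_pos (by linarith : 0 < Real.log p)
    linarith
  have hQ1 : (1:ℝ) ≤ Q := by exact_mod_cast hQ
  have h4 : 0 < (Q:ℝ) * Real.log p + Real.log (Real.log p) := by positivity
  rw [← mul_div_assoc, le_div_iff₀ h4]
  have h5 : (Q:ℝ) * Real.log p + Real.log (Real.log p) ≤ ((Q:ℝ) + 1) * Real.log p := by linarith
  calc (p:ℝ) ^ Q * ((Q:ℝ) * Real.log p + Real.log (Real.log p))
      ≤ (p:ℝ) ^ Q * (((Q:ℝ) + 1) * Real.log p) := mul_le_mul_of_nonneg_left h5 (by positivity)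
    _ = _ := by ring

theorem shift_upper (n : ℕ) (hcore : CoreStmt n)
    (hflags : ∀ (p M B n : ℕ) [Fact p.Prime], n + 2 ≤ p → ∃ c : Flg p M B n, IsFlags c) :
    ∃ K : ℝ, 0 < K ∧ ∀ N₀ : ℕ, ∃ (p m : ℕ) (_ : NeZero p) (V : Type) (_ : AddCommGroup V)
      (_ : Fintype V) (D : V →+ (Fin (n + 3) → Fin m → ZMod p)),
      p.Prime ∧ N₀ ≤ p ∧ Fintype.card V = p ^ m ∧ (p:ℝ) ≤ Real.log (Fintype.card V) ∧
      ∀ (σ : Fin (n + 3) → Fin m → ZMod p) (x : Fin (n + 3) → ℝ),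
        (∀ j, 0 ≤ x j) → (∀ j, x j ≤ 1) →
        |∏ j, x j - (1 / (Fintype.card V : ℝ)) * ∑ ν : V, ii (∀ i,
          ∑ j : Fin m, (((stdPsi p (D ν i j + σ i j) : Fin p) : ℕ) : ℝ) / (p:ℝ) ^ ((j:ℕ) + 1)
            ≤ x i)| ≤
          K / (Fintype.card V : ℝ) * (Real.log (Fintype.card V) /
            Real.log (Real.log (Fintype.card V))) ^ (n + 2) := by
  obtain ⟨Q, C, p₀, hQ, hC, hmain⟩ := net_struct n hcore hflags
  refine ⟨(C + (n + 3)) * ((Q:ℝ) + 1) ^ (n + 2), by positivity, ?_⟩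
  intro N₀
  obtain ⟨p, hpge, hpp⟩ := Nat.exists_infinite_primes (max p₀ (max N₀ 3))
  have hp1 : p₀ ≤ p := (le_max_left _ _).trans hpge
  have hp2 : N₀ ≤ p := ((le_max_left _ _).trans (le_max_right _ _)).trans hpge
  have hp3 : 3 ≤ p := ((le_max_right _ _).trans (le_max_right _ _)).trans hpge
  have hfact : Fact p.Prime := ⟨hpp⟩
  have hne : NeZero p := ⟨hpp.ne_zero⟩
  obtain ⟨V, iV, fV, hV, D, hD⟩ := hmain p hp1
  have hp0 : (0:ℝ) < p := by exact_mod_cast hpp.pos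
  have hVr : (Fintype.card V : ℝ) = (p:ℝ) ^ (p ^ Q) := by rw [hV]; push_cast; ring
  have hNpos : (0:ℝ) < (p:ℝ) ^ (p ^ Q) := by positivity
  have hm1 : (1:ℝ) ≤ (p:ℝ) ^ Q := one_le_pow₀ (by exact_mod_cast hpp.one_lt.le)
  refine ⟨p, p ^ Q, hne, V, iV, fV, D, hpp, hp2, hV, ?_, ?_⟩
  · rw [hVr, Real.log_pow]
    have hL1 : 1 < Real.log p := by
      have hp3' : (3:ℝ) ≤ p := by exact_mod_cast hp3
      rw [Real.lt_log_iff_exp_lt (by linarith)]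
      have := Real.exp_one_lt_d9
      linarith
    have h1 : (p:ℝ) ≤ (p:ℝ) ^ Q := by
      exact_mod_cast Nat.le_self_pow (n := Q) (by omega) p
    push_cast
    nlinarith
  · intro σ x hx0 hx1
    choose x' hx'0 hx'1 hx'd hx'i using fun i => closed_round (p := p) (p ^ Q) (x i) (hx0 i) (hx1 i)
    have h := hD σ x' hx'0 hx'1
    have hpt : ∀ (ν : V) (i : Fin (n + 3)),
        ∑ j : Fin (p ^ Q), (((stdPsi p (D ν i j + σ i j) : Fin p) : ℕ) : ℝ) / (p:ℝ) ^ ((j:ℕ) + 1) =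
        tv (ex (fun j : Fin (p ^ Q) => D ν i j + σ i j)) (p ^ Q) := by
      intro ν i
      rw [tv_eq_sum, Finset.sum_range]
      refine sum_congr rfl fun j _ => ?_
      rw [ex_lt]
      rfl
    have hpt2 : ∀ (ν : V) (i : Fin (n + 3)),
        ∑ j : Fin (p ^ Q), (((D ν i j + σ i j).val : ℕ) : ℝ) / (p:ℝ) ^ ((j:ℕ) + 1) =
        tv (ex (fun j : Fin (p ^ Q) => D ν i j + σ i j)) (p ^ Q) := hpt
    have hsum : ∑ ν : V, ii (∀ i,
          ∑ j : Fin (p ^ Q), (((stdPsi p (D ν i j + σ i j) : Fin p) : ℕ) : ℝ) /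
            (p:ℝ) ^ ((j:ℕ) + 1) ≤ x i) =
        ∑ ν : V, ii (∀ i, ∑ j : Fin (p ^ Q), (((D ν i j + σ i j).val : ℕ) : ℝ) /
          (p:ℝ) ^ ((j:ℕ) + 1) < x' i) := by
      refine sum_congr rfl fun ν _ => ii_congr (forall_congr' fun i => ?_)
      rw [hpt, hpt2, hx'i]
    rw [hsum, hVr]
    set S : ℝ := ∑ ν : V, ii (∀ i, ∑ j : Fin (p ^ Q), (((D ν i j + σ i j).val : ℕ) : ℝ) /
          (p:ℝ) ^ ((j:ℕ) + 1) < x' i) with hS
    have hpr := prod_diff univ x' x (1 / (p:ℝ) ^ (p ^ Q)) hx'0 hx'1 hx0 hx1 hx'd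
    have hcard : ((univ : Finset (Fin (n + 3))).card : ℝ) = n + 3 := by simp
    rw [hcard] at hpr
    have e1 : ∏ j, x j - 1 / (p:ℝ) ^ (p ^ Q) * S =
        1 / (p:ℝ) ^ (p ^ Q) * (-(S - (p:ℝ) ^ (p ^ Q) * ∏ i, x' i) -
          (p:ℝ) ^ (p ^ Q) * (∏ i, x' i - ∏ i, x i)) := by
      field_simp
      ring
    have e2 : |-(S - (p:ℝ) ^ (p ^ Q) * ∏ i, x' i) -
          (p:ℝ) ^ (p ^ Q) * (∏ i, x' i - ∏ i, x i)| ≤ C * ((p:ℝ) ^ Q) ^ (n + 2) + (n + 3) := by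
      have e3 : |(p:ℝ) ^ (p ^ Q) * (∏ i, x' i - ∏ i, x i)| ≤ n + 3 := by
        rw [abs_mul, abs_of_pos hNpos]
        calc (p:ℝ) ^ (p ^ Q) * |∏ i, x' i - ∏ i, x i|
            ≤ (p:ℝ) ^ (p ^ Q) * ((n + 3) * (1 / (p:ℝ) ^ (p ^ Q))) :=
              mul_le_mul_of_nonneg_left hpr hNpos.le
          _ = n + 3 := by field_simp
      rw [abs_le] at h e3 ⊢
      constructor <;> linarith [h.1, h.2, e3.1, e3.2]
    rw [e1, abs_mul, abs_of_pos (by positivity : 0 < 1 / (p:ℝ) ^ (p ^ Q))]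
    have e4 : C * ((p:ℝ) ^ Q) ^ (n + 2) + (n + 3) ≤ (C + (n + 3)) * ((p:ℝ) ^ Q) ^ (n + 2) := by
      have h1 : (1:ℝ) ≤ ((p:ℝ) ^ Q) ^ (n + 2) := one_le_pow₀ hm1
      have h2 : (0:ℝ) ≤ n + 3 := by positivity
      nlinarith
    have e5 : ((p:ℝ) ^ Q) ^ (n + 2) ≤ ((Q:ℝ) + 1) ^ (n + 2) * (Real.log ((p:ℝ) ^ (p ^ Q)) /
      Real.log (Real.log ((p:ℝ) ^ (p ^ Q)))) ^ (n + 2) := by
      rw [← mul_pow]
      exact pow_le_pow_left₀ (by positivity) (log_ratio p Q hp3 (by omega)) _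
    calc 1 / (p:ℝ) ^ (p ^ Q) * |-(S - (p:ℝ) ^ (p ^ Q) * ∏ i, x' i) -
          (p:ℝ) ^ (p ^ Q) * (∏ i, x' i - ∏ i, x i)|
        ≤ 1 / (p:ℝ) ^ (p ^ Q) * ((C + (n + 3)) * (((Q:ℝ) + 1) ^ (n + 2) *
          (Real.log ((p:ℝ) ^ (p ^ Q)) /
            Real.log (Real.log ((p:ℝ) ^ (p ^ Q)))) ^ (n + 2))) := by
          apply mul_le_mul_of_nonneg_left _ (by positivity)
          refine e2.trans (e4.trans ?_)
          exact mul_le_mul_of_nonneg_left e5 (by positivity)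
      _ = _ := by ring

end Pool.Agent.H470D4
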