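import Pool.Agent.H470D4.Star
import Pool.Agent.H470R2.Concat

set_option autoImplicit false
set_option linter.unusedSectionVars false

namespace Pool.Agent.H470D4

open Finset MeasureTheory
open Pool.Agent.H470R2 (num num_congr num_eq_card Sb kk Sb_succ Sb_strictMono kk_spec kk_eq
  interval_of_star)

/-- The star discrepancy of the first `N` terms is at most `E` (in absolute terms). -/
def SB {d : ℕ} (z : ℕ → Fin d → ℝ) (N : ℕ) (E : ℝ) : Prop :=
  ∀ x : Fin d → ℝ, (∀ i, 0 ≤ x i) → (∀ i, x i ≤ 1) →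
    |num N (fun n => ∀ i, z n i < x i) - N * ∏ i, x i| ≤ E

section FiniteSeq

open Classical in
/-- counting on `Fin N` -/
noncomputable def cnt {N : ℕ} (P : Fin N → Prop) : ℝ := ((univ : Finset (Fin N)).filter P).card

lemma cnt_eq {N : ℕ} (P : Fin N → Prop) [DecidablePred P] :
    cnt P = ∑ i, if P i then (1:ℝ) else 0 := by
  unfold cnt
  rw [Finset.sum_boole]
  congr!

lemma cnt_mono {N : ℕ} {P R : Fin N → Prop} (h : ∀ i, P i → R i) : cnt P ≤ cnt R := by
  classical
  unfold cnt
  have : ((univ : Finset (Fin N)).filter P) ⊆ (univ : Finset (Fin N)).filter R := by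
    intro i hi
    rw [Finset.mem_filter] at hi ⊢
    exact ⟨hi.1, h i hi.2⟩
  exact_mod_cast Finset.card_le_card this

lemma cnt_congr {N : ℕ} {P R : Fin N → Prop} (h : ∀ i, P i ↔ R i) : cnt P = cnt R := by
  rw [show P = R from funext fun i => propext (h i)]

lemma cnt_add {N : ℕ} (P R : Fin N → Prop) : cnt P = cnt (fun i => P i ∧ R i) +
    cnt (fun i => P i ∧ ¬ R i) := by
  classical
  rw [cnt_eq, cnt_eq, cnt_eq, ← Finset.sum_add_distrib]
  apply Finset.sum_congr rfl
  intro i _
  by_cases h1 : P i <;> by_cases h2 : R i <;> simp [h1, h2]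

lemma cnt_perm {N : ℕ} (σ : Equiv.Perm (Fin N)) (P : Fin N → Prop) :
    cnt (fun i => P (σ i)) = cnt P := by
  classical
  unfold cnt
  congr 1
  apply Finset.card_bij (fun i _ => σ i)
  · intro i hi
    rw [Finset.mem_filter] at hi ⊢
    exact ⟨Finset.mem_univ _, hi.2⟩
  · intro i _ j _ h
    exact σ.injective h
  · intro j hj
    rw [Finset.mem_filter] at hj
    refine ⟨σ.symm j, ?_, by simp⟩
    rw [Finset.mem_filter]
    exact ⟨Finset.mem_univ _, by simpa using hj.2⟩

lemma cnt_card {N : ℕ} (P : Fin N → Prop) [DecidablePred P] :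
    cnt P = (((univ : Finset (Fin N)).filter P).card : ℝ) := by
  unfold cnt
  congr!

lemma cnt_lt {N M : ℕ} (hM : M ≤ N) : cnt (fun i : Fin N => (i:ℕ) < M) = M := by
  classical
  rw [cnt_card]
  have h : ((univ : Finset (Fin N)).filter (fun i : Fin N => (i:ℕ) < M)).card = M := by
    have h1 : ((univ : Finset (Fin N)).filter (fun i : Fin N => (i:ℕ) < M)).card =
        (range M).card := by
      apply Finset.card_bij (fun (i : Fin N) _ => (i:ℕ))
      · intro i hi
        rw [Finset.mem_filter] at hi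
        exact Finset.mem_range.2 hi.2
      · intro i _ j _ h
        exact Fin.ext h
      · intro m hm
        rw [Finset.mem_range] at hm
        exact ⟨⟨m, by omega⟩, by rw [Finset.mem_filter]; exact ⟨Finset.mem_univ _, hm⟩, rfl⟩
    rw [h1, Finset.card_range]
  exact_mod_cast h

lemma num_eq_cnt {N M : ℕ} (hM : M ≤ N) (P : ℕ → Prop) :
    num M P = cnt (fun i : Fin N => (i:ℕ) < M ∧ P i) := by
  classical
  rw [num_eq_card, cnt_card]
  congr 1
  symm
  apply Finset.card_bij (fun (i : Fin N) _ => (i:ℕ))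
  · intro i hi
    rw [Finset.mem_filter] at hi
    rw [Finset.mem_filter, Finset.mem_range]
    exact hi.2
  · intro i _ j _ h
    exact Fin.ext h
  · intro m hm
    rw [Finset.mem_filter, Finset.mem_range] at hm
    exact ⟨⟨m, by omega⟩, by rw [Finset.mem_filter]; exact ⟨Finset.mem_univ _, hm⟩, rfl⟩

/-- A `(d+1)`-dimensional point set gives a finite `d`-dimensional sequence all of whose initial
segments are well distributed. -/
theorem finite_seq {N d : ℕ} {E : ℝ} (ξ : Fin N → Fin (d+1) → ℝ)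
    (h01 : ∀ i j, 0 ≤ ξ i j ∧ ξ i j < 1)
    (hd : ∀ x : Fin (d+1) → ℝ, (∀ j, 0 ≤ x j) → (∀ j, x j ≤ 1) →
      |(((univ : Finset (Fin N)).filter (fun i => ∀ j, ξ i j < x j)).card : ℝ)
        - N * ∏ j, x j| ≤ E) :
    ∃ z : ℕ → Fin d → ℝ, (∀ n i, z n i ∈ Set.Ico (0:ℝ) 1) ∧ ∀ M ≤ N, SB z M (4 * E + 2) := by
  classical
  have hE : 0 ≤ E := (abs_nonneg _).trans (hd (fun _ => 0) (fun _ => le_rfl) (fun _ => zero_le_one))
  let f₀ : Fin N → ℝ := fun i => ξ i 0
  let σ := Tuple.sort f₀
  have hmono : Monotone (f₀ ∘ σ) := Tuple.monotone_sort f₀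
  let z : ℕ → Fin d → ℝ := fun n j => if h : n < N then ξ (σ ⟨n, h⟩) j.succ else 0
  have hz : ∀ i : Fin N, ∀ j, z i j = ξ (σ i) j.succ := by
    intro i j
    simp only [z]
    rw [dif_pos i.2]
  have key : ∀ (y : ℝ) (x : Fin d → ℝ), 0 ≤ y → y ≤ 1 → (∀ i, 0 ≤ x i) → (∀ i, x i ≤ 1) →
      |cnt (fun i : Fin N => f₀ (σ i) < y ∧ ∀ j, z i j < x j) - N * (y * ∏ j, x j)| ≤ E := by
    intro y x hy0 hy1 hx0 hx1
    have h1 := hd (Fin.cons y x) (by
      intro j
      refine Fin.cases ?_ ?_ j
      · exact hy0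
      · exact hx0) (by
      intro j
      refine Fin.cases ?_ ?_ j
      · exact hy1
      · exact hx1)
    rw [Fin.prod_univ_succ] at h1
    simp only [Fin.cons_zero, Fin.cons_succ] at h1
    have h2 : cnt (fun i : Fin N => f₀ (σ i) < y ∧ ∀ j, z i j < x j) =
        (((univ : Finset (Fin N)).filter (fun i => ∀ j, ξ i j < (Fin.cons y x : Fin (d+1) → ℝ) j)).card : ℝ) := by
      have h3 : cnt (fun i : Fin N => f₀ (σ i) < y ∧ ∀ j, z i j < x j) =
          cnt (fun i : Fin N => (fun i' => ∀ j, ξ i' j < (Fin.cons y x : Fin (d+1) → ℝ) j) (σ i)) := by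
        apply cnt_congr
        intro i
        show (f₀ (σ i) < y ∧ ∀ j, z i j < x j) ↔
          ∀ j : Fin (d+1), ξ (σ i) j < (Fin.cons y x : Fin (d+1) → ℝ) j
        rw [Fin.forall_fin_succ]
        simp only [Fin.cons_zero, Fin.cons_succ, hz]
        exact Iff.rfl
      rw [h3]
      refine (cnt_perm σ (fun i' => ∀ j, ξ i' j < (Fin.cons y x : Fin (d+1) → ℝ) j)).trans ?_
      unfold cnt
      congr!
    rw [h2]
    exact h1
  refine ⟨z, ?_, ?_⟩
  · intro n i
    simp only [z]
    split_ifs with h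
    · exact h01 _ _
    · exact ⟨le_rfl, one_pos⟩
  · intro M hM x hx0 hx1
    have hP0 : 0 ≤ ∏ j, x j := Finset.prod_nonneg fun j _ => hx0 j
    have hP1 : ∏ j, x j ≤ 1 := Finset.prod_le_one (fun j _ => hx0 j) (fun j _ => hx1 j)
    rcases Nat.eq_zero_or_pos M with h0 | h0
    · subst h0
      have : num 0 (fun n => ∀ i, z n i < x i) = 0 := by
        rw [num_eq_card]; simp
      rw [this]
      simp
      linarith
    have hN0 : (0:ℝ) < N := by
      have : 0 < N := by omega
      exact_mod_cast this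
    set P := ∏ j, x j with hP
    let i₀ : Fin N := ⟨M - 1, by omega⟩
    set y := f₀ (σ i₀) with hy
    have hy0 : 0 ≤ y := (h01 _ _).1
    have hy1 : y < 1 := (h01 _ _).2
    have hlt : ∀ i : Fin N, f₀ (σ i) < y → (i:ℕ) < M := by
      intro i hi
      by_contra hcon
      push Not at hcon
      have h1 : i₀ ≤ i := by
        rw [Fin.le_def]
        show M - 1 ≤ (i:ℕ)
        omega
      have h2 := hmono h1
      simp only [Function.comp] at h2
      linarith
    have hle : ∀ i : Fin N, (i:ℕ) < M → f₀ (σ i) ≤ y := by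
      intro i hi
      have h1 : i ≤ i₀ := by
        rw [Fin.le_def]
        show (i:ℕ) ≤ M - 1
        omega
      exact hmono h1
    rw [num_eq_cnt hM]
    -- the comparison set
    have hB := key y x hy0 hy1.le hx0 hx1
    have h1 : cnt (fun i : Fin N => f₀ (σ i) < y ∧ ∀ j, z i j < x j) ≤
        cnt (fun i : Fin N => (i:ℕ) < M ∧ ∀ j, z i j < x j) :=
      cnt_mono fun i hi => ⟨hlt i hi.1, hi.2⟩
    have hone : ∏ _j : Fin d, (1:ℝ) = 1 := by simp
    have hC := key y (fun _ => 1) hy0 hy1.le (fun _ => zero_le_one) (fun _ => le_rfl)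
    rw [hone, mul_one] at hC
    have hC' : cnt (fun i : Fin N => f₀ (σ i) < y ∧ ∀ j, z i j < (fun _ => (1:ℝ)) j) =
        cnt (fun i : Fin N => f₀ (σ i) < y) := by
      apply cnt_congr
      intro i
      constructor
      · exact fun h => h.1
      · intro h
        refine ⟨h, fun j => ?_⟩
        rw [hz]
        exact (h01 _ _).2
    rw [hC'] at hC
    have h2 : cnt (fun i : Fin N => (i:ℕ) < M ∧ ∀ j, z i j < x j) ≤
        cnt (fun i : Fin N => f₀ (σ i) < y ∧ ∀ j, z i j < x j) +
        cnt (fun i : Fin N => (i:ℕ) < M ∧ ¬ f₀ (σ i) < y) := by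
      rw [cnt_add (fun i : Fin N => (i:ℕ) < M ∧ ∀ j, z i j < x j) (fun i => f₀ (σ i) < y)]
      apply add_le_add
      · exact cnt_mono fun i hi => ⟨hi.2, hi.1.2⟩
      · exact cnt_mono fun i hi => ⟨hi.1.1, hi.2⟩
    have h3 : cnt (fun i : Fin N => (i:ℕ) < M ∧ ¬ f₀ (σ i) < y) =
        M - cnt (fun i : Fin N => f₀ (σ i) < y) := by
      have h4 := cnt_add (fun i : Fin N => (i:ℕ) < M) (fun i => f₀ (σ i) < y)
      rw [cnt_lt hM] at h4
      have h5 : cnt (fun i : Fin N => (i:ℕ) < M ∧ f₀ (σ i) < y) =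
          cnt (fun i : Fin N => f₀ (σ i) < y) :=
        cnt_congr fun i => ⟨fun h => h.2, fun h => ⟨hlt i h, h⟩⟩
      rw [h5] at h4
      linarith
    have h6 : cnt (fun i : Fin N => f₀ (σ i) < y) ≤ M := by
      rw [← cnt_lt hM]
      exact cnt_mono fun i hi => hlt i hi
    -- upper bound for `M`
    obtain ⟨y', hy'⟩ : ∃ y' : ℝ, y' = min 1 (y + 1 / N) := ⟨_, rfl⟩
    have hyy' : y < y' := by
      rw [hy']
      apply lt_min hy1
      have : (0:ℝ) < 1 / N := by positivity
      linarith
    have hD := key y' (fun _ => 1) (by linarith) (by rw [hy']; exact min_le_left _ _)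
      (fun _ => zero_le_one) (fun _ => le_rfl)
    rw [hone, mul_one] at hD
    have h7 : (M:ℝ) ≤ cnt (fun i : Fin N => f₀ (σ i) < y' ∧ ∀ j, z i j < (fun _ => (1:ℝ)) j) := by
      rw [← cnt_lt hM]
      apply cnt_mono
      intro i hi
      refine ⟨lt_of_le_of_lt (hle i hi) hyy', fun j => ?_⟩
      rw [hz]
      exact (h01 _ _).2
    have h8 : (N:ℝ) * y' ≤ N * y + 1 := by
      have : y' ≤ y + 1 / N := by rw [hy']; exact min_le_right _ _
      calc (N:ℝ) * y' ≤ N * (y + 1 / N) := mul_le_mul_of_nonneg_left this hN0.le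
        _ = N * y + 1 := by field_simp
    rw [abs_le] at hB hC hD ⊢
    obtain ⟨T, hT⟩ : ∃ T : ℝ, T = M - N * y := ⟨_, rfl⟩
    have hT1 : T ≤ E + 1 := by rw [hT]; linarith [hD.2]
    have hT2 : -E ≤ T := by rw [hT]; linarith [hC.1]
    have hTP1 : T * P ≤ E + 1 := by nlinarith
    have hTP2 : -E ≤ T * P := by nlinarith
    have hTP3 : T - T * P ≤ E + 1 := by nlinarith
    have e1 : (N:ℝ) * (y * P) = M * P - T * P := by rw [hT]; ring
    rw [e1] at hB
    constructor
    · linarith [hB.1]
    · linarith [hB.2, hC.1]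

end FiniteSeq

section Concat

/-- concatenated sequence -/
def catV {d : ℕ} (M : ℕ → ℕ) (Z : ℕ → ℕ → Fin d → ℝ) (n : ℕ) : Fin d → ℝ :=
  Z (kk M n) (n - Sb M (kk M n))

lemma catV_block {d : ℕ} (M : ℕ → ℕ) (hM : ∀ k, 1 ≤ M k) (Z : ℕ → ℕ → Fin d → ℝ) (k n : ℕ)
    (hn : n < M k) : catV M Z (Sb M k + n) = Z k n := by
  have h1 : kk M (Sb M k + n) = k := by
    apply kk_eq M hM (by omega)
    rw [Sb_succ]; omega
  unfold catV
  rw [h1]
  simp

lemma num_add (a b : ℕ) (P : ℕ → Prop) : num (a + b) P = num a P + num b (fun n => P (a + n)) := by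
  classical
  rw [num_eq_card, num_eq_card, num_eq_card]
  have e : ∀ (N : ℕ) (P : ℕ → Prop), (((range N).filter P).card : ℝ) =
      ∑ n ∈ range N, if P n then (1:ℝ) else 0 := by
    intro N P
    rw [← Finset.sum_filter, Finset.sum_const, nsmul_eq_mul, mul_one]
  rw [e, e, e, Finset.sum_range_add]

lemma concat_at {d : ℕ} (M : ℕ → ℕ) (hM : ∀ k, 1 ≤ M k) (Z : ℕ → ℕ → Fin d → ℝ) (B : ℕ → ℝ)
    (hb : ∀ k, ∀ N ≤ M k, SB (Z k) N (B k)) (k : ℕ) :
    ∀ r ≤ M k, SB (catV M Z) (Sb M k + r) (∑ i ∈ range (k+1), B i) := by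
  have hblk : ∀ k, ∀ r ≤ M k, ∀ x : Fin d → ℝ, num r (fun n => ∀ i, catV M Z (Sb M k + n) i < x i) =
      num r (fun n => ∀ i, Z k n i < x i) := by
    intro k r hr x
    apply num_congr
    intro n hn
    rw [catV_block M hM Z k n (by omega)]
  induction k with
  | zero =>
    intro r hr x hx0 hx1
    rw [num_add, hblk 0 r hr x]
    have h1 := hb 0 r hr x hx0 hx1
    have h2 : num (Sb M 0) (fun n => ∀ i, catV M Z n i < x i) = 0 := by
      have : Sb M 0 = 0 := by simp [Sb]
      rw [this, num_eq_card]; simp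
    rw [h2]
    have : Sb M 0 = 0 := by simp [Sb]
    simpa [this] using h1
  | succ k ih =>
    intro r hr x hx0 hx1
    rw [num_add, hblk (k+1) r hr x]
    have h1 := hb (k+1) r hr x hx0 hx1
    have h2 := ih (M k) le_rfl x hx0 hx1
    rw [← Sb_succ] at h2
    rw [Finset.sum_range_succ B (k+1)]
    have e : num (Sb M (k+1)) (fun n => ∀ i, catV M Z n i < x i) +
        num r (fun n => ∀ i, Z (k+1) n i < x i) - ((Sb M (k+1) + r : ℕ) : ℝ) * ∏ i, x i =
        (num (Sb M (k+1)) (fun n => ∀ i, catV M Z n i < x i) - (Sb M (k+1) : ℝ) * ∏ i, x i) +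
        (num r (fun n => ∀ i, Z (k+1) n i < x i) - r * ∏ i, x i) := by
      push_cast; ring
    rw [e]
    exact (abs_add_le _ _).trans (add_le_add h2 h1)

lemma geom_sum (ρ : ℕ → ℝ) (h0 : ∀ k, 0 ≤ ρ k) (h : ∀ k, 3 / 2 * ρ k ≤ ρ (k+1)) (k : ℕ) :
    ∑ i ∈ range (k+1), ρ i ≤ 3 * ρ k := by
  induction k with
  | zero => simp; linarith [h0 0]
  | succ k ih =>
    rw [Finset.sum_range_succ]
    linarith [h k]

/-- A single infinite sequence in each dimension `n + 2`. -/
theorem seq_all (n : ℕ) : ∃ z : ℕ → Fin (n+2) → ℝ, (∀ m i, z m i ∈ Set.Ico (0:ℝ) 1) ∧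
    ∃ C : ℝ, 0 < C ∧ ∀ N : ℕ, 3 ≤ N →
      SB z N (C * (Real.log N / Real.log (Real.log N)) ^ (n+2)) := by
  obtain ⟨C, hC, hstar⟩ := star_all n
  have hl2 : (1:ℝ)/2 ≤ Real.log 2 := by
    have := Real.log_two_gt_d9
    linarith
  have hl2' : Real.log 2 ≤ 1 := by
    have := Real.log_two_lt_d9
    linarith
  have hl2pos : 0 < Real.log 2 := by linarith
  have hll2 : -Real.log 2 ≤ Real.log (Real.log 2) := by
    have : Real.log ((1:ℝ)/2) ≤ Real.log (Real.log 2) := Real.log_le_log (by norm_num) hl2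
    rw [one_div, Real.log_inv] at this
    exact this
  set L : ℕ → ℝ := fun k => (2:ℝ) ^ (k + 4) * Real.log 2 with hL
  have hLpos : ∀ k, 0 < L k := fun k => by positivity
  have hL8 : ∀ k, 8 ≤ L k := by
    intro k
    simp only [hL]
    have h1 : (16:ℝ) ≤ 2 ^ (k + 4) := by
      calc (16:ℝ) = 2 ^ 4 := by norm_num
        _ ≤ 2 ^ (k + 4) := pow_le_pow_right₀ (by norm_num) (by omega)
    nlinarith
  have hlogL : ∀ k, Real.log (L k) = ((k + 4 : ℕ) : ℝ) * Real.log 2 + Real.log (Real.log 2) := by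
    intro k
    simp only [hL]
    rw [Real.log_mul (by positivity) hl2pos.ne', Real.log_pow]
  have hlogL3 : ∀ k, 3 * Real.log 2 ≤ Real.log (L k) := by
    intro k
    rw [hlogL]
    push_cast
    have : (0:ℝ) ≤ k := Nat.cast_nonneg _
    nlinarith
  have hlogpos : ∀ k, 0 < Real.log (L k) := fun k => by
    have := hlogL3 k
    linarith
  have hLs : ∀ k, L (k+1) = 2 * L k := by
    intro k
    simp only [hL]
    rw [show k + 1 + 4 = (k + 4) + 1 by ring, pow_succ]
    ring
  have hlogLs : ∀ k, Real.log (L (k+1)) = Real.log (L k) + Real.log 2 := by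
    intro k
    rw [hLs, Real.log_mul (by norm_num) (hLpos k).ne']
    ring
  set ρ : ℕ → ℝ := fun k => L k / Real.log (L k) with hρ
  have hρ1 : ∀ k, 1 ≤ ρ k := by
    intro k
    simp only [hρ]
    rw [one_le_div (hlogpos k)]
    have := Real.log_le_sub_one_of_pos (hLpos k)
    linarith
  have hρ0 : ∀ k, 0 < ρ k := fun k => by linarith [hρ1 k]
  have hρup : ∀ k, 3 / 2 * ρ k ≤ ρ (k+1) := by
    intro k
    simp only [hρ]
    rw [hlogLs, hLs, ← mul_div_assoc, div_le_div_iff₀ (hlogpos k) (by linarith [hlogpos k])]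
    have h1 := hlogL3 k
    have h2 := hLpos k
    nlinarith
  have hρdn : ∀ k, ρ (k+1) ≤ 2 * ρ k := by
    intro k
    simp only [hρ]
    rw [hlogLs, hLs, ← mul_div_assoc]
    apply div_le_div_of_nonneg_left (by linarith [hLpos k]) (hlogpos k) (by linarith)
  -- the blocks
  set M : ℕ → ℕ := fun k => 2 ^ (2 ^ (k + 4)) with hM
  have hM1 : ∀ k, 1 ≤ M k := fun k => Nat.one_le_two_pow
  have hM3 : ∀ k, 3 ≤ M k := by
    intro k
    have h1 : 2 ≤ 2 ^ (k + 4) := by
      calc 2 = 2 ^ 1 := by norm_num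
        _ ≤ 2 ^ (k + 4) := Nat.pow_le_pow_right (by norm_num) (by omega)
    calc 3 ≤ 2 ^ 2 := by norm_num
      _ ≤ M k := Nat.pow_le_pow_right (by norm_num) h1
  have hMlog : ∀ k, Real.log (M k : ℕ) = L k := by
    intro k
    simp only [hM, hL]
    push_cast
    rw [Real.log_pow]
    push_cast
    ring
  have hblock : ∀ k, ∃ z : ℕ → Fin (n+2) → ℝ, (∀ m i, z m i ∈ Set.Ico (0:ℝ) 1) ∧
      ∀ N ≤ M k, SB z N ((4 * C + 2) * ρ k ^ (n+2)) := by
    intro k
    obtain ⟨ξ, h1, h2⟩ := hstar (M k) (hM3 k)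
    rw [hMlog] at h2
    obtain ⟨z, h3, h4⟩ := finite_seq ξ h1 h2
    refine ⟨z, h3, fun N hN x hx0 hx1 => (h4 N hN x hx0 hx1).trans ?_⟩
    have h5 : (1:ℝ) ≤ ρ k ^ (n+2) := one_le_pow₀ (hρ1 k)
    have e : (L k / Real.log (L k)) ^ (n+2) = ρ k ^ (n+2) := rfl
    rw [e]
    nlinarith
  choose Z hZ hb using hblock
  have hcat := concat_at M hM1 Z _ hb
  have hsum : ∀ k, ∑ i ∈ range (k+1), (4 * C + 2) * ρ i ^ (n+2) ≤
      (4 * C + 2) * (3 * ρ k ^ (n+2)) := by
    intro k
    rw [← Finset.mul_sum]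
    apply mul_le_mul_of_nonneg_left _ (by linarith)
    apply geom_sum (fun i => ρ i ^ (n+2)) (fun i => by have := hρ0 i; positivity)
    intro i
    have h1 := hρup i
    have h2 := hρ0 i
    calc 3 / 2 * ρ i ^ (n+2) ≤ (3 / 2) ^ (n+2) * ρ i ^ (n+2) := by
          apply mul_le_mul_of_nonneg_right _ (by positivity)
          calc (3:ℝ) / 2 = (3 / 2) ^ 1 := (pow_one _).symm
            _ ≤ (3 / 2) ^ (n+2) := pow_le_pow_right₀ (by norm_num) (by omega)
      _ = (3 / 2 * ρ i) ^ (n+2) := (mul_pow _ _ _).symm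
      _ ≤ ρ (i+1) ^ (n+2) := pow_le_pow_left₀ (by positivity) h1 _
  refine ⟨catV M Z, fun m i => hZ _ _ _, (4 * C + 2) * (3 * 2 ^ (n+2)) + M 0, by positivity, ?_⟩
  intro N hN x hx0 hx1
  have hone := one_le_ratio hN
  obtain ⟨R, hR⟩ : ∃ R : ℝ, R = Real.log N / Real.log (Real.log N) := ⟨_, rfl⟩
  rw [← hR] at hone ⊢
  have hRp : 1 ≤ R ^ (n+2) := one_le_pow₀ hone
  have hM0 : (0:ℝ) ≤ (M 0 : ℝ) := Nat.cast_nonneg _
  have hP0 : 0 ≤ ∏ j, x j := Finset.prod_nonneg fun j _ => hx0 j
  have hP1 : ∏ j, x j ≤ 1 := Finset.prod_le_one (fun j _ => hx0 j) (fun j _ => hx1 j)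
  obtain ⟨hk1, hk2⟩ := kk_spec M hM1 N
  set k := kk M N with hk
  rcases Nat.eq_zero_or_pos k with hk0 | hkpos
  · -- small `N`
    rw [hk0, Sb_succ] at hk2
    have hNM : N ≤ M 0 := by
      have : Sb M 0 = 0 := by simp [Sb]
      omega
    have hNM' : (N:ℝ) ≤ M 0 := by exact_mod_cast hNM
    have h3 := H470R2.num_le N (fun n => ∀ i, catV M Z n i < x i)
    have h4 := H470R2.num_nonneg N (fun n => ∀ i, catV M Z n i < x i)
    have hN0 : (0:ℝ) ≤ N := Nat.cast_nonneg _
    have h5 : (N:ℝ) * ∏ j, x j ≤ N := mul_le_of_le_one_right hN0 hP1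
    have h6 : 0 ≤ (N:ℝ) * ∏ j, x j := by positivity
    have h7 : (N:ℝ) ≤ ((4 * C + 2) * (3 * 2 ^ (n+2)) + M 0) * R ^ (n+2) := by
      have h8 : 0 ≤ (4 * C + 2) * (3 * (2:ℝ) ^ (n+2)) := by positivity
      nlinarith
    rw [abs_le]
    constructor <;> linarith
  · obtain ⟨k', hk'⟩ : ∃ k', k = k' + 1 := ⟨k - 1, by omega⟩
    rw [hk'] at hk1 hk2
    have hr : N - Sb M (k'+1) ≤ M (k'+1) := by
      rw [Sb_succ M (k'+1)] at hk2
      omega
    have h1 := hcat (k'+1) (N - Sb M (k'+1)) hr x hx0 hx1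
    rw [show Sb M (k'+1) + (N - Sb M (k'+1)) = N by omega] at h1
    refine h1.trans ?_
    refine (hsum (k'+1)).trans ?_
    have hMN : M k' ≤ N := by
      have : M k' ≤ Sb M (k'+1) := by rw [Sb_succ]; omega
      omega
    have hLN : Real.log (M k' : ℕ) ≤ Real.log N :=
      Real.log_le_log (by exact_mod_cast (by have := hM1 k'; omega : 0 < M k'))
        (by exact_mod_cast hMN)
    have hLe : Real.exp 1 ≤ Real.log (M k' : ℕ) := by
      rw [hMlog]
      have := hL8 k'
      have := Real.exp_one_lt_d9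
      linarith
    have h2 := ratio_mono hLe hLN
    rw [hMlog, ← hR] at h2
    have h3 : ρ (k'+1) ≤ 2 * R := by
      have := hρdn k'
      have e : ρ k' = L k' / Real.log (L k') := rfl
      rw [← e] at h2
      linarith
    have h4 : ρ (k'+1) ^ (n+2) ≤ 2 ^ (n+2) * R ^ (n+2) := by
      rw [← mul_pow]
      exact pow_le_pow_left₀ (hρ0 _).le h3 _
    calc (4 * C + 2) * (3 * ρ (k'+1) ^ (n+2)) ≤ (4 * C + 2) * (3 * (2 ^ (n+2) * R ^ (n+2))) := by
          gcongr
      _ = (4 * C + 2) * (3 * 2 ^ (n+2)) * R ^ (n+2) := by ring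
      _ ≤ _ := by
          apply mul_le_mul_of_nonneg_right _ (by positivity)
          linarith

end Concat

section Boxes

/-- From anchored half-open boxes to arbitrary boxes. -/
theorem box_of_star {d N : ℕ} {z : ℕ → Fin d → ℝ} (hz : ∀ n i, z n i ∈ Set.Ico (0:ℝ) 1) {E : ℝ}
    (h : SB z N E) (I : Fin d → Set ℝ) (hI : ∀ i, (I i).OrdConnected ∧ I i ⊆ Set.Ico 0 1) :
    |num N (fun n => ∀ i, z n i ∈ I i) - N * ∏ i, (volume (I i)).toReal| ≤ 2 ^ d * E := by
  classical
  have key : ∀ s : Finset (Fin d), ∀ x : Fin d → ℝ, (∀ i, 0 ≤ x i) → (∀ i, x i ≤ 1) →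
      |num N (fun n => ∀ i, if i ∈ s then z n i ∈ I i else z n i < x i) -
        N * ∏ i, (if i ∈ s then (volume (I i)).toReal else x i)| ≤ 2 ^ s.card * E := by
    intro s
    induction s using Finset.induction_on with
    | empty =>
      intro x hx0 hx1
      simpa using h x hx0 hx1
    | insert a s ha ih =>
      intro x hx0 hx1
      rw [Finset.card_insert_of_notMem ha, pow_succ, mul_comm ((2:ℝ) ^ s.card) 2, mul_assoc]
      have h1 := interval_of_star (M := N) (Z := fun n => z n a)
        (Q := fun n => ∀ i, i ≠ a → if i ∈ s then z n i ∈ I i else z n i < x i)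
        (c := N * ∏ i ∈ univ.erase a, (if i ∈ s then (volume (I i)).toReal else x i))
        (B := 2 ^ s.card * E) (fun n _ => (hz n a).2) (by
          intro y hy0 hy1
          have h2 := ih (Function.update x a y) (by
            intro i
            by_cases e : i = a
            · subst e; simpa using hy0
            · rw [Function.update_of_ne e]; exact hx0 i) (by
            intro i
            by_cases e : i = a
            · subst e; simpa using hy1
            · rw [Function.update_of_ne e]; exact hx1 i)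
          rw [← Finset.mul_prod_erase univ _ (Finset.mem_univ a), if_neg ha,
            Function.update_self] at h2
          have e1 : ∏ i ∈ univ.erase a, (if i ∈ s then (volume (I i)).toReal else
              Function.update x a y i) =
              ∏ i ∈ univ.erase a, (if i ∈ s then (volume (I i)).toReal else x i) := by
            apply Finset.prod_congr rfl
            intro i hi
            rw [Function.update_of_ne (Finset.ne_of_mem_erase hi)]
          rw [e1] at h2
          have e2 : num N (fun n => z n a < y ∧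
              ∀ i, i ≠ a → if i ∈ s then z n i ∈ I i else z n i < x i) =
              num N (fun n => ∀ i, if i ∈ s then z n i ∈ I i else
                z n i < Function.update x a y i) := by
            apply num_congr
            intro n _
            constructor
            · rintro ⟨h3, h4⟩ i
              by_cases e : i = a
              · subst e
                rw [if_neg ha, Function.update_self]; exact h3
              · rw [Function.update_of_ne e]; exact h4 i e
            · intro h3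
              refine ⟨?_, fun i e => ?_⟩
              · have := h3 a
                rwa [if_neg ha, Function.update_self] at this
              · have := h3 i
                rwa [Function.update_of_ne e] at this
          rw [e2]
          have e3 : y * (N * ∏ i ∈ univ.erase a, (if i ∈ s then (volume (I i)).toReal else x i)) =
              N * (y * ∏ i ∈ univ.erase a, (if i ∈ s then (volume (I i)).toReal else x i)) := by
            ring
          rw [e3]
          exact h2) (I a) (hI a).1 (hI a).2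
      have e4 : num N (fun n => ∀ i, if i ∈ insert a s then z n i ∈ I i else z n i < x i) =
          num N (fun n => z n a ∈ I a ∧
            ∀ i, i ≠ a → if i ∈ s then z n i ∈ I i else z n i < x i) := by
        apply num_congr
        intro n _
        constructor
        · intro h3
          refine ⟨?_, fun i e => ?_⟩
          · have := h3 a
            rwa [if_pos (Finset.mem_insert_self a s)] at this
          · have h5 := h3 i
            by_cases hi : i ∈ s
            · rw [if_pos (Finset.mem_insert_of_mem hi)] at h5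
              rw [if_pos hi]; exact h5
            · rw [if_neg (by simp [e, hi])] at h5
              rw [if_neg hi]; exact h5
        · rintro ⟨h3, h4⟩ i
          by_cases e : i = a
          · subst e
            rw [if_pos (Finset.mem_insert_self i s)]; exact h3
          · have h5 := h4 i e
            by_cases hi : i ∈ s
            · rw [if_pos (Finset.mem_insert_of_mem hi)]
              rw [if_pos hi] at h5; exact h5
            · rw [if_neg (by simp [e, hi])]
              rw [if_neg hi] at h5; exact h5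
      have e5 : ∏ i, (if i ∈ insert a s then (volume (I i)).toReal else x i) =
          (volume (I a)).toReal * ∏ i ∈ univ.erase a,
            (if i ∈ s then (volume (I i)).toReal else x i) := by
        rw [← Finset.mul_prod_erase univ _ (Finset.mem_univ a),
          if_pos (Finset.mem_insert_self a s)]
        congr 1
        apply Finset.prod_congr rfl
        intro i hi
        have e := Finset.ne_of_mem_erase hi
        by_cases hi : i ∈ s
        · rw [if_pos (Finset.mem_insert_of_mem hi), if_pos hi]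
        · rw [if_neg (by simp [e, hi]), if_neg hi]
      rw [e4, e5]
      have e6 : (N:ℝ) * ((volume (I a)).toReal * ∏ i ∈ univ.erase a,
            (if i ∈ s then (volume (I i)).toReal else x i)) =
          (volume (I a)).toReal * (N * ∏ i ∈ univ.erase a,
            (if i ∈ s then (volume (I i)).toReal else x i)) := by ring
      rw [e6]
      exact h1
  have h1 := key univ (fun _ => 0) (fun _ => le_rfl) (fun _ => zero_le_one)
  simpa using h1

end Boxes

end Pool.Agent.H470D4
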