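import Pool.Agent.H470D4.NetMain
import Pool.Agent.H470D4.Order

set_option autoImplicit false
set_option linter.unusedSectionVars false

namespace Pool.Agent.H470D4

open Finset

/-- A sub-point-set with a prescribed number of points. -/
theorem subnet {S N k : ℕ} (hN : N ≤ S) (hN0 : 0 < N) {E : ℝ} (hE : 0 ≤ E)
    (ξ : Fin S → Fin (k+1) → ℝ) (h01 : ∀ i j, 0 ≤ ξ i j ∧ ξ i j < 1)
    (hd : ∀ x : Fin (k+1) → ℝ, (∀ j, 0 ≤ x j) → (∀ j, x j ≤ 1) →
      |(((univ : Finset (Fin S)).filter (fun i => ∀ j, ξ i j < x j)).card : ℝ)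
        - S * ∏ j, x j| ≤ E) :
    ∃ ζ : Fin N → Fin (k+1) → ℝ, (∀ i j, 0 ≤ ζ i j ∧ ζ i j < 1) ∧
      ∀ x : Fin (k+1) → ℝ, (∀ j, 0 ≤ x j) → (∀ j, x j ≤ 1) →
      |(((univ : Finset (Fin N)).filter (fun i => ∀ j, ζ i j < x j)).card : ℝ)
        - N * ∏ j, x j| ≤ 4 * E := by
  classical
  have hS0 : (0:ℝ) < S := by
    have : 0 < S := by omega
    exact_mod_cast this
  have hNr : (0:ℝ) < N := by exact_mod_cast hN0
  have hNS : (N:ℝ) ≤ S := by exact_mod_cast hN
  obtain ⟨Y, hY⟩ : ∃ Y : ℝ, Y = min 1 ((N + E) / S) := ⟨_, rfl⟩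
  have hY0 : 0 < Y := by rw [hY]; exact lt_min one_pos (by positivity)
  have hY1 : Y ≤ 1 := by rw [hY]; exact min_le_left _ _
  have hSY1 : S * Y ≤ N + E := by
    rw [hY]
    calc (S:ℝ) * min 1 ((N + E) / S) ≤ S * ((N + E) / S) :=
          mul_le_mul_of_nonneg_left (min_le_right _ _) hS0.le
      _ = N + E := by field_simp
  -- the threshold set
  let x₀ : Fin (k+1) → ℝ := Function.update (fun _ => (1:ℝ)) 0 Y
  have hx₀ : ∀ j, 0 ≤ x₀ j := by
    intro j
    simp only [x₀, Function.update_apply]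
    split_ifs <;> linarith
  have hx₀' : ∀ j, x₀ j ≤ 1 := by
    intro j
    simp only [x₀, Function.update_apply]
    split_ifs <;> linarith
  have hprod₀ : ∏ j, x₀ j = Y := by
    simp only [x₀]
    rw [Finset.prod_update_of_mem (Finset.mem_univ _)]
    simp
  set G := (univ : Finset (Fin S)).filter (fun i => ∀ j, ξ i j < x₀ j) with hG
  have hGd := hd x₀ hx₀ hx₀'
  rw [hprod₀] at hGd
  have hGu : (G.card : ℝ) ≤ N + 2 * E := by
    have := (abs_le.1 hGd).2
    linarith
  have hSY2 : (N:ℝ) ≤ S * Y := by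
    rw [hY]
    rcases le_total 1 ((N + E) / S) with h | h
    · rw [min_eq_left h, mul_one]; exact hNS
    · rw [min_eq_right h]
      have : (S:ℝ) * ((N + E) / S) = N + E := by field_simp
      rw [this]; linarith
  have hGl : N ≤ G.card := by
    rcases le_total 1 ((N + E) / S) with h | h
    · have hY' : Y = 1 := by rw [hY, min_eq_left h]
      have : G = univ := by
        rw [hG, Finset.filter_true_of_mem]
        intro i _ j
        simp only [x₀, Function.update_apply]
        split_ifs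
        · rw [hY']; exact (h01 i j).2
        · exact (h01 i j).2
      rw [this, Finset.card_univ, Fintype.card_fin]
      exact hN
    · have hY' : (S:ℝ) * Y = N + E := by
        rw [hY, min_eq_right h]; field_simp
      have := (abs_le.1 hGd).1
      have h2 : (N:ℝ) ≤ G.card := by linarith
      exact_mod_cast h2
  obtain ⟨A, hAG, hAN⟩ := Finset.exists_subset_card_eq hGl
  let e := A.equivFinOfCardEq hAN
  let η : Fin S → Fin (k+1) → ℝ := fun i => Function.update (ξ i) 0 (ξ i 0 / Y)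
  refine ⟨fun i => η (e.symm i), ?_, ?_⟩
  · intro i j
    have hmem : (e.symm i : Fin S) ∈ G := hAG (e.symm i).2
    rw [hG, Finset.mem_filter] at hmem
    have h0 := hmem.2 0
    simp only [x₀, Function.update_self] at h0
    simp only [η, Function.update_apply]
    split_ifs with hj
    · exact ⟨div_nonneg (h01 _ _).1 hY0.le, by rw [div_lt_one hY0]; exact h0⟩
    · exact h01 _ _
  · intro x hx hx'
    let x₁ : Fin (k+1) → ℝ := Function.update x 0 (Y * x 0)
    have hx₁ : ∀ j, 0 ≤ x₁ j := by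
      intro j
      simp only [x₁, Function.update_apply]
      split_ifs
      · exact mul_nonneg hY0.le (hx 0)
      · exact hx j
    have hx₁' : ∀ j, x₁ j ≤ 1 := by
      intro j
      simp only [x₁, Function.update_apply]
      split_ifs
      · exact mul_le_one₀ hY1 (hx 0) (hx' 0)
      · exact hx' j
    have hprod₁ : ∏ j, x₁ j = Y * ∏ j, x j := by
      simp only [x₁]
      rw [Finset.prod_update_of_mem (Finset.mem_univ _),
        ← Finset.mul_prod_erase univ x (Finset.mem_univ 0), Finset.sdiff_singleton_eq_erase]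
      ring
    have hiff : ∀ i, (∀ j, η i j < x j) ↔ ∀ j, ξ i j < x₁ j := by
      intro i
      apply forall_congr'
      intro j
      simp only [η, x₁, Function.update_apply]
      split_ifs
      · subst_vars
        rw [div_lt_iff₀ hY0, mul_comm]
      · exact Iff.rfl
    set Bx := (univ : Finset (Fin S)).filter (fun i => ∀ j, ξ i j < x₁ j) with hBx
    have hcount : ((univ : Finset (Fin N)).filter (fun i => ∀ j, η (e.symm i) j < x j)).card =
        (Bx ∩ A).card := by
      apply Finset.card_bij (fun (i : Fin N) _ => (e.symm i : Fin S))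
      · intro i hi
        rw [Finset.mem_filter] at hi
        rw [Finset.mem_inter, hBx, Finset.mem_filter]
        exact ⟨⟨Finset.mem_univ _, (hiff _).1 hi.2⟩, (e.symm i).2⟩
      · intro i _ i' _ h
        exact e.symm.injective (Subtype.ext h)
      · intro s hs
        rw [Finset.mem_inter, hBx, Finset.mem_filter] at hs
        refine ⟨e ⟨s, hs.2⟩, ?_, ?_⟩
        · rw [Finset.mem_filter]
          refine ⟨Finset.mem_univ _, ?_⟩
          rw [Equiv.symm_apply_apply]
          exact (hiff s).2 hs.1.2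
        · rw [Equiv.symm_apply_apply]
    have hBG : Bx ⊆ G := by
      intro i hi
      rw [hBx, Finset.mem_filter] at hi
      rw [hG, Finset.mem_filter]
      refine ⟨Finset.mem_univ _, fun j => ?_⟩
      have h1 := hi.2 j
      simp only [x₁, Function.update_apply] at h1
      simp only [x₀, Function.update_apply]
      split_ifs at h1 ⊢
      · exact lt_of_lt_of_le h1 (mul_le_of_le_one_right hY0.le (hx' 0))
      · exact (h01 i j).2
    have hdiff : (Bx.card : ℝ) ≤ (Bx ∩ A).card + 2 * E := by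
      have h1 : Bx.card ≤ (Bx ∩ A).card + (G \ A).card := by
        have h2 := Finset.card_sdiff_add_card_inter Bx A
        have := Finset.card_le_card (Finset.sdiff_subset_sdiff hBG (Finset.Subset.refl A))
        omega
      have h3 : (G \ A).card + N = G.card := by
        rw [Finset.card_sdiff_of_subset hAG, hAN]
        omega
      have h4 : ((G \ A).card : ℝ) + N = G.card := by exact_mod_cast h3
      have h5 : (Bx.card : ℝ) ≤ (Bx ∩ A).card + (G \ A).card := by exact_mod_cast h1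
      linarith
    have hle : ((Bx ∩ A).card : ℝ) ≤ Bx.card := by
      exact_mod_cast Finset.card_le_card Finset.inter_subset_left
    have hBd := hd x₁ hx₁ hx₁'
    rw [hprod₁, ← hBx] at hBd
    rw [hcount]
    have hp0 : 0 ≤ ∏ j, x j := Finset.prod_nonneg fun j _ => hx j
    have hp1 : ∏ j, x j ≤ 1 := Finset.prod_le_one (fun j _ => hx j) (fun j _ => hx' j)
    have h6 : (S:ℝ) * (Y * ∏ j, x j) - N * ∏ j, x j = (S * Y - N) * ∏ j, x j := by ring
    have h7 : 0 ≤ (S * Y - N) * ∏ j, x j := mul_nonneg (by linarith) hp0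
    have h8 : (S * Y - N) * ∏ j, x j ≤ E := by
      calc (S * Y - N) * ∏ j, x j ≤ E * 1 := by
            apply mul_le_mul (by linarith) hp1 hp0 hE
        _ = E := mul_one E
    rw [abs_le] at hBd ⊢
    constructor <;> linarith [hBd.1, hBd.2]

lemma one_le_ratio {N : ℕ} (hN : 3 ≤ N) : 1 ≤ Real.log N / Real.log (Real.log N) := by
  have h3 : (3:ℝ) ≤ N := by exact_mod_cast hN
  have h1 : 1 < Real.log N := by
    rw [Real.lt_log_iff_exp_lt (by linarith)]
    have := Real.exp_one_lt_d9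
    linarith
  have h2 : 0 < Real.log (Real.log N) := Real.log_pos h1
  rw [le_div_iff₀ h2, one_mul]
  have := Real.log_le_sub_one_of_pos (by linarith : 0 < Real.log N)
  linarith

lemma ratio_mono {U N : ℝ} (hU : Real.exp 1 ≤ Real.log U) (hUN : Real.log U ≤ Real.log N) :
    Real.log U / Real.log (Real.log U) ≤ Real.log N / Real.log (Real.log N) := by
  have he : (1:ℝ) < Real.exp 1 := by
    have := Real.exp_one_gt_d9
    linarith
  have h1 : 0 < Real.log (Real.log U) := Real.log_pos (by linarith)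
  have h2 : 0 < Real.log (Real.log N) := Real.log_pos (by linarith)
  have h3 := Real.log_div_self_antitoneOn (show Real.log U ∈ {x | Real.exp 1 ≤ x} from hU)
    (show Real.log N ∈ {x | Real.exp 1 ≤ x} from hU.trans hUN) hUN
  simp only at h3
  have h4 : 0 < Real.log U := by linarith
  have h5 : 0 < Real.log N := by linarith
  rw [div_le_div_iff₀ h5 h4] at h3
  rw [div_le_div_iff₀ h1 h2]
  linarith

/-- Star discrepancy bound for every number of points (half open boxes). -/
theorem star_all (n : ℕ) : ∃ C : ℝ, 0 < C ∧ ∀ N : ℕ, 3 ≤ N →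
    ∃ ξ : Fin N → Fin (n + 3) → ℝ, (∀ i j, 0 ≤ ξ i j ∧ ξ i j < 1) ∧
      ∀ x : Fin (n + 3) → ℝ, (∀ j, 0 ≤ x j) → (∀ j, x j ≤ 1) →
      |(((univ : Finset (Fin N)).filter (fun i => ∀ j, ξ i j < x j)).card : ℝ)
        - N * ∏ j, x j| ≤ C * (Real.log N / Real.log (Real.log N)) ^ (n + 2) := by
  classical
  obtain ⟨Q, C, p₀, hQ, hC, hnet⟩ := net_main n
  obtain ⟨K₀, hK₀⟩ : ∃ K₀, K₀ = max p₀ 4 := ⟨_, rfl⟩
  obtain ⟨N₀, hN₀⟩ : ∃ N₀, N₀ = K₀ ^ (K₀ ^ Q) := ⟨_, rfl⟩
  refine ⟨N₀ + 4 * (C * (4 ^ Q * (Q + 1)) ^ (n + 2)), by positivity, ?_⟩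
  intro N hN
  have hone := one_le_ratio hN
  obtain ⟨L, hL⟩ : ∃ L : ℝ, L = Real.log N / Real.log (Real.log N) := ⟨_, rfl⟩
  rw [← hL] at hone ⊢
  have hLp : 1 ≤ L ^ (n+2) := one_le_pow₀ hone
  rcases Nat.lt_or_ge N₀ N with hbig | hsmall
  · -- large `N`
    have hex : ∃ k : ℕ, N ≤ k ^ (k ^ Q) := by
      refine ⟨N, ?_⟩
      calc N = N ^ 1 := (pow_one N).symm
        _ ≤ N ^ (N ^ Q) := Nat.pow_le_pow_right (by omega) (Nat.one_le_pow _ _ (by omega))
    have hk := Nat.find_spec hex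
    set k := Nat.find hex with hkd
    have hmin : ∀ u < k, u ^ (u ^ Q) < N := fun u hu => by
      have := Nat.find_min hex hu
      omega
    have hkK : K₀ < k := by
      by_contra h
      push Not at h
      have h1 : k ^ (k ^ Q) ≤ K₀ ^ (K₀ ^ Q) := by
        rcases Nat.eq_zero_or_pos k with h0 | h0
        · rw [h0] at hk
          have h0Q : (0:ℕ) ^ Q = 0 := Nat.zero_pow (by omega)
          rw [h0Q, pow_zero] at hk
          omega
        · calc k ^ (k ^ Q) ≤ K₀ ^ (k ^ Q) := Nat.pow_le_pow_left h _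
            _ ≤ K₀ ^ (K₀ ^ Q) := Nat.pow_le_pow_right (by omega) (Nat.pow_le_pow_left h _)
      omega
    have hK4 : 4 ≤ K₀ := by rw [hK₀]; exact le_max_right _ _
    have hKp : p₀ ≤ K₀ := by rw [hK₀]; exact le_max_left _ _
    obtain ⟨p, hp, hkp, hp2⟩ := Nat.exists_prime_lt_and_le_two_mul k (by omega)
    obtain ⟨ξ, hξ01, hξ⟩ := hnet p hp (by omega)
    have hNS : N ≤ p ^ (p ^ Q) := by
      refine hk.trans ?_
      calc k ^ (k ^ Q) ≤ p ^ (k ^ Q) := Nat.pow_le_pow_left hkp.le _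
        _ ≤ p ^ (p ^ Q) := Nat.pow_le_pow_right (by omega) (Nat.pow_le_pow_left hkp.le _)
    obtain ⟨ζ, hζ01, hζ⟩ := subnet (E := C * ((p:ℝ) ^ Q) ^ (n+2)) hNS (by omega) (by positivity)
      ξ hξ01 (by
        intro x hx hx'
        have := hξ x hx hx'
        push_cast
        exact this)
    refine ⟨ζ, hζ01, fun x hx hx' => (hζ x hx hx').trans ?_⟩
    -- comparison of `p ^ Q` with `L`
    obtain ⟨u, hu⟩ : ∃ u, k = u + 1 := ⟨k - 1, by omega⟩
    have hu4 : 4 ≤ u := by omega
    have hUN : u ^ (u ^ Q) < N := hmin u (by omega)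
    have h1 := log_ratio u Q (by omega) hQ
    have hur : (4:ℝ) ≤ u := by exact_mod_cast hu4
    have hlogu : 1 < Real.log u := by
      rw [Real.lt_log_iff_exp_lt (by linarith)]
      have := Real.exp_one_lt_d9
      linarith
    have hUNr : ((u:ℝ) ^ (u ^ Q)) ≤ N := by exact_mod_cast hUN.le
    have h2 : Real.log ((u:ℝ) ^ (u ^ Q)) ≤ Real.log N :=
      Real.log_le_log (by positivity) hUNr
    have h3 : Real.exp 1 ≤ Real.log ((u:ℝ) ^ (u ^ Q)) := by
      rw [Real.log_pow]
      have h4 : (4:ℝ) ≤ ((u ^ Q : ℕ) : ℝ) := by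
        have : 4 ≤ u ^ Q := by
          calc 4 ≤ u := hu4
            _ = u ^ 1 := (pow_one u).symm
            _ ≤ u ^ Q := Nat.pow_le_pow_right (by omega) hQ
        exact_mod_cast this
      have := Real.exp_one_lt_d9
      nlinarith
    have h5 := ratio_mono h3 h2
    rw [← hL] at h5
    have hpQ : (p:ℝ) ^ Q ≤ 4 ^ Q * (Q + 1) * L := by
      have h6 : (p:ℝ) ≤ 4 * u := by
        have : p ≤ 4 * u := by omega
        exact_mod_cast this
      calc (p:ℝ) ^ Q ≤ (4 * u) ^ Q := pow_le_pow_left₀ (by positivity) h6 Q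
        _ = 4 ^ Q * (u:ℝ) ^ Q := mul_pow _ _ _
        _ ≤ 4 ^ Q * (((Q:ℝ) + 1) * (Real.log ((u:ℝ) ^ (u ^ Q)) /
              Real.log (Real.log ((u:ℝ) ^ (u ^ Q))))) := mul_le_mul_of_nonneg_left h1 (by positivity)
        _ ≤ 4 ^ Q * (((Q:ℝ) + 1) * L) := by
            apply mul_le_mul_of_nonneg_left _ (by positivity)
            exact mul_le_mul_of_nonneg_left h5 (by positivity)
        _ = _ := by ring
    calc 4 * (C * ((p:ℝ) ^ Q) ^ (n+2)) ≤ 4 * (C * (4 ^ Q * (Q + 1) * L) ^ (n+2)) := by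
          gcongr
      _ = 4 * (C * (4 ^ Q * (Q + 1)) ^ (n + 2)) * L ^ (n+2) := by rw [mul_pow]; ring
      _ ≤ (N₀ + 4 * (C * (4 ^ Q * (Q + 1)) ^ (n + 2))) * L ^ (n+2) := by
          apply mul_le_mul_of_nonneg_right _ (by positivity)
          have : (0:ℝ) ≤ N₀ := Nat.cast_nonneg _
          linarith
  · -- small `N`
    refine ⟨fun _ _ => 0, fun _ _ => ⟨le_rfl, one_pos⟩, fun x hx hx' => ?_⟩
    have hp0 : 0 ≤ ∏ j, x j := Finset.prod_nonneg fun j _ => hx j
    have hp1 : ∏ j, x j ≤ 1 := Finset.prod_le_one (fun j _ => hx j) (fun j _ => hx' j)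
    have hc : ((((univ : Finset (Fin N)).filter (fun _ => ∀ j, (0:ℝ) < x j)).card : ℕ) : ℝ) ≤ N := by
      have := Finset.card_le_univ ((univ : Finset (Fin N)).filter (fun _ => ∀ j, (0:ℝ) < x j))
      rw [Fintype.card_fin] at this
      exact_mod_cast this
    have hN0 : (0:ℝ) ≤ N := Nat.cast_nonneg _
    have hNN : (N:ℝ) ≤ N₀ := by exact_mod_cast hsmall
    have h1 : (N:ℝ) * ∏ j, x j ≤ N := mul_le_of_le_one_right hN0 hp1
    have h2 : 0 ≤ (N:ℝ) * ∏ j, x j := mul_nonneg hN0 hp0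
    have h3 : (0:ℝ) ≤ (((univ : Finset (Fin N)).filter (fun _ => ∀ j, (0:ℝ) < x j)).card : ℝ) :=
      Nat.cast_nonneg _
    have h4 : (N₀:ℝ) ≤ (N₀ + 4 * (C * (4 ^ Q * (Q + 1)) ^ (n + 2))) * L ^ (n+2) := by
      have h5 : 0 ≤ 4 * (C * (4 ^ Q * ((Q:ℝ) + 1)) ^ (n + 2)) := by positivity
      have h6 : (0:ℝ) ≤ N₀ := Nat.cast_nonneg _
      nlinarith
    rw [abs_le]
    constructor <;> linarith

end Pool.Agent.H470D4
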