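import Pool.Agent.H470D4.Bias1

set_option autoImplicit false
set_option linter.unusedSectionVars false

namespace Pool.Agent.H470D4

open Finset

section Step
variable {p M B n : ℕ} [Fact p.Prime]

/-- The corner independent majorant of the increment. -/
noncomputable def Xi (c : Flg p M B n) (K K₇ : ℕ) (ω : Path p B) (r β : ℕ) : ℝ :=
  ∑ l ∈ Mint M B n K K₇ r β, (p:ℝ) ^ (n+2) * (p:ℝ) ^ Module.finrank (ZMod p) (AA c ω (L1 l) r) *
    kil M r (AA c ω (L1 l) r) ω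

lemma Xi_nonneg (c : Flg p M B n) (K K₇ : ℕ) (ω : Path p B) (r β : ℕ) : 0 ≤ Xi c K K₇ ω r β :=
  Finset.sum_nonneg fun l _ => mul_nonneg (by positivity) (kil_nn _ _ _)

lemma xi_le (c : Flg p M B n) (K K₇ : ℕ) (d : Dat p n) (t : ℕ → ZMod p) (ω : Path p B) (r β : ℕ) :
    |xi c K K₇ d t ω r β| ≤ Xi c K K₇ ω r β :=
  (Finset.abs_sum_le_sum_abs _ _).trans (Finset.sum_le_sum fun l _ => TT_bound c d t ω r l)

/-- Uniform second moment of the majorant over the block number `k` of the row `r`. -/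
noncomputable def VV (c : Flg p M B n) (K K₇ : ℕ) (ω : Path p B) (r β : ℕ) : ℝ :=
  (∑ z : Blk p B, (Xi c K K₇ (Function.update ω (r * M + (M - 1 - β)) z) r β) ^ 2) / (p:ℝ) ^ B

lemma VV_nonneg (c : Flg p M B n) (K K₇ : ℕ) (ω : Path p B) (r β : ℕ) : 0 ≤ VV c K K₇ ω r β := by
  unfold VV
  positivity

/-- The increments have mean zero under the uniform law. -/
lemma xi_mean {c : Flg p M B n} (hc : IsFlags c) (K K₇ : ℕ) (d : Dat p n) (t : ℕ → ZMod p)
    (ω : Path p B) (r : ℕ) (b : Fin M) :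
    ∑ z : Blk p B, xi c K K₇ d t (Function.update ω (r * M + (M - 1 - b)) z) r b = 0 := by
  unfold xi
  rw [Finset.sum_comm]
  apply Finset.sum_eq_zero
  intro l hl
  rw [mem_Mint] at hl
  unfold TT
  have e1 : ∀ z : Blk p B, ∑ ν ∈ cell c d (Function.update ω (r * M + (M - 1 - b)) z) r l,
      d.psi r (t r - row M (Function.update ω (r * M + (M - 1 - b)) z) r (xv M B d - ν)) =
      ∑ ν ∈ cell c d ω r l,
      d.psi r (t r - row M (Function.update ω (r * M + (M - 1 - b)) z) r (xv M B d - ν)) := by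
    intro z
    rw [cell_update c d ω l (by omega) z]
  rw [Finset.sum_congr rfl (fun z _ => e1 z), Finset.sum_comm]
  apply Finset.sum_eq_zero
  intro ν hν
  rw [mem_cell] at hν
  have h := sum_shift_zero ω r b (⊥ : Submodule (ZMod p) (Vec p M B)) bot_le (xv M B d - ν)
    (sub_mem_Vb hc hν.1 hl.2.1) (by
      intro α hα
      rw [Submodule.mem_bot] at hα
      rw [hα, sub_zero]
      exact sub_not_mem_Vb hc hν.1 (hl.1 0) (by omega)) (d.psi r) (d.psi_sum r) (t r)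
  rw [← h]
  apply Finset.sum_congr rfl
  intro z _
  rw [kil_eq_one (fun α hα => by rw [Submodule.mem_bot] at hα; rw [hα, map_zero]), mul_one]

open Classical in
/-- The truncated increment. -/
noncomputable def YY (c : Flg p M B n) (K K₆ K₂ K₇ : ℕ) (θ : ℝ) (d : Dat p n) (t : ℕ → ZMod p)
    (ω : Path p B) (r β : ℕ) : ℝ :=
  if good c K K₆ K₂ ω r ∧ θ * Xi c K K₇ ω r β ≤ 1 then xi c K K₇ d t ω r β else 0

open Classical in
/-- The compensator. -/
noncomputable def kap (c : Flg p M B n) (K K₆ K₂ K₇ s₅ : ℕ) (θ : ℝ)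
    (ω : Path p B) (r β : ℕ) : ℝ :=
  if good c K K₆ K₂ ω r then 2 * Bmaj c K K₇ s₅ ω r β + 4 * θ * VV c K K₇ ω r β else 0

lemma good_update (c : Flg p M B n) (K K₆ K₂ : ℕ) (ω : Path p B) {r j : ℕ} (h : r * M ≤ j)
    (z : Blk p B) : good c K K₆ K₂ (Function.update ω j z) r ↔ good c K K₆ K₂ ω r := by
  have e : ∀ W, AA c (Function.update ω j z) W r = AA c ω W r := fun W => AA_update c ω W h z
  unfold good
  constructor
  · rintro ⟨h1, h2⟩
    exact ⟨fun W hW hr => by rw [← e W]; exact h1 W hW hr,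
      fun W hW hr => by rw [← e W]; exact h2 W hW hr⟩
  · rintro ⟨h1, h2⟩
    exact ⟨fun W hW hr => by rw [e W]; exact h1 W hW hr,
      fun W hW hr => by rw [e W]; exact h2 W hW hr⟩

lemma exp_le_quad {u : ℝ} (h : |u| ≤ 1) : Real.exp u ≤ 1 + u + u ^ 2 := by
  have h1 := Real.abs_exp_sub_one_sub_id_le h
  have h3 := le_abs_self (Real.exp u - 1 - u)
  linarith

theorem step_exp {c : Flg p M B n} (hc : IsFlags c) {K K₆ K₂ K₇ s₅ : ℕ} (hs : 1 ≤ s₅)
    (hK : K + K₂ + (n+1) * s₅ ≤ K₇) {θ : ℝ} (hθ : 0 < θ) (d : Dat p n) (t : ℕ → ZMod p)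
    (ω : Path p B) (r : ℕ) (b : Fin M)
    (hAl : p ^ B ≤ 2 * (Al c K (r * M + (M - 1 - b)) ω).card) :
    E1 (Al c K) (r * M + (M - 1 - b))
      (fun ω' => Real.exp (θ * YY c K K₆ K₂ K₇ θ d t ω' r b)) ω ≤
      Real.exp (θ * kap c K K₆ K₂ K₇ s₅ θ ω r b) := by
  classical
  set j := r * M + (M - 1 - (b:ℕ)) with hj
  have hjr : r * M ≤ j := by omega
  have hpB : (0:ℝ) < (p:ℝ) ^ B := by
    have : 0 < p := (Fact.out : p.Prime).pos
    positivity
  have hcard : (0:ℝ) < (Al c K j ω).card := by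
    have h1 : (0:ℝ) < (p ^ B : ℕ) := by push_cast; exact hpB
    have h2 : ((p ^ B : ℕ) : ℝ) ≤ 2 * (Al c K j ω).card := by exact_mod_cast hAl
    linarith
  have hAl' : (p:ℝ) ^ B ≤ 2 * (Al c K j ω).card := by exact_mod_cast hAl
  unfold E1
  rw [div_le_iff₀ hcard]
  by_cases hg : good c K K₆ K₂ ω r
  swap
  · have e1 : ∀ z ∈ Al c K j ω, Real.exp (θ * YY c K K₆ K₂ K₇ θ d t (Function.update ω j z) r b) =
        1 := by
      intro z _
      unfold YY
      rw [if_neg, mul_zero, Real.exp_zero]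
      rintro ⟨h1, _⟩
      exact hg ((good_update c K K₆ K₂ ω hjr z).1 h1)
    rw [Finset.sum_congr rfl e1]
    unfold kap
    rw [if_neg hg]
    simp
  set X : Blk p B → ℝ := fun z => Xi c K K₇ (Function.update ω j z) r b with hX
  set x : Blk p B → ℝ := fun z => xi c K K₇ d t (Function.update ω j z) r b with hx
  set y : Blk p B → ℝ := fun z => YY c K K₆ K₂ K₇ θ d t (Function.update ω j z) r b with hy
  have hX0 : ∀ z, 0 ≤ X z := fun z => Xi_nonneg _ _ _ _ _ _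
  have hxX : ∀ z, |x z| ≤ X z := fun z => xi_le _ _ _ _ _ _ _ _
  have hyz : ∀ z, y z = if θ * X z ≤ 1 then x z else 0 := by
    intro z
    simp only [hy, YY, (good_update c K K₆ K₂ ω hjr z), hg, true_and]
    rfl
  have hyabs : ∀ z, |θ * y z| ≤ 1 := by
    intro z
    rw [hyz]
    split_ifs with h
    · rw [abs_mul, abs_of_pos hθ]
      exact (mul_le_mul_of_nonneg_left (hxX z) hθ.le).trans h
    · simp
  have hyX : ∀ z, y z ^ 2 ≤ X z ^ 2 := by
    intro z
    rw [hyz]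
    split_ifs with h
    · rw [← sq_abs]
      exact pow_le_pow_left₀ (abs_nonneg _) (hxX z) 2
    · have := sq_nonneg (X z)
      simpa using this
  have hdiff : ∀ z, |y z - x z| ≤ θ * X z ^ 2 := by
    intro z
    rw [hyz]
    split_ifs with h
    · simp only [sub_self, abs_zero]
      positivity
    · push Not at h
      rw [zero_sub, abs_neg]
      calc |x z| ≤ X z := hxX z
        _ = X z * 1 := (mul_one _).symm
        _ ≤ X z * (θ * X z) := mul_le_mul_of_nonneg_left h.le (hX0 z)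
        _ = _ := by ring
  set V := VV c K K₇ ω r b with hV
  have hVX : ∑ z : Blk p B, X z ^ 2 = (p:ℝ) ^ B * V := by
    simp only [hV, VV]
    rw [mul_div_cancel₀ _ hpB.ne']
  have hV0 : 0 ≤ V := VV_nonneg _ _ _ _ _ _
  have hsub : ∀ f : Blk p B → ℝ, (∀ z, 0 ≤ f z) → ∑ z ∈ Al c K j ω, f z ≤ ∑ z : Blk p B, f z :=
    fun f hf => Finset.sum_le_sum_of_subset_of_nonneg (Finset.subset_univ _) (fun z _ _ => hf z)
  -- the mean over the allowed set
  have hmean : |∑ z ∈ Al c K j ω, x z| ≤ (p:ℝ) ^ B * Bmaj c K K₇ s₅ ω r b := by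
    have h1 := xi_mean hc K K₇ d t ω r b
    have h2 : ∑ z ∈ PhiF c K j ω, x z + ∑ z ∈ Al c K j ω, x z = 0 := by
      unfold Al
      rw [Finset.sum_add_sum_compl]
      exact h1
    have h3 : ∑ z ∈ Al c K j ω, x z = - ∑ z ∈ PhiF c K j ω, x z := by linarith
    rw [h3, abs_neg]
    exact bias_main hc hs hK d t ω r b hg
  have hB0 : 0 ≤ Bmaj c K K₇ s₅ ω r b := by
    have := (abs_nonneg _).trans hmean
    exact nonneg_of_mul_nonneg_right this hpB
  have hmy : ∑ z ∈ Al c K j ω, y z ≤ (p:ℝ) ^ B * Bmaj c K K₇ s₅ ω r b + θ * ((p:ℝ) ^ B * V) := by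
    have h1 : ∑ z ∈ Al c K j ω, y z = ∑ z ∈ Al c K j ω, x z + ∑ z ∈ Al c K j ω, (y z - x z) := by
      rw [← Finset.sum_add_distrib]
      apply Finset.sum_congr rfl
      intro z _
      ring
    have h2 : ∑ z ∈ Al c K j ω, (y z - x z) ≤ θ * ((p:ℝ) ^ B * V) := by
      calc ∑ z ∈ Al c K j ω, (y z - x z) ≤ ∑ z ∈ Al c K j ω, θ * X z ^ 2 :=
            Finset.sum_le_sum fun z _ => (le_abs_self _).trans (hdiff z)
        _ ≤ ∑ z : Blk p B, θ * X z ^ 2 := hsub _ (fun z => by positivity)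
        _ = _ := by rw [← Finset.mul_sum, hVX]
    rw [h1]
    exact add_le_add ((le_abs_self _).trans hmean) h2
  have hvy : ∑ z ∈ Al c K j ω, y z ^ 2 ≤ (p:ℝ) ^ B * V := by
    calc ∑ z ∈ Al c K j ω, y z ^ 2 ≤ ∑ z ∈ Al c K j ω, X z ^ 2 :=
          Finset.sum_le_sum fun z _ => hyX z
      _ ≤ ∑ z : Blk p B, X z ^ 2 := hsub _ (fun z => by positivity)
      _ = _ := hVX
  have hkap : kap c K K₆ K₂ K₇ s₅ θ ω r b = 2 * Bmaj c K K₇ s₅ ω r b + 4 * θ * V := by
    unfold kap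
    rw [if_pos hg]
  calc ∑ z ∈ Al c K j ω, Real.exp (θ * y z)
      ≤ ∑ z ∈ Al c K j ω, (1 + θ * y z + (θ * y z) ^ 2) :=
        Finset.sum_le_sum fun z _ => exp_le_quad (hyabs z)
    _ = (Al c K j ω).card + θ * ∑ z ∈ Al c K j ω, y z + θ ^ 2 * ∑ z ∈ Al c K j ω, y z ^ 2 := by
        rw [Finset.sum_add_distrib, Finset.sum_add_distrib, Finset.mul_sum, Finset.mul_sum]
        simp [mul_pow]
    _ ≤ (Al c K j ω).card + θ * ((p:ℝ) ^ B * Bmaj c K K₇ s₅ ω r b + θ * ((p:ℝ) ^ B * V)) +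
          θ ^ 2 * ((p:ℝ) ^ B * V) := by
        gcongr
    _ = (Al c K j ω).card + (p:ℝ) ^ B * (θ * Bmaj c K K₇ s₅ ω r b + 2 * θ ^ 2 * V) := by ring
    _ ≤ (Al c K j ω).card + (2 * (Al c K j ω).card) *
          (θ * Bmaj c K K₇ s₅ ω r b + 2 * θ ^ 2 * V) := by
        gcongr
    _ = (1 + θ * kap c K K₆ K₂ K₇ s₅ θ ω r b) * (Al c K j ω).card := by
        rw [hkap]; ring
    _ ≤ Real.exp (θ * kap c K K₆ K₂ K₇ s₅ θ ω r b) * (Al c K j ω).card := by
        apply mul_le_mul_of_nonneg_right _ hcard.le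
        rw [add_comm]
        exact Real.add_one_le_exp _

end Step

end Pool.Agent.H470D4
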