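import Pool.Agent.H470D4.Count

set_option autoImplicit false
set_option linter.unusedSectionVars false

namespace Pool.Agent.H470D4

open Finset

section Gen
variable {Z : Type*} [Fintype Z] [DecidableEq Z]

lemma DepLT.mono {α : Type*} {a a' : ℕ} {f : (ℕ → Z) → α} (h : DepLT a f) (haa : a ≤ a') :
    DepLT a' f := fun ω ω' h' => h ω ω' (fun i hi => h' i (lt_of_lt_of_le hi haa))

lemma EE_split (Al : ℕ → (ℕ → Z) → Finset Z) (hne : ∀ j ω, (Al j ω).Nonempty) {a a' T : ℕ}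
    (h1 : a ≤ a') (h2 : a' ≤ T) {f : (ℕ → Z) → ℝ} (hf : DepLT a' f) (ω : ℕ → Z) :
    EE Al 0 T f ω = EE Al 0 a (EE Al a (a' - a) f) ω := by
  have e1 : T = (a + (a' - a)) + (T - a') := by omega
  rw [e1, EE_add]
  have e2 : EE Al (0 + (a + (a' - a))) (T - a') f = f := by
    funext ω'
    apply EE_dep Al hne
    apply hf.mono
    omega
  rw [e2, EE_add, Nat.zero_add]

lemma EE_split_le (Al : ℕ → (ℕ → Z) → Finset Z) (hne : ∀ j ω, (Al j ω).Nonempty) {a a' T : ℕ}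
    (h1 : a ≤ a') (h2 : a' ≤ T) {f g : (ℕ → Z) → ℝ} (hf : DepLT a' f)
    (h : ∀ ω, EE Al a (a' - a) f ω ≤ g ω) (ω : ℕ → Z) :
    EE Al 0 T f ω ≤ EE Al 0 a g ω := by
  rw [EE_split Al hne h1 h2 hf]
  exact EE_mono Al 0 a (fun ω' _ => h ω')

lemma sum_range_mul (f : ℕ → ℝ) (R M : ℕ) :
    ∑ j ∈ range (R * M), f j = ∑ r ∈ range R, ∑ k ∈ range M, f (r * M + k) := by
  induction R with
  | zero => simp
  | succ R ih =>
    rw [Nat.add_mul, one_mul, Finset.sum_range_add, ih, Finset.sum_range_succ]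

end Gen

section Alg
variable {p : ℕ} [Fact p.Prime]

lemma pair_alg {a a' s v K₆ : ℕ} (h : s + v = a + a') (ha : a ≤ K₆) (ha' : a' ≤ K₆) :
    (p:ℝ) ^ a * (p:ℝ) ^ a' * (2 / (p:ℝ)) ^ s ≤ 4 ^ K₆ * (p:ℝ) ^ v := by
  have hp : (0:ℝ) < p := by exact_mod_cast (Fact.out : p.Prime).pos
  have e : (p:ℝ) ^ a * (p:ℝ) ^ a' * (2 / (p:ℝ)) ^ s = 2 ^ s * (p:ℝ) ^ v := by
    rw [← pow_add, ← h, div_pow, pow_add]
    field_simp
  rw [e]
  apply mul_le_mul_of_nonneg_right _ (by positivity)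
  calc (2:ℝ) ^ s ≤ 2 ^ (2 * K₆) := pow_le_pow_right₀ (by norm_num) (by omega)
    _ = 4 ^ K₆ := by rw [pow_mul]; norm_num

lemma pair_alg2 {a w s v K₆ K : ℕ} (h : s + v = a + w) (ha : a ≤ K₆) (hw : w ≤ K₆)
    (hw' : K + 1 ≤ w) :
    (p:ℝ) ^ a * (2 / (p:ℝ)) ^ s ≤ 4 ^ K₆ * (p:ℝ) ^ v / (p:ℝ) ^ (K+1) := by
  have hp : (0:ℝ) < p := by exact_mod_cast (Fact.out : p.Prime).pos
  have hp1 : (1:ℝ) ≤ p := by exact_mod_cast (Fact.out : p.Prime).one_lt.le
  rw [le_div_iff₀ (by positivity)]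
  calc (p:ℝ) ^ a * (2 / (p:ℝ)) ^ s * (p:ℝ) ^ (K+1) ≤ (p:ℝ) ^ a * (2 / (p:ℝ)) ^ s * (p:ℝ) ^ w := by
        apply mul_le_mul_of_nonneg_left _ (by positivity)
        exact pow_le_pow_right₀ hp1 hw'
    _ = (p:ℝ) ^ a * (p:ℝ) ^ w * (2 / (p:ℝ)) ^ s := by ring
    _ ≤ _ := pair_alg h ha hw

lemma two_div_pow_le (h4 : 4 ≤ p) {s k : ℕ} (h : 2 * k ≤ s) :
    (p:ℝ) ^ k * (2 / (p:ℝ)) ^ s ≤ 1 := by
  have hp : (4:ℝ) ≤ p := by exact_mod_cast h4
  have hp0 : (0:ℝ) < p := by linarith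
  have h1 : (2 / (p:ℝ)) ≤ 1 := by rw [div_le_one hp0]; linarith
  calc (p:ℝ) ^ k * (2 / (p:ℝ)) ^ s ≤ (p:ℝ) ^ k * (2 / (p:ℝ)) ^ (2 * k) :=
        mul_le_mul_of_nonneg_left (pow_le_pow_of_le_one (by positivity) h1 h) (by positivity)
    _ = (4 / (p:ℝ)) ^ k := by
        rw [pow_mul, ← mul_pow]
        congr 1
        field_simp
        norm_num
    _ ≤ 1 := pow_le_one₀ (by positivity) (by rw [div_le_one hp0]; exact hp)

end Alg

section Dep
variable {p M B n : ℕ} [Fact p.Prime]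

lemma Iset_dep (c : Flg p M B n) (K r β : ℕ) {ω ω' : Path p B} (h : Agr (r * M) ω ω') :
    Iset c K ω r β = Iset c K ω' r β := by
  classical
  ext W
  rw [mem_Iset, mem_Iset, show AA c ω W r = AA c ω' W r from AA_dep c W r _ _ h]

lemma good_dep (c : Flg p M B n) (K K₆ K₂ r : ℕ) {ω ω' : Path p B} (h : Agr (r * M) ω ω') :
    good c K K₆ K₂ ω r ↔ good c K K₆ K₂ ω' r := by
  have e : ∀ W, AA c ω W r = AA c ω' W r := fun W => AA_dep c W r _ _ h
  unfold good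
  constructor
  · rintro ⟨h1, h2⟩
    exact ⟨fun W hW hr => by rw [← e W]; exact h1 W hW hr,
      fun W hW hr => by rw [← e W]; exact h2 W hW hr⟩
  · rintro ⟨h1, h2⟩
    exact ⟨fun W hW hr => by rw [e W]; exact h1 W hW hr,
      fun W hW hr => by rw [e W]; exact h2 W hW hr⟩

/-- The row on a subspace supported on the blocks `≥ β` depends only on its first `M - β` blocks. -/
lemma kil_dep {β r : ℕ} {A : Submodule (ZMod p) (Vec p M B)} (hA : A ≤ Vb p M B β)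
    {ω ω' : Path p B} (h : ∀ k < M - β, ω (r * M + k) = ω' (r * M + k)) :
    kil M r A ω = kil M r A ω' := by
  unfold kil
  have e : (A ≤ LinearMap.ker (row M ω r)) ↔ (A ≤ LinearMap.ker (row M ω' r)) := by
    constructor
    · intro h1 α hα
      rw [LinearMap.mem_ker, ← row_congr h (hA hα)]
      exact h1 hα
    · intro h1 α hα
      rw [LinearMap.mem_ker, row_congr h (hA hα)]
      exact h1 hα
  by_cases h1 : A ≤ LinearMap.ker (row M ω r)
  · rw [if_pos h1, if_pos (e.1 h1)]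
  · rw [if_neg h1, if_neg (fun h2 => h1 (e.2 h2))]

lemma kil_dep_full (r : ℕ) (A : Submodule (ZMod p) (Vec p M B)) :
    DepLT ((r+1) * M) (kil M r A) := by
  intro ω ω' h
  apply kil_dep (β := 0) (by rw [Vb_zero]; exact le_top)
  intro k hk
  apply h
  rw [Nat.add_mul, one_mul]
  omega

lemma Phi_dep {c : Flg p M B n} (hc : IsFlags c) (K : ℕ) (hM : 0 < M) (j : ℕ) :
    DepLT j (fun ω : Path p B => PhiF c K j ω) := by
  classical
  intro ω ω' h
  have hjM : j / M * M ≤ j := Nat.div_mul_le_self j M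
  have hk : j % M < M := Nat.mod_lt _ hM
  have hj : j = j / M * M + j % M := by rw [mul_comm]; exact (Nat.div_add_mod j M).symm
  have hagr : Agr (j / M * M) ω ω' := fun i hi => h i (lt_of_lt_of_le hi hjM)
  ext z
  have hmem : ∀ ω : Path p B, z ∈ PhiF c K j ω ↔ ∃ W ∈ Iset c K ω (j / M) (M - 1 - j % M),
        AA c ω W (j / M) ≤ LinearMap.ker (row M (Function.update ω j z) (j / M)) := by
    intro ω
    simp only [PhiF, Finset.mem_filter, Finset.mem_univ, true_and]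
  have key : ∀ ω ω' : Path p B, Agr j ω ω' → z ∈ PhiF c K j ω → z ∈ PhiF c K j ω' := by
    intro ω ω' h h1
    have hagr : Agr (j / M * M) ω ω' := fun i hi => h i (lt_of_lt_of_le hi hjM)
    rw [hmem] at *
    obtain ⟨W, hW, h2⟩ := h1
    rw [Iset_dep c K _ _ hagr] at hW
    refine ⟨W, hW, ?_⟩
    rw [show AA c ω W (j / M) = AA c ω' W (j / M) from AA_dep c W _ _ _ hagr] at h2
    intro α hα
    rw [mem_Iset] at hW
    have hα' : α ∈ Vb p M B (M - 1 - j % M) := AA_le_Vb hc ω' hW.2.2.1 hα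
    rw [LinearMap.mem_ker]
    have h3 : row M (Function.update ω j z) (j/M) α = row M (Function.update ω' j z) (j/M) α := by
      apply row_congr _ hα'
      intro k hk'
      by_cases e : j / M * M + k = j
      · rw [e]; simp
      · rw [Function.update_of_ne e, Function.update_of_ne e]
        apply h
        omega
    rw [← h3]
    exact h2 hα
  exact ⟨key ω ω' h, key ω' ω (fun i hi => (h i hi).symm)⟩

lemma Al_dep {c : Flg p M B n} (hc : IsFlags c) (K : ℕ) (hM : 0 < M) (j : ℕ) :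
    DepLT j (Al c K j : Path p B → Finset (Blk p B)) := by
  intro ω ω' h
  unfold Al
  rw [show PhiF c K j ω = PhiF c K j ω' from Phi_dep hc K hM j ω ω' h]

lemma Al_nonempty {c : Flg p M B n} {K : ℕ}
    (hB : ∀ j (ω : Path p B), p ^ B ≤ 2 * (Al c K j ω).card) (j : ℕ) (ω : Path p B) :
    (Al c K j ω).Nonempty := by
  rw [← Finset.card_pos]
  have := hB j ω
  have : 0 < p ^ B := pow_pos (Fact.out : p.Prime).pos _
  omega

end Dep

section E2
variable {p M B n : ℕ} [Fact p.Prime]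

/-- Lemma P for the full row. -/
lemma E_kil (Al : ℕ → Path p B → Finset (Blk p B)) (hB : ∀ j ω, p ^ B ≤ 2 * (Al j ω).card)
    (h4 : 4 ≤ p) (r : ℕ) (ω : Path p B) (A : Submodule (ZMod p) (Vec p M B)) :
    EE Al (r * M) M (kil M r A) ω ≤ (2 / (p:ℝ)) ^ Module.finrank (ZMod p) A :=
  lemP Al hB h4 r M le_rfl ω A (by rw [Nat.sub_self, Vb_zero]; exact le_top)

/-- Expected size of a window of weight at least the critical one. -/
lemma E_size (Al : ℕ → Path p B → Finset (Blk p B)) (hB : ∀ j ω, p ^ B ≤ 2 * (Al j ω).card)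
    (h8 : 8 ≤ p) {c : Flg p M B n} (hc : IsFlags c) {K : ℕ} (hK : 1 ≤ K) (hKm : K ≤ M * B)
    (W : Fin (n+2) → ℕ) (r : ℕ) (hr : M * B ≤ ∑ a, W a + r + K) (ω₀ : Path p B) :
    EE Al 0 (r * M) (fun ω => (p:ℝ) ^ (Module.finrank (ZMod p) (AA c ω W r))) ω₀ ≤
      1 + 2 * ((p:ℝ) ^ K * (2 / (p:ℝ)) ^ (∑ a, W a + r + K - M * B)) := by
  have hne : ∀ j ω, (Al j ω).Nonempty := by
    intro j ω
    rw [← Finset.card_pos]
    have := hB j ω
    have : 0 < p ^ B := pow_pos (Fact.out : p.Prime).pos _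
    omega
  have h1 := expA2 Al hB h8 c hc K hK hKm W r hr ω₀
  have h2 : EE Al 0 (r * M) (fun ω => (p:ℝ) ^ (Module.finrank (ZMod p) (AA c ω W r))) ω₀ =
      EE Al 0 (r * M) (fun ω => (p:ℝ) ^ (Module.finrank (ZMod p) (AA c ω W r)) - 1) ω₀ + 1 := by
    have h3 := EE_add_fun Al 0 (r * M)
      (fun ω => (p:ℝ) ^ (Module.finrank (ZMod p) (AA c ω W r)) - 1) (fun _ => (1:ℝ)) ω₀
    have h4 : EE Al 0 (r * M) (fun _ => (1:ℝ)) ω₀ = 1 :=
      EE_dep Al hne 0 (r * M) (fun _ _ _ => rfl) ω₀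
    rw [h4] at h3
    rw [← h3]
    congr 1
    funext ω
    ring
  rw [h2]
  linarith

lemma E_size_far (Al : ℕ → Path p B → Finset (Blk p B)) (hB : ∀ j ω, p ^ B ≤ 2 * (Al j ω).card)
    (h8 : 8 ≤ p) {c : Flg p M B n} (hc : IsFlags c) {K : ℕ} (hK : 1 ≤ K) (hKm : K ≤ M * B)
    (W : Fin (n+2) → ℕ) (r : ℕ) (hr : M * B + K ≤ ∑ a, W a + r) (ω₀ : Path p B) :
    EE Al 0 (r * M) (fun ω => (p:ℝ) ^ (Module.finrank (ZMod p) (AA c ω W r))) ω₀ ≤ 3 := by
  refine (E_size Al hB h8 hc hK hKm W r (by omega) ω₀).trans ?_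
  have := two_div_pow_le (p := p) (by omega) (s := ∑ a, W a + r + K - M * B) (k := K) (by omega)
  linarith

lemma E_size_near (Al : ℕ → Path p B → Finset (Blk p B)) (hB : ∀ j ω, p ^ B ≤ 2 * (Al j ω).card)
    (h8 : 8 ≤ p) {c : Flg p M B n} (hc : IsFlags c) {K : ℕ} (hK : 1 ≤ K) (hKm : K ≤ M * B)
    (W : Fin (n+2) → ℕ) (r : ℕ) (hr : M * B ≤ ∑ a, W a + r + K) (ω₀ : Path p B) :
    EE Al 0 (r * M) (fun ω => (p:ℝ) ^ (Module.finrank (ZMod p) (AA c ω W r))) ω₀ ≤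
      3 * (p:ℝ) ^ K := by
  refine (E_size Al hB h8 hc hK hKm W r hr ω₀).trans ?_
  have hp : (8:ℝ) ≤ p := by exact_mod_cast h8
  have h1 : (2 / (p:ℝ)) ^ (∑ a, W a + r + K - M * B) ≤ 1 :=
    pow_le_one₀ (by positivity) (by rw [div_le_one (by linarith)]; linarith)
  have h2 : (1:ℝ) ≤ (p:ℝ) ^ K := one_le_pow₀ (by linarith)
  have h3 : (p:ℝ) ^ K * (2 / (p:ℝ)) ^ (∑ a, W a + r + K - M * B) ≤ (p:ℝ) ^ K * 1 :=
    mul_le_mul_of_nonneg_left h1 (by positivity)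
  linarith

end E2

end Pool.Agent.H470D4
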