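import Pool.Agent.H470D4.Sums0

set_option autoImplicit false
set_option linter.unusedSectionVars false

namespace Pool.Agent.H470D4

open Finset

section Inner
variable {p M B n : ℕ} [Fact p.Prime]

/-- Threshold windows of the row `r` and block `β` (no condition on the path). -/
def Wset (M B n K r β : ℕ) : Finset (Fin (n+2) → ℕ) :=
  (Fintype.piFinset (fun _ => range (M*B+1))).filter (fun W =>
    ∑ a, W a + r + K + 1 = M*B ∧ β * B ≤ W 0 ∧ W 0 < (β+1) * B)

lemma mem_Wset {K r β : ℕ} {W : Fin (n+2) → ℕ} :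
    W ∈ Wset M B n K r β ↔ (∀ a, W a ≤ M * B) ∧ ∑ a, W a + r + K + 1 = M*B ∧ β * B ≤ W 0 ∧
      W 0 < (β+1) * B := by
  unfold Wset
  rw [Finset.mem_filter, Fintype.mem_piFinset]
  simp only [Finset.mem_range, Nat.lt_succ_iff]

/-- The maximum of two windows. -/
def mx (L W : Fin (n+2) → ℕ) : Fin (n+2) → ℕ := fun a => max (L a) (W a)

/-- Second moment majorant given the past of the row. -/
noncomputable def G2 (c : Flg p M B n) (K K₆ K₇ : ℕ) (r β : ℕ) (ω : Path p B) : ℝ :=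
  ∑ l ∈ Mint M B n K K₇ r β, ∑ l' ∈ Mint M B n K K₇ r β,
    (p:ℝ) ^ (n+2) * (p:ℝ) ^ (n+2) * (4 ^ K₆ *
      (p:ℝ) ^ Module.finrank (ZMod p) (AA c ω (mx (L1 l) (L1 l')) r))

/-- Bias majorant given the past of the row. -/
noncomputable def G1 (c : Flg p M B n) (K K₆ K₇ s₅ : ℕ) (r β : ℕ) (ω : Path p B) : ℝ :=
  ∑ l ∈ Mint M B n K K₇ r β,
    ((∑ W ∈ (Wset M B n K r β).filter (fun W => ¬ l1d W (L1 l) ≤ s₅),
        (p:ℝ) ^ (n+2) * (4 ^ K₆ * (p:ℝ) ^ Module.finrank (ZMod p) (AA c ω (mx (L1 l) W) r) /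
          (p:ℝ) ^ (K+1))) + 2 ^ ((2 * s₅ + 1) ^ (n+2)) * 2 ^ (K₆ + (n+2) * s₅))

lemma G1_nonneg (c : Flg p M B n) (K K₆ K₇ s₅ : ℕ) (r β : ℕ) (ω : Path p B) :
    0 ≤ G1 c K K₆ K₇ s₅ r β ω := by unfold G1; positivity

lemma G2_nonneg (c : Flg p M B n) (K K₆ K₇ : ℕ) (r β : ℕ) (ω : Path p B) :
    0 ≤ G2 c K K₆ K₇ r β ω := by unfold G2; positivity

lemma good_fr {c : Flg p M B n} {K K₆ K₂ K₇ : ℕ} {ω : Path p B} {r β : ℕ}
    (hg : good c K K₆ K₂ ω r) {l : Fin (n+2) → ℕ} (hl : l ∈ Mint M B n K K₇ r β) :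
    Module.finrank (ZMod p) (AA c ω (L1 l) r) ≤ K₆ := by
  rw [mem_Mint] at hl
  apply hg.1
  · intro a
    have := hl.1 a
    unfold L1
    omega
  · rw [sum_L1]
    omega

lemma sup_AA (c : Flg p M B n) (ω : Path p B) (L W : Fin (n+2) → ℕ) (r : ℕ) :
    Module.finrank (ZMod p) (AA c ω L r ⊔ AA c ω W r : Submodule _ _) +
      Module.finrank (ZMod p) (AA c ω (mx L W) r) =
    Module.finrank (ZMod p) (AA c ω L r) + Module.finrank (ZMod p) (AA c ω W r) := by
  have := finrank_sup (AA c ω L r) (AA c ω W r)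
  rw [AA_inf] at this
  exact this

/-- Expectation of the bias majorant over the blocks of the row before the block `b`. -/
theorem inner_B {c : Flg p M B n} (hc : IsFlags c) {K K₆ K₂ K₇ s₅ : ℕ}
    (Al : ℕ → Path p B → Finset (Blk p B)) (hB : ∀ j ω, p ^ B ≤ 2 * (Al j ω).card)
    (h4 : 4 ≤ p) (r : ℕ) (b : Fin M) (ω : Path p B) (hg : good c K K₆ K₂ ω r) :
    EE Al (r * M) (M - 1 - b) (fun ω' => Bmaj c K K₇ s₅ ω' r b) ω ≤ G1 c K K₆ K₇ s₅ r b ω := by
  classical
  have hb := b.2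
  have hp0 : (0:ℝ) < p := by exact_mod_cast (Fact.out : p.Prime).pos
  set k := M - 1 - (b:ℕ) with hk
  -- freeze the past
  have hfr : ∀ ω', Agr (r * M) ω ω' → Bmaj c K K₇ s₅ ω' r b ≤
      ∑ l ∈ Mint M B n K K₇ r b,
      ((∑ W ∈ (Iset c K ω r b).filter (fun W => ¬ l1d W (L1 l) ≤ s₅),
        (p:ℝ) ^ (n+2) * (p:ℝ) ^ Module.finrank (ZMod p) (AA c ω (L1 l) r) *
          UP M r k (AA c ω (L1 l) r ⊔ AA c ω W r) ω') +
      ∑ S ∈ ((Iset c K ω r b).filter (fun W => l1d W (L1 l) ≤ s₅)).powerset.erase ∅,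
        (p:ℝ) ^ Module.finrank (ZMod p) (supA c ω r S) * UP M r k (supA c ω r S) ω') := by
    intro ω' h
    unfold Bmaj
    have e1 : Iset c K ω' r b = Iset c K ω r b := (Iset_dep c K r b h).symm
    have e2 : ∀ W, AA c ω' W r = AA c ω W r := fun W => (AA_dep c W r _ _ h).symm
    have e3 : ∀ S, supA c ω' r S = supA c ω r S := by
      intro S
      unfold supA
      apply Finset.sup_congr rfl
      intro W _
      exact e2 W
    rw [e1]
    apply le_of_eq
    apply Finset.sum_congr rfl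
    intro l _
    congr 1
    · apply Finset.sum_congr rfl
      intro W _
      rw [e2, e2]
    · apply Finset.sum_congr rfl
      intro S _
      rw [e3]
  refine (EE_mono Al _ _ hfr).trans ?_
  rw [EE_sum]
  unfold G1
  apply Finset.sum_le_sum
  intro l hl
  rw [EE_add_fun]
  have hl' := hl
  rw [mem_Mint] at hl'
  have hLb : AA c ω (L1 l) r ≤ Vb p M B (M - 1 - k) := by
    rw [hk, show M - 1 - (M - 1 - (b:ℕ)) = b by omega]
    apply AA_le_Vb hc
    have := hl'.2.1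
    unfold L1
    omega
  apply add_le_add
  · -- far
    rw [EE_sum]
    refine (Finset.sum_le_sum (g := fun W => (p:ℝ) ^ (n+2) * (4 ^ K₆ *
      (p:ℝ) ^ Module.finrank (ZMod p) (AA c ω (mx (L1 l) W) r) / (p:ℝ) ^ (K+1))) ?_).trans ?_
    · intro W hW
      rw [Finset.mem_filter, mem_Iset] at hW
      obtain ⟨⟨h1, h2, h3, h4', h5⟩, _⟩ := hW
      rw [EE_const_mul]
      have hWb : AA c ω W r ≤ Vb p M B (M - 1 - k) := by
        rw [hk, show M - 1 - (M - 1 - (b:ℕ)) = b by omega]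
        exact AA_le_Vb hc ω h3
      have h6 := lemP_unif Al hB h4 r k (by omega) ω (AA c ω (L1 l) r ⊔ AA c ω W r)
        (sup_le hLb hWb)
      have h7 := sup_AA c ω (L1 l) W r
      have h8 : Module.finrank (ZMod p) (AA c ω (L1 l) r) ≤ K₆ := good_fr hg hl
      have h9 : Module.finrank (ZMod p) (AA c ω W r) ≤ K₆ := hg.1 W h1 (by omega)
      have h10 : K + 1 ≤ Module.finrank (ZMod p) (AA c ω W r) := by
        have := finrank_AA_ge c hc ω W r
        omega
      have h11 := pair_alg2 (p := p) h7 h8 h9 h10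
      calc _ ≤ (p:ℝ) ^ (n+2) * (p:ℝ) ^ Module.finrank (ZMod p) (AA c ω (L1 l) r) *
            (2 / (p:ℝ)) ^ Module.finrank (ZMod p) (AA c ω (L1 l) r ⊔ AA c ω W r : Submodule _ _) :=
            mul_le_mul_of_nonneg_left h6 (by positivity)
        _ = (p:ℝ) ^ (n+2) * ((p:ℝ) ^ Module.finrank (ZMod p) (AA c ω (L1 l) r) *
            (2 / (p:ℝ)) ^ Module.finrank (ZMod p) (AA c ω (L1 l) r ⊔ AA c ω W r : Submodule _ _)) := by
            ring
        _ ≤ _ := mul_le_mul_of_nonneg_left h11 (by positivity)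
    · apply Finset.sum_le_sum_of_subset_of_nonneg
      · intro W hW
        rw [Finset.mem_filter, mem_Iset] at hW
        rw [Finset.mem_filter, mem_Wset]
        exact ⟨⟨hW.1.1, hW.1.2.1, hW.1.2.2.1, hW.1.2.2.2.1⟩, hW.2⟩
      · intro W _ _
        positivity
  · -- near
    rw [EE_sum]
    have h1 : ∀ S ∈ ((Iset c K ω r b).filter (fun W => l1d W (L1 l) ≤ s₅)).powerset.erase ∅,
        EE Al (r * M) k (fun ω' => (p:ℝ) ^ Module.finrank (ZMod p) (supA c ω r S) *
          UP M r k (supA c ω r S) ω') ω ≤ 2 ^ (K₆ + (n+2) * s₅) := by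
      intro S hS
      rw [Finset.mem_erase, Finset.mem_powerset] at hS
      have hSI : ∀ W ∈ S, W ∈ Iset c K ω r b ∧ l1d W (L1 l) ≤ s₅ := by
        intro W hW
        have := hS.2 hW
        rw [Finset.mem_filter] at this
        exact this
      have hSb : supA c ω r S ≤ Vb p M B (M - 1 - k) := by
        rw [hk, show M - 1 - (M - 1 - (b:ℕ)) = b by omega]
        apply supA_le
        intro W hW
        have := (hSI W hW).1
        rw [mem_Iset] at this
        exact AA_le_Vb hc ω this.2.2.1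
      rw [EE_const_mul]
      have h6 := lemP_unif Al hB h4 r k (by omega) ω (supA c ω r S) hSb
      have h7 : Module.finrank (ZMod p) (supA c ω r S) ≤ K₆ + (n+2) * s₅ := by
        have h8 : supA c ω r S ≤ AA c ω (fun a => L1 l a - s₅) r := by
          apply supA_le
          intro W hW
          apply AA_mono c ω _ le_rfl
          exact near_le (hSI W hW).2
        have h9 := Submodule.finrank_mono h8
        have h10 := finrank_AA_le c ω (W := L1 l) (W' := fun a => L1 l a - s₅) r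
          (fun a => Nat.sub_le _ _)
        have h11 := good_fr hg hl
        have h12 : ∑ a, L1 l a ≤ ∑ a, (L1 l a - s₅) + (n+2) * s₅ := by
          have : ∑ a, L1 l a ≤ ∑ a : Fin (n+2), ((L1 l a - s₅) + s₅) :=
            Finset.sum_le_sum fun a _ => by omega
          rw [Finset.sum_add_distrib (f := fun a => L1 l a - s₅), Finset.sum_const,
            Finset.card_univ, Fintype.card_fin, smul_eq_mul] at this
          exact this
        omega
      calc _ ≤ (p:ℝ) ^ Module.finrank (ZMod p) (supA c ω r S) *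
            (2 / (p:ℝ)) ^ Module.finrank (ZMod p) (supA c ω r S) :=
            mul_le_mul_of_nonneg_left h6 (by positivity)
        _ = 2 ^ Module.finrank (ZMod p) (supA c ω r S) := by
            rw [← mul_pow]
            congr 1
            field_simp
        _ ≤ _ := pow_le_pow_right₀ (by norm_num) h7
    refine (Finset.sum_le_sum h1).trans ?_
    rw [Finset.sum_const, nsmul_eq_mul]
    apply mul_le_mul_of_nonneg_right _ (by positivity)
    have h2 : (((Iset c K ω r b).filter (fun W => l1d W (L1 l) ≤ s₅)).powerset.erase ∅).card ≤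
        2 ^ ((2 * s₅ + 1) ^ (n+2)) := by
      refine (Finset.card_le_card (Finset.erase_subset _ _)).trans ?_
      rw [Finset.card_powerset]
      apply Nat.pow_le_pow_right (by norm_num)
      refine le_trans (Finset.card_le_card ?_) (card_near (n := n) (M * B + 1) s₅ (L1 l))
      intro W hW
      rw [Finset.mem_filter, mem_Iset] at hW
      rw [Finset.mem_filter, Fintype.mem_piFinset]
      exact ⟨fun a => by rw [Finset.mem_range]; have := hW.1.1 a; omega, hW.2⟩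
    exact_mod_cast h2

/-- Expansion of the square of the majorant. -/
lemma Xi_sq (c : Flg p M B n) (K K₇ : ℕ) (ω : Path p B) (r β : ℕ) :
    (Xi c K K₇ ω r β) ^ 2 = ∑ l ∈ Mint M B n K K₇ r β, ∑ l' ∈ Mint M B n K K₇ r β,
      (p:ℝ) ^ (n+2) * (p:ℝ) ^ (n+2) * ((p:ℝ) ^ Module.finrank (ZMod p) (AA c ω (L1 l) r) *
        (p:ℝ) ^ Module.finrank (ZMod p) (AA c ω (L1 l') r)) *
        kil M r (AA c ω (L1 l) r ⊔ AA c ω (L1 l') r) ω := by
  unfold Xi
  rw [sq, Finset.sum_mul_sum]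
  apply Finset.sum_congr rfl
  intro l _
  apply Finset.sum_congr rfl
  intro l' _
  rw [kil_sup]
  ring

theorem inner_V {c : Flg p M B n} (hc : IsFlags c) {K K₆ K₂ K₇ : ℕ}
    (Al : ℕ → Path p B → Finset (Blk p B)) (hB : ∀ j ω, p ^ B ≤ 2 * (Al j ω).card)
    (h4 : 4 ≤ p) (r : ℕ) (b : Fin M) (ω : Path p B) (hg : good c K K₆ K₂ ω r) :
    EE Al (r * M) (M - 1 - b) (fun ω' => VV c K K₇ ω' r b) ω ≤ G2 c K K₆ K₇ r b ω := by
  classical
  have hb := b.2
  have hp0 : (0:ℝ) < p := by exact_mod_cast (Fact.out : p.Prime).pos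
  set k := M - 1 - (b:ℕ) with hk
  have hfr : ∀ ω', Agr (r * M) ω ω' → VV c K K₇ ω' r b ≤
      ∑ l ∈ Mint M B n K K₇ r b, ∑ l' ∈ Mint M B n K K₇ r b,
      ((p:ℝ) ^ (n+2) * (p:ℝ) ^ (n+2) * ((p:ℝ) ^ Module.finrank (ZMod p) (AA c ω (L1 l) r) *
        (p:ℝ) ^ Module.finrank (ZMod p) (AA c ω (L1 l') r))) *
        UP M r k (AA c ω (L1 l) r ⊔ AA c ω (L1 l') r) ω' := by
    intro ω' h
    apply le_of_eq
    unfold VV UP
    rw [← hk]
    have e1 : ∀ z : Blk p B, Xi c K K₇ (Function.update ω' (r * M + k) z) r b ^ 2 =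
        ∑ l ∈ Mint M B n K K₇ r b, ∑ l' ∈ Mint M B n K K₇ r b,
        ((p:ℝ) ^ (n+2) * (p:ℝ) ^ (n+2) * ((p:ℝ) ^ Module.finrank (ZMod p) (AA c ω (L1 l) r) *
        (p:ℝ) ^ Module.finrank (ZMod p) (AA c ω (L1 l') r))) *
        kil M r (AA c ω (L1 l) r ⊔ AA c ω (L1 l') r) (Function.update ω' (r * M + k) z) := by
      intro z
      rw [Xi_sq]
      have e2 : ∀ W, AA c (Function.update ω' (r * M + k) z) W r = AA c ω W r := by
        intro W
        rw [AA_update c ω' W (by omega) z]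
        exact (AA_dep c W r _ _ h).symm
      apply Finset.sum_congr rfl
      intro l _
      apply Finset.sum_congr rfl
      intro l' _
      rw [e2, e2]
    rw [Finset.sum_congr rfl (fun z _ => e1 z), Finset.sum_comm, Finset.sum_div]
    apply Finset.sum_congr rfl
    intro l _
    rw [Finset.sum_comm, Finset.sum_div]
    apply Finset.sum_congr rfl
    intro l' _
    rw [← Finset.mul_sum, mul_div_assoc]
  refine (EE_mono Al _ _ hfr).trans ?_
  rw [EE_sum]
  unfold G2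
  apply Finset.sum_le_sum
  intro l hl
  rw [EE_sum]
  apply Finset.sum_le_sum
  intro l' hl'
  rw [EE_const_mul]
  have hLb : ∀ l ∈ Mint M B n K K₇ r b, AA c ω (L1 l) r ≤ Vb p M B (M - 1 - k) := by
    intro l hl
    rw [hk, show M - 1 - (M - 1 - (b:ℕ)) = b by omega]
    apply AA_le_Vb hc
    rw [mem_Mint] at hl
    have := hl.2.1
    unfold L1
    omega
  have h6 := lemP_unif Al hB h4 r k (by omega) ω (AA c ω (L1 l) r ⊔ AA c ω (L1 l') r)
    (sup_le (hLb l hl) (hLb l' hl'))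
  have h7 := sup_AA c ω (L1 l) (L1 l') r
  have h11 := pair_alg (p := p) h7 (good_fr hg hl) (good_fr hg hl')
  calc _ ≤ ((p:ℝ) ^ (n+2) * (p:ℝ) ^ (n+2) * ((p:ℝ) ^ Module.finrank (ZMod p) (AA c ω (L1 l) r) *
        (p:ℝ) ^ Module.finrank (ZMod p) (AA c ω (L1 l') r))) *
        (2 / (p:ℝ)) ^ Module.finrank (ZMod p) (AA c ω (L1 l) r ⊔ AA c ω (L1 l') r : Submodule _ _) :=
        mul_le_mul_of_nonneg_left h6 (by positivity)
    _ = (p:ℝ) ^ (n+2) * (p:ℝ) ^ (n+2) * ((p:ℝ) ^ Module.finrank (ZMod p) (AA c ω (L1 l) r) *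
        (p:ℝ) ^ Module.finrank (ZMod p) (AA c ω (L1 l') r) *
        (2 / (p:ℝ)) ^ Module.finrank (ZMod p) (AA c ω (L1 l) r ⊔ AA c ω (L1 l') r : Submodule _ _)) := by
        ring
    _ ≤ _ := mul_le_mul_of_nonneg_left h11 (by positivity)

/-- The same for the actual square of the majorant, over the full row. -/
theorem inner_X {c : Flg p M B n} {K K₆ K₂ K₇ : ℕ}
    (Al : ℕ → Path p B → Finset (Blk p B)) (hB : ∀ j ω, p ^ B ≤ 2 * (Al j ω).card)
    (h4 : 4 ≤ p) (r β : ℕ) (ω : Path p B) (hg : good c K K₆ K₂ ω r) :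
    EE Al (r * M) M (fun ω' => (Xi c K K₇ ω' r β) ^ 2) ω ≤ G2 c K K₆ K₇ r β ω := by
  classical
  have hp0 : (0:ℝ) < p := by exact_mod_cast (Fact.out : p.Prime).pos
  have hfr : ∀ ω', Agr (r * M) ω ω' → (Xi c K K₇ ω' r β) ^ 2 ≤
      ∑ l ∈ Mint M B n K K₇ r β, ∑ l' ∈ Mint M B n K K₇ r β,
      ((p:ℝ) ^ (n+2) * (p:ℝ) ^ (n+2) * ((p:ℝ) ^ Module.finrank (ZMod p) (AA c ω (L1 l) r) *
        (p:ℝ) ^ Module.finrank (ZMod p) (AA c ω (L1 l') r))) *
        kil M r (AA c ω (L1 l) r ⊔ AA c ω (L1 l') r) ω' := by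
    intro ω' h
    apply le_of_eq
    rw [Xi_sq]
    have e2 : ∀ W, AA c ω' W r = AA c ω W r := fun W => (AA_dep c W r _ _ h).symm
    apply Finset.sum_congr rfl
    intro l _
    apply Finset.sum_congr rfl
    intro l' _
    rw [e2, e2]
  refine (EE_mono Al _ _ hfr).trans ?_
  rw [EE_sum]
  unfold G2
  apply Finset.sum_le_sum
  intro l hl
  rw [EE_sum]
  apply Finset.sum_le_sum
  intro l' hl'
  rw [EE_const_mul]
  have h6 := E_kil Al hB h4 r ω (AA c ω (L1 l) r ⊔ AA c ω (L1 l') r)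
  have h7 := sup_AA c ω (L1 l) (L1 l') r
  have h11 := pair_alg (p := p) h7 (good_fr hg hl) (good_fr hg hl')
  calc _ ≤ ((p:ℝ) ^ (n+2) * (p:ℝ) ^ (n+2) * ((p:ℝ) ^ Module.finrank (ZMod p) (AA c ω (L1 l) r) *
        (p:ℝ) ^ Module.finrank (ZMod p) (AA c ω (L1 l') r))) *
        (2 / (p:ℝ)) ^ Module.finrank (ZMod p) (AA c ω (L1 l) r ⊔ AA c ω (L1 l') r : Submodule _ _) :=
        mul_le_mul_of_nonneg_left h6 (by positivity)
    _ = (p:ℝ) ^ (n+2) * (p:ℝ) ^ (n+2) * ((p:ℝ) ^ Module.finrank (ZMod p) (AA c ω (L1 l) r) *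
        (p:ℝ) ^ Module.finrank (ZMod p) (AA c ω (L1 l') r) *
        (2 / (p:ℝ)) ^ Module.finrank (ZMod p) (AA c ω (L1 l) r ⊔ AA c ω (L1 l') r : Submodule _ _)) := by
        ring
    _ ≤ _ := mul_le_mul_of_nonneg_left h11 (by positivity)

end Inner

end Pool.Agent.H470D4
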