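import Pool.Agent.H470D4.Sums1

set_option autoImplicit false
set_option linter.unusedSectionVars false

namespace Pool.Agent.H470D4

open Finset

section Cnt2

/-- Positions close to the end of their block. -/
lemma card_endz (M B k : ℕ) :
    ((range (M * B)).filter (fun x => (x / B + 1) * B < x + k + 1)).card ≤ M * k := by
  classical
  rcases Nat.eq_zero_or_pos B with rfl | hB
  · simp
  have hc : (range M ×ˢ range k).card = M * k := by simp
  rw [← hc]
  apply Finset.card_le_card_of_injOn (fun x => (x / B, (x / B + 1) * B - 1 - x))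
  · intro x hx
    simp only [Finset.coe_filter, Finset.mem_range] at hx
    obtain ⟨h1, h2⟩ := hx
    simp only [Finset.coe_product, Set.mem_prod, Finset.mem_coe, Finset.mem_range]
    refine ⟨?_, ?_⟩
    · exact Nat.div_lt_of_lt_mul (by rwa [mul_comm] at h1)
    · have h3 : x < (x / B + 1) * B := by
        rw [mul_comm]; exact Nat.lt_mul_div_succ x hB
      omega
  · intro x hx x' hx' he
    simp only [Prod.mk.injEq] at he
    obtain ⟨e1, e2⟩ := he
    have h3 : x < (x / B + 1) * B := by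
      rw [mul_comm]; exact Nat.lt_mul_div_succ x hB
    have h3' : x' < (x' / B + 1) * B := by
      rw [mul_comm]; exact Nat.lt_mul_div_succ x' hB
    rw [e1] at e2 h3
    omega

variable {n : ℕ}

lemma card_Lbox (M B n : ℕ) : (Lbox M B n).card = (M * B) ^ (n+2) := by
  unfold Lbox; simp

/-- Levels whose first entry lies in a given set. -/
lemma card_Lbox_first (M B n : ℕ) (T : Finset ℕ) :
    ((Lbox M B n).filter (fun l => l 0 ∈ T)).card ≤ T.card * (M * B) ^ (n+1) := by
  classical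
  have hc : (T ×ˢ (Fintype.piFinset (fun _ : Fin (n+1) => range (M * B)))).card =
      T.card * (M * B) ^ (n+1) := by simp
  rw [← hc]
  apply Finset.card_le_card_of_injOn (fun l => (l 0, fun i : Fin (n+1) => l i.succ))
  · intro l hl
    rw [Finset.mem_coe, Finset.mem_filter] at hl
    unfold Lbox at hl
    rw [Fintype.mem_piFinset] at hl
    rw [Finset.mem_coe, Finset.mem_product, Fintype.mem_piFinset]
    exact ⟨hl.2, fun i => hl.1 _⟩
  · intro l _ l' _ he
    simp only [Prod.mk.injEq] at he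
    funext a
    refine Fin.cases he.1 (fun i => ?_) a
    exact congrFun he.2 i

/-- Levels whose first entry is close to the end of its block (after a shift by `s`). -/
lemma card_endL (M B n k s : ℕ) :
    ((Lbox M B n).filter (fun l => l 0 + s < M * B ∧
      ((l 0 + s) / B + 1) * B < (l 0 + s) + k + 1)).card ≤ (M * k) * (M * B) ^ (n+1) := by
  classical
  set T := (range (M * B)).filter (fun x => x + s < M * B ∧ ((x + s) / B + 1) * B < (x + s) + k + 1)
    with hT
  have h1 : ((Lbox M B n).filter (fun l => l 0 + s < M * B ∧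
      ((l 0 + s) / B + 1) * B < (l 0 + s) + k + 1)) ⊆ (Lbox M B n).filter (fun l => l 0 ∈ T) := by
    intro l hl
    rw [Finset.mem_filter] at hl ⊢
    refine ⟨hl.1, ?_⟩
    rw [hT, Finset.mem_filter, Finset.mem_range]
    exact ⟨by omega, hl.2⟩
  refine (Finset.card_le_card h1).trans ((card_Lbox_first M B n T).trans ?_)
  apply Nat.mul_le_mul_right
  refine le_trans ?_ (card_endz M B k)
  apply Finset.card_le_card_of_injOn (fun x => x + s)
  · intro x hx
    rw [Finset.mem_coe, hT, Finset.mem_filter, Finset.mem_range] at hx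
    rw [Finset.mem_coe, Finset.mem_filter, Finset.mem_range]
    exact hx.2
  · intro x _ x' _ he
    simpa using he

/-- Exchange of summation: each level is critical for few rows. -/
lemma sum_swap_le {S : Type*} (R k : ℕ) (s : Finset S) (P : ℕ → S → Prop) [∀ r, DecidablePred (P r)]
    (f : S → ℝ) (hf : ∀ x ∈ s, 0 ≤ f x)
    (h : ∀ x ∈ s, ∃ a : ℕ, ∀ r, P r x → a ≤ r ∧ r < a + k) :
    ∑ r ∈ range R, ∑ x ∈ s.filter (P r), f x ≤ k * ∑ x ∈ s, f x := by
  classical
  have e1 : ∀ r, ∑ x ∈ s.filter (P r), f x = ∑ x ∈ s, if P r x then f x else 0 := by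
    intro r
    rw [Finset.sum_filter]
  rw [Finset.sum_congr rfl (fun r _ => e1 r), Finset.sum_comm, Finset.mul_sum]
  apply Finset.sum_le_sum
  intro x hx
  rw [← Finset.sum_filter, Finset.sum_const, nsmul_eq_mul]
  apply mul_le_mul_of_nonneg_right _ (hf x hx)
  obtain ⟨a, ha⟩ := h x hx
  have : ((range R).filter (fun r => P r x)).card ≤ k := by
    calc _ ≤ (Finset.Ico a (a + k)).card := by
          apply Finset.card_le_card
          intro r hr
          rw [Finset.mem_filter] at hr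
          rw [Finset.mem_Ico]
          exact ha r hr.2
      _ = k := by simp
  exact_mod_cast this

/-- Critical levels of the row `r`. -/
def Mid (M B n K r : ℕ) : Finset (Fin (n+2) → ℕ) :=
  (Lbox M B n).filter (fun l => M * B ≤ ∑ a, l a + (n + 2) + r + K ∧ ∑ a, l a + r ≤ M * B)

lemma sum_Mid_le (M B n K R : ℕ) (f : (Fin (n+2) → ℕ) → ℝ) (hf : ∀ l, 0 ≤ f l) :
    ∑ r ∈ range R, ∑ l ∈ Mid M B n K r, f l ≤ (n + K + 3 : ℕ) * ∑ l ∈ Lbox M B n, f l := by
  apply sum_swap_le R (n + K + 3) (Lbox M B n) _ f (fun l _ => hf l)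
  intro l _
  refine ⟨M * B - (∑ a, l a + (n + 2) + K), fun r hr => ?_⟩
  omega

lemma sum_block_Mint (M B n K K₇ r : ℕ) (f : (Fin (n+2) → ℕ) → ℝ) (hf : ∀ l, 0 ≤ f l) :
    ∑ b : Fin M, ∑ l ∈ Mint M B n K K₇ r b, f l ≤ ∑ l ∈ Mid M B n K r, f l := by
  classical
  rw [← Finset.sum_biUnion]
  · apply Finset.sum_le_sum_of_subset_of_nonneg
    · intro l hl
      rw [Finset.mem_biUnion] at hl
      obtain ⟨b, _, hb⟩ := hl
      unfold Mint at hb
      unfold Mid
      rw [Finset.mem_filter] at hb ⊢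
      exact ⟨hb.1, hb.2.2.2⟩
    · intro l _ _
      exact hf l
  · intro b _ b' _ hbb
    rw [Function.onFun, Finset.disjoint_left]
    intro l h1 h2
    rw [mem_Mint] at h1 h2
    apply hbb
    have hB : 0 < B := by
      rcases Nat.eq_zero_or_pos B with rfl | h
      · have := h1.1 0
        omega
      · exact h
    have e1 : l 0 / B = b := by
      apply Nat.div_eq_of_lt_le
      · exact h1.2.1
      · have := h1.2.2.1
        omega
    have e2 : l 0 / B = b' := by
      apply Nat.div_eq_of_lt_le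
      · exact h2.2.1
      · have := h2.2.2.1
        omega
    exact Fin.ext (e1.symm.trans e2)

lemma card_Mint_le (M B n K K₇ r b : ℕ) :
    (Mint M B n K K₇ r b).card ≤ (n + K + 3) * (B * (M * B) ^ n) := by
  classical
  rcases Nat.lt_or_ge (M * B) r with h | h
  · have : Mint M B n K K₇ r b = ∅ := by
      rw [Finset.eq_empty_iff_forall_notMem]
      intro l hl
      rw [mem_Mint] at hl
      omega
    rw [this]; simp
  have h1 : Mint M B n K K₇ r b ⊆ (Finset.Icc (M * B - (n + 2 + r + K)) (M * B - r)).biUnion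
      (fun s => (Fintype.piFinset (fun _ : Fin (n+2) => range (M * B))).filter
        (fun l => ∑ a, l a = s ∧ b * B ≤ l 0 ∧ l 0 < (b+1) * B)) := by
    intro l hl
    rw [mem_Mint] at hl
    rw [Finset.mem_biUnion]
    refine ⟨∑ a, l a, ?_, ?_⟩
    · rw [Finset.mem_Icc]; omega
    · rw [Finset.mem_filter, Fintype.mem_piFinset]
      exact ⟨fun a => Finset.mem_range.2 (hl.1 a), rfl, hl.2.1, by have := hl.2.2.1; omega⟩
  refine (Finset.card_le_card h1).trans (Finset.card_biUnion_le.trans ?_)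
  refine (Finset.sum_le_sum (fun s _ => card_fix (n := n) (M * B) B b s)).trans ?_
  rw [Finset.sum_const, smul_eq_mul]
  apply Nat.mul_le_mul_right
  rw [Nat.card_Icc]
  omega

lemma card_Wset_le (M B n K r b : ℕ) :
    (Wset M B n K r b).card ≤ B * (M * B + 1) ^ n := by
  classical
  rcases Nat.lt_or_ge (M * B) (r + K + 1) with h | h
  · have : Wset M B n K r b = ∅ := by
      rw [Finset.eq_empty_iff_forall_notMem]
      intro W hW
      rw [mem_Wset] at hW
      omega
    rw [this]; simp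
  · refine le_trans (Finset.card_le_card ?_)
      (card_fix (n := n) (M * B + 1) B b (M * B - (r + K + 1)))
    intro W hW
    rw [mem_Wset] at hW
    rw [Finset.mem_filter, Fintype.mem_piFinset]
    exact ⟨fun a => by rw [Finset.mem_range]; have := hW.1 a; omega, by omega, hW.2.2.1,
      hW.2.2.2⟩

end Cnt2

section EG
variable {p M B n : ℕ} [Fact p.Prime]

/-- Expected bias majorant. -/
theorem E_G1 (Al : ℕ → Path p B → Finset (Blk p B)) (hB : ∀ j ω, p ^ B ≤ 2 * (Al j ω).card)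
    (h8 : 8 ≤ p) {c : Flg p M B n} (hc : IsFlags c) {K : ℕ} (hK : 1 ≤ K) (hKm : K ≤ M * B)
    (K₆ K₇ : ℕ) (r b : ℕ) (ω₀ : Path p B) :
    EE Al 0 (r * M) (G1 c K K₆ K₇ (4 * K) r b) ω₀ ≤
      (Mint M B n K K₇ r b).card * ((B * (M * B + 1) ^ n : ℕ) *
        ((p:ℝ) ^ (n+2) * 4 ^ K₆ * 3 / (p:ℝ) ^ (K+1)) +
        2 ^ ((2 * (4 * K) + 1) ^ (n+2)) * 2 ^ (K₆ + (n+2) * (4 * K))) := by
  classical
  have hne : ∀ j ω, (Al j ω).Nonempty := by
    intro j ω
    rw [← Finset.card_pos]
    have := hB j ω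
    have : 0 < p ^ B := pow_pos (Fact.out : p.Prime).pos _
    omega
  unfold G1
  rw [EE_sum, ← nsmul_eq_mul, ← Finset.sum_const]
  apply Finset.sum_le_sum
  intro l hl
  rw [EE_add_fun]
  have e1 : EE Al 0 (r * M) (fun _ : Path p B => (2:ℝ) ^ ((2 * (4 * K) + 1) ^ (n+2)) *
      2 ^ (K₆ + (n+2) * (4 * K))) ω₀ = 2 ^ ((2 * (4 * K) + 1) ^ (n+2)) *
      2 ^ (K₆ + (n+2) * (4 * K)) := EE_dep Al hne 0 (r * M) (fun _ _ _ => rfl) ω₀
  rw [e1]
  apply add_le_add_left
  rw [EE_sum]
  have h1 : ∀ W ∈ (Wset M B n K r b).filter (fun W => ¬ l1d W (L1 l) ≤ 4 * K),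
      EE Al 0 (r * M) (fun ω => (p:ℝ) ^ (n+2) * (4 ^ K₆ *
        (p:ℝ) ^ Module.finrank (ZMod p) (AA c ω (mx (L1 l) W) r) / (p:ℝ) ^ (K+1))) ω₀ ≤
      (p:ℝ) ^ (n+2) * 4 ^ K₆ * 3 / (p:ℝ) ^ (K+1) := by
    intro W hW
    rw [Finset.mem_filter, mem_Wset] at hW
    rw [mem_Mint] at hl
    have e2 : (fun ω : Path p B => (p:ℝ) ^ (n+2) * (4 ^ K₆ *
        (p:ℝ) ^ Module.finrank (ZMod p) (AA c ω (mx (L1 l) W) r) / (p:ℝ) ^ (K+1))) =
        (fun ω => ((p:ℝ) ^ (n+2) * 4 ^ K₆ / (p:ℝ) ^ (K+1)) *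
        (p:ℝ) ^ Module.finrank (ZMod p) (AA c ω (mx (L1 l) W) r)) := by
      funext ω; ring
    rw [e2, EE_const_mul]
    have h2 := E_size_far Al hB h8 hc hK hKm (mx (L1 l) W) r (by
      have h3 := sum_max W (L1 l)
      rw [sum_L1] at h3
      unfold mx
      omega) ω₀
    calc _ ≤ ((p:ℝ) ^ (n+2) * 4 ^ K₆ / (p:ℝ) ^ (K+1)) * 3 :=
          mul_le_mul_of_nonneg_left h2 (by positivity)
      _ = _ := by ring
  refine (Finset.sum_le_sum h1).trans ?_
  rw [Finset.sum_const, nsmul_eq_mul]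
  apply mul_le_mul_of_nonneg_right _ (by positivity)
  exact_mod_cast (Finset.card_le_card (Finset.filter_subset _ _)).trans (card_Wset_le M B n K r b)

/-- Expected second moment majorant. -/
theorem E_G2 (Al : ℕ → Path p B → Finset (Blk p B)) (hB : ∀ j ω, p ^ B ≤ 2 * (Al j ω).card)
    (h8 : 8 ≤ p) {c : Flg p M B n} (hc : IsFlags c) {K : ℕ} (hK : 1 ≤ K) (hKm : K ≤ M * B)
    (K₆ K₇ : ℕ) (r b : ℕ) (ω₀ : Path p B) :
    EE Al 0 (r * M) (G2 c K K₆ K₇ r b) ω₀ ≤
      (Mint M B n K K₇ r b).card * ((p:ℝ) ^ (n+2) * (p:ℝ) ^ (n+2) * 4 ^ K₆ *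
        (((2 * (4 * K) + 1) ^ (n+2) : ℕ) * (3 * (p:ℝ) ^ K) +
          ((n + K + 3) * (B * (M * B) ^ n) : ℕ) * 3)) := by
  classical
  unfold G2
  rw [EE_sum, ← nsmul_eq_mul, ← Finset.sum_const]
  apply Finset.sum_le_sum
  intro l hl
  rw [EE_sum]
  have hl' := hl
  rw [mem_Mint] at hl'
  have h1 : ∀ l' ∈ Mint M B n K K₇ r b,
      EE Al 0 (r * M) (fun ω => (p:ℝ) ^ (n+2) * (p:ℝ) ^ (n+2) * (4 ^ K₆ *
        (p:ℝ) ^ Module.finrank (ZMod p) (AA c ω (mx (L1 l) (L1 l')) r))) ω₀ ≤
      (p:ℝ) ^ (n+2) * (p:ℝ) ^ (n+2) * 4 ^ K₆ *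
        ((if l1d (L1 l') (L1 l) ≤ 4 * K then 3 * (p:ℝ) ^ K else 0) + 3) := by
    intro l' hl''
    rw [mem_Mint] at hl''
    have e2 : (fun ω : Path p B => (p:ℝ) ^ (n+2) * (p:ℝ) ^ (n+2) * (4 ^ K₆ *
        (p:ℝ) ^ Module.finrank (ZMod p) (AA c ω (mx (L1 l) (L1 l')) r))) =
        (fun ω => ((p:ℝ) ^ (n+2) * (p:ℝ) ^ (n+2) * 4 ^ K₆) *
        (p:ℝ) ^ Module.finrank (ZMod p) (AA c ω (mx (L1 l) (L1 l')) r)) := by
      funext ω; ring
    rw [e2, EE_const_mul]
    apply mul_le_mul_of_nonneg_left _ (by positivity)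
    have h3 := sum_max (L1 l') (L1 l)
    rw [sum_L1, sum_L1] at h3
    split_ifs with h4
    · have h2 := E_size_near Al hB h8 hc hK hKm (mx (L1 l) (L1 l')) r (by
        unfold mx
        omega) ω₀
      linarith
    · have h2 := E_size_far Al hB h8 hc hK hKm (mx (L1 l) (L1 l')) r (by
        unfold mx
        omega) ω₀
      linarith
  refine (Finset.sum_le_sum h1).trans ?_
  rw [← Finset.mul_sum]
  apply mul_le_mul_of_nonneg_left _ (by positivity)
  rw [Finset.sum_add_distrib, Finset.sum_const, nsmul_eq_mul]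
  apply add_le_add
  · rw [← Finset.sum_filter, Finset.sum_const, nsmul_eq_mul]
    apply mul_le_mul_of_nonneg_right _ (by positivity)
    have : ((Mint M B n K K₇ r b).filter (fun l' => l1d (L1 l') (L1 l) ≤ 4 * K)).card ≤
        (2 * (4 * K) + 1) ^ (n+2) := by
      refine le_trans ?_ (card_near (n := n) (M * B + 1) (4 * K) (L1 l))
      apply Finset.card_le_card_of_injOn L1
      · intro l' hl'
        rw [Finset.mem_coe, Finset.mem_filter, mem_Mint] at hl'
        rw [Finset.mem_coe, Finset.mem_filter, Fintype.mem_piFinset]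
        refine ⟨fun a => ?_, hl'.2⟩
        rw [Finset.mem_range]
        have := hl'.1.1 a
        unfold L1
        omega
      · intro x _ y _ hxy
        funext a
        have := congrFun hxy a
        unfold L1 at this
        omega
    exact_mod_cast this
  · apply mul_le_mul_of_nonneg_right _ (by norm_num)
    exact_mod_cast card_Mint_le M B n K K₇ r b

end EG

end Pool.Agent.H470D4
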