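import Pool.Agent.H470D4.Sums2

set_option autoImplicit false
set_option linter.unusedSectionVars false

namespace Pool.Agent.H470D4

open Finset

section Deps
variable {p M B n : ℕ} [Fact p.Prime]

lemma UP_dep {r k : ℕ} (hk : k < M) {A : Submodule (ZMod p) (Vec p M B)}
    (hA : A ≤ Vb p M B (M - 1 - k)) : DepLT (r * M + k) (UP M r k A : Path p B → ℝ) := by
  intro ω ω' h
  unfold UP
  congr 1
  apply Finset.sum_congr rfl
  intro z _
  apply kil_dep hA
  intro i hi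
  by_cases e : i = k
  · rw [e]; simp
  · rw [Function.update_of_ne (by omega), Function.update_of_ne (by omega)]
    apply h
    omega

lemma supA_congr (c : Flg p M B n) {r : ℕ} {ω ω' : Path p B} (h : Agr (r * M) ω ω')
    (S : Finset (Fin (n+2) → ℕ)) : supA c ω r S = supA c ω' r S := by
  unfold supA
  apply Finset.sup_congr rfl
  intro W _
  exact AA_dep c W r _ _ h

lemma Bmaj_dep {c : Flg p M B n} (hc : IsFlags c) (K K₇ s₅ r : ℕ) (b : Fin M) :
    DepLT (r * M + (M - 1 - b)) (fun ω : Path p B => Bmaj c K K₇ s₅ ω r b) := by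
  classical
  intro ω ω' h
  have hb := b.2
  have hagr : Agr (r * M) ω ω' := fun i hi => h i (by omega)
  unfold Bmaj
  beta_reduce
  rw [Iset_dep c K r b hagr]
  apply Finset.sum_congr rfl
  intro l hl
  rw [mem_Mint] at hl
  have hL : AA c ω' (L1 l) r ≤ Vb p M B (M - 1 - (M - 1 - (b:ℕ))) := by
    rw [show M - 1 - (M - 1 - (b:ℕ)) = b by omega]
    apply AA_le_Vb hc
    have := hl.2.1
    unfold L1
    omega
  congr 1
  · apply Finset.sum_congr rfl
    intro W hW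
    rw [Finset.mem_filter, mem_Iset] at hW
    rw [show AA c ω (L1 l) r = AA c ω' (L1 l) r from AA_dep c _ r _ _ hagr,
      show AA c ω W r = AA c ω' W r from AA_dep c _ r _ _ hagr]
    congr 1
    apply UP_dep (by omega) _ _ _ h
    apply sup_le hL
    rw [show M - 1 - (M - 1 - (b:ℕ)) = b by omega]
    exact AA_le_Vb hc ω' hW.1.2.2.1
  · apply Finset.sum_congr rfl
    intro S hS
    rw [Finset.mem_erase, Finset.mem_powerset] at hS
    rw [supA_congr c hagr S]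
    congr 1
    apply UP_dep (by omega) _ _ _ h
    apply supA_le
    intro W hW
    have := hS.2 hW
    rw [Finset.mem_filter, mem_Iset] at this
    rw [show M - 1 - (M - 1 - (b:ℕ)) = b by omega]
    exact AA_le_Vb hc ω' this.1.2.2.1

lemma Xi_dep {c : Flg p M B n} (hc : IsFlags c) (K K₇ r : ℕ) (b : Fin M) :
    DepLT (r * M + (M - b)) (fun ω : Path p B => Xi c K K₇ ω r b) := by
  intro ω ω' h
  have hb := b.2
  have hagr : Agr (r * M) ω ω' := fun i hi => h i (by omega)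
  unfold Xi
  beta_reduce
  apply Finset.sum_congr rfl
  intro l hl
  rw [mem_Mint] at hl
  rw [show AA c ω (L1 l) r = AA c ω' (L1 l) r from AA_dep c _ r _ _ hagr]
  congr 1
  apply kil_dep (β := b)
  · apply AA_le_Vb hc
    have := hl.2.1
    unfold L1
    omega
  · intro k hk
    exact h _ (by omega)

lemma VV_dep {c : Flg p M B n} (hc : IsFlags c) (K K₇ r : ℕ) (b : Fin M) :
    DepLT (r * M + (M - 1 - b)) (fun ω : Path p B => VV c K K₇ ω r b) := by
  intro ω ω' h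
  have hb := b.2
  unfold VV
  beta_reduce
  congr 1
  apply Finset.sum_congr rfl
  intro z _
  congr 1
  refine Xi_dep hc K K₇ r b _ _ (fun i hi => ?_)
  by_cases e : i = r * M + (M - 1 - b)
  · rw [e]; simp
  · rw [Function.update_of_ne e, Function.update_of_ne e]
    exact h i (by omega)

lemma kap_dep {c : Flg p M B n} (hc : IsFlags c) (K K₆ K₂ K₇ s₅ : ℕ) (θ : ℝ) (r : ℕ) (b : Fin M) :
    DepLT (r * M + (M - 1 - b)) (fun ω : Path p B => kap c K K₆ K₂ K₇ s₅ θ ω r b) := by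
  classical
  intro ω ω' h
  have hagr : Agr (r * M) ω ω' := fun i hi => h i (by omega)
  unfold kap
  beta_reduce
  rw [show Bmaj c K K₇ s₅ ω r b = Bmaj c K K₇ s₅ ω' r b from Bmaj_dep hc K K₇ s₅ r b _ _ h,
    show VV c K K₇ ω r b = VV c K K₇ ω' r b from VV_dep hc K K₇ r b _ _ h]
  by_cases hg : good c K K₆ K₂ ω r
  · rw [if_pos hg, if_pos ((good_dep c K K₆ K₂ r hagr).1 hg)]
  · rw [if_neg hg, if_neg (fun h' => hg ((good_dep c K K₆ K₂ r hagr).2 h'))]

lemma xi_dep {c : Flg p M B n} (hc : IsFlags c) (K K₇ : ℕ) (d : Dat p n) (t : ℕ → ZMod p)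
    (r : ℕ) (b : Fin M) :
    DepLT (r * M + (M - b)) (fun ω : Path p B => xi c K K₇ d t ω r b) := by
  intro ω ω' h
  have hb := b.2
  have hagr : Agr (r * M) ω ω' := fun i hi => h i (by omega)
  unfold xi
  beta_reduce
  apply Finset.sum_congr rfl
  intro l hl
  rw [mem_Mint] at hl
  unfold TT
  rw [show cell c d ω r l = cell c d ω' r l from cell_dep c d r l _ _ hagr]
  apply Finset.sum_congr rfl
  intro ν hν
  rw [mem_cell] at hν
  congr 2
  apply row_congr (β := b)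
  · intro k hk
    exact h _ (by omega)
  · exact sub_mem_Vb hc hν.1 hl.2.1

lemma YY_dep {c : Flg p M B n} (hc : IsFlags c) (K K₆ K₂ K₇ : ℕ) (θ : ℝ) (d : Dat p n)
    (t : ℕ → ZMod p) (r : ℕ) (b : Fin M) :
    DepLT (r * M + (M - 1 - b) + 1) (fun ω : Path p B => YY c K K₆ K₂ K₇ θ d t ω r b) := by
  classical
  intro ω ω' h
  have hb := b.2
  have hagr : Agr (r * M) ω ω' := fun i hi => h i (by omega)
  have h' : Agr (r * M + (M - b)) ω ω' := fun i hi => h i (by omega)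
  unfold YY
  beta_reduce
  rw [show Xi c K K₇ ω r b = Xi c K K₇ ω' r b from Xi_dep hc K K₇ r b _ _ h',
    show xi c K K₇ d t ω r b = xi c K K₇ d t ω' r b from xi_dep hc K K₇ d t r b _ _ h']
  by_cases hg : good c K K₆ K₂ ω r
  · have hg' := (good_dep c K K₆ K₂ r hagr).1 hg
    simp only [hg, hg', true_and]
  · have hg' : ¬ good c K K₆ K₂ ω' r := fun h' => hg ((good_dep c K K₆ K₂ r hagr).2 h')
    simp only [hg, hg', false_and]

end Deps

section EK
variable {p M B n : ℕ} [Fact p.Prime]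

/-- The bound for the bias, per level. -/
noncomputable def b1 (p M B n K K₆ : ℕ) : ℝ :=
  (B * (M * B + 1) ^ n : ℕ) * ((p:ℝ) ^ (n+2) * 4 ^ K₆ * 3 / (p:ℝ) ^ (K+1)) +
        2 ^ ((2 * (4 * K) + 1) ^ (n+2)) * 2 ^ (K₆ + (n+2) * (4 * K))

/-- The bound for the second moment, per level. -/
noncomputable def b2 (p M B n K K₆ : ℕ) : ℝ :=
  (p:ℝ) ^ (n+2) * (p:ℝ) ^ (n+2) * 4 ^ K₆ *
        (((2 * (4 * K) + 1) ^ (n+2) : ℕ) * (3 * (p:ℝ) ^ K) +
          ((n + K + 3) * (B * (M * B) ^ n) : ℕ) * 3)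

lemma b1_nonneg (p M B n K K₆ : ℕ) : 0 ≤ b1 p M B n K K₆ := by unfold b1; positivity
lemma b2_nonneg (p M B n K K₆ : ℕ) : 0 ≤ b2 p M B n K K₆ := by unfold b2; positivity

theorem E_kap {c : Flg p M B n} (hc : IsFlags c) {K : ℕ} (hK : 1 ≤ K) (hKm : K ≤ M * B)
    (Al : ℕ → Path p B → Finset (Blk p B)) (hB : ∀ j ω, p ^ B ≤ 2 * (Al j ω).card)
    (h8 : 8 ≤ p) (K₆ K₂ K₇ : ℕ) {θ : ℝ} (hθ : 0 < θ) {T r : ℕ} (hT : (r+1) * M ≤ T) (b : Fin M)
    (ω₀ : Path p B) :
    EE Al 0 T (fun ω => kap c K K₆ K₂ K₇ (4 * K) θ ω r b) ω₀ ≤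
      (Mint M B n K K₇ r b).card * (2 * b1 p M B n K K₆ + 4 * θ * b2 p M B n K K₆) := by
  classical
  have hne : ∀ j ω, (Al j ω).Nonempty := by
    intro j ω
    rw [← Finset.card_pos]
    have := hB j ω
    have : 0 < p ^ B := pow_pos (Fact.out : p.Prime).pos _
    omega
  have hb := b.2
  have h1 : ∀ ω, EE Al (r * M) (r * M + (M - 1 - b) - r * M)
      (fun ω => kap c K K₆ K₂ K₇ (4 * K) θ ω r b) ω ≤
      2 * G1 c K K₆ K₇ (4 * K) r b ω + 4 * θ * G2 c K K₆ K₇ r b ω := by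
    intro ω
    rw [Nat.add_sub_cancel_left]
    by_cases hg : good c K K₆ K₂ ω r
    · have hfr : ∀ ω', Agr (r * M) ω ω' → kap c K K₆ K₂ K₇ (4 * K) θ ω' r b ≤
          2 * Bmaj c K K₇ (4 * K) ω' r b + 4 * θ * VV c K K₇ ω' r b := by
        intro ω' h
        unfold kap
        rw [if_pos ((good_dep c K K₆ K₂ r h).1 hg)]
      refine (EE_mono Al _ _ hfr).trans ?_
      rw [EE_add_fun, EE_const_mul, EE_const_mul]
      have h2 := inner_B hc (K₆ := K₆) (K₂ := K₂) (K₇ := K₇) (s₅ := 4 * K) Al hB (by omega) r b ω hg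
      have h3 := inner_V hc (K₆ := K₆) (K₂ := K₂) (K₇ := K₇) Al hB (by omega) r b ω hg
      have h4 : 4 * θ * EE Al (r * M) (M - 1 - b) (fun ω' => VV c K K₇ ω' r b) ω ≤
          4 * θ * G2 c K K₆ K₇ r b ω := mul_le_mul_of_nonneg_left h3 (by positivity)
      linarith
    · have hfr : ∀ ω', Agr (r * M) ω ω' → kap c K K₆ K₂ K₇ (4 * K) θ ω' r b ≤ (0:ℝ) := by
        intro ω' h
        unfold kap
        rw [if_neg (fun h' => hg ((good_dep c K K₆ K₂ r h).2 h'))]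
      refine (EE_mono Al _ _ hfr).trans ?_
      have e0 : EE Al (r * M) (M - 1 - b) (fun _ => (0:ℝ)) ω = 0 :=
        EE_dep Al hne _ _ (fun _ _ _ => rfl) ω
      rw [e0]
      have h2 := G1_nonneg c K K₆ K₇ (4 * K) r b ω
      have h3 := G2_nonneg c K K₆ K₇ r b ω
      positivity
  refine (EE_split_le Al hne (a := r * M) (a' := r * M + (M - 1 - b)) (by omega) (by
    have : (r+1) * M = r * M + M := by ring
    omega) (kap_dep hc K K₆ K₂ K₇ (4 * K) θ r b) h1 ω₀).trans ?_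
  rw [EE_add_fun, EE_const_mul, EE_const_mul]
  have h2 := E_G1 Al hB h8 hc hK hKm K₆ K₇ r b ω₀
  have h3 := E_G2 Al hB h8 hc hK hKm K₆ K₇ r b ω₀
  have h4 : 4 * θ * EE Al 0 (r * M) (G2 c K K₆ K₇ r b) ω₀ ≤
      4 * θ * ((Mint M B n K K₇ r b).card * b2 p M B n K K₆) :=
    mul_le_mul_of_nonneg_left h3 (by positivity)
  have h5 : EE Al 0 (r * M) (G1 c K K₆ K₇ (4 * K) r b) ω₀ ≤
      (Mint M B n K K₇ r b).card * b1 p M B n K K₆ := h2
  calc _ ≤ 2 * ((Mint M B n K K₇ r b).card * b1 p M B n K K₆) +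
        4 * θ * ((Mint M B n K K₇ r b).card * b2 p M B n K K₆) := by linarith
    _ = _ := by ring

open Classical in
/-- The cost of the truncation. -/
noncomputable def costX (c : Flg p M B n) (K K₆ K₂ K₇ : ℕ) (θ : ℝ) (ω : Path p B) (r β : ℕ) : ℝ :=
  if good c K K₆ K₂ ω r then θ * (Xi c K K₇ ω r β) ^ 2 else 0

lemma costX_dep {c : Flg p M B n} (hc : IsFlags c) (K K₆ K₂ K₇ : ℕ) (θ : ℝ) (r : ℕ) (b : Fin M) :
    DepLT ((r+1) * M) (fun ω : Path p B => costX c K K₆ K₂ K₇ θ ω r b) := by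
  classical
  intro ω ω' h
  have e : (r+1) * M = r * M + M := by ring
  have hagr : Agr (r * M) ω ω' := fun i hi => h i (by omega)
  unfold costX
  beta_reduce
  rw [show Xi c K K₇ ω r b = Xi c K K₇ ω' r b from
    Xi_dep hc K K₇ r b _ _ (fun i hi => h i (by omega))]
  by_cases hg : good c K K₆ K₂ ω r
  · rw [if_pos hg, if_pos ((good_dep c K K₆ K₂ r hagr).1 hg)]
  · rw [if_neg hg, if_neg (fun h' => hg ((good_dep c K K₆ K₂ r hagr).2 h'))]

theorem E_costX {c : Flg p M B n} (hc : IsFlags c) {K : ℕ} (hK : 1 ≤ K) (hKm : K ≤ M * B)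
    (Al : ℕ → Path p B → Finset (Blk p B)) (hB : ∀ j ω, p ^ B ≤ 2 * (Al j ω).card)
    (h8 : 8 ≤ p) (K₆ K₂ K₇ : ℕ) {θ : ℝ} (hθ : 0 < θ) {T r : ℕ} (hT : (r+1) * M ≤ T) (b : Fin M)
    (ω₀ : Path p B) :
    EE Al 0 T (fun ω => costX c K K₆ K₂ K₇ θ ω r b) ω₀ ≤
      (Mint M B n K K₇ r b).card * (θ * b2 p M B n K K₆) := by
  classical
  have hne : ∀ j ω, (Al j ω).Nonempty := by
    intro j ω
    rw [← Finset.card_pos]
    have := hB j ω
    have : 0 < p ^ B := pow_pos (Fact.out : p.Prime).pos _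
    omega
  have e : (r+1) * M = r * M + M := by ring
  have h1 : ∀ ω, EE Al (r * M) ((r+1) * M - r * M)
      (fun ω => costX c K K₆ K₂ K₇ θ ω r b) ω ≤ θ * G2 c K K₆ K₇ r b ω := by
    intro ω
    rw [show (r+1) * M - r * M = M by omega]
    by_cases hg : good c K K₆ K₂ ω r
    · have hfr : ∀ ω', Agr (r * M) ω ω' → costX c K K₆ K₂ K₇ θ ω' r b ≤
          θ * (Xi c K K₇ ω' r b) ^ 2 := by
        intro ω' h
        unfold costX
        rw [if_pos ((good_dep c K K₆ K₂ r h).1 hg)]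
      refine (EE_mono Al _ _ hfr).trans ?_
      rw [EE_const_mul]
      exact mul_le_mul_of_nonneg_left
        (inner_X (K₆ := K₆) (K₂ := K₂) (K₇ := K₇) Al hB (by omega) r b ω hg) hθ.le
    · have hfr : ∀ ω', Agr (r * M) ω ω' → costX c K K₆ K₂ K₇ θ ω' r b ≤ (0:ℝ) := by
        intro ω' h
        unfold costX
        rw [if_neg (fun h' => hg ((good_dep c K K₆ K₂ r h).2 h'))]
      refine (EE_mono Al _ _ hfr).trans ?_
      have e0 : EE Al (r * M) M (fun _ => (0:ℝ)) ω = 0 :=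
        EE_dep Al hne _ _ (fun _ _ _ => rfl) ω
      rw [e0]
      have h3 := G2_nonneg c K K₆ K₇ r b ω
      positivity
  refine (EE_split_le Al hne (a := r * M) (a' := (r+1) * M) (by omega) hT
    (costX_dep hc K K₆ K₂ K₇ θ r b) h1 ω₀).trans ?_
  rw [EE_const_mul]
  have h3 := E_G2 Al hB h8 hc hK hKm K₆ K₇ r b ω₀
  calc θ * EE Al 0 (r * M) (G2 c K K₆ K₇ r b) ω₀ ≤
      θ * ((Mint M B n K K₇ r b).card * b2 p M B n K K₆) :=
        mul_le_mul_of_nonneg_left h3 hθ.le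
    _ = _ := by ring

end EK

end Pool.Agent.H470D4
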