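import Pool.Agent.H470D4.Sums3

set_option autoImplicit false
set_option linter.unusedSectionVars false

namespace Pool.Agent.H470D4

open Finset

section Costs
variable {p M B n : ℕ} [Fact p.Prime]

/-- Critical levels close to the end of their block. -/
def Bd (M B n K K₇ r : ℕ) : Finset (Fin (n+2) → ℕ) :=
  ((Lbox M B n).filter (fun l => l 0 + 0 < M * B ∧ ((l 0 + 0) / B + 1) * B < (l 0 + 0) + K₇ + 1)).filter
    (fun l => M * B ≤ ∑ a, l a + (n + 2) + r + K ∧ ∑ a, l a + r ≤ M * B)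

/-- Large windows with deficit `s`. -/
def Lg (M B n K s r : ℕ) : Finset (Fin (n+2) → ℕ) :=
  (Lbox M B n).filter (fun l => ∑ a, l a + (n + 2) + r + K + 1 + s = M * B)

/-- The threshold window above a large one. -/
def Wof (l : Fin (n+2) → ℕ) (s : ℕ) : Fin (n+2) → ℕ := fun a => if a = 0 then l 0 + (s + 1) else l a + 1

/-- All windows. -/
def Wbox (M B n : ℕ) : Finset (Fin (n+2) → ℕ) := Fintype.piFinset (fun _ => range (M * B + 1))

lemma card_Wbox (M B n : ℕ) : (Wbox M B n).card = (M * B + 1) ^ (n+2) := by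
  unfold Wbox; simp

lemma mem_Wbox {W : Fin (n+2) → ℕ} : W ∈ Wbox M B n ↔ ∀ a, W a ≤ M * B := by
  unfold Wbox
  rw [Fintype.mem_piFinset]
  simp only [Finset.mem_range, Nat.lt_succ_iff]

open Classical in
noncomputable def costB (c : Flg p M B n) (K K₆ K₂ K₇ : ℕ) (ω : Path p B) (r : ℕ) : ℝ :=
  if good c K K₆ K₂ ω r then ∑ l ∈ Bd M B n K K₇ r, (p:ℝ) ^ (n+2) *
    (p:ℝ) ^ Module.finrank (ZMod p) (AA c ω (L1 l) r) * kil M r (AA c ω (L1 l) r) ω else 0

open Classical in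
noncomputable def strad (c : Flg p M B n) (ω : Path p B) (W : Fin (n+2) → ℕ) (r : ℕ) : ℝ :=
  if AA c ω W r ⊓ Vb p M B (W 0 / B + 1) = ⊥ then 0 else 1

open Classical in
noncomputable def costL (c : Flg p M B n) (K K₆ K₂ : ℕ) (ω : Path p B) (s r : ℕ) : ℝ :=
  if good c K K₆ K₂ ω r then ∑ l ∈ Lg M B n K s r, (p:ℝ) ^ (n+2) *
    (p:ℝ) ^ Module.finrank (ZMod p) (AA c ω (L1 l) r) * strad c ω (Wof l s) r *
      kil M r (AA c ω (L1 l) r) ω else 0

noncomputable def costE (c : Flg p M B n) (K s₁ : ℕ) (ω : Path p B) (r : ℕ) : ℝ :=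
  ∑ W ∈ (Wbox M B n).filter (fun W => ∑ a, W a + r + K + 1 + s₁ = M * B),
    kil M r (AA c ω W r) ω

noncomputable def costO (c : Flg p M B n) (ω : Path p B) (r : ℕ) : ℝ :=
  ∑ W ∈ (Wbox M B n).filter (fun W => ∑ a, W a + r = M * B + 1),
    (p:ℝ) ^ Module.finrank (ZMod p) (AA c ω W r)

noncomputable def costG1 (c : Flg p M B n) (K K₆ : ℕ) (ω : Path p B) (r : ℕ) : ℝ :=
  ∑ W ∈ (Wbox M B n).filter (fun W => ∑ a, W a + r + K + 1 = M * B),
    (p:ℝ) ^ Module.finrank (ZMod p) (AA c ω W r) / (p:ℝ) ^ (K₆+1)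

noncomputable def costG2 (c : Flg p M B n) (K₂ : ℕ) (ω : Path p B) (r : ℕ) : ℝ :=
  ∑ W ∈ (Wbox M B n).filter (fun W => ∑ a, W a + r = M * B + K₂),
    ((p:ℝ) ^ Module.finrank (ZMod p) (AA c ω W r) - 1)

end Costs

section Exps
variable {p M B n : ℕ} [Fact p.Prime]

lemma ne_of_dens {Al : ℕ → Path p B → Finset (Blk p B)} (hB : ∀ j ω, p ^ B ≤ 2 * (Al j ω).card) :
    ∀ j ω, (Al j ω).Nonempty := by
  intro j ω
  rw [← Finset.card_pos]
  have := hB j ω
  have : 0 < p ^ B := pow_pos (Fact.out : p.Prime).pos _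
  omega

/-- A function of the past times the row indicator. -/
lemma E_row_mul (Al : ℕ → Path p B → Finset (Blk p B)) (hB : ∀ j ω, p ^ B ≤ 2 * (Al j ω).card)
    (h4 : 4 ≤ p) (r : ℕ) (ω : Path p B) (A : Submodule (ZMod p) (Vec p M B)) (κ : ℝ) (hκ : 0 ≤ κ) :
    EE Al (r * M) M (fun ω' => κ * kil M r A ω') ω ≤
      κ * (2 / (p:ℝ)) ^ Module.finrank (ZMod p) A := by
  rw [EE_const_mul]
  exact mul_le_mul_of_nonneg_left (E_kil Al hB h4 r ω A) hκ

lemma size_two (a : ℕ) : (p:ℝ) ^ a * (2 / (p:ℝ)) ^ a = 2 ^ a := by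
  have hp0 : (0:ℝ) < p := by exact_mod_cast (Fact.out : p.Prime).pos
  rw [← mul_pow]
  congr 1
  field_simp

lemma costB_dep (c : Flg p M B n) (K K₆ K₂ K₇ r : ℕ) :
    DepLT ((r+1) * M) (fun ω : Path p B => costB c K K₆ K₂ K₇ ω r) := by
  classical
  intro ω ω' h
  have e : (r+1) * M = r * M + M := by ring
  have hagr : Agr (r * M) ω ω' := fun i hi => h i (by omega)
  unfold costB
  beta_reduce
  by_cases hg : good c K K₆ K₂ ω r
  · rw [if_pos hg, if_pos ((good_dep c K K₆ K₂ r hagr).1 hg)]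
    apply Finset.sum_congr rfl
    intro l _
    rw [show AA c ω (L1 l) r = AA c ω' (L1 l) r from AA_dep c _ r _ _ hagr]
    congr 1
    exact kil_dep_full r _ _ _ h
  · rw [if_neg hg, if_neg (fun h' => hg ((good_dep c K K₆ K₂ r hagr).2 h'))]

theorem E_costB {c : Flg p M B n} {K : ℕ}
    (Al : ℕ → Path p B → Finset (Blk p B)) (hB : ∀ j ω, p ^ B ≤ 2 * (Al j ω).card)
    (h8 : 8 ≤ p) (K₆ K₂ K₇ : ℕ) {T r : ℕ} (hT : (r+1) * M ≤ T) (ω₀ : Path p B) :
    EE Al 0 T (fun ω => costB c K K₆ K₂ K₇ ω r) ω₀ ≤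
      ∑ l ∈ Bd M B n K K₇ r, (p:ℝ) ^ (n+2) * 2 ^ K₆ := by
  classical
  have hne := ne_of_dens hB
  have e : (r+1) * M = r * M + M := by ring
  have h1 : ∀ ω, EE Al (r * M) ((r+1) * M - r * M)
      (fun ω => costB c K K₆ K₂ K₇ ω r) ω ≤ ∑ l ∈ Bd M B n K K₇ r, (p:ℝ) ^ (n+2) * 2 ^ K₆ := by
    intro ω
    rw [show (r+1) * M - r * M = M by omega]
    by_cases hg : good c K K₆ K₂ ω r
    · have hfr : ∀ ω', Agr (r * M) ω ω' → costB c K K₆ K₂ K₇ ω' r ≤
          ∑ l ∈ Bd M B n K K₇ r, ((p:ℝ) ^ (n+2) *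
            (p:ℝ) ^ Module.finrank (ZMod p) (AA c ω (L1 l) r)) * kil M r (AA c ω (L1 l) r) ω' := by
        intro ω' h
        unfold costB
        rw [if_pos ((good_dep c K K₆ K₂ r h).1 hg)]
        apply le_of_eq
        apply Finset.sum_congr rfl
        intro l _
        rw [show AA c ω' (L1 l) r = AA c ω (L1 l) r from (AA_dep c _ r _ _ h).symm]
      refine (EE_mono Al _ _ hfr).trans ?_
      rw [EE_sum]
      apply Finset.sum_le_sum
      intro l hl
      refine (E_row_mul Al hB (by omega) r ω _ _ (by positivity)).trans ?_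
      rw [mul_assoc, size_two]
      apply mul_le_mul_of_nonneg_left _ (by positivity)
      apply pow_le_pow_right₀ (by norm_num)
      apply hg.1
      · intro a
        unfold Bd Lbox at hl
        rw [Finset.mem_filter, Finset.mem_filter, Fintype.mem_piFinset] at hl
        have := Finset.mem_range.1 (hl.1.1 a)
        unfold L1
        omega
      · unfold Bd at hl
        rw [Finset.mem_filter] at hl
        rw [sum_L1]
        omega
    · have hfr : ∀ ω', Agr (r * M) ω ω' → costB c K K₆ K₂ K₇ ω' r ≤ (0:ℝ) := by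
        intro ω' h
        unfold costB
        rw [if_neg (fun h' => hg ((good_dep c K K₆ K₂ r h).2 h'))]
      refine (EE_mono Al _ _ hfr).trans ?_
      have e0 : EE Al (r * M) M (fun _ => (0:ℝ)) ω = 0 :=
        EE_dep Al hne _ _ (fun _ _ _ => rfl) ω
      rw [e0]
      positivity
  refine (EE_split_le Al hne (a := r * M) (a' := (r+1) * M) (by omega) hT
    (costB_dep c K K₆ K₂ K₇ r) h1 ω₀).trans ?_
  exact le_of_eq (EE_dep Al hne _ _ (fun _ _ _ => rfl) ω₀)

lemma strad_dep (c : Flg p M B n) (W : Fin (n+2) → ℕ) (r : ℕ) :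
    DepLT (r * M) (fun ω : Path p B => strad c ω W r) := by
  intro ω ω' h
  unfold strad
  beta_reduce
  rw [show AA c ω W r = AA c ω' W r from AA_dep c _ r _ _ h]

lemma strad_nonneg (c : Flg p M B n) (ω : Path p B) (W : Fin (n+2) → ℕ) (r : ℕ) :
    0 ≤ strad c ω W r := by unfold strad; split_ifs <;> norm_num

lemma strad_le_one (c : Flg p M B n) (ω : Path p B) (W : Fin (n+2) → ℕ) (r : ℕ) :
    strad c ω W r ≤ 1 := by unfold strad; split_ifs <;> norm_num

lemma costL_dep (c : Flg p M B n) (K K₆ K₂ s r : ℕ) :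
    DepLT ((r+1) * M) (fun ω : Path p B => costL c K K₆ K₂ ω s r) := by
  classical
  intro ω ω' h
  have e : (r+1) * M = r * M + M := by ring
  have hagr : Agr (r * M) ω ω' := fun i hi => h i (by omega)
  unfold costL
  beta_reduce
  by_cases hg : good c K K₆ K₂ ω r
  · rw [if_pos hg, if_pos ((good_dep c K K₆ K₂ r hagr).1 hg)]
    apply Finset.sum_congr rfl
    intro l _
    rw [show AA c ω (L1 l) r = AA c ω' (L1 l) r from AA_dep c _ r _ _ hagr,
      show strad c ω (Wof l s) r = strad c ω' (Wof l s) r from strad_dep c _ r _ _ hagr]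
    congr 1
    exact kil_dep_full r _ _ _ h
  · rw [if_neg hg, if_neg (fun h' => hg ((good_dep c K K₆ K₂ r hagr).2 h'))]

lemma sum_Wof (l : Fin (n+2) → ℕ) (s : ℕ) : ∑ a, Wof l s a = ∑ a, l a + (n + 2) + s := by
  rw [Fin.sum_univ_succ, Fin.sum_univ_succ l]
  have : ∑ i : Fin (n+1), Wof l s i.succ = ∑ i : Fin (n+1), (l i.succ + 1) := by
    apply Finset.sum_congr rfl
    intro i _
    unfold Wof
    rw [if_neg (Fin.succ_ne_zero i)]
  rw [this, Finset.sum_add_distrib]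
  simp [Wof]
  omega

lemma L1_le_Wof (l : Fin (n+2) → ℕ) (s : ℕ) (a : Fin (n+2)) : L1 l a ≤ Wof l s a := by
  unfold L1 Wof
  split_ifs with h
  · rw [h]; omega
  · exact le_rfl

/-- Probability that a threshold window straddles. -/
lemma E_strad {c : Flg p M B n} (hc : IsFlags c) {K : ℕ} (hK : 1 ≤ K) (hKm : K ≤ M * B)
    (Al : ℕ → Path p B → Finset (Blk p B)) (hB : ∀ j ω, p ^ B ≤ 2 * (Al j ω).card)
    (h8 : 8 ≤ p) (b' : ℕ) (W : Fin (n+2) → ℕ) (r : ℕ) (hW : ∑ a, W a + r + K + 1 = M * B)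
    (hend : W 0 + 2 * (K + b') + 1 ≤ (W 0 / B + 1) * B) (ω₀ : Path p B) :
    EE Al 0 (r * M) (fun ω => strad c ω W r) ω₀ ≤ 2 / (p:ℝ) ^ b' := by
  classical
  have hp0 : (0:ℝ) < p := by exact_mod_cast (Fact.out : p.Prime).pos
  have hp1 : (1:ℝ) < p := by exact_mod_cast (Fact.out : p.Prime).one_lt
  set e := (W 0 / B + 1) * B with he
  set W' : Fin (n+2) → ℕ := fun a => if a = 0 then e else W a with hW'
  have h0 : W 0 ≤ ∑ a, W a := Finset.single_le_sum (fun _ _ => Nat.zero_le _) (Finset.mem_univ 0)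
  have hBpos : 0 < B := by
    rcases Nat.eq_zero_or_pos B with h | h
    · rw [h] at hW; omega
    · exact h
  have hlt : W 0 < M * B := by omega
  have hdiv : W 0 / B < M := Nat.div_lt_of_lt_mul (by rwa [mul_comm] at hlt)
  have heM : e ≤ M * B := Nat.mul_le_mul_right _ hdiv
  have hsum : ∑ a, W' a + W 0 = ∑ a, W a + e := by
    rw [Fin.sum_univ_succ, Fin.sum_univ_succ W]
    have : ∑ i : Fin (n+1), W' i.succ = ∑ i : Fin (n+1), W i.succ := by
      apply Finset.sum_congr rfl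
      intro i _
      simp only [hW']
      rw [if_neg (Fin.succ_ne_zero i)]
    rw [this]
    have hW0 : W' 0 = e := by simp [hW']
    rw [hW0]
    omega
  have hinf : ∀ ω : Path p B, AA c ω W r ⊓ Vb p M B (W 0 / B + 1) = AA c ω W' r := by
    intro ω
    ext ν
    rw [Submodule.mem_inf, mem_AA, mem_AA, mem_Vb]
    constructor
    · rintro ⟨⟨h1, h2⟩, h3⟩
      refine ⟨fun a j hj => ?_, h2⟩
      simp only [hW'] at hj
      split_ifs at hj with ha
      · subst ha
        have hjm : j < M * B := by omega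
        rw [show c 0 j ν = ν ⟨j, hjm⟩ from hc.zero ⟨j, hjm⟩ ν]
        exact h3 ⟨j, hjm⟩ (by rw [← he]; exact hj)
      · exact h1 a j hj
    · rintro ⟨h1, h2⟩
      refine ⟨⟨fun a j hj => h1 a j ?_, h2⟩, fun i hi => ?_⟩
      · simp only [hW']
        split_ifs with ha
        · subst ha; omega
        · exact hj
      · have := h1 0 i (by
          have hW0 : W' 0 = e := by simp [hW']
          rw [hW0]; exact hi)
        rwa [hc.zero] at this
  have h1 : ∀ ω : Path p B, strad c ω W r ≤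
      (p:ℝ) ^ (Module.finrank (ZMod p) (AA c ω W' r)) - 1 := by
    intro ω
    unfold strad
    rw [hinf]
    split_ifs with h
    · rw [h]; simp
    · have h2 : 1 ≤ Module.finrank (ZMod p) (AA c ω W' r) := by
        by_contra h3
        push Not at h3
        apply h
        rw [← Submodule.finrank_eq_zero (R := ZMod p)]
        omega
      have h3 : (2:ℝ) ≤ (p:ℝ) ^ (Module.finrank (ZMod p) (AA c ω W' r)) := by
        calc (2:ℝ) ≤ p := by exact_mod_cast (Fact.out : p.Prime).two_le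
          _ = (p:ℝ) ^ 1 := (pow_one _).symm
          _ ≤ _ := pow_le_pow_right₀ hp1.le h2
      linarith
  refine (EE_mono Al 0 (r * M) (fun ω _ => h1 ω)).trans ?_
  refine (expA2 Al hB h8 c hc K hK hKm W' r (by omega) ω₀).trans ?_
  have h2 := two_div_pow_le (p := p) (by omega) (s := ∑ a, W' a + r + K - M * B) (k := K + b')
    (by omega)
  rw [le_div_iff₀ (by positivity)]
  rw [pow_add] at h2
  nlinarith [h2]

theorem E_costL {c : Flg p M B n} (hc : IsFlags c) {K : ℕ} (hK : 1 ≤ K) (hKm : K ≤ M * B)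
    (Al : ℕ → Path p B → Finset (Blk p B)) (hB : ∀ j ω, p ^ B ≤ 2 * (Al j ω).card)
    (h8 : 8 ≤ p) (K₆ K₂ b' s : ℕ) {T r : ℕ} (hT : (r+1) * M ≤ T) (ω₀ : Path p B) :
    EE Al 0 T (fun ω => costL c K K₆ K₂ ω s r) ω₀ ≤
      ∑ l ∈ Lg M B n K s r, (p:ℝ) ^ (n+2) * 2 ^ (K₆ + s) *
        ((if l 0 + (s+1) < M * B ∧ ((l 0 + (s+1)) / B + 1) * B <
          (l 0 + (s+1)) + 2 * (K + b') + 1 then 1 else 0) + 2 / (p:ℝ) ^ b') := by
  classical
  have hne := ne_of_dens hB
  have hp0 : (0:ℝ) < p := by exact_mod_cast (Fact.out : p.Prime).pos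
  have e : (r+1) * M = r * M + M := by ring
  have h1 : ∀ ω, EE Al (r * M) ((r+1) * M - r * M)
      (fun ω => costL c K K₆ K₂ ω s r) ω ≤
        ∑ l ∈ Lg M B n K s r, ((p:ℝ) ^ (n+2) * 2 ^ (K₆ + s)) * strad c ω (Wof l s) r := by
    intro ω
    rw [show (r+1) * M - r * M = M by omega]
    by_cases hg : good c K K₆ K₂ ω r
    · have hfr : ∀ ω', Agr (r * M) ω ω' → costL c K K₆ K₂ ω' s r ≤
          ∑ l ∈ Lg M B n K s r, ((p:ℝ) ^ (n+2) *
            (p:ℝ) ^ Module.finrank (ZMod p) (AA c ω (L1 l) r) * strad c ω (Wof l s) r) *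
              kil M r (AA c ω (L1 l) r) ω' := by
        intro ω' h
        unfold costL
        rw [if_pos ((good_dep c K K₆ K₂ r h).1 hg)]
        apply le_of_eq
        apply Finset.sum_congr rfl
        intro l _
        rw [show AA c ω' (L1 l) r = AA c ω (L1 l) r from (AA_dep c _ r _ _ h).symm,
          show strad c ω' (Wof l s) r = strad c ω (Wof l s) r from (strad_dep c _ r _ _ h).symm]
      refine (EE_mono Al _ _ hfr).trans ?_
      rw [EE_sum]
      apply Finset.sum_le_sum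
      intro l hl
      have hs0 := strad_nonneg c ω (Wof l s) r
      refine (E_row_mul Al hB (by omega) r ω _ _ (by positivity)).trans ?_
      have e2 : (p:ℝ) ^ (n+2) * (p:ℝ) ^ Module.finrank (ZMod p) (AA c ω (L1 l) r) *
          strad c ω (Wof l s) r * (2 / (p:ℝ)) ^ Module.finrank (ZMod p) (AA c ω (L1 l) r) =
          (p:ℝ) ^ (n+2) * ((p:ℝ) ^ Module.finrank (ZMod p) (AA c ω (L1 l) r) *
          (2 / (p:ℝ)) ^ Module.finrank (ZMod p) (AA c ω (L1 l) r)) * strad c ω (Wof l s) r := by ring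
      rw [e2, size_two]
      apply mul_le_mul_of_nonneg_right _ hs0
      apply mul_le_mul_of_nonneg_left _ (by positivity)
      apply pow_le_pow_right₀ (by norm_num)
      unfold Lg Lbox at hl
      rw [Finset.mem_filter, Fintype.mem_piFinset] at hl
      have h2 := finrank_AA_le c ω (W := Wof l s) (W' := L1 l) r (L1_le_Wof l s)
      rw [sum_Wof, sum_L1] at h2
      have h3 : Module.finrank (ZMod p) (AA c ω (Wof l s) r) ≤ K₆ := by
        apply hg.1
        · intro a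
          have h4 : Wof l s a ≤ ∑ a, Wof l s a :=
            Finset.single_le_sum (fun _ _ => Nat.zero_le _) (Finset.mem_univ a)
          rw [sum_Wof] at h4
          omega
        · rw [sum_Wof]
          omega
      omega
    · have hfr : ∀ ω', Agr (r * M) ω ω' → costL c K K₆ K₂ ω' s r ≤ (0:ℝ) := by
        intro ω' h
        unfold costL
        rw [if_neg (fun h' => hg ((good_dep c K K₆ K₂ r h).2 h'))]
      refine (EE_mono Al _ _ hfr).trans ?_
      have e0 : EE Al (r * M) M (fun _ => (0:ℝ)) ω = 0 :=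
        EE_dep Al hne _ _ (fun _ _ _ => rfl) ω
      rw [e0]
      exact Finset.sum_nonneg fun l _ => mul_nonneg (by positivity) (strad_nonneg c ω _ r)
  refine (EE_split_le Al hne (a := r * M) (a' := (r+1) * M) (by omega) hT
    (costL_dep c K K₆ K₂ s r) h1 ω₀).trans ?_
  rw [EE_sum]
  apply Finset.sum_le_sum
  intro l hl
  rw [EE_const_mul]
  apply mul_le_mul_of_nonneg_left _ (by positivity)
  unfold Lg at hl
  rw [Finset.mem_filter] at hl
  have hW0 : Wof l s 0 = l 0 + (s+1) := by unfold Wof; rw [if_pos rfl]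
  have hWs := sum_Wof l s
  have hle : l 0 ≤ ∑ a, l a := Finset.single_le_sum (fun _ _ => Nat.zero_le _) (Finset.mem_univ 0)
  have hlt : l 0 + (s+1) < M * B := by omega
  have hinv : (0:ℝ) ≤ 2 / (p:ℝ) ^ b' := by positivity
  split_ifs with h2
  · have h3 : EE Al 0 (r * M) (fun ω => strad c ω (Wof l s) r) ω₀ ≤
        EE Al 0 (r * M) (fun _ => (1:ℝ)) ω₀ := EE_mono Al _ _ (fun ω _ => strad_le_one c ω _ r)
    have e0 : EE Al 0 (r * M) (fun _ : Path p B => (1:ℝ)) ω₀ = 1 :=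
      EE_dep Al hne _ _ (fun _ _ _ => rfl) ω₀
    rw [e0] at h3
    linarith
  · rw [zero_add]
    apply E_strad hc hK hKm Al hB h8 b' (Wof l s) r (by omega)
    rw [hW0]
    by_contra h3
    push Not at h3
    exact h2 ⟨hlt, by omega⟩

lemma costE_dep (c : Flg p M B n) (K s₁ r : ℕ) :
    DepLT ((r+1) * M) (fun ω : Path p B => costE c K s₁ ω r) := by
  intro ω ω' h
  have e : (r+1) * M = r * M + M := by ring
  have hagr : Agr (r * M) ω ω' := fun i hi => h i (by omega)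
  unfold costE
  beta_reduce
  apply Finset.sum_congr rfl
  intro l _
  rw [show AA c ω l r = AA c ω' l r from AA_dep c _ r _ _ hagr]
  exact kil_dep_full r _ _ _ h

theorem E_costE {c : Flg p M B n} (hc : IsFlags c) {K s₁ : ℕ}
    (Al : ℕ → Path p B → Finset (Blk p B)) (hB : ∀ j ω, p ^ B ≤ 2 * (Al j ω).card)
    (h8 : 8 ≤ p) {T r : ℕ} (hT : (r+1) * M ≤ T) (ω₀ : Path p B) :
    EE Al 0 T (fun ω => costE c K s₁ ω r) ω₀ ≤
      ∑ W ∈ (Wbox M B n).filter (fun W => ∑ a, W a + r + K + 1 + s₁ = M * B),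
        (2 / (p:ℝ)) ^ (K + 1 + s₁) := by
  classical
  have hne := ne_of_dens hB
  have hp8 : (8:ℝ) ≤ p := by exact_mod_cast h8
  have e : (r+1) * M = r * M + M := by ring
  have h1 : ∀ ω, EE Al (r * M) ((r+1) * M - r * M)
      (fun ω => costE c K s₁ ω r) ω ≤
        ∑ W ∈ (Wbox M B n).filter (fun W => ∑ a, W a + r + K + 1 + s₁ = M * B),
        (2 / (p:ℝ)) ^ (K + 1 + s₁) := by
    intro ω
    rw [show (r+1) * M - r * M = M by omega]
    have hfr : ∀ ω', Agr (r * M) ω ω' → costE c K s₁ ω' r ≤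
        ∑ W ∈ (Wbox M B n).filter (fun W => ∑ a, W a + r + K + 1 + s₁ = M * B),
          kil M r (AA c ω W r) ω' := by
      intro ω' h
      unfold costE
      apply le_of_eq
      apply Finset.sum_congr rfl
      intro l _
      rw [show AA c ω' l r = AA c ω l r from (AA_dep c _ r _ _ h).symm]
    refine (EE_mono Al _ _ hfr).trans ?_
    rw [EE_sum]
    apply Finset.sum_le_sum
    intro W hW
    rw [Finset.mem_filter] at hW
    refine (E_kil Al hB (by omega) r ω _).trans ?_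
    apply pow_le_pow_of_le_one (by positivity) (by rw [div_le_one (by linarith)]; linarith)
    have := finrank_AA_ge c hc ω W r
    omega
  refine (EE_split_le Al hne (a := r * M) (a' := (r+1) * M) (by omega) hT
    (costE_dep c K s₁ r) h1 ω₀).trans ?_
  exact le_of_eq (EE_dep Al hne _ _ (fun _ _ _ => rfl) ω₀)

lemma fr_dep (c : Flg p M B n) (W : Fin (n+2) → ℕ) (r : ℕ) (f : ℕ → ℝ) :
    DepLT (r * M) (fun ω : Path p B => f (Module.finrank (ZMod p) (AA c ω W r))) := by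
  intro ω ω' h
  beta_reduce
  rw [show AA c ω W r = AA c ω' W r from AA_dep c _ r _ _ h]

/-- Expectation of a function of the past. -/
lemma EE_past {Al : ℕ → Path p B → Finset (Blk p B)} (hne : ∀ j ω, (Al j ω).Nonempty)
    {T a : ℕ} (h : a ≤ T) {f : Path p B → ℝ} (hf : DepLT a f) (ω₀ : Path p B) :
    EE Al 0 T f ω₀ = EE Al 0 a f ω₀ := by
  rw [EE_split Al hne le_rfl h hf, Nat.sub_self]
  rfl

theorem E_costO {c : Flg p M B n} (hc : IsFlags c) {K : ℕ} (hK : 1 ≤ K) (hKm : K ≤ M * B)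
    (Al : ℕ → Path p B → Finset (Blk p B)) (hB : ∀ j ω, p ^ B ≤ 2 * (Al j ω).card)
    (h8 : 8 ≤ p) {T r : ℕ} (hT : (r+1) * M ≤ T) (ω₀ : Path p B) :
    EE Al 0 T (fun ω => costO c ω r) ω₀ ≤
      ∑ W ∈ (Wbox M B n).filter (fun W => ∑ a, W a + r = M * B + 1), (1 + 2 ^ (K+2) : ℝ) := by
  classical
  have hne := ne_of_dens hB
  have hp8 : (8:ℝ) ≤ p := by exact_mod_cast h8
  have e : (r+1) * M = r * M + M := by ring
  unfold costO
  rw [EE_sum]
  apply Finset.sum_le_sum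
  intro W hW
  rw [Finset.mem_filter] at hW
  rw [EE_past hne (a := r * M) (by omega) (fr_dep c W r (fun a => (p:ℝ) ^ a))]
  refine (E_size Al hB h8 hc hK hKm W r (by omega) ω₀).trans ?_
  rw [show ∑ a, W a + r + K - M * B = K + 1 by omega]
  have h2 : (p:ℝ) ^ K * (2 / (p:ℝ)) ^ (K+1) ≤ 2 ^ (K+1) := by
    rw [div_pow, pow_succ (p:ℝ) K]
    have h3 : (0:ℝ) < (p:ℝ) ^ K := by positivity
    have h4 : (p:ℝ) ^ K * (2 ^ (K+1) / ((p:ℝ) ^ K * p)) = 2 ^ (K+1) / p := by
      field_simp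
    rw [h4]
    apply div_le_self (by positivity) (by linarith)
  have h5 : (2:ℝ) ^ (K+2) = 2 * 2 ^ (K+1) := by ring
  rw [h5]
  linarith

theorem E_costG1 {c : Flg p M B n} (hc : IsFlags c) {K : ℕ}
    (Al : ℕ → Path p B → Finset (Blk p B)) (hB : ∀ j ω, p ^ B ≤ 2 * (Al j ω).card)
    (h8 : 8 ≤ p) (K₆ : ℕ) {T r : ℕ} (hT : (r+1) * M ≤ T) (ω₀ : Path p B) :
    EE Al 0 T (fun ω => costG1 c K K₆ ω r) ω₀ ≤
      ∑ W ∈ (Wbox M B n).filter (fun W => ∑ a, W a + r + K + 1 = M * B),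
        (2 * (p:ℝ) ^ (K+1) / (p:ℝ) ^ (K₆ + 1)) := by
  classical
  have hne := ne_of_dens hB
  have hp0 : (0:ℝ) < p := by exact_mod_cast (Fact.out : p.Prime).pos
  have e : (r+1) * M = r * M + M := by ring
  unfold costG1
  rw [EE_sum]
  apply Finset.sum_le_sum
  intro W hW
  rw [Finset.mem_filter] at hW
  rw [EE_past hne (a := r * M) (by omega) (fr_dep c W r (fun a => (p:ℝ) ^ a / (p:ℝ) ^ (K₆+1)))]
  have e2 : (fun ω : Path p B => (p:ℝ) ^ Module.finrank (ZMod p) (AA c ω W r) / (p:ℝ) ^ (K₆+1)) =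
      (fun ω => (1 / (p:ℝ) ^ (K₆+1)) * (p:ℝ) ^ Module.finrank (ZMod p) (AA c ω W r)) := by
    funext ω; ring
  rw [e2, EE_const_mul]
  have h1 := expA1 Al hB h8 c hc (K+1) (by omega) W r (by omega) ω₀
  rw [show M * B - (∑ a, W a + r) = K + 1 by omega] at h1
  calc _ ≤ (1 / (p:ℝ) ^ (K₆+1)) * (2 * (p:ℝ) ^ (K+1)) :=
        mul_le_mul_of_nonneg_left h1 (by positivity)
    _ = _ := by ring

theorem E_costG2 {c : Flg p M B n} (hc : IsFlags c) {K : ℕ} (hK : 1 ≤ K) (hKm : K ≤ M * B)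
    (Al : ℕ → Path p B → Finset (Blk p B)) (hB : ∀ j ω, p ^ B ≤ 2 * (Al j ω).card)
    (h8 : 8 ≤ p) (K₂ : ℕ) {T r : ℕ} (hT : (r+1) * M ≤ T) (ω₀ : Path p B) :
    EE Al 0 T (fun ω => costG2 c K₂ ω r) ω₀ ≤
      ∑ W ∈ (Wbox M B n).filter (fun W => ∑ a, W a + r = M * B + K₂),
        (2 * (p:ℝ) ^ K * (2 / (p:ℝ)) ^ (K₂ + K)) := by
  classical
  have hne := ne_of_dens hB
  have e : (r+1) * M = r * M + M := by ring
  unfold costG2
  rw [EE_sum]
  apply Finset.sum_le_sum
  intro W hW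
  rw [Finset.mem_filter] at hW
  rw [EE_past hne (a := r * M) (by omega) (fr_dep c W r (fun a => (p:ℝ) ^ a - 1))]
  refine (expA2 Al hB h8 c hc K hK hKm W r (by omega) ω₀).trans (le_of_eq ?_)
  congr 2
  omega

end Exps

end Pool.Agent.H470D4
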